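import Mathlib

set_option autoImplicit false

open Polynomial Finset

namespace Pool.Agent.MP2f3d29

/-- A filtration of a ring by additive subgroups, compatible with multiplication. -/
structure IsFilt {R : Type*} [CommRing R] (S : ℕ → AddSubgroup R) : Prop where
  one : (1 : R) ∈ S 0
  mul : ∀ a b x y, x ∈ S a → y ∈ S b → x * y ∈ S (a + b)

/-- A filtered ideal over a filtration. -/
def IsFiltIdeal {R : Type*} [CommRing R] (S L : ℕ → AddSubgroup R) : Prop :=
  ∀ a b x y, x ∈ S a → y ∈ L b → x * y ∈ L (a + b)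

/-- Filtered polynomial of degree `d`. -/
def PF {R : Type*} [CommRing R] (S : ℕ → AddSubgroup R) (d : ℕ) (P : R[X]) : Prop :=
  ∀ i, i ≤ d → P.coeff i ∈ S (d - i)

variable {R : Type*} [CommRing R]

/-- The ideal `c · S` shifted by `k`. -/
noncomputable def shL (S L : ℕ → AddSubgroup R) (c : R) (k : ℕ) (d : ℕ) : AddSubgroup R :=
  L d ⊔ (if k ≤ d then (S (d - k)).map (AddMonoidHom.mulLeft c) else ⊥)

theorem mem_shL {S L : ℕ → AddSubgroup R} {c : R} {k d : ℕ} {y : R} :
    y ∈ shL S L c k d ↔ ∃ u ∈ L d, ∃ v : R, ((k ≤ d ∧ v ∈ S (d - k)) ∨ v = 0) ∧ y = u + c * v := by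
  unfold shL
  rw [AddSubgroup.mem_sup]
  constructor
  · rintro ⟨u, hu, z, hz, rfl⟩
    by_cases h : k ≤ d
    · rw [if_pos h] at hz
      obtain ⟨v, hv, rfl⟩ := hz
      exact ⟨u, hu, v, Or.inl ⟨h, hv⟩, rfl⟩
    · rw [if_neg h] at hz
      rw [AddSubgroup.mem_bot] at hz
      exact ⟨u, hu, 0, Or.inr rfl, by simp [hz]⟩
  · rintro ⟨u, hu, v, hv, rfl⟩
    refine ⟨u, hu, c * v, ?_, rfl⟩
    rcases hv with ⟨h, hv⟩ | rfl
    · rw [if_pos h]; exact ⟨v, hv, rfl⟩
    · simp

theorem shL_ideal {S L : ℕ → AddSubgroup R} (hS : IsFilt S) (hL : IsFiltIdeal S L)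
    (c : R) (k : ℕ) : IsFiltIdeal S (shL S L c k) := by
  intro a b x y hx hy
  rw [mem_shL] at hy ⊢
  obtain ⟨u, hu, v, hv, rfl⟩ := hy
  refine ⟨x * u, hL _ _ _ _ hx hu, x * v, ?_, by ring⟩
  rcases hv with ⟨h, hv⟩ | rfl
  · left
    refine ⟨by omega, ?_⟩
    have := hS.mul _ _ _ _ hx hv
    have e : a + b - k = a + (b - k) := by omega
    rw [e]; exact this
  · right; simp

theorem le_shL {S L : ℕ → AddSubgroup R} (c : R) (k d : ℕ) {y : R} (hy : y ∈ L d) :
    y ∈ shL S L c k d := mem_shL.2 ⟨y, hy, 0, Or.inr rfl, by simp⟩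

theorem mul_mem_shL {S L : ℕ → AddSubgroup R} {c : R} {k d : ℕ} (h : k ≤ d) {v : R}
    (hv : v ∈ S (d - k)) : c * v ∈ shL S L c k d :=
  mem_shL.2 ⟨0, (L d).zero_mem, v, Or.inl ⟨h, hv⟩, by simp⟩

theorem pow_mem_filt {S : ℕ → AddSubgroup R} (hS : IsFilt S) {a : R} (ha : a ∈ S 1) (i : ℕ) :
    a ^ i ∈ S i := by
  induction i with
  | zero => simpa using hS.one
  | succ i ih => rw [pow_succ]; exact hS.mul _ _ _ _ ih ha

theorem prod_mem_filt {ι : Type*} {S : ℕ → AddSubgroup R} (hS : IsFilt S) (s : Finset ι)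
    (f : ι → R) (hf : ∀ i ∈ s, f i ∈ S 1) : ∏ i ∈ s, f i ∈ S s.card := by
  classical
  induction s using Finset.induction_on with
  | empty => simpa using hS.one
  | insert a s ha ih =>
    rw [Finset.prod_insert ha, Finset.card_insert_of_notMem ha, add_comm]
    exact hS.mul _ _ _ _ (hf a (by simp)) (ih fun i hi => hf i (by simp [hi]))

theorem eval_mem_filt {S : ℕ → AddSubgroup R} (hS : IsFilt S) {a : R} (ha : a ∈ S 1)
    {d : ℕ} {P : R[X]} (hd : P.natDegree ≤ d) (hP : PF S d P) : P.eval a ∈ S d := by
  rw [Polynomial.eval_eq_sum_range' (Nat.lt_succ_of_le hd)]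
  refine (S d).sum_mem fun i hi => ?_
  have hi' : i ≤ d := by simpa [Nat.lt_succ_iff] using hi
  have := hS.mul _ _ _ _ (hP i hi') (pow_mem_filt hS ha i)
  have e : d - i + i = d := by omega
  rwa [e] at this

/-- the same for filtered ideals -/
theorem eval_mem_ideal {S L : ℕ → AddSubgroup R} (hS : IsFilt S) (hL : IsFiltIdeal S L)
    {a : R} (ha : a ∈ S 1)
    {d : ℕ} {P : R[X]} (hd : P.natDegree ≤ d) (hP : ∀ i, i ≤ d → P.coeff i ∈ L (d - i)) :
    P.eval a ∈ L d := by
  rw [Polynomial.eval_eq_sum_range' (Nat.lt_succ_of_le hd)]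
  refine (L d).sum_mem fun i hi => ?_
  have hi' : i ≤ d := by simpa [Nat.lt_succ_iff] using hi
  have := hL _ _ _ _ (pow_mem_filt hS ha i) (hP i hi')
  have e : i + (d - i) = d := by omega
  rw [e] at this
  rwa [mul_comm]

theorem divX_spec (P : R[X]) (a : R) :
    (X - C a) * (P /ₘ (X - C a)) = P - C (P.eval a) := by
  rw [Polynomial.X_sub_C_mul_divByMonic_eq_sub_modByMonic, Polynomial.modByMonic_X_sub_C_eq_C_eval]

theorem divX_monic {P : R[X]} {m : ℕ} (hP : P.Monic) (hd : P.natDegree = m + 1) (a : R) :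
    (P /ₘ (X - C a)).Monic ∧ (P /ₘ (X - C a)).natDegree = m := by
  have h1 : (P /ₘ (X - C a)).natDegree = m := by
    rw [Polynomial.natDegree_divByMonic _ (monic_X_sub_C a)]
    rcases subsingleton_or_nontrivial R with h | h
    · rw [Polynomial.natDegree_of_subsingleton] at hd; omega
    · rw [natDegree_X_sub_C, hd]; rfl
  refine ⟨?_, h1⟩
  unfold Polynomial.Monic Polynomial.leadingCoeff
  rw [h1, Polynomial.coeff_divByMonic_X_sub_C, hd]
  simp only [Finset.Icc_self, Finset.sum_singleton]
  have : P.coeff (m + 1) = 1 := by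
    have := hP.coeff_natDegree; rwa [hd] at this
  simp [this]

theorem divX_PF {S : ℕ → AddSubgroup R} (hS : IsFilt S) {P : R[X]} {m : ℕ}
    (hd : P.natDegree = m + 1) (hP : PF S (m + 1) P) {a : R} (ha : a ∈ S 1) :
    PF S m (P /ₘ (X - C a)) := by
  intro i hi
  rw [Polynomial.coeff_divByMonic_X_sub_C, hd]
  refine AddSubgroup.sum_mem _ fun j hj => ?_
  rw [Finset.mem_Icc] at hj
  have := hS.mul _ _ _ _ (pow_mem_filt hS ha (j - (i + 1))) (hP j hj.2)
  have e : j - (i + 1) + (m + 1 - j) = m - i := by omega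
  rwa [e] at this

/-- The filtered ring lemma. -/
theorem ring_lemma {ι : Type*} [DecidableEq ι] {S : ℕ → AddSubgroup R} (hS : IsFilt S)
    (α : ι → R) (s : Finset ι) :
    ∀ (hα : ∀ i ∈ s, α i ∈ S 1) (L : ℕ → AddSubgroup R) (hL : IsFiltIdeal S L)
      (A B : R[X]) (m l : ℕ), A.Monic → B.Monic → A.natDegree = m → B.natDegree = l →
      m + l = s.card → PF S m A → PF S l B →
      (∀ i, i < s.card → (A * B - ∏ j ∈ s, (X - C (α j))).coeff i ∈ L (s.card - i)) →
      ∏ J ∈ s.powersetCard m, (- A.nextCoeff - ∑ j ∈ J, α j) ∈ L (s.card.choose m) := by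
  classical
  induction s using Finset.induction_on with
  | empty =>
    intro hα L hL A B m l hA hB hAm hBl hml hPA hPB hG
    have hm : m = 0 := by simp at hml; omega
    subst hm
    have : A = 1 := by
      rwa [Polynomial.Monic.natDegree_eq_zero hA] at hAm
    subst this
    have h0 : (1 : R[X]).nextCoeff = 0 := by
      simp [Polynomial.nextCoeff]
    simp [h0, (L 1).zero_mem]
  | insert x s hx ih =>
    intro hα L hL A B m l hA hB hAm hBl hml hPA hPB hG
    rw [Finset.card_insert_of_notMem hx] at hml hG ⊢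
    set n' := s.card with hn'
    rcases Nat.eq_zero_or_pos m with hm0 | hmpos
    · subst hm0
      have : A = 1 := by rwa [Polynomial.Monic.natDegree_eq_zero hA] at hAm
      subst this
      have h0 : (1 : R[X]).nextCoeff = 0 := by simp [Polynomial.nextCoeff]
      simp [h0, (L 1).zero_mem]
    -- nextCoeff membership
    have hnext : A.nextCoeff ∈ S 1 := by
      rw [Polynomial.nextCoeff_of_natDegree_pos (by omega), hAm]
      have := hPA (m - 1) (by omega)
      have e : m - (m - 1) = 1 := by omega
      rwa [e] at this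
    have hfac : ∀ J : Finset ι, J ⊆ insert x s → (- A.nextCoeff - ∑ j ∈ J, α j) ∈ S 1 := by
      intro J hJ
      exact (S 1).sub_mem ((S 1).neg_mem hnext) ((S 1).sum_mem fun j hj => hα j (hJ hj))
    have hdegG : ∀ i, n' + 1 ≤ i → (A * B - ∏ j ∈ insert x s, (X - C (α j))).coeff i = 0 := by
      intro i hi
      have hmon : (∏ j ∈ insert x s, (X - C (α j))).Monic := monic_prod_X_sub_C _ _
      nontriviality R
      have hd2 : (∏ j ∈ insert x s, (X - C (α j))).natDegree = n' + 1 := by
        rw [natDegree_prod_of_monic _ _ (fun i _ => monic_X_sub_C _)]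
        simp [Finset.card_insert_of_notMem hx, hn']
      have hd1 : (A * B).natDegree = n' + 1 := by
        rw [hA.natDegree_mul hB, hAm, hBl, hml]
      rcases Nat.eq_or_lt_of_le hi with h | h
      · have e1 := (hA.mul hB).coeff_natDegree
        have e2 := hmon.coeff_natDegree
        rw [hd1] at e1; rw [hd2] at e2
        rw [coeff_sub, ← h, e1, e2, sub_self]
      · rw [coeff_sub, coeff_eq_zero_of_natDegree_lt (by omega),
          coeff_eq_zero_of_natDegree_lt (by omega), sub_self]
    rcases Nat.eq_zero_or_pos l with hl0 | hlpos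
    · -- B = 1
      subst hl0
      have hB1 : B = 1 := by rwa [Polynomial.Monic.natDegree_eq_zero hB] at hBl
      subst hB1
      have hm : m = n' + 1 := by omega
      subst hm
      have hc : (insert x s).card = n' + 1 := by rw [Finset.card_insert_of_notMem hx]
      rw [← hc, Finset.powersetCard_self, Finset.prod_singleton, hc, Nat.choose_self]
      have h1 := hG n' (by omega)
      have e : n' + 1 - n' = 1 := by omega
      rw [e, mul_one, coeff_sub] at h1
      have e2 : A.nextCoeff = A.coeff n' := by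
        rw [Polynomial.nextCoeff_of_natDegree_pos (by omega), hAm]; rfl
      have e3 : (∏ j ∈ insert x s, (X - C (α j))).coeff n' = - ∑ j ∈ insert x s, α j := by
        nontriviality R
        rw [← Polynomial.prod_X_sub_C_nextCoeff]
        have hd2 : (∏ j ∈ insert x s, (X - C (α j))).natDegree = n' + 1 := by
          rw [natDegree_prod_of_monic _ _ (fun i _ => monic_X_sub_C _)]
          simp [Finset.card_insert_of_notMem hx, hn']
        rw [Polynomial.nextCoeff_of_natDegree_pos (by omega), hd2]; rfl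
      rw [e3] at h1
      rw [e2]
      have := (L 1).neg_mem h1
      have e4 : -(A.coeff n' - -∑ j ∈ insert x s, α j) = -A.coeff n' - ∑ j ∈ insert x s, α j := by
        ring
      rwa [e4] at this
    -- main case
    obtain ⟨m', rfl⟩ : ∃ m', m = m' + 1 := ⟨m - 1, by omega⟩
    obtain ⟨l', rfl⟩ : ∃ l', l = l' + 1 := ⟨l - 1, by omega⟩
    set a := α x with ha
    have haS : a ∈ S 1 := hα x (by simp)
    set cA := A.eval a with hcA
    set cB := B.eval a with hcB
    have hcAS : cA ∈ S (m' + 1) := eval_mem_filt hS haS hAm.le hPA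
    have hcBS : cB ∈ S (l' + 1) := eval_mem_filt hS haS hBl.le hPB
    set G := A * B - ∏ j ∈ insert x s, (X - C (α j)) with hGdef
    have hGdeg : G.natDegree ≤ n' := by
      rw [Polynomial.natDegree_le_iff_coeff_eq_zero]
      intro i hi
      exact hdegG i (by omega)
    have hcAB : cA * cB ∈ L (n' + 1) := by
      have e : cA * cB = G.eval a := by
        rw [hGdef, eval_sub, eval_mul, Finset.prod_insert hx, eval_mul, hcA, hcB]
        simp [ha]
      rw [e]
      refine eval_mem_ideal hS hL haS (hGdeg.trans (by omega)) fun i hi => ?_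
      rcases Nat.eq_or_lt_of_le hi with h | h
      · rw [h, hdegG (n' + 1) le_rfl]; exact AddSubgroup.zero_mem _
      · exact hG i h
    have hP2deg : (∏ j ∈ insert x s, (X - C (α j))) = (X - C a) * ∏ j ∈ s, (X - C (α j)) := by
      rw [Finset.prod_insert hx]
    -- general division statement
    have hdiv : ∀ (P Q : R[X]) (c : R) (k : ℕ) (K : R[X]),
        (X - C a) * (P * Q - ∏ j ∈ s, (X - C (α j))) = G - C c * K → 1 ≤ k →
        k + K.natDegree ≤ n' + 1 → PF S (n' + 1 - k) K →
        ∀ j, j < n' → (P * Q - ∏ j ∈ s, (X - C (α j))).coeff j ∈ shL S L c k (n' - j) := by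
      intro P Q c k K hK hk1 hk hPF j hj
      have e1 : (P * Q - ∏ j ∈ s, (X - C (α j))) = (G - C c * K) /ₘ (X - C a) := by
        rw [← hK, Polynomial.mul_divByMonic_cancel_left _ (monic_X_sub_C a)]
      rw [e1, Polynomial.coeff_divByMonic_X_sub_C]
      refine AddSubgroup.sum_mem _ fun i hi => ?_
      rw [Finset.mem_Icc] at hi
      have hideal := shL_ideal hS hL c k
      have hdd : (G - C c * K).natDegree ≤ n' := by
        refine (natDegree_sub_le _ _).trans (max_le hGdeg ?_)
        refine (natDegree_C_mul_le _ _).trans (by omega)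
      have hi2 : i ≤ n' := hi.2.trans hdd
      have hmem : (G - C c * K).coeff i ∈ shL S L c k (n' + 1 - i) := by
        rw [coeff_sub, coeff_C_mul]
        refine AddSubgroup.sub_mem _ (le_shL _ _ _ (hG i (by omega))) ?_
        by_cases hik : i ≤ n' + 1 - k
        · refine mul_mem_shL (by omega) ?_
          have := hPF i hik
          have e : n' + 1 - k - i = n' + 1 - i - k := by omega
          rwa [e] at this
        · rw [coeff_eq_zero_of_natDegree_lt (by omega), mul_zero]
          exact AddSubgroup.zero_mem _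
      have := hideal _ _ _ _ (pow_mem_filt hS haS (i - (j + 1))) hmem
      have e : i - (j + 1) + (n' + 1 - i) = n' - j := by omega
      rwa [e] at this
    -- Claim 1
    have claim1 : ∏ J ∈ s.powersetCard m', (- A.nextCoeff - ∑ j ∈ insert x J, α j) ∈
        shL S L cA (m' + 1) (n'.choose m') := by
      rcases Nat.eq_zero_or_pos m' with h0 | h0
      · subst h0
        have hA1 : A.nextCoeff = A.coeff 0 := by
          rw [Polynomial.nextCoeff_of_natDegree_pos (by omega), hAm]
        have e : cA = a + A.coeff 0 := by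
          rw [hcA, Polynomial.eval_eq_sum_range, hAm]
          have h1 : A.coeff 1 = 1 := by
            have := hA.coeff_natDegree; rwa [hAm] at this
          simp [Finset.sum_range_succ, h1]
          ring
        simp only [Finset.powersetCard_zero, Finset.prod_singleton, Nat.choose_zero_right]
        have e2 : - A.nextCoeff - ∑ j ∈ insert x ∅, α j = cA * (-1) := by
          simp [hA1, e, ha]; ring
        rw [e2]
        refine mul_mem_shL (by omega) ?_
        exact AddSubgroup.neg_mem _ hS.one
      · obtain ⟨hA'm, hA'd⟩ := divX_monic hA hAm a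
        have key := ih (fun i hi => hα i (by simp [hi])) (shL S L cA (m' + 1))
          (shL_ideal hS hL _ _) (A /ₘ (X - C a)) B m' (l' + 1) hA'm hB hA'd hBl (by omega)
          (divX_PF hS hAm hPA haS) hPB
          (hdiv _ _ cA (m' + 1) B (by
            rw [mul_sub, ← mul_assoc, divX_spec, hGdef, hP2deg, hcA]; ring)
            (by omega) (by omega) (by
              have e : n' + 1 - (m' + 1) = l' + 1 := by omega
              rw [e]; exact hPB))
        have hnc : (A /ₘ (X - C a)).nextCoeff = A.nextCoeff + a := by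
          rw [Polynomial.nextCoeff_of_natDegree_pos (by omega : 0 < A.natDegree),
            Polynomial.nextCoeff_of_natDegree_pos (by omega), hA'd, hAm]
          have hspec := divX_spec A a
          have h1 := congrArg (fun P => Polynomial.coeff P m') hspec
          obtain ⟨m'', rfl⟩ : ∃ m'', m' = m'' + 1 := ⟨m' - 1, by omega⟩
          simp only [sub_mul, coeff_sub, coeff_X_mul, coeff_C_mul, coeff_C_succ, sub_zero] at h1
          have hlead : (A /ₘ (X - C a)).coeff (m'' + 1) = 1 := by
            have := hA'm.coeff_natDegree; rwa [hA'd] at this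
          rw [hlead, mul_one] at h1
          simp only [Nat.add_sub_cancel]
          rw [← h1]; ring
        have : ∏ J ∈ s.powersetCard m', (- A.nextCoeff - ∑ j ∈ insert x J, α j) =
            ∏ J ∈ s.powersetCard m', (- (A /ₘ (X - C a)).nextCoeff - ∑ j ∈ J, α j) := by
          refine Finset.prod_congr rfl fun J hJ => ?_
          have hxJ : x ∉ J := fun h => hx ((Finset.mem_powersetCard.1 hJ).1 h)
          rw [Finset.sum_insert hxJ, hnc]; ring
        rw [this]; exact key
    -- Claim 2
    have claim2 : ∏ J ∈ s.powersetCard (m' + 1), (- A.nextCoeff - ∑ j ∈ J, α j) ∈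
        shL S L cB (l' + 1) (n'.choose (m' + 1)) := by
      obtain ⟨hB'm, hB'd⟩ := divX_monic hB hBl a
      exact ih (fun i hi => hα i (by simp [hi])) (shL S L cB (l' + 1))
          (shL_ideal hS hL _ _) A (B /ₘ (X - C a)) (m' + 1) l' hA hB'm hAm hB'd (by omega)
          hPA (divX_PF hS hBl hPB haS)
          (hdiv _ _ cB (l' + 1) A (by
            have e : (X - C a) * (A * (B /ₘ (X - C a)) - ∏ j ∈ s, (X - C (α j))) =
              A * ((X - C a) * (B /ₘ (X - C a))) - (X - C a) * ∏ j ∈ s, (X - C (α j)) := by ring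
            rw [e, divX_spec, hGdef, hP2deg, hcB]; ring)
            (by omega) (by omega) (by
              have e : n' + 1 - (l' + 1) = m' + 1 := by omega
              rw [e]; exact hPA))
    -- combine
    rw [Finset.powersetCard_succ_insert hx, Finset.prod_union, Finset.prod_image]
    · obtain ⟨u1, hu1, v1, hv1, e1⟩ := mem_shL.1 claim1
      obtain ⟨u2, hu2, v2, hv2, e2⟩ := mem_shL.1 claim2
      have hP2S : ∏ J ∈ s.powersetCard (m' + 1), (- A.nextCoeff - ∑ j ∈ J, α j) ∈
          S (n'.choose (m' + 1)) := by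
        have := prod_mem_filt hS (s.powersetCard (m' + 1))
          (fun J => (- A.nextCoeff - ∑ j ∈ J, α j)) (fun J hJ => hfac J
            ((Finset.mem_powersetCard.1 hJ).1.trans (Finset.subset_insert _ _)))
        rwa [Finset.card_powersetCard] at this
      have hch : (n' + 1).choose (m' + 1) = n'.choose m' + n'.choose (m' + 1) :=
        Nat.choose_succ_succ _ _
      rw [hch]
      have expand : (∏ J ∈ s.powersetCard (m' + 1), (- A.nextCoeff - ∑ j ∈ J, α j)) *
          (∏ J ∈ s.powersetCard m', (- A.nextCoeff - ∑ j ∈ insert x J, α j)) =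
          (∏ J ∈ s.powersetCard (m' + 1), (- A.nextCoeff - ∑ j ∈ J, α j)) * u1
          + (cA * v1) * u2 + (v1 * v2) * (cA * cB) := by
        rw [e1]
        conv_lhs => rw [mul_add]
        rw [e2]; ring
      rw [expand]
      have hm1 : (cA * v1) ∈ S (n'.choose m') := by
        rcases hv1 with ⟨h, hv1⟩ | rfl
        · have := hS.mul _ _ _ _ hcAS hv1
          have e : m' + 1 + (n'.choose m' - (m' + 1)) = n'.choose m' := by omega
          rwa [e] at this
        · rw [mul_zero]; exact AddSubgroup.zero_mem _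
      refine AddSubgroup.add_mem _ (AddSubgroup.add_mem _ ?_ ?_) ?_
      · have := hL _ _ _ _ hP2S hu1
        rwa [add_comm] at this
      · exact hL _ _ _ _ hm1 hu2
      · rcases hv1 with ⟨h1, hv1⟩ | rfl
        · rcases hv2 with ⟨h2, hv2⟩ | rfl
          · have := hL _ _ _ _ (hS.mul _ _ _ _ hv1 hv2) hcAB
            have e : n'.choose m' - (m' + 1) + (n'.choose (m' + 1) - (l' + 1)) + (n' + 1) =
              n'.choose m' + n'.choose (m' + 1) := by omega
            rwa [e] at this
          · simp
        · simp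
    · intro J1 h1 J2 h2 h
      have hx1 : x ∉ J1 := fun h => hx ((Finset.mem_powersetCard.1 h1).1 h)
      have hx2 : x ∉ J2 := fun h => hx ((Finset.mem_powersetCard.1 h2).1 h)
      rw [← Finset.erase_insert hx1, ← Finset.erase_insert hx2, h]
    · rw [Finset.disjoint_left]
      intro J hJ hJ'
      obtain ⟨J', _, rfl⟩ := Finset.mem_image.1 hJ'
      exact hx ((Finset.mem_powersetCard.1 hJ).1 (Finset.mem_insert_self _ _))

end Pool.Agent.MP2f3d29
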