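import Mathlib

set_option autoImplicit false

open Polynomial Finset

namespace Pool.Agent.MP2f3d29

section Toda
variable {R : Type*} [Ring R]

/-- Commutation relations of the (difference) Toda generators. -/
structure TodaRel (p x : ℕ → R) : Prop where
  pp : ∀ i j, p i * p j = p j * p i
  xx : ∀ i j, x i * x j = x j * x i
  px : ∀ i j, i ≠ j → i ≠ j + 1 → p i * x j = x j * p i
  xp : ∀ i, x i * p i = p i * x i + x i
  xp' : ∀ i, x i * p (i+1) = p (i+1) * x i - x i

/-- The continuants, as polynomials with noncommuting coefficients. -/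
noncomputable def kp (p x : ℕ → R) : ℕ → R[X]
  | 0 => 1
  | 1 => X - C (p 0)
  | k+2 => (X - C (p (k+1))) * kp p x (k+1) + C (x k) * kp p x k

theorem kp_zero (p x : ℕ → R) : kp p x 0 = 1 := rfl
theorem kp_one (p x : ℕ → R) : kp p x 1 = X - C (p 0) := rfl
theorem kp_succ (p x : ℕ → R) (k : ℕ) : kp p x (k+2) =
    (X - C (p (k+1))) * kp p x (k+1) + C (x k) * kp p x k := rfl

theorem coeff_X_sub_C_mul (a : R) (P : R[X]) (i : ℕ) :
    ((X - C a) * P).coeff i = (X * P).coeff i - a * P.coeff i := by
  rw [sub_mul, coeff_sub, coeff_C_mul]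

theorem comm_X_mul {y : R} {P : R[X]} (h : ∀ i, y * P.coeff i = P.coeff i * y) (i : ℕ) :
    y * (X * P).coeff i = (X * P).coeff i * y := by
  cases i with
  | zero => simp
  | succ i => rw [coeff_X_mul]; exact h i

/-- If `y` commutes with the generators then it commutes with the coefficients. -/
theorem kp_comm {p x : ℕ → R} {y : R} (k : ℕ) : (∀ i, i < k → y * p i = p i * y) →
    (∀ i, i + 1 < k → y * x i = x i * y) →
    ∀ i, y * (kp p x k).coeff i = (kp p x k).coeff i * y := by
  induction k using Nat.twoStepInduction with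
  | zero =>
    intro _ _ i
    simp only [kp_zero, coeff_one]; split_ifs <;> simp
  | one =>
    intro hp _ i
    simp only [kp_one, coeff_sub]
    rw [mul_sub, sub_mul]
    congr 1
    · simp only [coeff_X]; split_ifs <;> simp
    · simp only [coeff_C]; split_ifs
      · exact hp 0 (by omega)
      · simp
  | more k ih1 ih2 =>
    intro hp hx i
    have h1 := ih1 (fun i hi => hp i (by omega)) (fun i hi => hx i (by omega))
    have h2 := ih2 (fun i hi => hp i (by omega)) (fun i hi => hx i (by omega))
    have e1 : y * (p (k+1) * (kp p x (k+1)).coeff i) = p (k+1) * (kp p x (k+1)).coeff i * y := by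
      rw [← mul_assoc, hp (k+1) (by omega), mul_assoc, h2 i, mul_assoc]
    have e2 : y * (x k * (kp p x k).coeff i) = x k * (kp p x k).coeff i * y := by
      rw [← mul_assoc, hx k (by omega), mul_assoc, h1 i, mul_assoc]
    rw [kp_succ, coeff_add, coeff_X_sub_C_mul, coeff_C_mul, mul_add, add_mul, mul_sub, sub_mul,
      comm_X_mul h2, e1, e2]

theorem kp_natDegree [Nontrivial R] (p x : ℕ → R) (k : ℕ) :
    (kp p x k).Monic ∧ (kp p x k).natDegree = k := by
  induction k using Nat.twoStepInduction with
  | zero => simp [kp_zero]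
  | one => simp [kp_one, monic_X_sub_C]
  | more k ih1 ih2 =>
    rw [kp_succ]
    have hm : ((X - C (p (k+1))) * kp p x (k+1)).Monic := (monic_X_sub_C _).mul ih2.1
    have hd : ((X - C (p (k+1))) * kp p x (k+1)).natDegree = k + 2 := by
      rw [(monic_X_sub_C _).natDegree_mul ih2.1, natDegree_X_sub_C, ih2.2]; omega
    have hlt : (C (x k) * kp p x k).natDegree < ((X - C (p (k+1))) * kp p x (k+1)).natDegree := by
      rw [hd]
      exact (natDegree_C_mul_le _ _).trans_lt (by rw [ih1.2]; omega)
    have hdeg : (C (x k) * kp p x k).degree < ((X - C (p (k+1))) * kp p x (k+1)).degree :=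
      degree_lt_degree hlt
    refine ⟨hm.add_of_left hdeg, ?_⟩
    rw [natDegree_add_eq_left_of_natDegree_lt hlt, hd]

/-- coefficient `k-1` of `K_k` -/
theorem kp_nextCoeff [Nontrivial R] (p x : ℕ → R) (k : ℕ) :
    (kp p x (k+1)).coeff k = - ∑ i ∈ range (k+1), p i := by
  induction k with
  | zero => simp [kp_one]
  | succ k ih =>
    rw [kp_succ, coeff_add, coeff_X_sub_C_mul, coeff_X_mul, ih, coeff_C_mul]
    have h1 : (kp p x (k+1)).coeff (k+1) = 1 := by
      have := (kp_natDegree p x (k+1))
      have h := this.1.coeff_natDegree; rwa [this.2] at h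
    have h2 : (kp p x k).coeff (k+1) = 0 := by
      apply coeff_eq_zero_of_natDegree_lt
      rw [(kp_natDegree p x k).2]; omega
    rw [h1, h2, Finset.sum_range_succ _ (k+1)]
    simp
    abel

/-- the splitting identity of continuants -/
theorem kp_split (p x : ℕ → R) (m : ℕ) : ∀ l : ℕ,
    kp p x (m + 1 + (l + 1)) =
      kp (fun i => p (m + 1 + i)) (fun i => x (m + 1 + i)) (l+1) * kp p x (m + 1) +
      kp (fun i => p (m + 2 + i)) (fun i => x (m + 2 + i)) l * (C (x m) * kp p x m) := by
  intro l
  induction l using Nat.twoStepInduction with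
  | zero =>
    rw [zero_add, kp_one, kp_zero]
    show kp p x (m+2) = _
    rw [kp_succ]; simp
  | one =>
    have e1 := kp_succ (fun i => p (m + 1 + i)) (fun i => x (m + 1 + i)) 0
    have e2 := kp_succ p x (m+1)
    have e3 := kp_succ p x m
    rw [kp_one (fun i => p (m+2+i))]
    rw [show (1:ℕ) + 1 = 0 + 2 from rfl, e1]
    show kp p x (m+1+2) = _
    rw [e2, show m + 1 + 1 = m + 2 from rfl, e3]
    rw [show (0:ℕ)+1 = 1 from rfl, kp_one, kp_zero]
    simp only [add_zero, mul_add, add_mul, mul_one]
    rw [show m + 1 + 1 = m + 2 from rfl]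
    simp only [mul_assoc]
    abel
  | more l ih1 ih2 =>
    have e1 := kp_succ (fun i => p (m + 1 + i)) (fun i => x (m + 1 + i)) (l+1)
    have e2 := kp_succ (fun i => p (m + 2 + i)) (fun i => x (m + 2 + i)) l
    have e3 := kp_succ p x (m + 1 + (l+1))
    rw [show (l + 1 + 1 + 1 : ℕ) = (l + 1) + 2 from rfl, e1,
      show m + 1 + (l + 1 + 2) = m + 1 + (l + 1) + 2 from rfl, e3,
      show m + 1 + (l + 1) + 1 = m + 1 + (l + 1 + 1) from rfl, ih2, ih1, e2]
    have h1 : m + 2 + (l + 1) = m + 1 + (l + 1 + 1) := by omega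
    have h2 : m + 2 + l = m + 1 + (l + 1) := by omega
    rw [h1, h2]
    simp only [mul_add, add_mul, mul_assoc]
    abel

end Toda

section Comm
variable {R : Type*} [Ring R] [Algebra ℂ R]

/-- evaluation of the continuants at a scalar -/
noncomputable def ka (p x : ℕ → R) (z : ℂ) : ℕ → R
  | 0 => 1
  | 1 => z • (1 : R) - p 0
  | k+2 => (z • (1 : R) - p (k+1)) * ka p x z (k+1) + x k * ka p x z k

theorem ka_succ (p x : ℕ → R) (z : ℂ) (k : ℕ) : ka p x z (k+2) =
    (z • (1 : R) - p (k+1)) * ka p x z (k+1) + x k * ka p x z k := rfl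

theorem ka_comm {p x : ℕ → R} {y : R} (z : ℂ) (k : ℕ) : (∀ i, i < k → y * p i = p i * y) →
    (∀ i, i + 1 < k → y * x i = x i * y) →
    y * ka p x z k = ka p x z k * y := by
  induction k using Nat.twoStepInduction with
  | zero => intro _ _; simp [ka]
  | one =>
    intro hp _
    simp only [ka, mul_sub, sub_mul, mul_smul_comm, smul_mul_assoc, one_mul, mul_one]
    rw [hp 0 (by omega)]
  | more k ih1 ih2 =>
    intro hp hx
    have h1 := ih1 (fun i hi => hp i (by omega)) (fun i hi => hx i (by omega))
    have h2 := ih2 (fun i hi => hp i (by omega)) (fun i hi => hx i (by omega))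
    rw [ka_succ, mul_add, add_mul, ← mul_assoc, ← mul_assoc, mul_assoc _ _ y, mul_assoc _ _ y,
      ← h1, ← h2, ← mul_assoc, ← mul_assoc, hx k (by omega)]
    congr 2
    simp only [mul_sub, sub_mul, mul_smul_comm, smul_mul_assoc, one_mul, mul_one]
    rw [hp (k+1) (by omega)]

/-- The induction step for the commutation relations, abstractly. -/
theorem comm_step {a b : ℂ → R} {p x : R} (haa : ∀ z w, a z * a w = a w * a z)
    (hbb : ∀ z w, b z * b w = b w * b z) (hpa : ∀ z, p * a z = a z * p)
    (hbp : ∀ z, b z * p = p * b z - b z) (hxa : ∀ z, x * a z = a z * x)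
    (hxb : ∀ z, x * b z = b z * x) (hxp : x * p = p * x + x)
    (hC : ∀ z w, (z - w) • (a z * b w - b w * a z) = -(b z * a w - b w * a z)) :
    (∀ z w, ((z • (1 : R) - p) * a z + b z) * ((w • (1 : R) - p) * a w + b w) =
      ((w • (1 : R) - p) * a w + b w) * ((z • (1 : R) - p) * a z + b z)) ∧
    (∀ z w, (z - w) • (((z • (1 : R) - p) * a z + b z) * (x * a w) -
        (x * a w) * ((z • (1 : R) - p) * a z + b z)) =
      -((x * a z) * ((w • (1 : R) - p) * a w + b w) -
        (x * a w) * ((z • (1 : R) - p) * a z + b z))) := by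
  have hsym : ∀ z w, a z * b w - b w * a z = a w * b z - b z * a w := by
    intro z w
    by_cases hzw : z = w
    · rw [hzw]
    · have h1 := hC z w
      have h2 := hC w z
      have h3 : (z - w) • (a z * b w - b w * a z) = (z - w) • (a w * b z - b z * a w) := by
        rw [h1]
        have : (z - w) • (a w * b z - b z * a w) = -((w - z) • (a w * b z - b z * a w)) := by
          rw [← neg_smul]; congr 1; ring
        rw [this, h2]; abel
      exact smul_right_injective R (sub_ne_zero.2 hzw) h3
  constructor
  · intro z w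
    set Z := (z • (1 : R) - p) with hZ
    set W := (w • (1 : R) - p) with hW
    have hZW : Z * W = W * Z := by
      simp only [hZ, hW, mul_sub, sub_mul, smul_mul_assoc, mul_smul_comm, one_mul, mul_one, smul_sub,
        smul_smul]
      rw [mul_comm z w]; abel
    have hcomm : ∀ u v : ℂ, a v * (u • (1 : R) - p) = (u • (1 : R) - p) * a v := by
      intro u v
      simp only [mul_sub, sub_mul, smul_mul_assoc, mul_smul_comm, one_mul, mul_one, hpa]
    have hb : ∀ u v : ℂ, b v * (u • (1 : R) - p) = (u • (1 : R) - p) * b v + b v := by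
      intro u v
      simp only [mul_sub, sub_mul, smul_mul_assoc, mul_smul_comm, one_mul, mul_one, hbp]
      abel
    have E : ∀ u v : ℂ, ((u • (1 : R) - p) * a u + b u) * ((v • (1 : R) - p) * a v + b v) =
        (u • (1 : R) - p) * (v • (1 : R) - p) * (a u * a v) + (u • (1 : R) - p) * (a u * b v) +
        (v • (1 : R) - p) * (b u * a v) + b u * a v + b u * b v := by
      intro u v
      have e1 : (u • (1 : R) - p) * a u * ((v • (1 : R) - p) * a v) =
          (u • (1 : R) - p) * (v • (1 : R) - p) * (a u * a v) := by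
        rw [mul_assoc, ← mul_assoc (a u), hcomm v u]; simp only [mul_assoc]
      have e2 : b u * ((v • (1 : R) - p) * a v) = (v • (1 : R) - p) * (b u * a v) + b u * a v := by
        rw [← mul_assoc, hb v u, add_mul, mul_assoc]
      rw [add_mul, mul_add, mul_add, e1, e2, mul_assoc (u • (1 : R) - p) (a u) (b v)]
      abel
    rw [E z w, E w z, ← hZ, ← hW]
    rw [← sub_eq_zero]
    have key : Z * W * (a z * a w) + Z * (a z * b w) + W * (b z * a w) + b z * a w + b z * b w -
        (W * Z * (a w * a z) + W * (a w * b z) + Z * (b w * a z) + b w * a z + b w * b z) =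
        (Z * (a z * b w - b w * a z) - W * (a w * b z - b z * a w)) + (b z * a w - b w * a z) +
        (Z * W * (a z * a w) - W * Z * (a w * a z)) + (b z * b w - b w * b z) := by
      rw [mul_sub Z (a z * b w), mul_sub W (a w * b z)]; abel
    rw [key, hZW, haa z w, hbb z w, sub_self, sub_self, ← hsym z w, ← sub_mul]
    have e3 : Z - W = (z - w) • (1 : R) := by rw [hZ, hW, sub_smul]; abel
    rw [e3, smul_mul_assoc, one_mul, hC z w]
    abel
  · intro z w
    have hcomm : ∀ u v : ℂ, a v * (u • (1 : R) - p) = (u • (1 : R) - p) * a v := by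
      intro u v
      simp only [mul_sub, sub_mul, smul_mul_assoc, mul_smul_comm, one_mul, mul_one, hpa]
    have hx1 : ∀ u : ℂ, (u • (1 : R) - p) * x = x * (u • (1 : R) - p) + x := by
      intro u
      simp only [mul_sub, sub_mul, smul_mul_assoc, mul_smul_comm, one_mul, mul_one, hxp]
      abel
    have hax : ((z • (1 : R) - p) * a z + b z) * x = x * ((z • (1 : R) - p) * a z + b z) + x * a z := by
      rw [add_mul, mul_assoc, ← hxa, ← hxb, ← mul_assoc, hx1, mul_add, add_mul, mul_assoc]
      abel
    have hcomm2 : ((z • (1 : R) - p) * a z + b z) * a w - a w * ((z • (1 : R) - p) * a z + b z) =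
        b z * a w - a w * b z := by
      have : a w * ((z • (1 : R) - p) * a z) = (z • (1 : R) - p) * a z * a w := by
        rw [← mul_assoc, hcomm z w, mul_assoc, haa w z, mul_assoc]
      rw [add_mul, mul_add, this]; abel
    have e1 : ((z • (1 : R) - p) * a z + b z) * (x * a w) -
        (x * a w) * ((z • (1 : R) - p) * a z + b z) =
        x * (b z * a w - a w * b z) + x * (a z * a w) := by
      rw [← hcomm2, ← mul_assoc, hax, mul_sub, add_mul]
      simp only [mul_assoc]
      abel
    have e2 : (x * a z) * ((w • (1 : R) - p) * a w + b w) -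
        (x * a w) * ((z • (1 : R) - p) * a z + b z) =
        x * ((w • (1 : R) - z • (1 : R)) * (a z * a w)) + x * (a z * b w - a w * b z) := by
      have h1 : a z * ((w • (1 : R) - p) * a w) = (w • (1 : R) - p) * (a z * a w) := by
        rw [← mul_assoc, hcomm, mul_assoc]
      have h2 : a w * ((z • (1 : R) - p) * a z) = (z • (1 : R) - p) * (a z * a w) := by
        rw [← mul_assoc, hcomm, mul_assoc, haa w z]
      rw [mul_assoc, mul_assoc, ← mul_sub, ← mul_add, mul_add (a z), mul_add (a w), h1, h2]
      congr 1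
      simp only [sub_mul]
      abel
    rw [e1, e2, smul_add]
    have e3 : (z - w) • (x * (b z * a w - a w * b z)) = x * (b z * a w - b w * a z) := by
      have : b z * a w - a w * b z = - (a z * b w - b w * a z) := by
        rw [hsym z w]; abel
      rw [this, ← mul_smul_comm, smul_neg, hC z w, neg_neg]
    have e4 : (w • (1 : R) - z • (1 : R)) * (a z * a w) = - ((z - w) • (a z * a w)) := by
      rw [← sub_smul, smul_mul_assoc, one_mul, ← neg_smul]; congr 1; ring
    have e5 : a z * b w - a w * b z = - (b z * a w - b w * a z) := by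
      have h := hsym z w
      have : a z * b w = a w * b z - b z * a w + b w * a z := by rw [← h]; abel
      rw [this]; abel
    rw [e3, e4, e5, ← mul_smul_comm]
    simp only [mul_neg, neg_add, neg_neg]
    abel

/-- The commutation relations, by induction. -/
theorem ka_comm_aux {p x : ℕ → R} (h : TodaRel p x) (k : ℕ) :
    (∀ z w, ka p x z k * ka p x w k = ka p x w k * ka p x z k) ∧
    (∀ z w, ka p x z (k+1) * ka p x w (k+1) = ka p x w (k+1) * ka p x z (k+1)) ∧
    (∀ z w, (z - w) • (ka p x z (k+1) * (x k * ka p x w k) - (x k * ka p x w k) * ka p x z (k+1)) =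
      - ((x k * ka p x z k) * ka p x w (k+1) - (x k * ka p x w k) * ka p x z (k+1))) := by
  induction k with
  | zero =>
    refine ⟨fun z w => by simp [ka], fun z w => ?_, fun z w => ?_⟩
    · simp only [ka, mul_sub, sub_mul, smul_mul_assoc, mul_smul_comm, one_mul, mul_one, smul_sub,
        smul_smul]
      rw [mul_comm z w]; abel
    · simp only [ka, mul_sub, sub_mul, smul_mul_assoc, mul_smul_comm, one_mul, mul_one, h.xp,
        smul_sub, smul_add, sub_smul]
      abel
  | succ k ih =>
    obtain ⟨h0, h1, h2⟩ := ih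
    have hstep := comm_step (a := fun z => ka p x z (k+1)) (b := fun z => x k * ka p x z k)
      (p := p (k+1)) (x := x (k+1)) h1
      (by
        intro z w
        have hx : ∀ u, x k * ka p x u k = ka p x u k * x k := fun u =>
          ka_comm u k (fun i hi => (h.px i k (by omega) (by omega)).symm) (fun i _ => h.xx k i)
        show x k * ka p x z k * (x k * ka p x w k) = x k * ka p x w k * (x k * ka p x z k)
        rw [mul_assoc, ← mul_assoc (ka p x z k), ← hx z, mul_assoc (x k) (ka p x z k), h0 z w,
          mul_assoc (x k) (ka p x w k), ← mul_assoc (ka p x w k) (x k), ← hx w]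
        simp only [mul_assoc])
      (fun z => ka_comm z (k+1) (fun i _ => h.pp _ _)
        (fun i hi => h.px _ _ (by omega) (by omega)))
      (by
        intro z
        have hx : p (k+1) * ka p x z k = ka p x z k * p (k+1) :=
          ka_comm z k (fun i _ => h.pp _ _) (fun i hi => h.px _ _ (by omega) (by omega))
        show x k * ka p x z k * p (k+1) = p (k+1) * (x k * ka p x z k) - x k * ka p x z k
        rw [mul_assoc, ← hx, ← mul_assoc, h.xp' k, sub_mul, mul_assoc])
      (fun z => ka_comm z (k+1) (fun i hi => (h.px i (k+1) (by omega) (by omega)).symm)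
        (fun i _ => h.xx _ _))
      (by
        intro z
        have hx : x (k+1) * ka p x z k = ka p x z k * x (k+1) :=
          ka_comm z k (fun i hi => (h.px i (k+1) (by omega) (by omega)).symm)
            (fun i _ => h.xx _ _)
        show x (k+1) * (x k * ka p x z k) = x k * ka p x z k * x (k+1)
        rw [← mul_assoc, h.xx (k+1) k, mul_assoc, hx, mul_assoc])
      (h.xp (k+1)) h2
    refine ⟨h1, ?_, ?_⟩
    · intro z w
      simp only [ka_succ]
      exact hstep.1 z w
    · intro z w
      simp only [ka_succ]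
      exact hstep.2 z w

theorem ka_commute {p x : ℕ → R} (h : TodaRel p x) (k : ℕ) (z w : ℂ) :
    ka p x z k * ka p x w k = ka p x w k * ka p x z k := (ka_comm_aux h k).1 z w

/-- evaluation in terms of coefficients -/
theorem ka_eq_sum (p x : ℕ → R) (z : ℂ) (k : ℕ) : ∀ N, k < N →
    ka p x z k = ∑ i ∈ range N, z ^ i • (kp p x k).coeff i := by
  induction k using Nat.twoStepInduction with
  | zero =>
    intro N hN
    obtain ⟨N, rfl⟩ : ∃ M, N = M + 1 := ⟨N - 1, by omega⟩
    rw [Finset.sum_range_succ']
    simp [ka, kp_zero, coeff_one]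
  | one =>
    intro N hN
    obtain ⟨N, rfl⟩ : ∃ M, N = M + 2 := ⟨N - 2, by omega⟩
    rw [Finset.sum_range_succ', Finset.sum_range_succ']
    have : ∀ i ∈ range N, z ^ (i + 1 + 1) • (kp p x 1).coeff (i + 1 + 1) = 0 := by
      intro i _
      simp [kp_one, coeff_X]
    rw [Finset.sum_eq_zero this]
    simp [ka, kp_one, coeff_X, coeff_C]
    abel
  | more k ih1 ih2 =>
    intro N hN
    obtain ⟨N, rfl⟩ : ∃ M, N = M + 1 := ⟨N - 1, by omega⟩
    have hX : ∑ i ∈ range (N+1), z ^ i • (X * kp p x (k+1)).coeff i =
        z • ka p x z (k+1) := by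
      rw [Finset.sum_range_succ', ih2 N (by omega), Finset.smul_sum]
      simp only [coeff_X_mul, smul_smul, coeff_X_mul_zero, smul_zero, add_zero]
      refine Finset.sum_congr rfl fun i _ => ?_
      rw [pow_succ, mul_comm]
    have hC : ∑ i ∈ range (N+1), z ^ i • (p (k+1) * (kp p x (k+1)).coeff i) =
        p (k+1) * ka p x z (k+1) := by
      rw [ih2 (N+1) (by omega), Finset.mul_sum]
      refine Finset.sum_congr rfl fun i _ => ?_
      rw [mul_smul_comm]
    have hD : ∑ i ∈ range (N+1), z ^ i • (x k * (kp p x k).coeff i) =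
        x k * ka p x z k := by
      rw [ih1 (N+1) (by omega), Finset.mul_sum]
      refine Finset.sum_congr rfl fun i _ => ?_
      rw [mul_smul_comm]
    rw [ka_succ]
    simp only [kp_succ, coeff_add, coeff_X_sub_C_mul, coeff_C_mul, smul_add, smul_sub,
      Finset.sum_add_distrib, Finset.sum_sub_distrib]
    rw [hX, hC, hD, sub_mul, smul_mul_assoc, one_mul]

/-- polynomial identity principle with values in a complex vector space -/
theorem coeff_eq_zero_of_forall {V : Type*} [AddCommGroup V] [Module ℂ V] {N : ℕ} (v : ℕ → V)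
    (h : ∀ z : ℂ, ∑ i ∈ range N, z ^ i • v i = 0) : ∀ i, i < N → v i = 0 := by
  intro i hi
  rw [← Module.forall_dual_apply_eq_zero_iff ℂ]
  intro f
  set P : ℂ[X] := ∑ j ∈ range N, C (f (v j)) * X ^ j with hP
  have hP0 : P = 0 := by
    apply Polynomial.funext
    intro z
    have := congrArg f (h z)
    rw [map_sum, map_zero] at this
    rw [hP, eval_finsetSum, eval_zero, ← this]
    refine Finset.sum_congr rfl fun j _ => ?_
    rw [eval_mul, eval_C, eval_pow, eval_X, map_smul, smul_eq_mul, mul_comm]
  have := congrArg (fun Q => Polynomial.coeff Q i) hP0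
  simp only [hP, finsetSum_coeff, coeff_C_mul, coeff_X_pow, coeff_zero] at this
  rw [Finset.sum_eq_single i] at this
  · simpa using this
  · intro j _ hj; simp [Ne.symm hj]
  · intro hh; exact absurd (Finset.mem_range.2 hi) hh

theorem coeff_commute {p x : ℕ → R} (h : TodaRel p x) (k : ℕ) (i j : ℕ) :
    (kp p x k).coeff i * (kp p x k).coeff j = (kp p x k).coeff j * (kp p x k).coeff i := by
  rcases subsingleton_or_nontrivial R with hs | hs
  · exact Subsingleton.elim _ _
  have h0 : ∀ i, k < i → (kp p x k).coeff i = 0 := fun i hi =>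
    coeff_eq_zero_of_natDegree_lt (by rw [(kp_natDegree p x k).2]; exact hi)
  by_cases hi : k < i
  · rw [h0 i hi]; simp
  by_cases hj : k < j
  · rw [h0 j hj]; simp
  push Not at hi hj
  have key : ∀ z w : ℂ, ∑ a ∈ range (k+1), z ^ a • (∑ b ∈ range (k+1), w ^ b •
      ((kp p x k).coeff a * (kp p x k).coeff b - (kp p x k).coeff b * (kp p x k).coeff a)) = 0 := by
    intro z w
    have hc := ka_commute h k z w
    rw [ka_eq_sum p x z k (k+1) (by omega), ka_eq_sum p x w k (k+1) (by omega)] at hc
    have e1 : (∑ a ∈ range (k+1), z ^ a • (kp p x k).coeff a) *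
        (∑ b ∈ range (k+1), w ^ b • (kp p x k).coeff b) =
        ∑ a ∈ range (k+1), z ^ a • (∑ b ∈ range (k+1), w ^ b •
          ((kp p x k).coeff a * (kp p x k).coeff b)) := by
      rw [Finset.sum_mul]
      refine Finset.sum_congr rfl fun a _ => ?_
      rw [smul_mul_assoc, Finset.mul_sum]
      simp only [mul_smul_comm]
    have e2 : (∑ b ∈ range (k+1), w ^ b • (kp p x k).coeff b) *
        (∑ a ∈ range (k+1), z ^ a • (kp p x k).coeff a) =
        ∑ a ∈ range (k+1), z ^ a • (∑ b ∈ range (k+1), w ^ b •
          ((kp p x k).coeff b * (kp p x k).coeff a)) := by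
      rw [Finset.mul_sum]
      refine Finset.sum_congr rfl fun a _ => ?_
      rw [mul_smul_comm, Finset.sum_mul]
      simp only [smul_mul_assoc]
    rw [e1, e2, ← sub_eq_zero, ← Finset.sum_sub_distrib] at hc
    rw [← hc]
    refine Finset.sum_congr rfl fun a _ => ?_
    rw [← smul_sub, ← Finset.sum_sub_distrib]
    simp only [smul_sub]
  have h1 : ∀ w, ∀ a, a < k+1 → (∑ b ∈ range (k+1), w ^ b •
      ((kp p x k).coeff a * (kp p x k).coeff b - (kp p x k).coeff b * (kp p x k).coeff a)) = 0 :=
    fun w => coeff_eq_zero_of_forall _ (fun z => key z w)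
  have h2 := coeff_eq_zero_of_forall _ (fun w => h1 w i (by omega)) j (by omega)
  exact sub_eq_zero.1 h2

end Comm

end Pool.Agent.MP2f3d29
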