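import Mathlib
import Pool.Agent.MP_2f3d29_nt.A1
import Pool.Agent.MP_2f3d29_nt.A2

set_option autoImplicit false

open Finset

namespace Pool.Agent.MP2f3d29

/-- variables: `k` shift variables `s_1,…,s_k` and `k+1` parameters `α_1,…,α_{k+1}`. -/
abbrev Vr (k : ℕ) := Fin k ⊕ Fin (k + 1)
/-- points `(s, α)` -/
abbrev Pt (k : ℕ) := Vr k → ℂ
/-- functions of `(s, α)` -/
abbrev Fn (k : ℕ) := Pt k → ℂ
/-- polynomials in `(s, α)` -/
abbrev Pl (k : ℕ) := MvPolynomial (Vr k) ℂ

variable {k : ℕ}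

/-- shift of the point `(s, α)` to `(s + c, α)` -/
def sh (c : Fin k → ℕ) (v : Pt k) : Pt k :=
  Sum.elim (fun j => v (Sum.inl j) + (c j : ℂ)) (fun i => v (Sum.inr i))

theorem sh_zero (v : Pt k) : sh 0 v = v := by
  funext z; cases z <;> simp [sh]

theorem sh_sh (c d : Fin k → ℕ) (v : Pt k) : sh d (sh c v) = sh (c + d) v := by
  funext z; cases z <;> simp [sh, add_assoc]

/-- the operator `F ↦ P(s,α) F(s + c, α)` -/
noncomputable def op (P : Pl k) (c : Fin k → ℕ) : Module.End ℂ (Fn k) where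
  toFun := fun F v => MvPolynomial.eval v P * F (sh c v)
  map_add' := by intro F G; funext v; simp [mul_add]
  map_smul' := by intro a F; funext v; simp [mul_left_comm]

theorem op_apply (P : Pl k) (c : Fin k → ℕ) (F : Fn k) (v : Pt k) :
    op P c F v = MvPolynomial.eval v P * F (sh c v) := rfl

/-- shift acting on polynomials -/
noncomputable def shP (c : Fin k → ℕ) : Pl k →ₐ[ℂ] Pl k :=
  MvPolynomial.aeval (Sum.elim
    (fun j => MvPolynomial.X (Sum.inl j) + MvPolynomial.C ((c j : ℂ)))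
    (fun i => MvPolynomial.X (Sum.inr i)))

theorem eval_shP (c : Fin k → ℕ) (v : Pt k) (P : Pl k) :
    MvPolynomial.eval v (shP c P) = MvPolynomial.eval (sh c v) P := by
  induction P using MvPolynomial.induction_on with
  | C a => simp [shP]
  | add p q hp hq => simp [hp, hq]
  | mul_X p i hp =>
    rw [map_mul, map_mul, map_mul, hp]
    congr 1
    cases i <;> simp [shP, sh]

theorem op_mul (P Q : Pl k) (c d : Fin k → ℕ) : op P c * op Q d = op (P * shP c Q) (c + d) := by
  refine LinearMap.ext fun F => ?_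
  funext v
  rw [Module.End.mul_apply, op_apply, op_apply, op_apply, map_mul, eval_shP, sh_sh, mul_assoc]

theorem op_add (P Q : Pl k) (c : Fin k → ℕ) : op (P + Q) c = op P c + op Q c := by
  refine LinearMap.ext fun F => ?_
  funext v
  simp [op_apply, add_mul]

theorem op_sub (P Q : Pl k) (c : Fin k → ℕ) : op (P - Q) c = op P c - op Q c := by
  refine LinearMap.ext fun F => ?_
  funext v
  simp [op_apply, sub_mul]

theorem op_one : op (1 : Pl k) 0 = 1 := by
  refine LinearMap.ext fun F => ?_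
  funext v
  simp [op_apply, sh_zero]

theorem op_smul (a : ℂ) (P : Pl k) (c : Fin k → ℕ) : op (a • P) c = a • op P c := by
  refine LinearMap.ext fun F => ?_
  funext v
  simp [op_apply, mul_assoc]

theorem shP_zero (P : Pl k) : shP 0 P = P := by
  apply MvPolynomial.funext
  intro v
  rw [eval_shP, sh_zero]

/-- multiplication operators form a commutative family -/
theorem op_mul_zero (P Q : Pl k) : op P 0 * op Q 0 = op (P * Q) 0 := by
  rw [op_mul, shP_zero, add_zero]

theorem totalDegree_aeval_le {σ τ : Type*} (f : σ → MvPolynomial τ ℂ)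
    (hf : ∀ i, (f i).totalDegree ≤ 1) (P : MvPolynomial σ ℂ) :
    (MvPolynomial.aeval f P).totalDegree ≤ P.totalDegree := by
  classical
  rw [MvPolynomial.aeval_def, MvPolynomial.eval₂_eq]
  refine MvPolynomial.totalDegree_finsetSum_le fun d hd => ?_
  refine (MvPolynomial.totalDegree_mul _ _).trans ?_
  have h1 : ((algebraMap ℂ (MvPolynomial τ ℂ)) (MvPolynomial.coeff d P)).totalDegree = 0 :=
    MvPolynomial.totalDegree_C _
  rw [h1, zero_add]
  refine (MvPolynomial.totalDegree_finsetProd _ _).trans ?_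
  have h2 : ∀ i ∈ d.support, (f i ^ d i).totalDegree ≤ d i := fun i _ =>
    (MvPolynomial.totalDegree_pow _ _).trans (by
      calc d i * (f i).totalDegree ≤ d i * 1 := Nat.mul_le_mul_left _ (hf i)
        _ = d i := mul_one _)
  refine (Finset.sum_le_sum h2).trans ?_
  exact MvPolynomial.le_totalDegree hd

theorem totalDegree_shP_le (c : Fin k → ℕ) (P : Pl k) : (shP c P).totalDegree ≤ P.totalDegree := by
  apply totalDegree_aeval_le
  intro i
  cases i with
  | inl j =>
    refine (MvPolynomial.totalDegree_add _ _).trans ?_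
    rw [MvPolynomial.totalDegree_X, MvPolynomial.totalDegree_C]
    simp
  | inr j => simp [MvPolynomial.totalDegree_X]

/-- The filtered pieces. -/
noncomputable def Dm (μ : Fin k → ℕ) (d : ℕ) : Submodule ℂ (Module.End ℂ (Fn k)) :=
  Submodule.span ℂ {T | ∃ (P : Pl k) (c : Fin k → ℕ), μ ≤ c ∧
    P.totalDegree + 2 * ∑ j, c j ≤ d ∧ T = op P c}

theorem op_mem_Dm {μ : Fin k → ℕ} {d : ℕ} {P : Pl k} {c : Fin k → ℕ} (h1 : μ ≤ c)
    (h2 : P.totalDegree + 2 * ∑ j, c j ≤ d) : op P c ∈ Dm μ d :=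
  Submodule.subset_span ⟨P, c, h1, h2, rfl⟩

theorem Dm_mono {μ ν : Fin k → ℕ} {d e : ℕ} (h1 : ν ≤ μ) (h2 : d ≤ e) : Dm μ d ≤ Dm ν e := by
  apply Submodule.span_mono
  rintro T ⟨P, c, hc, hd, rfl⟩
  exact ⟨P, c, h1.trans hc, hd.trans h2, rfl⟩

theorem Dm_mul {μ ν : Fin k → ℕ} {d e : ℕ} {T U : Module.End ℂ (Fn k)} (hT : T ∈ Dm μ d)
    (hU : U ∈ Dm ν e) : T * U ∈ Dm (μ + ν) (d + e) := by
  have h := Submodule.mul_mem_mul hT hU
  unfold Dm at h
  rw [Submodule.span_mul_span] at h
  refine Submodule.span_le.2 ?_ h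
  rintro _ ⟨_, ⟨P, c, hc, hd, rfl⟩, _, ⟨Q, c', hc', hd', rfl⟩, rfl⟩
  show op P c * op Q c' ∈ Dm (μ + ν) (d + e)
  rw [op_mul]
  refine op_mem_Dm (add_le_add hc hc') ?_
  have h1 := MvPolynomial.totalDegree_mul P (shP c Q)
  have h2 := totalDegree_shP_le c Q
  have h3 : ∑ j, (c + c') j = ∑ j, c j + ∑ j, c' j := by
    simp [Finset.sum_add_distrib]
  rw [h3]
  omega

/-- locality -/
theorem Dm_local {μ : Fin k → ℕ} {d : ℕ} {T : Module.End ℂ (Fn k)} (hT : T ∈ Dm μ d)
    {Ω : Set (Pt k)} (hΩ : ∀ v ∈ Ω, ∀ c, sh c v ∈ Ω) {F G : Fn k} (h : ∀ v ∈ Ω, F v = G v) :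
    ∀ v ∈ Ω, T F v = T G v := by
  intro v hv
  induction hT using Submodule.span_induction with
  | mem T hT =>
    obtain ⟨P, c, _, _, rfl⟩ := hT
    rw [op_apply, op_apply, h _ (hΩ v hv c)]
  | zero => simp
  | add T U _ _ hT hU => simp [hT, hU]
  | smul a T _ hT => simp [hT]

/-- filtered polynomials over the operator algebra -/
def PFm (μ : Fin k → ℕ) (d : ℕ) (P : Polynomial (Module.End ℂ (Fn k))) : Prop :=
  ∀ i, (i ≤ d → P.coeff i ∈ Dm μ (d - i)) ∧ (d < i → P.coeff i = 0)

theorem PFm_mul {μ ν : Fin k → ℕ} {d e : ℕ} {P Q : Polynomial (Module.End ℂ (Fn k))}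
    (hP : PFm μ d P) (hQ : PFm ν e Q) : PFm (μ + ν) (d + e) (P * Q) := by
  intro i
  refine ⟨fun hi => ?_, fun hi => ?_⟩
  · rw [Polynomial.coeff_mul]
    refine Submodule.sum_mem _ fun x hx => ?_
    rw [Finset.HasAntidiagonal.mem_antidiagonal] at hx
    by_cases h1 : x.1 ≤ d
    · by_cases h2 : x.2 ≤ e
      · have := Dm_mul ((hP x.1).1 h1) ((hQ x.2).1 h2)
        have e1 : d - x.1 + (e - x.2) = d + e - i := by omega
        rwa [e1] at this
      · rw [(hQ x.2).2 (by omega), mul_zero]; exact Submodule.zero_mem _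
    · rw [(hP x.1).2 (by omega), zero_mul]; exact Submodule.zero_mem _
  · rw [Polynomial.coeff_mul]
    refine Finset.sum_eq_zero fun x hx => ?_
    rw [Finset.HasAntidiagonal.mem_antidiagonal] at hx
    by_cases h1 : x.1 ≤ d
    · rw [(hQ x.2).2 (by omega), mul_zero]
    · rw [(hP x.1).2 (by omega), zero_mul]

theorem PFm_add {μ : Fin k → ℕ} {d : ℕ} {P Q : Polynomial (Module.End ℂ (Fn k))}
    (hP : PFm μ d P) (hQ : PFm μ d Q) : PFm μ d (P + Q) := by
  intro i
  refine ⟨fun hi => ?_, fun hi => ?_⟩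
  · rw [Polynomial.coeff_add]; exact Submodule.add_mem _ ((hP i).1 hi) ((hQ i).1 hi)
  · rw [Polynomial.coeff_add, (hP i).2 hi, (hQ i).2 hi, add_zero]

theorem one_mem_Dm : (1 : Module.End ℂ (Fn k)) ∈ Dm (0 : Fin k → ℕ) 0 := by
  rw [← op_one]
  exact op_mem_Dm le_rfl (by simp)

theorem PFm_C {μ : Fin k → ℕ} {d : ℕ} {T : Module.End ℂ (Fn k)} (hT : T ∈ Dm μ d) :
    PFm μ d (Polynomial.C T) := by
  intro i
  refine ⟨fun hi => ?_, fun hi => ?_⟩
  · rw [Polynomial.coeff_C]
    split_ifs with h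
    · subst h; simpa using hT
    · exact Submodule.zero_mem _
  · rw [Polynomial.coeff_C, if_neg (by omega)]

theorem PFm_X_sub_C {T : Module.End ℂ (Fn k)} (hT : T ∈ Dm (0 : Fin k → ℕ) 1) :
    PFm (0 : Fin k → ℕ) 1 (Polynomial.X - Polynomial.C T) := by
  intro i
  refine ⟨fun hi => ?_, fun hi => ?_⟩
  · rcases Nat.le_one_iff_eq_zero_or_eq_one.1 hi with rfl | rfl
    · simp only [Polynomial.coeff_sub, Polynomial.coeff_X_zero, Polynomial.coeff_C_zero, zero_sub]
      exact Submodule.neg_mem _ hT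
    · simp only [Polynomial.coeff_sub, Polynomial.coeff_X_one, Polynomial.coeff_C_succ, sub_zero]
      exact one_mem_Dm
  · rw [Polynomial.coeff_sub, Polynomial.coeff_X, Polynomial.coeff_C, if_neg (by omega),
      if_neg (by omega), sub_zero]

theorem PFm_kp {p x : ℕ → Module.End ℂ (Fn k)} (hp : ∀ i, p i ∈ Dm (0 : Fin k → ℕ) 1)
    (hx : ∀ i, x i ∈ Dm (0 : Fin k → ℕ) 2) (m : ℕ) : PFm (0 : Fin k → ℕ) m (kp p x m) := by
  induction m using Nat.twoStepInduction with
  | zero => rw [kp_zero]; exact PFm_C one_mem_Dm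
  | one => rw [kp_one]; exact PFm_X_sub_C (hp 0)
  | more m ih1 ih2 =>
    rw [kp_succ]
    refine PFm_add ?_ ?_
    · have := PFm_mul (PFm_X_sub_C (hp (m+1))) ih2
      rw [add_zero] at this
      have e : 1 + (m + 1) = m + 2 := by omega
      rwa [e] at this
    · have := PFm_mul (PFm_C (hx m)) ih1
      rw [add_zero] at this
      have e : 2 + m = m + 2 := by omega
      rwa [e] at this

/-! ### the Toda generators -/

/-- `s_i` as a polynomial, with `s_0 = 0` and `s_i = 0` for `i > k`. -/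
noncomputable def sxP (k : ℕ) : ℕ → Pl k
  | 0 => 0
  | j+1 => if h : j < k then MvPolynomial.X (Sum.inl ⟨j, h⟩) else 0

theorem totalDegree_sxP (i : ℕ) : (sxP k i).totalDegree ≤ 1 := by
  cases i with
  | zero => simp [sxP]
  | succ j =>
    simp only [sxP]
    split_ifs
    · simp [MvPolynomial.totalDegree_X]
    · simp

/-- `p_i = s_{i+1} - s_i` -/
noncomputable def pO (k : ℕ) (i : ℕ) : Module.End ℂ (Fn k) := op (sxP k (i+1) - sxP k i) 0

/-- `x_j`: the shift `s_{j+1} ↦ s_{j+1} + 1` -/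
noncomputable def xO (k : ℕ) (j : ℕ) : Module.End ℂ (Fn k) :=
  if h : j < k then op 1 (Pi.single ⟨j, h⟩ 1) else 0

theorem pO_mem (i : ℕ) : pO k i ∈ Dm (0 : Fin k → ℕ) 1 := by
  refine op_mem_Dm le_rfl ?_
  have := MvPolynomial.totalDegree_sub (sxP k (i+1)) (sxP k i)
  have h1 := totalDegree_sxP (k := k) i
  have h2 := totalDegree_sxP (k := k) (i+1)
  simp only [Pi.zero_apply, Finset.sum_const_zero, mul_zero, add_zero]
  exact this.trans (max_le h2 h1)

theorem xO_mem (j : ℕ) : xO k j ∈ Dm (0 : Fin k → ℕ) 2 := by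
  unfold xO
  split_ifs with h
  · refine op_mem_Dm (by intro i; simp) ?_
    simp [Pi.single_apply]
  · exact Submodule.zero_mem _

theorem xO_mem' (j : ℕ) (h : j < k) : xO k j ∈ Dm (Pi.single ⟨j, h⟩ 1 : Fin k → ℕ) 2 := by
  unfold xO
  rw [dif_pos h]
  refine op_mem_Dm le_rfl ?_
  simp [Pi.single_apply]

theorem shP_sxP (j : ℕ) (h : j < k) (i : ℕ) : shP (Pi.single ⟨j, h⟩ 1 : Fin k → ℕ) (sxP k i) =
    sxP k i + (if i = j + 1 then 1 else 0) := by
  cases i with
  | zero => simp [sxP]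
  | succ i =>
    simp only [sxP]
    split_ifs with h1 h2 h2
    · have : i = j := by omega
      subst this
      simp [shP]
    · have : (⟨i, h1⟩ : Fin k) ≠ ⟨j, h⟩ := by intro h'; apply h2; simp at h'; omega
      simp [shP, this]
    · omega
    · simp

theorem todaRel_O (k : ℕ) : TodaRel (pO k) (xO k) where
  pp := by
    intro i j
    unfold pO
    rw [op_mul_zero, op_mul_zero, mul_comm]
  xx := by
    intro i j
    unfold xO
    split_ifs
    · rw [op_mul, op_mul, map_one, add_comm, map_one]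
    · simp
    · simp
    · simp
  px := by
    intro i j h1 h2
    unfold pO xO
    split_ifs with h
    · rw [op_mul, op_mul, map_sub, shP_sxP, shP_sxP, shP_zero, if_neg (by omega), if_neg (by omega),
        zero_add, add_zero, mul_one, one_mul, add_zero, add_zero]
    · simp
  xp := by
    intro i
    unfold pO xO
    split_ifs with h
    · rw [op_mul, op_mul, map_sub, shP_sxP, shP_sxP, shP_zero, if_pos rfl, if_neg (by omega),
        zero_add, add_zero, mul_one, one_mul, add_zero, ← op_add]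
      congr 1; ring
    · simp
  xp' := by
    intro i
    unfold pO xO
    split_ifs with h
    · rw [op_mul, op_mul, map_sub, shP_sxP, shP_sxP, shP_zero, if_pos rfl, if_neg (by omega),
        zero_add, add_zero, mul_one, one_mul, add_zero, ← op_sub]
      congr 1; ring
    · simp

end Pool.Agent.MP2f3d29
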