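import Mathlib
import Pool.Agent.MP_2f3d29_nt.A3

set_option autoImplicit false

open Finset

namespace Pool.Agent.MP2f3d29

variable {k : ℕ}

/-- `F` solves the difference Toda system on the shift-stable set `Ω`. -/
structure Sol (Ω : Set (Pt k)) (F : Fn k) : Prop where
  stable : ∀ v ∈ Ω, ∀ c, sh c v ∈ Ω
  toda : ∀ v ∈ Ω, ∀ z : ℂ, ka (pO k) (xO k) z (k+1) F v = (∏ i, (z - v (Sum.inr i))) * F v

/-- the operator of multiplication by `α_i` -/
noncomputable def aO (k : ℕ) (i : Fin (k+1)) : Module.End ℂ (Fn k) := op (MvPolynomial.X (Sum.inr i)) 0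

theorem aO_comm_p (i : Fin (k+1)) (j : ℕ) : aO k i * pO k j = pO k j * aO k i := by
  unfold aO pO
  rw [op_mul_zero, op_mul_zero, mul_comm]

theorem aO_comm_x (i : Fin (k+1)) (j : ℕ) : aO k i * xO k j = xO k j * aO k i := by
  unfold aO xO
  split_ifs with h
  · rw [op_mul, op_mul, map_one, mul_one, one_mul, add_zero, zero_add]
    congr 1
    simp [shP]
  · simp

theorem aO_comm_a (i j : Fin (k+1)) : aO k i * aO k j = aO k j * aO k i := by
  unfold aO
  rw [op_mul_zero, op_mul_zero, mul_comm]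

theorem aO_mem (i : Fin (k+1)) : aO k i ∈ Dm (0 : Fin k → ℕ) 1 := by
  refine op_mem_Dm le_rfl ?_
  simp [MvPolynomial.totalDegree_X]

/-- shifted generators -/
theorem todaRel_shift {R : Type*} [Ring R] {p x : ℕ → R} (h : TodaRel p x) (a : ℕ) :
    TodaRel (fun i => p (a + i)) (fun i => x (a + i)) where
  pp := fun i j => h.pp _ _
  xx := fun i j => h.xx _ _
  px := fun i j h1 h2 => h.px _ _ (by omega) (by omega)
  xp := fun i => h.xp _
  xp' := fun i => h.xp' _

/-- the left block and the right block commute -/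
theorem blocks_comm {R : Type*} [Ring R] {p x : ℕ → R} (h : TodaRel p x) (m l : ℕ) (i j : ℕ) :
    (kp (fun i => p (m + i)) (fun i => x (m + i)) l).coeff j * (kp p x m).coeff i =
    (kp p x m).coeff i * (kp (fun i => p (m + i)) (fun i => x (m + i)) l).coeff j := by
  refine kp_comm m (fun a ha => ?_) (fun a ha => ?_) i
  · refine (kp_comm l (fun b hb => ?_) (fun b hb => ?_) j).symm
    · exact h.pp _ _
    · exact h.px _ _ (by omega) (by omega)
  · refine (kp_comm l (fun b hb => ?_) (fun b hb => ?_) j).symm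
    · exact (h.px _ _ (by omega) (by omega)).symm
    · exact h.xx _ _

/-- the polynomial `s_m - ∑_{j ∈ J} α_j` -/
noncomputable def facP (k : ℕ) (m : Fin k) (J : Finset (Fin (k+1))) : Pl k :=
  MvPolynomial.X (Sum.inl m) - ∑ j ∈ J, MvPolynomial.X (Sum.inr j)

/-- coefficient form of the Toda system -/
theorem Sol.coeff {Ω : Set (Pt k)} {F : Fn k} (hF : Sol Ω F) {v : Pt k} (hv : v ∈ Ω) (i : ℕ)
    (hi : i < k + 2) :
    (kp (pO k) (xO k) (k+1)).coeff i F v =
      (∏ j : Fin (k+1), (Polynomial.X - Polynomial.C (v (Sum.inr j)))).coeff i * F v := by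
  have h := coeff_eq_zero_of_forall (V := ℂ) (N := k+2) (fun i =>
    (kp (pO k) (xO k) (k+1)).coeff i F v -
      (∏ j : Fin (k+1), (Polynomial.X - Polynomial.C (v (Sum.inr j)))).coeff i * F v) ?_ i hi
  · exact sub_eq_zero.1 h
  · intro z
    have h1 := hF.toda v hv z
    rw [ka_eq_sum (pO k) (xO k) z (k+1) (k+2) (by omega)] at h1
    simp only [smul_sub, Finset.sum_sub_distrib]
    have h2 : (∑ i ∈ range (k+2), z ^ i • (kp (pO k) (xO k) (k+1)).coeff i) F v =
        ∑ i ∈ range (k+2), z ^ i • ((kp (pO k) (xO k) (k+1)).coeff i F v) := by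
      rw [LinearMap.sum_apply, Finset.sum_apply]
      rfl
    have h3 : (∏ i : Fin (k+1), (z - v (Sum.inr i))) =
        ∑ i ∈ range (k+2), z ^ i *
          (∏ j : Fin (k+1), (Polynomial.X - Polynomial.C (v (Sum.inr j)))).coeff i := by
      have h4 : (∏ i : Fin (k+1), (z - v (Sum.inr i))) =
          (∏ j : Fin (k+1), (Polynomial.X - Polynomial.C (v (Sum.inr j)))).eval z := by
        rw [Polynomial.eval_prod]; simp
      have h5 : (∏ j : Fin (k+1), (Polynomial.X - Polynomial.C (v (Sum.inr j)))).natDegree < k+2 := by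
        rw [Polynomial.natDegree_prod_of_monic _ _ (fun i _ => Polynomial.monic_X_sub_C _)]
        simp
      rw [h4, Polynomial.eval_eq_sum_range' h5]
      exact Finset.sum_congr rfl fun i _ => mul_comm _ _
    rw [← h2, h1, h3, Finset.sum_mul, sub_eq_zero]
    refine Finset.sum_congr rfl fun i _ => ?_
    rw [smul_eq_mul, mul_assoc]

theorem psi_apply {𝒜 : Type*} [CommRing 𝒜] (φ : 𝒜 →+* Module.End ℂ (Fn k))
    (α' : Fin (k+1) → 𝒜) (hα : ∀ i, φ (α' i) = aO k i) (q : MvPolynomial (Fin (k+1)) ℤ)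
    (F : Fn k) (v : Pt k) :
    φ (MvPolynomial.eval₂Hom (Int.castRingHom 𝒜) α' q) F v =
      (MvPolynomial.eval₂Hom (Int.castRingHom ℂ) (fun i => v (Sum.inr i)) q) * F v := by
  induction q using MvPolynomial.induction_on generalizing F v with
  | C a =>
    simp only [eq_intCast, map_intCast]
    have : ((a : Module.End ℂ (Fn k)) F) = (a : ℤ) • F := by
      rw [← zsmul_one]; simp
    rw [this]
    simp
  | add p q hp hq =>
    rw [map_add, map_add, map_add, LinearMap.add_apply, Pi.add_apply, hp, hq, add_mul]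
  | mul_X p i hp =>
    rw [map_mul, map_mul, map_mul, Module.End.mul_apply, hp, MvPolynomial.eval₂Hom_X',
      MvPolynomial.eval₂Hom_X', hα]
    unfold aO
    rw [op_apply, sh_zero, MvPolynomial.eval_X, mul_assoc]

theorem phi_prod {𝒜 ι : Type*} [CommRing 𝒜] (φ : 𝒜 →+* Module.End ℂ (Fn k))
    (t : Finset ι) (f : ι → 𝒜) (g : ι → Pl k) (h : ∀ i ∈ t, φ (f i) = op (g i) 0) :
    φ (∏ i ∈ t, f i) = op (∏ i ∈ t, g i) 0 := by
  classical
  induction t using Finset.induction_on with
  | empty => simp [op_one]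
  | insert a t ha ih =>
    rw [Finset.prod_insert ha, Finset.prod_insert ha, map_mul, h a (by simp),
      ih (fun i hi => h i (by simp [hi])), op_mul_zero]

theorem core_aux (m l : ℕ) (hk : k = m + 1 + l) {𝒜 : Type*} [CommRing 𝒜]
    (φ : 𝒜 →+* Module.End ℂ (Fn k)) (hφ : Function.Injective φ)
    (A' B' : Polynomial 𝒜) (α' : Fin (k+1) → 𝒜)
    (hA : A'.map φ = kp (pO k) (xO k) (m+1))
    (hB : B'.map φ = kp (fun i => pO k (m+1+i)) (fun i => xO k (m+1+i)) (l+1))
    (hα : ∀ i, φ (α' i) = aO k i) :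
    ∃ T ∈ Dm (Pi.single ⟨m, by omega⟩ 1 : Fin k → ℕ) ((k+1).choose (m+1)),
      ∀ (Ω : Set (Pt k)) (F : Fn k), Sol Ω F → ∀ v ∈ Ω,
        op (∏ J ∈ powersetCard (m+1) univ, facP k ⟨m, by omega⟩ J) 0 F v = T F v := by
  classical
  have : Nontrivial 𝒜 := φ.domain_nontrivial
  set μ : Fin k → ℕ := Pi.single ⟨m, by omega⟩ 1 with hμ
  set A := kp (pO k) (xO k) (m+1) with hAdef
  set B := kp (fun i => pO k (m+1+i)) (fun i => xO k (m+1+i)) (l+1) with hBdef
  have hAmd := kp_natDegree (pO k) (xO k) (m+1)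
  have hBmd := kp_natDegree (fun i => pO k (m+1+i)) (fun i => xO k (m+1+i)) (l+1)
  rw [← hAdef] at hAmd
  rw [← hBdef] at hBmd
  have hA'm : A'.Monic := Polynomial.monic_of_injective hφ (by rw [hA]; exact hAmd.1)
  have hB'm : B'.Monic := Polynomial.monic_of_injective hφ (by rw [hB]; exact hBmd.1)
  have hA'd : A'.natDegree = m + 1 := by
    rw [← Polynomial.natDegree_map_eq_of_injective hφ, hA]; exact hAmd.2
  have hB'd : B'.natDegree = l + 1 := by
    rw [← Polynomial.natDegree_map_eq_of_injective hφ, hB]; exact hBmd.2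
  let S : ℕ → AddSubgroup 𝒜 := fun d =>
    AddSubgroup.comap φ.toAddMonoidHom (Dm (0 : Fin k → ℕ) d).toAddSubgroup
  have hSmem : ∀ d r, r ∈ S d ↔ φ r ∈ Dm (0 : Fin k → ℕ) d := fun d r => Iff.rfl
  have hS : IsFilt S := by
    constructor
    · rw [hSmem, map_one]; exact one_mem_Dm
    · intro a b x y hx hy
      rw [hSmem] at *
      rw [map_mul]
      have := Dm_mul hx hy
      rwa [add_zero] at this
  let L : ℕ → AddSubgroup 𝒜 := fun d =>
    { carrier := {r | ∃ T ∈ Dm μ d, ∀ (Ω : Set (Pt k)) (F : Fn k), Sol Ω F → ∀ v ∈ Ω,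
        φ r F v = T F v}
      zero_mem' := ⟨0, Submodule.zero_mem _, by intro Ω F _ v _; simp⟩
      add_mem' := by
        rintro a b ⟨T, hT, h1⟩ ⟨U, hU, h2⟩
        refine ⟨T + U, Submodule.add_mem _ hT hU, fun Ω F hF v hv => ?_⟩
        rw [map_add, LinearMap.add_apply, LinearMap.add_apply, Pi.add_apply, Pi.add_apply,
          h1 Ω F hF v hv, h2 Ω F hF v hv]
      neg_mem' := by
        rintro a ⟨T, hT, h1⟩
        refine ⟨-T, Submodule.neg_mem _ hT, fun Ω F hF v hv => ?_⟩
        rw [map_neg, LinearMap.neg_apply, LinearMap.neg_apply, Pi.neg_apply, Pi.neg_apply,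
          h1 Ω F hF v hv] }
  have hLmem : ∀ d r, r ∈ L d ↔ ∃ T ∈ Dm μ d, ∀ (Ω : Set (Pt k)) (F : Fn k), Sol Ω F →
      ∀ v ∈ Ω, φ r F v = T F v := fun d r => Iff.rfl
  have hL : IsFiltIdeal S L := by
    intro a b x y hx hy
    rw [hSmem] at hx
    rw [hLmem] at hy ⊢
    obtain ⟨T, hT, h1⟩ := hy
    refine ⟨φ x * T, ?_, fun Ω F hF v hv => ?_⟩
    · have := Dm_mul hx hT
      rwa [zero_add] at this
    · rw [map_mul, Module.End.mul_apply, Module.End.mul_apply]
      exact Dm_local hx hF.stable (fun w hw => h1 Ω F hF w hw) v hv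
  have hPA : PF S (m+1) A' := by
    intro i hi
    rw [hSmem, ← Polynomial.coeff_map, hA]
    exact ((PFm_kp pO_mem xO_mem (m+1)) i).1 hi
  have hPB : PF S (l+1) B' := by
    intro i hi
    rw [hSmem, ← Polynomial.coeff_map, hB]
    exact ((PFm_kp (fun i => pO_mem _) (fun i => xO_mem _) (l+1)) i).1 hi
  have hfac : ∀ J : Finset (Fin (k+1)), φ (-A'.nextCoeff - ∑ j ∈ J, α' j) =
      op (facP k ⟨m, by omega⟩ J) 0 := by
    intro J
    have e1 : φ A'.nextCoeff = op (- MvPolynomial.X (Sum.inl ⟨m, by omega⟩)) 0 := by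
      rw [Polynomial.nextCoeff_of_natDegree_pos (by omega), hA'd, Nat.add_sub_cancel,
        ← Polynomial.coeff_map, hA, hAdef, kp_nextCoeff]
      have : ∀ M, ∑ i ∈ range M, pO k i = op (sxP k M) 0 := by
        intro M
        induction M with
        | zero =>
          refine LinearMap.ext fun F => ?_
          funext v
          simp [op_apply, sxP]
        | succ M ih =>
          rw [Finset.sum_range_succ, ih, pO, ← op_add]
          congr 1; ring
      rw [this]
      have h2 : sxP k (m+1) = MvPolynomial.X (Sum.inl ⟨m, by omega⟩) := by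
        simp only [sxP]
        rw [dif_pos]
      rw [h2]
      refine LinearMap.ext fun F => ?_
      funext v
      simp [op_apply]
    have e2 : φ (∑ j ∈ J, α' j) = op (∑ j ∈ J, MvPolynomial.X (Sum.inr j)) 0 := by
      rw [map_sum]
      simp only [hα, aO]
      induction J using Finset.induction_on with
      | empty =>
        refine LinearMap.ext fun F => ?_
        funext v
        simp [op_apply]
      | insert a t ha ih => rw [Finset.sum_insert ha, Finset.sum_insert ha, op_add, ih]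
    rw [map_sub, map_neg, e1, e2, facP, op_sub]
    congr 1
    refine LinearMap.ext fun F => ?_
    funext v
    simp [op_apply]
  have key := ring_lemma hS α' univ (fun i _ => by rw [hSmem, hα]; exact aO_mem i) L hL A' B'
    (m+1) (l+1) hA'm hB'm hA'd hB'd (by simp; omega) hPA hPB ?_
  · -- conclusion
    rw [Finset.card_univ, Fintype.card_fin, hLmem] at key
    obtain ⟨T, hT, h1⟩ := key
    refine ⟨T, hT, fun Ω F hF v hv => ?_⟩
    rw [← h1 Ω F hF v hv]
    have e0 : φ (∏ J ∈ powersetCard (m + 1) univ, (-A'.nextCoeff - ∑ j ∈ J, α' j)) =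
        op (∏ J ∈ powersetCard (m+1) univ, facP k ⟨m, by omega⟩ J) 0 := by
      apply phi_prod
      intro J _
      exact hfac J
    rw [e0]
  · -- coefficient condition
    intro i hi
    rw [Finset.card_univ, Fintype.card_fin] at hi ⊢
    rw [hLmem]
    set rest := kp (fun i => pO k (m + 2 + i)) (fun i => xO k (m + 2 + i)) l *
      (Polynomial.C (xO k m) * kp (pO k) (xO k) m) with hrest
    have hsplit := kp_split (pO k) (xO k) m l
    rw [← hAdef, ← hBdef, ← hrest] at hsplit
    have hrestmem : PFm μ (k+1) rest := by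
      have h1 := PFm_mul (PFm_C (xO_mem' (k := k) m (by omega)))
        (PFm_kp (k := k) pO_mem xO_mem m)
      have h2 := PFm_mul (PFm_kp (p := fun i => pO k (m + 2 + i)) (x := fun i => xO k (m + 2 + i))
        (fun i => pO_mem _) (fun i => xO_mem _) l) h1
      rw [add_zero, zero_add] at h2
      have e : l + (2 + m) = k + 1 := by omega
      rwa [e] at h2
    refine ⟨- rest.coeff i, Submodule.neg_mem _ ((hrestmem i).1 (by omega)), ?_⟩
    intro Ω F hF v hv
    have e1 : φ ((A' * B').coeff i) = (kp (pO k) (xO k) (k+1)).coeff i - rest.coeff i := by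
      rw [← Polynomial.coeff_map, mul_comm A' B', Polynomial.map_mul, hA, hB]
      have e : k + 1 = m + 1 + (l + 1) := by omega
      rw [e, hsplit, Polynomial.coeff_add]
      abel
    have e2 : φ ((∏ j : Fin (k+1), (Polynomial.X - Polynomial.C (α' j))).coeff i) F v =
        (∏ j : Fin (k+1), (Polynomial.X - Polynomial.C (v (Sum.inr j)))).coeff i * F v := by
      set Q : Polynomial (MvPolynomial (Fin (k+1)) ℤ) :=
        ∏ j : Fin (k+1), (Polynomial.X - Polynomial.C (MvPolynomial.X j)) with hQ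
      have q1 : (∏ j : Fin (k+1), (Polynomial.X - Polynomial.C (α' j))) =
          Q.map (MvPolynomial.eval₂Hom (Int.castRingHom 𝒜) α') := by
        rw [hQ, Polynomial.map_prod]
        refine Finset.prod_congr rfl fun j _ => ?_
        simp
      have q2 : (∏ j : Fin (k+1), (Polynomial.X - Polynomial.C (v (Sum.inr j)))) =
          Q.map (MvPolynomial.eval₂Hom (Int.castRingHom ℂ) (fun i => v (Sum.inr i))) := by
        rw [hQ, Polynomial.map_prod]
        refine Finset.prod_congr rfl fun j _ => ?_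
        simp
      rw [q1, q2, Polynomial.coeff_map, Polynomial.coeff_map, psi_apply φ α' hα]
    rw [Polynomial.coeff_sub, map_sub, e1, LinearMap.sub_apply, Pi.sub_apply, e2,
      LinearMap.sub_apply, Pi.sub_apply, hF.coeff hv i (by omega), LinearMap.neg_apply,
      Pi.neg_apply]
    ring

theorem core_one (m l : ℕ) (hk : k = m + 1 + l) :
    ∃ T ∈ Dm (Pi.single ⟨m, by omega⟩ 1 : Fin k → ℕ) ((k+1).choose (m+1)),
      ∀ (Ω : Set (Pt k)) (F : Fn k), Sol Ω F → ∀ v ∈ Ω,
        op (∏ J ∈ powersetCard (m+1) univ, facP k ⟨m, by omega⟩ J) 0 F v = T F v := by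
  classical
  set A := kp (pO k) (xO k) (m+1) with hA
  set B := kp (fun i => pO k (m+1+i)) (fun i => xO k (m+1+i)) (l+1) with hB
  have hT := todaRel_O k
  set G : Set (Module.End ℂ (Fn k)) :=
    Set.range A.coeff ∪ Set.range B.coeff ∪ Set.range (aO k) with hG
  have haA : ∀ i j, aO k i * A.coeff j = A.coeff j * aO k i := fun i j =>
    kp_comm (m+1) (fun _ _ => aO_comm_p _ _) (fun _ _ => aO_comm_x _ _) j
  have haB : ∀ i j, aO k i * B.coeff j = B.coeff j * aO k i := fun i j =>
    kp_comm (l+1) (fun _ _ => aO_comm_p _ _) (fun _ _ => aO_comm_x _ _) j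
  have hAB : ∀ i j, B.coeff j * A.coeff i = A.coeff i * B.coeff j := fun i j =>
    blocks_comm hT (m+1) (l+1) i j
  have hcomm : ∀ a ∈ G, ∀ b ∈ G, a * b = b * a := by
    rintro a ((⟨i, rfl⟩ | ⟨i, rfl⟩) | ⟨i, rfl⟩) b ((⟨j, rfl⟩ | ⟨j, rfl⟩) | ⟨j, rfl⟩)
    · exact coeff_commute hT _ _ _
    · exact (hAB _ _).symm
    · exact (haA _ _).symm
    · exact hAB _ _
    · exact coeff_commute (todaRel_shift hT _) _ _ _
    · exact (haB _ _).symm
    · exact haA _ _
    · exact haB _ _
    · exact aO_comm_a _ _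
  let inst : CommRing (Algebra.adjoin ℂ G) :=
    { (inferInstance : Ring (Algebra.adjoin ℂ G)) with
      mul_comm := (Algebra.isMulCommutative_adjoin ℂ hcomm).is_comm.comm }
  let φ : (Algebra.adjoin ℂ G) →+* Module.End ℂ (Fn k) := (Algebra.adjoin ℂ G).val.toRingHom
  have hφ : Function.Injective φ := Subtype.val_injective
  have hlift : ∀ P : Polynomial (Module.End ℂ (Fn k)), (∀ i, P.coeff i ∈ G) →
      ∃ P' : Polynomial (Algebra.adjoin ℂ G), P'.map φ = P := by
    intro P hP
    have : P ∈ Polynomial.lifts φ := by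
      rw [Polynomial.lifts_iff_coeff_lifts]
      intro i
      exact ⟨⟨P.coeff i, Algebra.subset_adjoin (hP i)⟩, rfl⟩
    rw [Polynomial.mem_lifts] at this
    exact this
  obtain ⟨A', hA'⟩ := hlift A (fun i => Or.inl (Or.inl ⟨i, rfl⟩))
  obtain ⟨B', hB'⟩ := hlift B (fun i => Or.inl (Or.inr ⟨i, rfl⟩))
  exact core_aux m l hk φ hφ A' B' (fun i => ⟨aO k i, Algebra.subset_adjoin (Or.inr ⟨i, rfl⟩)⟩)
    hA' hB' (fun i => rfl)

end Pool.Agent.MP2f3d29
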