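import Mathlib
import Pool.Agent.MP_2f3d29_nt.A4

set_option autoImplicit false

open Finset

namespace Pool.Agent.MP2f3d29

variable {k : ℕ}

/-- `∏_J (s_m + δ - ∑_J α)` -/
noncomputable def QP (k : ℕ) (m : Fin k) (δ : ℕ) : Pl k :=
  ∏ J ∈ powersetCard (m.1+1) (univ : Finset (Fin (k+1))), (facP k m J + MvPolynomial.C (δ : ℂ))

/-- `∏_J (s_m - ∑_J α)_δ` -/
noncomputable def PP (k : ℕ) (m : Fin k) (δ : ℕ) : Pl k :=
  ∏ i ∈ range δ, QP k m i

theorem facP_add_totalDegree (m : Fin k) (J : Finset (Fin (k+1))) (δ : ℕ) :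
    (facP k m J + MvPolynomial.C (δ : ℂ)).totalDegree ≤ 1 := by
  refine (MvPolynomial.totalDegree_add _ _).trans (max_le ?_ ?_)
  · unfold facP
    refine (MvPolynomial.totalDegree_sub _ _).trans (max_le ?_ ?_)
    · rw [MvPolynomial.totalDegree_X]
    · refine MvPolynomial.totalDegree_finsetSum_le fun i _ => ?_
      rw [MvPolynomial.totalDegree_X]
  · rw [MvPolynomial.totalDegree_C]; omega

theorem QP_totalDegree (m : Fin k) (δ : ℕ) :
    (QP k m δ).totalDegree ≤ (k+1).choose (m.1+1) := by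
  refine (MvPolynomial.totalDegree_finsetProd _ _).trans ?_
  refine (Finset.sum_le_card_nsmul _ _ 1 (fun J _ => facP_add_totalDegree m J δ)).trans ?_
  simp

theorem eval_facP (v : Pt k) (m : Fin k) (J : Finset (Fin (k+1))) :
    MvPolynomial.eval v (facP k m J) = v (Sum.inl m) - ∑ j ∈ J, v (Sum.inr j) := by
  simp [facP]

theorem eval_QP (v : Pt k) (m : Fin k) (δ : ℕ) :
    MvPolynomial.eval v (QP k m δ) = ∏ J ∈ powersetCard (m.1+1) (univ : Finset (Fin (k+1))),
      (v (Sum.inl m) - ∑ j ∈ J, v (Sum.inr j) + δ) := by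
  simp [QP, eval_facP, map_prod]

theorem core_iter (m : Fin k) (δ : ℕ) {d : ℕ} {T : Module.End ℂ (Fn k)}
    (hT : T ∈ Dm (Pi.single m δ : Fin k → ℕ) d) :
    ∃ T' ∈ Dm (Pi.single m (δ+1) : Fin k → ℕ) (d + (k+1).choose (m.1+1)),
      ∀ (Ω : Set (Pt k)) (F : Fn k), Sol Ω F → ∀ v ∈ Ω, (op (QP k m δ) 0 * T) F v = T' F v := by
  obtain ⟨T1, hT1, h1⟩ := core_one (k := k) m.1 (k - 1 - m.1) (by have := m.2; omega)
  have hm : (⟨m.1, by have := m.2; omega⟩ : Fin k) = m := rfl
  induction hT using Submodule.span_induction with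
  | mem T hT =>
    obtain ⟨P, c, hc, hd, rfl⟩ := hT
    have hcm : δ ≤ c m := by
      have := hc m; simpa using this
    rcases Nat.eq_or_lt_of_le hcm with h | h
    · refine ⟨op P c * T1, ?_, fun Ω F hF v hv => ?_⟩
      · have := Dm_mul (op_mem_Dm hc hd) hT1
        rwa [hm, ← Pi.single_add] at this
      · rw [Module.End.mul_apply, Module.End.mul_apply, op_apply, op_apply, op_apply, sh_zero,
          ← h1 Ω F hF (sh c v) (hF.stable v hv c), op_apply, sh_zero, eval_QP]
        have : MvPolynomial.eval (sh c v)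
            (∏ J ∈ powersetCard (m.1+1) univ, facP k ⟨m.1, by have := m.2; omega⟩ J) =
            ∏ J ∈ powersetCard (m.1+1) (univ : Finset (Fin (k+1))),
              (v (Sum.inl m) - ∑ j ∈ J, v (Sum.inr j) + δ) := by
          rw [map_prod]
          refine Finset.prod_congr rfl fun J _ => ?_
          rw [eval_facP, hm]
          simp only [sh, Sum.elim_inl, Sum.elim_inr]
          rw [← h]; ring
        rw [this]; ring
    · refine ⟨op (QP k m δ) 0 * op P c, ?_, fun Ω F hF v hv => rfl⟩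
      have h2 : op (QP k m δ) 0 ∈ Dm (0 : Fin k → ℕ) ((k+1).choose (m.1+1)) :=
        op_mem_Dm le_rfl (by simpa using QP_totalDegree m δ)
      have h3 : op P c ∈ Dm (Pi.single m (δ+1) : Fin k → ℕ) d := by
        refine op_mem_Dm ?_ hd
        intro i
        by_cases hi : i = m
        · subst hi; simpa using h
        · simp [Pi.single_eq_of_ne hi]
      have := Dm_mul h2 h3
      rwa [zero_add, add_comm ((k+1).choose (m.1+1)) d] at this
  | zero =>
    exact ⟨0, Submodule.zero_mem _, fun Ω F hF v hv => by simp⟩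
  | add T U _ _ hT hU =>
    obtain ⟨T', hT', h2⟩ := hT
    obtain ⟨U', hU', h3⟩ := hU
    refine ⟨T' + U', Submodule.add_mem _ hT' hU', fun Ω F hF v hv => ?_⟩
    rw [mul_add, LinearMap.add_apply, LinearMap.add_apply, Pi.add_apply, Pi.add_apply,
      h2 Ω F hF v hv, h3 Ω F hF v hv]
  | smul a T _ hT =>
    obtain ⟨T', hT', h2⟩ := hT
    refine ⟨a • T', Submodule.smul_mem _ _ hT', fun Ω F hF v hv => ?_⟩
    rw [mul_smul_comm, LinearMap.smul_apply, LinearMap.smul_apply, Pi.smul_apply, Pi.smul_apply,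
      h2 Ω F hF v hv]

theorem core_delta (m : Fin k) (δ : ℕ) :
    ∃ T ∈ Dm (Pi.single m δ : Fin k → ℕ) (δ * (k+1).choose (m.1+1)),
      ∀ (Ω : Set (Pt k)) (F : Fn k), Sol Ω F → ∀ v ∈ Ω, op (PP k m δ) 0 F v = T F v := by
  induction δ with
  | zero =>
    refine ⟨1, ?_, fun Ω F hF v hv => ?_⟩
    · rw [Pi.single_zero, zero_mul]; exact one_mem_Dm
    · simp [PP, op_apply, sh_zero]
  | succ δ ih =>
    obtain ⟨T, hT, h⟩ := ih
    obtain ⟨T', hT', h'⟩ := core_iter m δ hT
    refine ⟨T', ?_, fun Ω F hF v hv => ?_⟩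
    · have e : (δ + 1) * (k+1).choose (m.1+1) =
        δ * (k+1).choose (m.1+1) + (k+1).choose (m.1+1) := by ring
      rw [e]; exact hT'
    · rw [← h' Ω F hF v hv, PP, Finset.prod_range_succ, mul_comm, ← op_mul_zero,
        Module.End.mul_apply, Module.End.mul_apply]
      exact Dm_local (μ := 0) (d := (QP k m δ).totalDegree) (op_mem_Dm le_rfl (by simp))
        hF.stable (fun w hw => h Ω F hF w hw) v hv

/-- every element of the filtered piece is a finite sum -/
theorem Dm_repr {μ : Fin k → ℕ} {d : ℕ} {T : Module.End ℂ (Fn k)} (hT : T ∈ Dm μ d) :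
    ∃ (r : ℕ) (P : Fin r → Pl k) (c : Fin r → Fin k → ℕ), (∀ i, μ ≤ c i) ∧
      (∀ i, (P i).totalDegree + 2 * ∑ j, c i j ≤ d) ∧ T = ∑ i, op (P i) (c i) := by
  obtain ⟨r, f, g, hfg⟩ := Submodule.mem_span_set'.1 hT
  have hg : ∀ i, ∃ (P : Pl k) (c : Fin k → ℕ), μ ≤ c ∧
    P.totalDegree + 2 * ∑ j, c j ≤ d ∧ (g i : Module.End ℂ (Fn k)) = op P c := fun i => (g i).2
  choose P c h1 h2 h3 using hg
  refine ⟨r, fun i => f i • P i, c, h1, fun i => ?_, ?_⟩
  · refine le_trans ?_ (h2 i)
    gcongr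
    exact MvPolynomial.totalDegree_smul_le _ _
  · rw [← hfg]
    refine Finset.sum_congr rfl fun i _ => ?_
    rw [h3, op_smul]

/-- splitting a polynomial into two pieces of exact degree -/
theorem split_exact (m : Fin k) (P : Pl k) (e : ℕ) (h : P.totalDegree ≤ e) :
    ∃ P1 P2 : Pl k, P1 + P2 = P ∧ P1.totalDegree = e ∧ P2.totalDegree = e := by
  classical
  set s : Vr k →₀ ℕ := Finsupp.single (Sum.inl m) e with hs
  have hsdeg : s.sum (fun _ n => n) = e := by simp [hs]
  obtain ⟨a, ha1, ha2⟩ : ∃ a : ℂ, a ≠ 0 ∧ MvPolynomial.coeff s P + a ≠ 0 := by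
    by_cases h : MvPolynomial.coeff s P + 1 = 0
    · refine ⟨2, two_ne_zero, ?_⟩
      have : MvPolynomial.coeff s P = -1 := by linear_combination h
      rw [this]; norm_num
    · exact ⟨1, one_ne_zero, h⟩
  have hdegm : ∀ b : ℂ, (MvPolynomial.monomial s b : Pl k).totalDegree ≤ e := by
    intro b
    refine (MvPolynomial.totalDegree_monomial_le _ _).trans ?_
    exact hsdeg.le
  refine ⟨P + MvPolynomial.monomial s a, MvPolynomial.monomial s (-a), ?_, ?_, ?_⟩
  · rw [add_assoc, ← map_add]; simp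
  · apply le_antisymm
    · exact (MvPolynomial.totalDegree_add _ _).trans (max_le h (hdegm a))
    · have : s ∈ (P + MvPolynomial.monomial s a).support := by
        rw [MvPolynomial.mem_support_iff, MvPolynomial.coeff_add, MvPolynomial.coeff_monomial,
          if_pos rfl]
        exact ha2
      have := MvPolynomial.le_totalDegree this
      rwa [hsdeg] at this
  · apply le_antisymm (hdegm _)
    have : s ∈ (MvPolynomial.monomial s (-a) : Pl k).support := by
      rw [MvPolynomial.mem_support_iff, MvPolynomial.coeff_monomial, if_pos rfl]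
      exact neg_ne_zero.2 ha1
    have := MvPolynomial.le_totalDegree this
    rwa [hsdeg] at this

/-- The algebraic core: shift equations for every solution of the difference Toda system. -/
theorem core (m : Fin k) (δ : ℕ) :
    ∃ (r : ℕ) (_ : 1 ≤ r) (P : Fin r → Pl k) (c : Fin r → Fin k → ℕ),
      (∀ i, δ ≤ c i m) ∧
      (∀ i, (P i).totalDegree + 2 * ∑ j, c i j = δ * (k+1).choose (m.1+1)) ∧
      ∀ (Ω : Set (Pt k)) (F : Fn k), Sol Ω F → ∀ v ∈ Ω,
        (∏ J ∈ powersetCard (m.1+1) (univ : Finset (Fin (k+1))), ∏ i ∈ range δ,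
          (v (Sum.inl m) - ∑ j ∈ J, v (Sum.inr j) + i)) * F v =
        ∑ i, MvPolynomial.eval v (P i) * F (sh (c i) v) := by
  classical
  obtain ⟨T, hT, h⟩ := core_delta m δ
  obtain ⟨r, P, c, h1, h2, rfl⟩ := Dm_repr hT
  have hN : 2 ≤ (k+1).choose (m.1+1) := by
    have := m.2
    have h3 : 0 < k.choose m.1 := Nat.choose_pos (by omega)
    have h4 : 0 < k.choose (m.1+1) := Nat.choose_pos (by omega)
    rw [Nat.choose_succ_succ']; omega
  set N := (k+1).choose (m.1+1) with hNdef
  have hsplit : ∀ i, ∃ P1 P2 : Pl k, P1 + P2 = P i ∧ P1.totalDegree = δ * N - 2 * ∑ j, c i j ∧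
      P2.totalDegree = δ * N - 2 * ∑ j, c i j := fun i =>
    split_exact m (P i) _ (by have := h2 i; omega)
  choose P1 P2 hP hP1 hP2 using hsplit
  obtain ⟨Q1, Q2, hQ, hQ1, hQ2⟩ := split_exact m 0 (δ * N - 2 * δ) (by simp)
  have hδN : 2 * δ ≤ δ * N := by nlinarith
  -- index type
  let ι := (Fin r ⊕ Fin r) ⊕ Bool
  let PP' : ι → Pl k := Sum.elim (Sum.elim P1 P2) (fun b => if b then Q1 else Q2)
  let cc : ι → Fin k → ℕ := Sum.elim (Sum.elim c c) (fun _ => Pi.single m δ)
  let e : ι ≃ Fin (Fintype.card ι) := Fintype.equivFin ι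
  have hcard : 1 ≤ Fintype.card ι := Fintype.card_pos_iff.2 ⟨Sum.inr true⟩
  have hcm : ∀ i, δ ≤ c i m := fun i => by have := h1 i m; simpa using this
  refine ⟨Fintype.card ι, hcard, fun i => PP' (e.symm i), fun i => cc (e.symm i), ?_, ?_, ?_⟩
  · intro i
    show δ ≤ cc (e.symm i) m
    rcases e.symm i with (j | j) | b
    · exact hcm j
    · exact hcm j
    · simp [cc]
  · intro i
    show (PP' (e.symm i)).totalDegree + 2 * ∑ j, cc (e.symm i) j = δ * N
    rcases e.symm i with (j | j) | b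
    · show (P1 j).totalDegree + 2 * ∑ i, c j i = δ * N
      rw [hP1]; have := h2 j; omega
    · show (P2 j).totalDegree + 2 * ∑ i, c j i = δ * N
      rw [hP2]; have := h2 j; omega
    · have hs : ∑ j, (Pi.single m δ : Fin k → ℕ) j = δ := by simp
      show (if b = true then Q1 else Q2 : Pl k).totalDegree + 2 * ∑ j, (Pi.single m δ : Fin k → ℕ) j = δ * N
      rw [hs]
      cases b
      · simp only [Bool.false_eq_true, if_false, hQ2]; omega
      · simp only [if_true, hQ1]; omega
  · intro Ω F hF v hv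
    have hh := h Ω F hF v hv
    rw [op_apply, sh_zero] at hh
    have e1 : MvPolynomial.eval v (PP k m δ) =
        ∏ J ∈ powersetCard (m.1+1) (univ : Finset (Fin (k+1))), ∏ i ∈ range δ,
          (v (Sum.inl m) - ∑ j ∈ J, v (Sum.inr j) + i) := by
      rw [PP, map_prod, Finset.prod_comm]
      refine Finset.prod_congr rfl fun i _ => ?_
      rw [eval_QP]
    rw [← e1, hh, LinearMap.sum_apply, Finset.sum_apply]
    rw [Equiv.sum_comp e.symm (fun i => MvPolynomial.eval v (PP' i) * F (sh (cc i) v))]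
    rw [Fintype.sum_sum_type, Fintype.sum_sum_type, Fintype.sum_bool]
    show _ = ∑ i, MvPolynomial.eval v (P1 i) * F (sh (c i) v) +
      ∑ i, MvPolynomial.eval v (P2 i) * F (sh (c i) v) +
      (MvPolynomial.eval v Q1 * F (sh (Pi.single m δ) v) +
       MvPolynomial.eval v Q2 * F (sh (Pi.single m δ) v))
    rw [← add_mul, ← map_add, hQ, map_zero, zero_mul, add_zero, ← Finset.sum_add_distrib]
    refine Finset.sum_congr rfl fun i _ => ?_
    rw [← add_mul, ← map_add, hP, op_apply]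

end Pool.Agent.MP2f3d29
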