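import Mathlib
import Pool.Agent.MP_2f3d29_nt.A5

set_option autoImplicit false

open Finset

namespace Pool.Agent.MP2f3d29

variable {k : ℕ}

/-! ### The second Hamiltonian -/

theorem kp_coeff_two {R : Type*} [Ring R] [Nontrivial R] (p x : ℕ → R) (n : ℕ) :
    (kp p x (n+2)).coeff n =
      ∑ j ∈ range (n+2), p j * ∑ i ∈ range j, p i + ∑ j ∈ range (n+1), x j := by
  induction n with
  | zero =>
    rw [kp_succ, Polynomial.coeff_add, coeff_X_sub_C_mul, Polynomial.coeff_C_mul, kp_one, kp_zero]
    simp [Finset.sum_range_succ]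
  | succ n ih =>
    rw [kp_succ, Polynomial.coeff_add, coeff_X_sub_C_mul, Polynomial.coeff_X_mul, ih,
      kp_nextCoeff, Polynomial.coeff_C_mul]
    have h1 : (kp p x (n+1)).coeff (n+1) = 1 := by
      have := (kp_natDegree p x (n+1))
      have h := this.1.coeff_natDegree; rwa [this.2] at h
    rw [h1, Finset.sum_range_succ _ (n+2), Finset.sum_range_succ x (n+1), mul_neg, sub_neg_eq_add,
      mul_one]
    abel

theorem prod_eq_kp (a : ℕ → ℂ) (n : ℕ) :
    ∏ j ∈ range n, (Polynomial.X - Polynomial.C (a j)) = kp a (fun _ => 0) n := by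
  induction n using Nat.twoStepInduction with
  | zero => simp [kp_zero]
  | one => simp [kp_one]
  | more n ih1 ih2 =>
    rw [Finset.prod_range_succ, ih2, kp_succ, mul_comm]
    simp

theorem two_sum (p : ℕ → ℂ) (n : ℕ) : ∑ j ∈ range n, p j * ∑ i ∈ range j, p i =
    ((∑ i ∈ range n, p i) ^ 2 - ∑ i ∈ range n, p i ^ 2) / 2 := by
  induction n with
  | zero => simp
  | succ n ih => rw [Finset.sum_range_succ, ih, Finset.sum_range_succ p, Finset.sum_range_succ]; ring

/-- the second Hamiltonian, as a polynomial -/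
noncomputable def qP (k : ℕ) : Pl k :=
  MvPolynomial.C (-1 / 2) * ∑ i ∈ range (k+1), (sxP k (i+1) - sxP k i) ^ 2 +
    MvPolynomial.C (1 / 2) * (∑ j : Fin (k+1), MvPolynomial.X (Sum.inr j) ^ 2 -
      (∑ j : Fin (k+1), MvPolynomial.X (Sum.inr j)) ^ 2)

theorem sxP_last (k : ℕ) : sxP k (k+1) = 0 := by simp [sxP]

theorem pO_apply (i : ℕ) (F : Fn k) (v : Pt k) :
    pO k i F v = MvPolynomial.eval v (sxP k (i+1) - sxP k i) * F v := by
  unfold pO; rw [op_apply, sh_zero]

theorem Sol.second {Ω : Set (Pt k)} {F : Fn k} (hF : Sol Ω F) (hk : 1 ≤ k) {v : Pt k}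
    (hv : v ∈ Ω) :
    MvPolynomial.eval v (qP k) * F v + ∑ j : Fin k, F (sh (Pi.single j 1) v) = 0 := by
  obtain ⟨k', rfl⟩ : ∃ k', k = k' + 1 := ⟨k - 1, by omega⟩
  have h := hF.coeff hv k' (by omega)
  rw [kp_coeff_two] at h
  set a : ℕ → ℂ := fun i => if h : i < k' + 1 + 1 then v (Sum.inr ⟨i, h⟩) else 0 with ha
  have haj : ∀ j : Fin (k' + 1 + 1), a j = v (Sum.inr j) := by
    intro j
    simp only [ha]
    rw [dif_pos j.2]
  have hprod : (∏ j : Fin (k' + 1 + 1), (Polynomial.X - Polynomial.C (v (Sum.inr j)))) =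
      ∏ j ∈ range (k' + 1 + 1), (Polynomial.X - Polynomial.C (a j)) := by
    rw [Finset.prod_range]
    refine Finset.prod_congr rfl fun j _ => ?_
    rw [haj]
  rw [hprod, prod_eq_kp, kp_coeff_two, two_sum] at h
  set p : ℕ → ℂ := fun i => MvPolynomial.eval v (sxP (k'+1) (i+1) - sxP (k'+1) i) with hp
  have h1 : (∑ j ∈ range (k' + 2), pO (k'+1) j * ∑ i ∈ range j, pO (k'+1) i +
      ∑ j ∈ range (k' + 1), xO (k'+1) j) F v =
      (∑ j ∈ range (k' + 2), p j * ∑ i ∈ range j, p i) * F v +
        ∑ j : Fin (k'+1), F (sh (Pi.single j 1) v) := by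
    rw [LinearMap.add_apply, Pi.add_apply, LinearMap.sum_apply, LinearMap.sum_apply,
      Finset.sum_apply, Finset.sum_apply, Finset.sum_mul]
    congr 1
    · refine Finset.sum_congr rfl fun j _ => ?_
      rw [Module.End.mul_apply, pO_apply, LinearMap.sum_apply, Finset.sum_apply, mul_assoc,
        Finset.sum_mul]
      simp only [pO_apply, hp]
    · rw [Finset.sum_range]
      refine Finset.sum_congr rfl fun j _ => ?_
      unfold xO
      rw [dif_pos j.2, op_apply, map_one, one_mul]
  rw [h1, two_sum] at h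
  have hps : ∑ i ∈ range (k' + 2), p i = 0 := by
    simp only [hp, map_sub]
    rw [Finset.sum_range_sub (fun i => MvPolynomial.eval v (sxP (k'+1) i)), sxP_last]
    simp [sxP]
  have ha1 : ∑ i ∈ range (k' + 2), a i = ∑ j : Fin (k'+1+1), v (Sum.inr j) := by
    rw [Finset.sum_range]
    exact Finset.sum_congr rfl fun j _ => haj j
  have ha2 : ∑ i ∈ range (k' + 2), a i ^ 2 = ∑ j : Fin (k'+1+1), v (Sum.inr j) ^ 2 := by
    rw [Finset.sum_range]
    exact Finset.sum_congr rfl fun j _ => by rw [haj j]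
  rw [hps, ha1, ha2] at h
  have hq : MvPolynomial.eval v (qP (k'+1)) = (-1/2) * ∑ i ∈ range (k' + 2), p i ^ 2 +
      (1/2) * (∑ j : Fin (k'+1+1), v (Sum.inr j) ^ 2 - (∑ j : Fin (k'+1+1), v (Sum.inr j)) ^ 2) := by
    simp [qP, hp]
  rw [hq]
  simp only [Finset.sum_const_zero, add_zero] at h
  linear_combination h

theorem totalDegree_qP (k : ℕ) : (qP k).totalDegree ≤ 2 := by
  have hsq : ∀ P : Pl k, P.totalDegree ≤ 1 → (P ^ 2).totalDegree ≤ 2 := fun P hP =>
    (MvPolynomial.totalDegree_pow _ _).trans (by omega)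
  have hp : ∀ i, (sxP k (i+1) - sxP k i).totalDegree ≤ 1 := fun i =>
    (MvPolynomial.totalDegree_sub _ _).trans (max_le (totalDegree_sxP _) (totalDegree_sxP _))
  have hC : ∀ (a : ℂ) (P : Pl k), P.totalDegree ≤ 2 → (MvPolynomial.C a * P).totalDegree ≤ 2 := by
    intro a P hP
    refine (MvPolynomial.totalDegree_mul _ _).trans ?_
    rw [MvPolynomial.totalDegree_C, zero_add]; exact hP
  unfold qP
  refine (MvPolynomial.totalDegree_add _ _).trans (max_le (hC _ _ ?_) (hC _ _ ?_))
  · exact MvPolynomial.totalDegree_finsetSum_le fun i _ => hsq _ (hp i)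
  · refine (MvPolynomial.totalDegree_sub _ _).trans (max_le ?_ (hsq _ ?_))
    · exact MvPolynomial.totalDegree_finsetSum_le fun i _ => hsq _ (by rw [MvPolynomial.totalDegree_X])
    · exact MvPolynomial.totalDegree_finsetSum_le fun i _ => by rw [MvPolynomial.totalDegree_X]

/-! ### restriction to a coordinate line -/

/-- restriction to the line `s_m = t`, all other variables zero -/
noncomputable def psm (m : Fin k) : Pl k →ₐ[ℂ] Polynomial ℂ :=
  MvPolynomial.aeval (fun w => if w = Sum.inl m then Polynomial.X else 0)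

theorem psm_coeff (m : Fin k) (P : Pl k) (D : ℕ) :
    (psm m P).coeff D = MvPolynomial.coeff (Finsupp.single (Sum.inl m) D) P := by
  classical
  induction P using MvPolynomial.induction_on' with
  | add p q hp hq => rw [map_add, Polynomial.coeff_add, hp, hq, MvPolynomial.coeff_add]
  | monomial u a =>
    unfold psm
    rw [MvPolynomial.aeval_monomial, MvPolynomial.coeff_monomial]
    by_cases h : ∃ w, w ≠ Sum.inl m ∧ u w ≠ 0
    · obtain ⟨w, hw, huw⟩ := h
      have h0 : (u.prod fun i k_1 => (if i = Sum.inl m then (Polynomial.X : Polynomial ℂ) else 0) ^ k_1) = 0 := by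
        refine Finset.prod_eq_zero (Finsupp.mem_support_iff.2 huw) ?_
        simp only [if_neg hw]
        exact zero_pow huw
      have h1 : u ≠ Finsupp.single (Sum.inl m) D := by
        intro h2
        apply huw
        rw [h2, Finsupp.single_eq_of_ne hw]
      rw [h0, if_neg h1]; simp
    · push Not at h
      have hu : u = Finsupp.single (Sum.inl m) (u (Sum.inl m)) := by
        ext w
        by_cases hw : w = Sum.inl m
        · subst hw; simp
        · rw [h w hw, Finsupp.single_eq_of_ne hw]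
      rw [hu, Finsupp.prod_single_index (by simp), if_pos rfl]
      simp only [Polynomial.algebraMap_eq, Polynomial.coeff_C_mul,
        Polynomial.coeff_X_pow]
      by_cases hD : D = u (Sum.inl m)
      · rw [if_pos hD, if_pos (by rw [hD])]; simp
      · rw [if_neg hD, if_neg (fun h2 => hD ((Finsupp.single_injective _ h2).symm))]; simp

theorem psm_X (m : Fin k) : psm m (MvPolynomial.X (Sum.inl m)) = Polynomial.X := by
  simp [psm]

theorem psm_shP_inr (m : Fin k) (c : Fin k → ℕ) (j : Fin (k+1)) :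
    psm m (shP c (MvPolynomial.X (Sum.inr j))) = 0 := by
  simp [shP, psm]

theorem psm_shP_sxP (m : Fin k) (c : Fin k → ℕ) (i : ℕ) : ∃ g : ℂ,
    psm m (shP c (sxP k i)) = Polynomial.C g +
      Polynomial.C (if i = m + 1 then 1 else 0) * Polynomial.X := by
  cases i with
  | zero => exact ⟨0, by simp [sxP]⟩
  | succ i =>
    by_cases h : i < k
    · refine ⟨c ⟨i, h⟩, ?_⟩
      have h1 : sxP k (i+1) = MvPolynomial.X (Sum.inl ⟨i, h⟩) := by simp [sxP, h]
      rw [h1]
      by_cases h2 : i = m
      · have h3 : (⟨i, h⟩ : Fin k) = m := by ext; exact h2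
        rw [h3, if_pos (by omega)]
        simp [shP, psm]
        ring
      · have h3 : (⟨i, h⟩ : Fin k) ≠ m := by intro h4; apply h2; rw [← h4]
        rw [if_neg (by omega)]
        simp [shP, psm, h3]
    · refine ⟨0, ?_⟩
      have h1 : sxP k (i+1) = 0 := by simp [sxP, h]
      rw [h1, if_neg (by have := m.2; omega)]
      simp

theorem psm_qP (m : Fin k) (c : Fin k → ℕ) : (psm m (shP c (qP k))).coeff 2 = -1 := by
  choose g hg using psm_shP_sxP m c
  unfold qP
  simp only [map_add, map_mul, map_sub, map_sum, map_pow, psm_shP_inr, hg]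
  have hC : ∀ a : ℂ, psm m (shP c (MvPolynomial.C a)) = Polynomial.C a := by
    intro a; simp [shP, psm]
  rw [hC, hC]
  have h1 : ∀ i : ℕ, ((Polynomial.C (g (i+1)) + Polynomial.C (if i + 1 = (m : ℕ) + 1 then (1 : ℂ) else 0) *
      Polynomial.X - (Polynomial.C (g i) + Polynomial.C (if i = (m : ℕ) + 1 then (1 : ℂ) else 0) *
        Polynomial.X)) ^ 2).coeff 2 =
      (if i = (m : ℕ) then (1 : ℂ) else 0) + (if i = (m : ℕ) + 1 then (1 : ℂ) else 0) := by
    intro i
    set b : ℂ := (if i + 1 = (m : ℕ) + 1 then (1 : ℂ) else 0) - (if i = (m : ℕ) + 1 then (1 : ℂ) else 0)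
      with hb
    have e1 : (Polynomial.C (g (i+1)) + Polynomial.C (if i + 1 = (m : ℕ) + 1 then (1 : ℂ) else 0) *
      Polynomial.X - (Polynomial.C (g i) + Polynomial.C (if i = (m : ℕ) + 1 then (1 : ℂ) else 0) *
        Polynomial.X)) ^ 2 = Polynomial.C ((g (i+1) - g i) ^ 2) +
        Polynomial.C (2 * (g (i+1) - g i) * b) * Polynomial.X + Polynomial.C (b ^ 2) * Polynomial.X ^ 2 := by
      rw [hb]
      simp only [map_sub, map_mul, map_pow]
      have : (Polynomial.C (2 : ℂ)) = 2 := map_ofNat Polynomial.C 2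
      rw [this]
      ring
    rw [e1]
    simp only [Polynomial.coeff_add, Polynomial.coeff_C_mul, Polynomial.coeff_X_pow, if_true,
      Polynomial.coeff_X, Polynomial.coeff_C]
    norm_num
    rw [hb]
    by_cases h2 : i = m
    · subst h2; simp
    · by_cases h3 : i = m + 1
      · subst h3; simp
      · rw [if_neg (by omega), if_neg h3, if_neg h2]; norm_num
  simp only [Polynomial.coeff_add, Polynomial.coeff_C_mul, Polynomial.finsetSum_coeff, h1]
  rw [Finset.sum_add_distrib, Finset.sum_ite_eq', Finset.sum_ite_eq', if_pos, if_pos]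
  · simp only [Polynomial.coeff_C_mul, Polynomial.coeff_sub]
    simp
    norm_num
  · have := m.2; simp
  · have := m.2
    rw [Finset.mem_range]; omega

/-! ### general position -/

theorem exists_generic {V ι : Type*} [AddCommGroup V] [Module ℂ V] [DecidableEq ι] (s : Finset ι)
    (f : ι → V →ₗ[ℂ] ℂ) (h : ∀ i ∈ s, ∃ v, f i v ≠ 0) : ∃ v, ∀ i ∈ s, f i v ≠ 0 := by
  classical
  induction s using Finset.induction_on with
  | empty => exact ⟨0, by simp⟩
  | insert a s ha ih =>
    obtain ⟨v, hv⟩ := ih (fun i hi => h i (by simp [hi]))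
    obtain ⟨w, hw⟩ := h a (by simp)
    obtain ⟨t, ht⟩ := Infinite.exists_notMem_finset ((insert a s).image (fun i => - f i v / f i w))
    refine ⟨v + t • w, fun i hi => ?_⟩
    rw [map_add, map_smul, smul_eq_mul]
    by_cases hiw : f i w = 0
    · rw [hiw, mul_zero, add_zero]
      rcases Finset.mem_insert.1 hi with rfl | hi
      · exact absurd hiw hw
      · exact hv i hi
    · intro h0
      apply ht
      rw [Finset.mem_image]
      refine ⟨i, hi, ?_⟩
      field_simp
      linear_combination -h0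

end Pool.Agent.MP2f3d29
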