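import Mathlib
import Pool.Agent.MP_2f3d29_nt.A6

set_option autoImplicit false

open Finset

namespace Pool.Agent.MP2f3d29

variable {k : ℕ}

open scoped Classical in
/-- the admissible shifts -/
noncomputable def Ys (μ : Fin k → ℕ) (d : ℕ) : Finset (Fin k → ℕ) :=
  (Fintype.piFinset (fun _ => range (d+1))).filter (fun c => μ ≤ c ∧ 2 * ∑ j, c j ≤ d)

theorem mem_Ys {μ : Fin k → ℕ} {d : ℕ} {c : Fin k → ℕ} :
    c ∈ Ys μ d ↔ μ ≤ c ∧ 2 * ∑ j, c j ≤ d := by
  classical
  unfold Ys
  rw [Finset.mem_filter]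
  constructor
  · exact fun h => h.2
  · intro h
    refine ⟨?_, h⟩
    rw [Fintype.mem_piFinset]
    intro j
    rw [Finset.mem_range]
    have := Finset.single_le_sum (f := c) (fun i _ => Nat.zero_le _) (Finset.mem_univ j)
    omega

/-- representations of the multiples of `T` -/
noncomputable def Vs (μ : Fin k → ℕ) (d : ℕ) (T : Module.End ℂ (Fn k)) :
    Submodule ℂ (((Fin k → ℕ) → Pl k) × ℂ) where
  carrier := {p | (∀ c ∈ Ys μ d, (p.1 c).totalDegree + 2 * ∑ j, c j ≤ d) ∧
    ∀ (Ω : Set (Pt k)) (F : Fn k), Sol Ω F → ∀ v ∈ Ω,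
      ∑ c ∈ Ys μ d, MvPolynomial.eval v (p.1 c) * F (sh c v) = p.2 * T F v}
  add_mem' := by
    rintro p q ⟨hp1, hp2⟩ ⟨hq1, hq2⟩
    refine ⟨fun c hc => ?_, fun Ω F hF v hv => ?_⟩
    · have h1 := hp1 c hc
      have h2 := hq1 c hc
      have h3 := MvPolynomial.totalDegree_add (p.1 c) (q.1 c)
      show (p.1 c + q.1 c).totalDegree + _ ≤ d
      rcases le_max_iff.1 h3 with h | h <;> omega
    · show ∑ c ∈ Ys μ d, MvPolynomial.eval v (p.1 c + q.1 c) * F (sh c v) = (p.2 + q.2) * T F v
      simp only [map_add, add_mul, Finset.sum_add_distrib]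
      rw [hp2 Ω F hF v hv, hq2 Ω F hF v hv]
  zero_mem' := by
    refine ⟨fun c hc => ?_, fun Ω F hF v hv => ?_⟩
    · show (0 : Pl k).totalDegree + _ ≤ d
      rw [MvPolynomial.totalDegree_zero, zero_add]
      exact (mem_Ys.1 hc).2
    · show ∑ c ∈ Ys μ d, MvPolynomial.eval v (0 : Pl k) * F (sh c v) = (0 : ℂ) * T F v
      simp
  smul_mem' := by
    rintro a p ⟨hp1, hp2⟩
    refine ⟨fun c hc => ?_, fun Ω F hF v hv => ?_⟩
    · have h1 := hp1 c hc
      have h3 := MvPolynomial.totalDegree_smul_le a (p.1 c)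
      show (a • p.1 c).totalDegree + _ ≤ d
      omega
    · show ∑ c ∈ Ys μ d, MvPolynomial.eval v (a • p.1 c) * F (sh c v) = (a * p.2) * T F v
      simp only [MvPolynomial.smul_eval, mul_assoc]
      rw [← Finset.mul_sum, hp2 Ω F hF v hv]

theorem Vs_T {μ : Fin k → ℕ} {d : ℕ} {T : Module.End ℂ (Fn k)} (hT : T ∈ Dm μ d) :
    ∃ p ∈ Vs μ d T, p.2 = 1 := by
  classical
  obtain ⟨r, P, c, h1, h2, rfl⟩ := Dm_repr hT
  have hcY : ∀ i ∈ (Finset.univ : Finset (Fin r)), c i ∈ Ys μ d := fun i _ =>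
    mem_Ys.2 ⟨h1 i, by have := h2 i; omega⟩
  refine ⟨(fun c0 => ∑ i ∈ Finset.univ.filter (fun i => c i = c0), P i, 1), ⟨?_, ?_⟩, rfl⟩
  · intro c0 hc0
    have h3 : (∑ i ∈ Finset.univ.filter (fun i => c i = c0), P i).totalDegree ≤
        d - 2 * ∑ j, c0 j := by
      refine MvPolynomial.totalDegree_finsetSum_le fun i hi => ?_
      have := h2 i
      rw [(Finset.mem_filter.1 hi).2] at this
      omega
    have := (mem_Ys.1 hc0).2
    show (∑ i ∈ Finset.univ.filter (fun i => c i = c0), P i).totalDegree + _ ≤ d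
    omega
  · intro Ω F hF v hv
    show ∑ c0 ∈ Ys μ d, MvPolynomial.eval v (∑ i ∈ Finset.univ.filter (fun i => c i = c0), P i) *
      F (sh c0 v) = 1 * (∑ i, op (P i) (c i)) F v
    rw [one_mul, LinearMap.sum_apply, Finset.sum_apply]
    rw [← Finset.sum_fiberwise_of_maps_to hcY]
    refine Finset.sum_congr rfl fun c0 _ => ?_
    rw [map_sum, Finset.sum_mul]
    refine Finset.sum_congr rfl fun i hi => ?_
    rw [op_apply, (Finset.mem_filter.1 hi).2]

open scoped Classical in
/-- the trivial relations -/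
noncomputable def zr (c0 : Fin k → ℕ) (L : Pl k) : (Fin k → ℕ) → Pl k := fun c =>
  (if c = c0 then L * shP c0 (qP k) else 0) +
    ∑ j : Fin k, if c = c0 + Pi.single j 1 then L else 0

theorem Vs_zero (hk : 1 ≤ k) {μ : Fin k → ℕ} {d : ℕ} {T : Module.End ℂ (Fn k)} {c0 : Fin k → ℕ}
    (hc0 : μ ≤ c0) {L : Pl k} (hL : L.totalDegree + 2 * ∑ j, c0 j + 2 ≤ d) :
    (zr c0 L, (0 : ℂ)) ∈ Vs μ d T := by
  classical
  have hsum : ∀ j : Fin k, ∑ i, (c0 + Pi.single j 1 : Fin k → ℕ) i = ∑ i, c0 i + 1 := by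
    intro j
    simp [Finset.sum_add_distrib]
  have hY0 : c0 ∈ Ys μ d := mem_Ys.2 ⟨hc0, by omega⟩
  have hYj : ∀ j : Fin k, c0 + Pi.single j 1 ∈ Ys μ d := fun j =>
    mem_Ys.2 ⟨le_add_right hc0, by rw [hsum]; omega⟩
  refine ⟨fun c hc => ?_, fun Ω F hF v hv => ?_⟩
  · have hcd := (mem_Ys.1 hc).2
    have h3 : (zr c0 L c).totalDegree ≤ d - 2 * ∑ j, c j := by
      unfold zr
      refine (MvPolynomial.totalDegree_add _ _).trans (max_le ?_ ?_)
      · split_ifs with h
        · subst h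
          refine (MvPolynomial.totalDegree_mul _ _).trans ?_
          have := (totalDegree_shP_le c (qP k)).trans (totalDegree_qP k)
          omega
        · simp
      · refine MvPolynomial.totalDegree_finsetSum_le fun j _ => ?_
        split_ifs with h
        · subst h
          rw [hsum]; omega
        · simp
    show (zr c0 L c).totalDegree + _ ≤ d
    omega
  · show ∑ c ∈ Ys μ d, MvPolynomial.eval v (zr c0 L c) * F (sh c v) = 0 * T F v
    rw [zero_mul]
    have h1 : ∀ c, MvPolynomial.eval v (zr c0 L c) * F (sh c v) =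
        (if c = c0 then MvPolynomial.eval v L * (MvPolynomial.eval (sh c0 v) (qP k) *
          F (sh c0 v)) else 0) +
        ∑ j : Fin k, if c = c0 + Pi.single j 1 then
          MvPolynomial.eval v L * F (sh (Pi.single j 1) (sh c0 v)) else 0 := by
      intro c
      unfold zr
      rw [map_add, add_mul, map_sum, Finset.sum_mul]
      congr 1
      · split_ifs with h
        · rw [map_mul, eval_shP, h]; ring
        · simp
      · refine Finset.sum_congr rfl fun j _ => ?_
        split_ifs with h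
        · rw [sh_sh, h]
        · simp
    rw [Finset.sum_congr rfl (fun c _ => h1 c), Finset.sum_add_distrib, Finset.sum_comm,
      Finset.sum_ite_eq', if_pos hY0]
    have h2 : ∀ j : Fin k, ∑ c ∈ Ys μ d, (if c = c0 + Pi.single j 1 then
          MvPolynomial.eval v L * F (sh (Pi.single j 1) (sh c0 v)) else 0) =
          MvPolynomial.eval v L * F (sh (Pi.single j 1) (sh c0 v)) := by
      intro j
      rw [Finset.sum_ite_eq', if_pos (hYj j)]
    rw [Finset.sum_congr rfl (fun j _ => h2 j), ← Finset.mul_sum, ← mul_add,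
      hF.second hk (hF.stable v hv c0), mul_zero]

/-- the coefficient functionals -/
noncomputable def lamc (m : Fin k) (D : ℕ) (c : Fin k → ℕ) :
    (((Fin k → ℕ) → Pl k) × ℂ) →ₗ[ℂ] ℂ where
  toFun p := MvPolynomial.coeff (Finsupp.single (Sum.inl m) D) (p.1 c)
  map_add' p q := by simp
  map_smul' a p := by simp

theorem exact_repr (hk : 1 ≤ k) (m : Fin k) {μ : Fin k → ℕ} {d : ℕ} {T : Module.End ℂ (Fn k)}
    (hT : T ∈ Dm μ d) (hμ : 2 * ∑ j, μ j + 2 ≤ d) :
    ∃ P : (Fin k → ℕ) → Pl k, (∀ c ∈ Ys μ d, (P c).totalDegree + 2 * ∑ j, c j = d ∧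
        MvPolynomial.coeff (Finsupp.single (Sum.inl m) (P c).totalDegree) (P c) ≠ 0) ∧
      ∀ (Ω : Set (Pt k)) (F : Fn k), Sol Ω F → ∀ v ∈ Ω,
        T F v = ∑ c ∈ Ys μ d, MvPolynomial.eval v (P c) * F (sh c v) := by
  classical
  set Y := Ys μ d with hY
  -- the functionals
  let f : Option (Fin k → ℕ) → (Vs μ d T →ₗ[ℂ] ℂ) := fun o =>
    match o with
    | none => (LinearMap.snd ℂ _ _).comp (Vs μ d T).subtype
    | some c => (lamc m (d - 2 * ∑ j, c j) c).comp (Vs μ d T).subtype
  have hex : ∀ o ∈ insertNone Y, ∃ v, f o v ≠ 0 := by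
    intro o ho
    cases o with
    | none =>
      obtain ⟨p, hp, hp2⟩ := Vs_T hT
      refine ⟨⟨p, hp⟩, ?_⟩
      show p.2 ≠ 0
      rw [hp2]; exact one_ne_zero
    | some c =>
      have hc : c ∈ Y := by simpa using ho
      obtain ⟨hc1, hc2⟩ := mem_Ys.1 hc
      by_cases hcd : 2 * ∑ j, c j + 2 ≤ d
      · refine ⟨⟨(zr c (MvPolynomial.X (Sum.inl m) ^ (d - 2 * ∑ j, c j - 2)), 0),
          Vs_zero hk hc1 (by rw [MvPolynomial.totalDegree_X_pow]; omega)⟩, ?_⟩
        show MvPolynomial.coeff (Finsupp.single (Sum.inl m) (d - 2 * ∑ j, c j))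
          (zr c (MvPolynomial.X (Sum.inl m) ^ (d - 2 * ∑ j, c j - 2)) c) ≠ 0
        unfold zr
        have h0 : ∀ j : Fin k, c ≠ c + Pi.single j 1 := by
          intro j h
          have := congrFun h j
          simp at this
        simp only [if_true, h0, if_false, Finset.sum_const_zero, add_zero]
        rw [← psm_coeff, map_mul, map_pow, psm_X]
        obtain ⟨e, he⟩ : ∃ e, d - 2 * ∑ j, c j = 2 + e := ⟨d - 2 * ∑ j, c j - 2, by omega⟩
        rw [he, show 2 + e - 2 = e by omega, Polynomial.coeff_X_pow_mul, psm_qP]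
        norm_num
      · -- another relation
        obtain ⟨j, hj⟩ : ∃ j, μ j < c j := by
          by_contra hcon
          push Not at hcon
          have : ∑ j, c j ≤ ∑ j, μ j := Finset.sum_le_sum fun j _ => hcon j
          omega
        obtain ⟨c0, hc0⟩ : ∃ c0 : Fin k → ℕ, c = c0 + Pi.single j 1 := by
          refine ⟨fun i => if i = j then c i - 1 else c i, ?_⟩
          funext i
          by_cases hi : i = j
          · subst hi; simp; omega
          · simp [hi]
        have hμ0 : μ ≤ c0 := by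
          intro i
          have h1 := hc1 i
          rw [hc0] at h1
          by_cases hi : i = j
          · subst hi
            rw [hc0] at hj
            simp at hj
            omega
          · simpa [hi] using h1
        have hs0 : ∑ i, c i = ∑ i, c0 i + 1 := by
          rw [hc0]; simp [Finset.sum_add_distrib]
        refine ⟨⟨(zr c0 (MvPolynomial.X (Sum.inl m) ^ (d - 2 * ∑ j, c j)), 0),
          Vs_zero hk hμ0 (by rw [MvPolynomial.totalDegree_X_pow]; omega)⟩, ?_⟩
        show MvPolynomial.coeff (Finsupp.single (Sum.inl m) (d - 2 * ∑ j, c j))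
          (zr c0 (MvPolynomial.X (Sum.inl m) ^ (d - 2 * ∑ j, c j)) c) ≠ 0
        unfold zr
        have h0 : c ≠ c0 := by
          intro h
          rw [h] at hs0; omega
        have hz : ∀ L : Pl k, (∑ i : Fin k, if c = c0 + Pi.single i 1 then L else 0) = L := by
          intro L
          rw [Finset.sum_eq_single j]
          · rw [if_pos hc0]
          · intro i _ hi
            rw [if_neg]
            intro h
            have h5 : (c0 + Pi.single j 1 : Fin k → ℕ) j = (c0 + Pi.single i 1 : Fin k → ℕ) j := by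
              rw [← hc0, ← h]
            simp [Pi.single_apply, hi.symm] at h5
          · intro h; exact absurd (Finset.mem_univ _) h
        rw [if_neg h0, zero_add, hz, ← psm_coeff, map_pow, psm_X, Polynomial.coeff_X_pow, if_pos rfl]
        exact one_ne_zero
  obtain ⟨⟨w, hw⟩, hgen⟩ := exists_generic (insertNone Y) f hex
  have hw2 : w.2 ≠ 0 := hgen none (by simp)
  have hwc : ∀ c ∈ Y, MvPolynomial.coeff (Finsupp.single (Sum.inl m) (d - 2 * ∑ j, c j)) (w.1 c) ≠ 0 :=
    fun c hc => hgen (some c) (by simpa using hc)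
  refine ⟨fun c => (w.2)⁻¹ • w.1 c, fun c hc => ?_, fun Ω F hF v hv => ?_⟩
  · have h1 := hw.1 c hc
    have hle : ((w.2)⁻¹ • w.1 c).totalDegree ≤ d - 2 * ∑ j, c j :=
      (MvPolynomial.totalDegree_smul_le _ _).trans (by omega)
    have hcoef : MvPolynomial.coeff (Finsupp.single (Sum.inl m) (d - 2 * ∑ j, c j))
        ((w.2)⁻¹ • w.1 c) ≠ 0 := by
      rw [MvPolynomial.coeff_smul, smul_eq_mul]
      exact mul_ne_zero (inv_ne_zero hw2) (hwc c hc)
    have hge : d - 2 * ∑ j, c j ≤ ((w.2)⁻¹ • w.1 c).totalDegree := by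
      have := MvPolynomial.le_totalDegree (MvPolynomial.mem_support_iff.2 hcoef)
      rwa [Finsupp.sum_single_index rfl] at this
    have heq := le_antisymm hle hge
    have hcd := (mem_Ys.1 hc).2
    show ((w.2)⁻¹ • w.1 c).totalDegree + 2 * ∑ j, c j = d ∧
      MvPolynomial.coeff (Finsupp.single (Sum.inl m) ((w.2)⁻¹ • w.1 c).totalDegree)
        ((w.2)⁻¹ • w.1 c) ≠ 0
    refine ⟨by omega, ?_⟩
    rw [heq]; exact hcoef
  · have h2 := hw.2 Ω F hF v hv
    simp only [MvPolynomial.smul_eval, mul_assoc]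
    rw [← Finset.mul_sum, h2, ← mul_assoc, inv_mul_cancel₀ hw2, one_mul]

theorem choose_ge (k : ℕ) : ∀ m, m < k → k + 1 ≤ (k+1).choose (m+1) := by
  induction k with
  | zero => intro m hm; omega
  | succ k ih =>
    intro m hm
    rcases Nat.lt_or_ge m k with h | h
    · have h1 := ih m h
      have h2 : 0 < (k+1).choose m := Nat.choose_pos (by omega)
      rw [Nat.choose_succ_succ']; omega
    · have h7 : m = k := by omega
      rw [h7, Nat.choose_succ_self_right]

/-- The algebraic core with pairwise distinct shifts and exact degrees. -/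
theorem core_exact (hk : 3 ≤ k) (m : Fin k) (δ : ℕ) :
    ∃ (r : ℕ) (_ : 1 ≤ r) (P : Fin r → Pl k) (c : Fin r → Fin k → ℕ),
      Function.Injective c ∧ (∀ i, δ ≤ c i m) ∧
      (∀ i, (P i).totalDegree + 2 * ∑ j, c i j = δ * (k+1).choose (m.1+1)) ∧
      (∀ i, MvPolynomial.coeff (Finsupp.single (Sum.inl m) (P i).totalDegree) (P i) ≠ 0) ∧
      ∀ (Ω : Set (Pt k)) (F : Fn k), Sol Ω F → ∀ v ∈ Ω,
        (∏ J ∈ powersetCard (m.1+1) (univ : Finset (Fin (k+1))), ∏ i ∈ range δ,
          (v (Sum.inl m) - ∑ j ∈ J, v (Sum.inr j) + i)) * F v =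
        ∑ i, MvPolynomial.eval v (P i) * F (sh (c i) v) := by
  classical
  rcases Nat.eq_zero_or_pos δ with rfl | hδ
  · refine ⟨1, le_rfl, fun _ => 1, fun _ => 0, fun i j _ => Subsingleton.elim _ _, fun _ => le_rfl,
      fun _ => by simp, fun _ => by simp, fun Ω F hF v hv => ?_⟩
    simp [sh_zero]
  obtain ⟨T, hT, h⟩ := core_delta m δ
  have hN : 4 ≤ (k+1).choose (m.1+1) := by
    have := choose_ge k m.1 m.2
    omega
  set N := (k+1).choose (m.1+1) with hNdef
  set μ : Fin k → ℕ := Pi.single m δ with hμdef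
  have hμs : ∑ j, μ j = δ := by simp [hμdef]
  obtain ⟨P, hP1, hP2⟩ := exact_repr (by omega) m hT (by rw [hμs]; nlinarith)
  set Y := Ys μ (δ * N) with hYdef
  have hμY : μ ∈ Y := mem_Ys.2 ⟨le_rfl, by rw [hμs]; nlinarith⟩
  refine ⟨Y.card, Finset.card_pos.2 ⟨μ, hμY⟩, fun i => P (Y.equivFin.symm i).1,
    fun i => (Y.equivFin.symm i).1, ?_, ?_, ?_, ?_, ?_⟩
  · intro i j hij
    exact Y.equivFin.symm.injective (Subtype.ext hij)
  · intro i
    have := (mem_Ys.1 (Y.equivFin.symm i).2).1 m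
    simpa [hμdef] using this
  · intro i
    exact (hP1 _ (Y.equivFin.symm i).2).1
  · intro i
    exact (hP1 _ (Y.equivFin.symm i).2).2
  · intro Ω F hF v hv
    have hh := h Ω F hF v hv
    rw [op_apply, sh_zero] at hh
    have e1 : MvPolynomial.eval v (PP k m δ) =
        ∏ J ∈ powersetCard (m.1+1) (univ : Finset (Fin (k+1))), ∏ i ∈ range δ,
          (v (Sum.inl m) - ∑ j ∈ J, v (Sum.inr j) + i) := by
      rw [PP, map_prod, Finset.prod_comm]
      refine Finset.prod_congr rfl fun i _ => ?_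
      rw [eval_QP]
    rw [← e1, hh, hP2 Ω F hF v hv]
    rw [Equiv.sum_comp Y.equivFin.symm (fun x : Y => MvPolynomial.eval v (P x.1) * F (sh x.1 v))]
    exact (Finset.sum_coe_sort Y (fun c => MvPolynomial.eval v (P c) * F (sh c v))).symm

end Pool.Agent.MP2f3d29
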