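import Mathlib

set_option autoImplicit false

open MeasureTheory Real Set

namespace Pool.Agent.MP2f3d29

theorem exp_neg_exp_bound (N : ℝ) : ∃ C : ℝ, 1 ≤ C ∧ ∀ M, 0 ≤ M → M ≤ N → ∀ y : ℝ,
    exp (- exp y) ≤ C * exp (-(M * y)) := by
  set m := ⌈N⌉₊ with hm
  refine ⟨max 1 (m.factorial : ℝ), le_max_left _ _, fun M hM hMN y => ?_⟩
  rcases le_total y 0 with hy | hy
  · have h1 : exp (-exp y) ≤ 1 := by
      rw [exp_le_one_iff]; linarith [exp_pos y]
    have h2 : 1 ≤ exp (-(M * y)) := by
      rw [one_le_exp_iff]; nlinarith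
    calc exp (-exp y) ≤ 1 := h1
      _ ≤ exp (-(M * y)) := h2
      _ = 1 * exp (-(M * y)) := by ring
      _ ≤ max 1 (m.factorial : ℝ) * exp (-(M * y)) := by
        gcongr; exact le_max_left _ _
  · have h1 := pow_div_factorial_le_exp (exp y) (exp_pos y).le m
    have hfac : (0 : ℝ) < m.factorial := by exact_mod_cast m.factorial_pos
    have h2 : exp (-exp y) ≤ m.factorial * exp (-(m * y)) := by
      rw [exp_neg, exp_neg, ← exp_nat_mul y m] at *
      rw [div_le_iff₀ hfac] at h1
      have h3 : 0 < exp (exp y) := exp_pos _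
      have h4 : 0 < exp (↑m * y) := exp_pos _
      rw [← div_eq_mul_inv, inv_le_iff_one_le_mul₀ h3]
      rw [div_mul_eq_mul_div, le_div_iff₀ h4]
      linarith
    have h3 : exp (-(m * y)) ≤ exp (-(M * y)) := by
      apply exp_le_exp.2
      have : M ≤ m := hMN.trans (Nat.le_ceil N)
      nlinarith
    calc exp (-exp y) ≤ m.factorial * exp (-(m * y)) := h2
      _ ≤ m.factorial * exp (-(M * y)) := by gcongr
      _ ≤ max 1 (m.factorial : ℝ) * exp (-(M * y)) := by
        gcongr; exact le_max_right _ _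

theorem integrable_exp_neg_abs {δ : ℝ} (hδ : 0 < δ) : Integrable (fun w : ℝ => exp (-(δ * |w|))) := by
  rw [← integrableOn_univ, ← Set.Iic_union_Ioi (a := (0 : ℝ))]
  refine IntegrableOn.union ?_ ?_
  · refine (integrableOn_exp_mul_Iic hδ 0).congr_fun (fun w hw => ?_) measurableSet_Iic
    simp only [mem_Iic] at hw
    simp only [abs_of_nonpos hw]; congr 1; ring
  · refine (integrableOn_exp_mul_Ioi (neg_lt_zero.2 hδ) 0).congr_fun (fun w hw => ?_) measurableSet_Ioi
    simp only [mem_Ioi] at hw
    simp only [abs_of_pos hw]; congr 1; ring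

theorem integrable_gamma {g : ℝ} (hg : 0 < g) :
    Integrable (fun w : ℝ => exp (g * w) * exp (- exp w)) := by
  obtain ⟨C, hC1, hC⟩ := exp_neg_exp_bound (g + 1)
  have hδ : 0 < min g 1 := lt_min hg one_pos
  refine Integrable.mono' ((integrable_exp_neg_abs hδ).const_mul C) (by fun_prop) ?_
  refine Filter.Eventually.of_forall fun w => ?_
  rw [norm_of_nonneg (by positivity)]
  rcases le_total w 0 with hw | hw
  · have h1 : exp (-exp w) ≤ 1 := by rw [exp_le_one_iff]; linarith [exp_pos w]
    have h2 : exp (g * w) ≤ exp (-(min g 1 * |w|)) := by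
      apply exp_le_exp.2
      rw [abs_of_nonpos hw]
      have := min_le_left g 1
      nlinarith
    calc exp (g * w) * exp (-exp w) ≤ exp (-(min g 1 * |w|)) * 1 := by gcongr
      _ = 1 * exp (-(min g 1 * |w|)) := by ring
      _ ≤ C * exp (-(min g 1 * |w|)) := by gcongr
  · have h1 := hC (g+1) (by linarith) le_rfl w
    calc exp (g * w) * exp (-exp w) ≤ exp (g * w) * (C * exp (-((g+1) * w))) := by gcongr
      _ = C * exp (-w) := by
        rw [mul_left_comm, ← exp_add]; congr 2; ring
      _ ≤ C * exp (-(min g 1 * |w|)) := by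
        have : exp (-w) ≤ exp (-(min g 1 * |w|)) := by
          apply exp_le_exp.2
          rw [abs_of_nonneg hw]
          have := min_le_right g 1
          nlinarith
        gcongr

/-- uniform bound for the `K`-Bessel type integral -/
theorem kbessel_bound (B g G : ℝ) (hg : 0 < g) : ∃ C : ℝ, 0 ≤ C ∧
    ∀ b γ x y : ℝ, |b| ≤ B → g ≤ γ → γ ≤ G → 0 ≤ b + γ →
      Integrable (fun z : ℝ => exp (b * z) * exp (-(exp (x - z) + exp (z - y)))) ∧
      ∫ z : ℝ, exp (b * z) * exp (-(exp (x - z) + exp (z - y))) ≤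
        C * exp (-(γ * (x - y)) + b * y) := by
  obtain ⟨C1, hC1, hC⟩ := exp_neg_exp_bound (B + G)
  have hI1 : Integrable (fun w : ℝ => exp (g * w) * exp (- exp w)) := integrable_gamma hg
  by_cases hG : 0 < G
  swap
  · refine ⟨0, le_rfl, fun b γ x y _ h1 h2 _ => ?_⟩
    exact absurd (lt_of_lt_of_le hg (h1.trans h2)) hG
  have hI2 : Integrable (fun w : ℝ => exp (G * w) * exp (- exp w)) := integrable_gamma hG
  set I := (∫ w : ℝ, exp (g * w) * exp (- exp w)) + ∫ w : ℝ, exp (G * w) * exp (- exp w) with hI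
  have hI0 : 0 ≤ I := by
    rw [hI]
    exact add_nonneg (integral_nonneg fun _ => by positivity) (integral_nonneg fun _ => by positivity)
  refine ⟨C1 * I, by positivity, fun b γ x y hb h1 h2 h3 => ?_⟩
  have hγ0 : 0 < γ := lt_of_lt_of_le hg h1
  have hIγ := integrable_gamma hγ0
  -- the dominating function
  have hdomI : Integrable (fun z : ℝ => C1 * exp (-(γ * (x - y)) + b * y) *
      (exp (γ * (x - z)) * exp (- exp (x - z)))) := by
    refine Integrable.const_mul ?_ _
    exact hIγ.comp_sub_left x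
  have hpt : ∀ z : ℝ, exp (b * z) * exp (-(exp (x - z) + exp (z - y))) ≤
      C1 * exp (-(γ * (x - y)) + b * y) * (exp (γ * (x - z)) * exp (- exp (x - z))) := by
    intro z
    have hM := hC (b + γ) h3 (by linarith [(abs_le.1 hb).2]) (z - y)
    have e1 : exp (-(exp (x - z) + exp (z - y))) = exp (-exp (x - z)) * exp (-exp (z - y)) := by
      rw [← exp_add]; congr 1; ring
    rw [e1]
    calc exp (b * z) * (exp (-exp (x - z)) * exp (-exp (z - y)))
        ≤ exp (b * z) * (exp (-exp (x - z)) * (C1 * exp (-((b + γ) * (z - y))))) := by gcongr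
      _ = C1 * (exp (b * z) * exp (-((b + γ) * (z - y)))) * exp (-exp (x - z)) := by ring
      _ = C1 * (exp (-(γ * (x - y)) + b * y) * exp (γ * (x - z))) * exp (-exp (x - z)) := by
        rw [← exp_add, ← exp_add]; congr 3; ring
      _ = _ := by ring
  have hint : Integrable (fun z : ℝ => exp (b * z) * exp (-(exp (x - z) + exp (z - y)))) := by
    refine Integrable.mono' hdomI (by fun_prop) (Filter.Eventually.of_forall fun z => ?_)
    rw [norm_of_nonneg (by positivity)]
    exact hpt z
  refine ⟨hint, ?_⟩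
  calc ∫ z : ℝ, exp (b * z) * exp (-(exp (x - z) + exp (z - y)))
      ≤ ∫ z : ℝ, C1 * exp (-(γ * (x - y)) + b * y) * (exp (γ * (x - z)) * exp (- exp (x - z))) :=
        integral_mono hint hdomI hpt
    _ = C1 * exp (-(γ * (x - y)) + b * y) * ∫ w : ℝ, exp (γ * w) * exp (- exp w) := by
        rw [integral_const_mul]
        congr 1
        exact integral_sub_left_eq_self (fun w => exp (γ * w) * exp (- exp w)) volume x
    _ ≤ C1 * exp (-(γ * (x - y)) + b * y) * I := by
        gcongr
        rw [hI, ← integral_add hI1 hI2]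
        refine integral_mono hIγ (hI1.add hI2) fun w => ?_
        simp only
        rw [← add_mul]
        gcongr
        rcases le_total w 0 with hw | hw
        · calc exp (γ * w) ≤ exp (g * w) := by apply exp_le_exp.2; nlinarith
            _ ≤ _ := by linarith [exp_pos (G * w)]
        · calc exp (γ * w) ≤ exp (G * w) := by apply exp_le_exp.2; nlinarith
            _ ≤ _ := by linarith [exp_pos (g * w)]
    _ = C1 * I * exp (-(γ * (x - y)) + b * y) := by ring

end Pool.Agent.MP2f3d29
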