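import Mathlib
import Pool.Agent.MP_2f3d29_nt.B1

set_option autoImplicit false

open MeasureTheory Real Set

namespace Pool.Agent.MP2f3d29

/-- The Givental kernel. -/
noncomputable def Kre {n : ℕ} (x : Fin (n+1) → ℝ) (z : Fin n → ℝ) : ℝ :=
  ∏ i : Fin n, exp (-(exp (x i.castSucc - z i) + exp (z i - x i.succ)))

/-- The Givental integral, in logarithmic coordinates. -/
noncomputable def Phi : (n : ℕ) → (ℕ → ℂ) → (Fin n → ℝ) → ℂ
  | 0, _, _ => 1
  | n+1, a, x => ∫ z : Fin n → ℝ,
      Complex.exp (a 0 * ((∑ i, x i - ∑ i, z i : ℝ) : ℂ)) * (Kre x z : ℂ) *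
        Phi n (fun i => a (i+1)) z

theorem Phi_succ (n : ℕ) (a : ℕ → ℂ) (x : Fin (n+1) → ℝ) : Phi (n+1) a x =
    ∫ z : Fin n → ℝ, Complex.exp (a 0 * ((∑ i, x i - ∑ i, z i : ℝ) : ℂ)) * (Kre x z : ℂ) *
        Phi n (fun i => a (i+1)) z := rfl

theorem Kre_pos {n : ℕ} (x : Fin (n+1) → ℝ) (z : Fin n → ℝ) : 0 < Kre x z :=
  Finset.prod_pos fun _ _ => exp_pos _

theorem continuous_Kre {n : ℕ} :
    Continuous (fun p : (Fin (n+1) → ℝ) × (Fin n → ℝ) => Kre p.1 p.2) := by
  unfold Kre
  fun_prop

theorem Phi_stronglyMeasurable (n : ℕ) : ∀ a : ℕ → ℂ, StronglyMeasurable (Phi n a) := by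
  induction n with
  | zero => intro a; exact stronglyMeasurable_const
  | succ n ih =>
    intro a
    have h : StronglyMeasurable (fun p : (Fin (n+1) → ℝ) × (Fin n → ℝ) =>
        Complex.exp (a 0 * ((∑ i, p.1 i - ∑ i, p.2 i : ℝ) : ℂ)) * (Kre p.1 p.2 : ℂ) *
        Phi n (fun i => a (i+1)) p.2) := by
      refine StronglyMeasurable.mul ?_ ((ih _).comp_measurable measurable_snd)
      refine Continuous.stronglyMeasurable ?_
      refine Continuous.mul ?_ (Complex.continuous_ofReal.comp continuous_Kre)
      fun_prop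
    exact h.integral_prod_right'

theorem sum_castSucc_sub_succ {n : ℕ} (z : Fin (n+1) → ℝ) :
    ∑ j : Fin n, (z j.castSucc - z j.succ) = z 0 - z (Fin.last n) := by
  rw [Finset.sum_sub_distrib]
  have h1 := Fin.sum_univ_castSucc z
  have h2 := Fin.sum_univ_succ z
  linarith

theorem abel_sum (N : ℕ) (b X : ℕ → ℝ) (r : ℝ) :
    ∑ i ∈ Finset.range N, b i * X (i+1) + r * ∑ i ∈ Finset.range (N+1), X i =
    ∑ j ∈ Finset.range N, (r * (j+1) + ∑ i ∈ Finset.range j, b i) * (X j - X (j+1)) +
      (r * (N+1) + ∑ i ∈ Finset.range N, b i) * X N := by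
  induction N with
  | zero => simp
  | succ N ih =>
    rw [Finset.sum_range_succ (fun i => b i * X (i+1)), Finset.sum_range_succ _ (N+1),
      Finset.sum_range_succ (fun j : ℕ => (r * ((j : ℝ)+1) + ∑ i ∈ Finset.range j, b i) *
        (X j - X (j+1))), Finset.sum_range_succ (fun i => b i) N]
    push_cast
    linear_combination ih

/-- norm of the integrand of `Phi` -/
theorem norm_integrand {n : ℕ} (a : ℂ) (x : Fin (n+1) → ℝ) (z : Fin n → ℝ) (w : ℂ) :
    ‖Complex.exp (a * ((∑ i, x i - ∑ i, z i : ℝ) : ℂ)) * (Kre x z : ℂ) * w‖ =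
      exp (a.re * (∑ i, x i - ∑ i, z i)) * Kre x z * ‖w‖ := by
  rw [norm_mul, norm_mul, Complex.norm_exp, Complex.norm_real, norm_of_nonneg (Kre_pos x z).le]
  congr 3
  rw [Complex.re_mul_ofReal]

/-- The bounding argument: the integrand of `Phi (n+2)` is dominated by a product. -/
theorem integrand_dom {n : ℕ} (r0 A s C : ℝ) (x : Fin (n+2) → ℝ) (z : Fin (n+1) → ℝ) :
    exp (r0 * (∑ i, x i - ∑ i, z i)) * Kre x z *
      (C * exp (-(∑ j : Fin n, A * (z j.castSucc - z j.succ)) + s * z (Fin.last n))) =
    (C * exp (r0 * ∑ i, x i)) * ∏ i : Fin (n+1),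
      (exp ((-r0 - (if (i : ℕ) = 0 then A else 0) + (if (i : ℕ) = n then A + s else 0)) * z i) *
        exp (-(exp (x i.castSucc - z i) + exp (z i - x i.succ)))) := by
  rw [Finset.prod_mul_distrib, ← exp_sum, ← Finset.mul_sum, sum_castSucc_sub_succ]
  have h1 : ∑ i : Fin (n+1), (-r0 - (if (i : ℕ) = 0 then A else 0) +
      (if (i : ℕ) = n then A + s else 0)) * z i =
      -r0 * ∑ i, z i - A * z 0 + (A + s) * z (Fin.last n) := by
    have e1 : ∀ i : Fin (n+1), (-r0 - (if (i : ℕ) = 0 then A else 0) +
      (if (i : ℕ) = n then A + s else 0)) * z i = -r0 * z i - (if i = 0 then A * z i else 0) +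
      (if i = Fin.last n then (A + s) * z i else 0) := by
      intro i
      have h0 : ((i : ℕ) = 0) ↔ i = 0 := by
        constructor
        · intro h; exact Fin.ext h
        · intro h; rw [h]; rfl
      have hn : ((i : ℕ) = n) ↔ i = Fin.last n := by
        constructor
        · intro h; exact Fin.ext h
        · intro h; rw [h]; rfl
      simp only [h0, hn]
      split_ifs <;> ring
    rw [Finset.sum_congr rfl (fun i _ => e1 i), Finset.sum_add_distrib, Finset.sum_sub_distrib,
      ← Finset.mul_sum, Finset.sum_ite_eq', Finset.sum_ite_eq']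
    simp
  rw [h1]
  unfold Kre
  have h2 : exp (r0 * (∑ i, x i - ∑ i, z i)) * exp (-(A * (z 0 - z (Fin.last n))) +
      s * z (Fin.last n)) = exp (r0 * ∑ i, x i) *
      exp (-r0 * ∑ i, z i - A * z 0 + (A + s) * z (Fin.last n)) := by
    rw [← exp_add, ← exp_add]; congr 1; ring
  linear_combination (C * ∏ i : Fin (n+1), exp (-(exp (x i.castSucc - z i) + exp (z i - x i.succ)))) * h2

theorem Phi_bound (n : ℕ) : ∀ R : ℝ, 0 ≤ R → ∃ A : ℝ, ∀ c : ℕ → ℝ, (∀ j, j < n → A ≤ c j) →
    ∃ C : ℝ, 0 ≤ C ∧ ∀ a : ℕ → ℂ, (∀ i, ‖a i‖ ≤ R) → ∀ x : Fin (n+1) → ℝ,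
      ‖Phi (n+1) a x‖ ≤ C * exp (-(∑ j : Fin n, c j * (x j.castSucc - x j.succ)) +
        (∑ i ∈ Finset.range (n+1), (a i).re) * x (Fin.last n)) := by
  induction n with
  | zero =>
    intro R hR
    refine ⟨0, fun c _ => ⟨1, zero_le_one, fun a ha x => ?_⟩⟩
    rw [Phi_succ]
    refine (norm_integral_le_integral_norm _).trans ?_
    simp only [norm_integrand]
    have hv : (volume : Measure (Fin 0 → ℝ)) univ = 1 := by
      rw [volume_pi]; exact Measure.pi_empty_univ _
    simp [Kre, Phi, measureReal_def, hv]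
  | succ n ih =>
    intro R hR
    obtain ⟨A, hA⟩ := ih R hR
    obtain ⟨C0, hC00, hC0⟩ := hA (fun _ => A) (fun _ _ => le_rfl)
    set B : ℝ := R + |A| + (|A| + (n+1) * R) with hB
    have hB0 : 0 ≤ B := by positivity
    set Gb : ℝ := R * (n+2) + (n+1) * B with hGb
    have hGb0 : 0 ≤ Gb := by positivity
    refine ⟨1 + Gb + B, fun c hc => ?_⟩
    set G : ℝ := ∑ j ∈ Finset.range (n+1), |c j| + Gb + 1 with hG
    obtain ⟨CK, hCK0, hCK⟩ := kbessel_bound B 1 G one_pos
    refine ⟨C0 * CK ^ (n+1), by positivity, fun a ha x => ?_⟩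
    -- parameters
    set r0 := (a 0).re with hr0
    set s := ∑ i ∈ Finset.range (n+1), (a (i+1)).re with hs
    have hr0R : |r0| ≤ R := (Complex.abs_re_le_norm _).trans (ha 0)
    have hsR : |s| ≤ (n+1) * R := by
      refine (Finset.abs_sum_le_sum_abs _ _).trans ?_
      refine (Finset.sum_le_card_nsmul _ _ R (fun i _ =>
        (Complex.abs_re_le_norm _).trans (ha (i+1)))).trans ?_
      simp
    set b : ℕ → ℝ := fun i => -r0 - (if i = 0 then A else 0) + (if i = n then A + s else 0) with hb
    have hbB : ∀ i, |b i| ≤ B := by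
      intro i
      have h1 : |(if i = 0 then A else 0 : ℝ)| ≤ |A| := by split_ifs <;> simp
      have h2 : |(if i = n then A + s else 0 : ℝ)| ≤ |A| + (n+1) * R := by
        split_ifs
        · exact (abs_add_le _ _).trans (by linarith)
        · simp; positivity
      calc |b i| ≤ |-r0 - (if i = 0 then A else 0)| + |(if i = n then A + s else 0 : ℝ)| := abs_add_le _ _
        _ ≤ (|r0| + |(if i = 0 then A else 0 : ℝ)|) + |(if i = n then A + s else 0 : ℝ)| := by
          gcongr
          have := abs_sub (-r0) (if i = 0 then A else 0 : ℝ)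
          rwa [abs_neg] at this
        _ ≤ B := by rw [hB]; linarith
    set gg : ℕ → ℝ := fun j => r0 * (j+1) + ∑ i ∈ Finset.range j, b i with hgg
    have hggb : ∀ j, j < n+1 → |gg j| ≤ Gb := by
      intro j hj
      have hj' : (j : ℝ) ≤ n := by exact_mod_cast Nat.lt_succ_iff.1 hj
      have h1 : |r0 * (j+1)| ≤ R * (n+2) := by
        rw [abs_mul]
        have : |(j : ℝ) + 1| ≤ n + 2 := by
          rw [abs_of_nonneg (by positivity)]; linarith
        gcongr
      have h2 : |∑ i ∈ Finset.range j, b i| ≤ (n+1) * B := by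
        refine (Finset.abs_sum_le_sum_abs _ _).trans ?_
        refine (Finset.sum_le_card_nsmul _ _ B (fun i _ => hbB i)).trans ?_
        simp only [Finset.card_range, nsmul_eq_mul]
        gcongr
        linarith
      calc |gg j| ≤ |r0 * (j+1)| + |∑ i ∈ Finset.range j, b i| := abs_add_le _ _
        _ ≤ Gb := by rw [hGb]; linarith
    set γ : ℕ → ℝ := fun j => c j + gg j with hγ
    have hγ1 : ∀ j, j < n+1 → 1 + B ≤ γ j := by
      intro j hj
      have := hc j hj
      have := (abs_le.1 (hggb j hj)).1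
      simp only [hγ]; linarith
    have hγG : ∀ j, j < n+1 → γ j ≤ G := by
      intro j hj
      have h1 : |c j| ≤ ∑ j ∈ Finset.range (n+1), |c j| :=
        Finset.single_le_sum (f := fun j => |c j|) (fun _ _ => abs_nonneg _) (Finset.mem_range.2 hj)
      have h2 := (abs_le.1 (hggb j hj)).2
      have h3 := le_abs_self (c j)
      simp only [hγ, hG]; linarith
    have hK : ∀ i : Fin (n+1), Integrable (fun z : ℝ => exp (b i * z) *
          exp (-(exp (x i.castSucc - z) + exp (z - x i.succ)))) ∧
        ∫ z : ℝ, exp (b i * z) * exp (-(exp (x i.castSucc - z) + exp (z - x i.succ))) ≤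
          CK * exp (-(γ i * (x i.castSucc - x i.succ)) + b i * x i.succ) := by
      intro i
      have h1 := hγ1 i i.2
      refine hCK (b i) (γ i) _ _ (hbB i) (by linarith) (hγG i i.2) ?_
      have := (abs_le.1 (hbB i)).1
      linarith
    -- domination
    have hdom : ∀ z : Fin (n+1) → ℝ,
        ‖Complex.exp (a 0 * ((∑ i, x i - ∑ i, z i : ℝ) : ℂ)) * (Kre x z : ℂ) *
          Phi (n+1) (fun i => a (i+1)) z‖ ≤
        (C0 * exp (r0 * ∑ i, x i)) * ∏ i : Fin (n+1), (exp (b i * z i) *
          exp (-(exp (x i.castSucc - z i) + exp (z i - x i.succ)))) := by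
      intro z
      rw [norm_integrand, ← integrand_dom]
      have := hC0 (fun i => a (i+1)) (fun i => ha _) z
      have hpos : 0 ≤ exp ((a 0).re * (∑ i, x i - ∑ i, z i)) * Kre x z :=
        mul_nonneg (exp_pos _).le (Kre_pos x z).le
      exact mul_le_mul_of_nonneg_left this hpos
    have hdomI : Integrable (fun z : Fin (n+1) → ℝ => (C0 * exp (r0 * ∑ i, x i)) *
        ∏ i : Fin (n+1), (exp (b i * z i) *
          exp (-(exp (x i.castSucc - z i) + exp (z i - x i.succ))))) :=
      (Integrable.fintype_prod (f := fun (i : Fin (n+1)) (z : ℝ) => exp (b i * z) *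
          exp (-(exp (x i.castSucc - z) + exp (z - x i.succ)))) (fun i => (hK i).1)).const_mul _
    rw [Phi_succ]
    refine (norm_integral_le_of_norm_le hdomI (Filter.Eventually.of_forall hdom)).trans ?_
    rw [integral_const_mul, integral_fintype_prod_volume_eq_prod (fun (i : Fin (n+1)) (z : ℝ) =>
      exp (b i * z) * exp (-(exp (x i.castSucc - z) + exp (z - x i.succ))))]
    have hprod : ∏ i : Fin (n+1), ∫ z : ℝ, exp (b i * z) *
        exp (-(exp (x i.castSucc - z) + exp (z - x i.succ))) ≤
        ∏ i : Fin (n+1), (CK * exp (-(γ i * (x i.castSucc - x i.succ)) + b i * x i.succ)) :=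
      Finset.prod_le_prod (fun i _ => integral_nonneg fun _ => by positivity) (fun i _ => (hK i).2)
    calc C0 * exp (r0 * ∑ i, x i) * ∏ i : Fin (n+1), ∫ z : ℝ, exp (b i * z) *
            exp (-(exp (x i.castSucc - z) + exp (z - x i.succ)))
        ≤ C0 * exp (r0 * ∑ i, x i) * ∏ i : Fin (n+1),
            (CK * exp (-(γ i * (x i.castSucc - x i.succ)) + b i * x i.succ)) := by gcongr
      _ = C0 * CK^(n+1) * exp (r0 * ∑ i, x i + ∑ i : Fin (n+1),
            (-(γ i * (x i.castSucc - x i.succ)) + b i * x i.succ)) := by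
          rw [Finset.prod_mul_distrib, ← exp_sum, exp_add]
          simp only [Finset.prod_const, Finset.card_univ, Fintype.card_fin]
          ring
      _ = _ := by
          congr 2
          set X : ℕ → ℝ := fun i => if h : i < n + 2 then x ⟨i, h⟩ else 0 with hX
          have hXc : ∀ i : Fin (n+1), x i.castSucc = X i := by
            intro i
            simp only [hX]
            rw [dif_pos (by omega)]; rfl
          have hXs : ∀ i : Fin (n+1), x i.succ = X (i+1) := by
            intro i
            simp only [hX]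
            rw [dif_pos (by omega)]; rfl
          have hXl : x (Fin.last (n+1)) = X (n+1) := by
            simp only [hX]
            rw [dif_pos (by omega)]; rfl
          have hXsum : ∑ i, x i = ∑ i ∈ Finset.range (n+2), X i := by
            rw [Finset.sum_range]
            refine Finset.sum_congr rfl fun i _ => ?_
            simp only [hX]
            rw [dif_pos i.2]
          simp only [hXc, hXs, hXl, hXsum]
          rw [← Finset.sum_range (fun i => (-(γ i * (X i - X (i+1))) + b i * X (i+1))),
            ← Finset.sum_range (fun i => c i * (X i - X (i+1)))]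
          have habel := abel_sum (n+1) b X r0
          have hT : r0 * ((n+1 : ℕ) + 1) + ∑ i ∈ Finset.range (n+1), b i =
              ∑ i ∈ Finset.range (n+1+1), (a i).re := by
            rw [Finset.sum_range_succ' _ (n+1)]
            simp only [hb, Finset.sum_add_distrib, Finset.sum_sub_distrib, Finset.sum_const,
              Finset.card_range, Finset.sum_ite_eq', Finset.mem_range]
            rw [if_pos (by omega), if_pos (by omega)]
            simp only [nsmul_eq_mul]
            push_cast
            ring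
          rw [hT] at habel
          have h5 : ∑ i ∈ Finset.range (n+1), (-(γ i * (X i - X (i+1))) + b i * X (i+1)) =
              - ∑ i ∈ Finset.range (n+1), c i * (X i - X (i+1)) -
              ∑ i ∈ Finset.range (n+1), gg i * (X i - X (i+1)) +
              ∑ i ∈ Finset.range (n+1), b i * X (i+1) := by
            rw [← Finset.sum_neg_distrib, ← Finset.sum_sub_distrib, ← Finset.sum_add_distrib]
            refine Finset.sum_congr rfl fun i _ => ?_
            simp only [hγ]; ring
          rw [h5]
          linear_combination habel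

end Pool.Agent.MP2f3d29
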