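import Mathlib
import Pool.Agent.MP_2f3d29_nt.B2

set_option autoImplicit false

open MeasureTheory Set Finset

namespace Pool.Agent.MP2f3d29

/-- commutative continuants -/
noncomputable def kc (d e : ℕ → ℂ) : ℕ → ℂ
  | 0 => 1
  | 1 => d 0
  | n+2 => d (n+1) * kc d e (n+1) + e n * kc d e n

theorem kc_zero (d e : ℕ → ℂ) : kc d e 0 = 1 := rfl
theorem kc_one (d e : ℕ → ℂ) : kc d e 1 = d 0 := rfl
theorem kc_succ (d e : ℕ → ℂ) (n : ℕ) :
    kc d e (n+2) = d (n+1) * kc d e (n+1) + e n * kc d e n := rfl

theorem kc_congr {d e d' e' : ℕ → ℂ} (n : ℕ) : (∀ i, i < n → d i = d' i) →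
    (∀ i, i + 1 < n → e i = e' i) → kc d e n = kc d' e' n := by
  induction n using Nat.twoStepInduction with
  | zero => intro _ _; rfl
  | one => intro h _; simpa [kc_one] using h 0 (by omega)
  | more n ih1 ih2 =>
    intro h1 h2
    rw [kc_succ, kc_succ, ih1 (fun i hi => h1 i (by omega)) (fun i hi => h2 i (by omega)),
      ih2 (fun i hi => h1 i (by omega)) (fun i hi => h2 i (by omega)), h1 (n+1) (by omega),
      h2 n (by omega)]

theorem kc_scale (f d e : ℕ → ℂ) (n : ℕ) :
    (∏ i ∈ range n, f i) * kc d e n = kc (fun i => f i * d i) (fun i => f i * f (i+1) * e i) n := by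
  induction n using Nat.twoStepInduction with
  | zero => simp [kc_zero]
  | one => simp [kc_one]
  | more n ih1 ih2 =>
    rw [kc_succ, kc_succ, ← ih1, ← ih2, prod_range_succ _ (n+1), prod_range_succ _ n]
    ring

/-- the factorisation identity behind the intertwining relation -/
theorem kc_factor_aux (w : ℂ) (u v : ℕ → ℂ) (k : ℕ) :
    (kc (fun i => w + u i - (if i = 0 then 0 else v (i-1))) (fun i => u i * v i) (k+1) =
      w * kc (fun i => w + u i - v i) (fun i => v i * u (i+1)) k +
      u k * kc (fun i => w + u i - (if i = 0 then 0 else v (i-1))) (fun i => u i * v i) k) ∧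
    (kc (fun i => w + u i - (if i = 0 then 0 else v (i-1))) (fun i => u i * v i) (k+1) =
      kc (fun i => w + u i - v i) (fun i => v i * u (i+1)) (k+1) +
      v k * kc (fun i => w + u i - v i) (fun i => v i * u (i+1)) k) := by
  induction k with
  | zero =>
    constructor
    · simp [kc_one, kc_zero]
    · simp [kc_one, kc_zero]
  | succ k ih =>
    obtain ⟨h1, h2⟩ := ih
    have e1 := kc_succ (fun i => w + u i - (if i = 0 then 0 else v (i-1))) (fun i => u i * v i) k
    have e2 := kc_succ (fun i => w + u i - v i) (fun i => v i * u (i+1)) k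
    simp only [Nat.add_eq_zero_iff, one_ne_zero, and_false, if_false, Nat.add_sub_cancel] at e1
    set D2 := kc (fun i => w + u i - (if i = 0 then 0 else v (i-1))) (fun i => u i * v i) (k+2)
    set D1 := kc (fun i => w + u i - (if i = 0 then 0 else v (i-1))) (fun i => u i * v i) (k+1)
    set D0 := kc (fun i => w + u i - (if i = 0 then 0 else v (i-1))) (fun i => u i * v i) k
    set E2 := kc (fun i => w + u i - v i) (fun i => v i * u (i+1)) (k+2)
    set E1 := kc (fun i => w + u i - v i) (fun i => v i * u (i+1)) (k+1)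
    set E0 := kc (fun i => w + u i - v i) (fun i => v i * u (i+1)) k
    constructor
    · show D2 = w * E1 + u (k+1) * D1
      rw [e1]
      linear_combination v k * (-1 : ℂ) * h1 + w * h2
    · show D2 = E2 + v (k+1) * E1
      rw [e1, e2]
      linear_combination (-v k) * h1 + (w + u (k+1)) * h2

theorem kc_factor (w : ℂ) (u v : ℕ → ℂ) (k : ℕ) (hu : u k = 0) :
    kc (fun i => w + u i - (if i = 0 then 0 else v (i-1))) (fun i => u i * v i) (k+1) =
      w * kc (fun i => w + u i - v i) (fun i => v i * u (i+1)) k := by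
  rw [(kc_factor_aux w u v k).1, hu, zero_mul, add_zero]

/-- selection among three states -/
def sel (d l r : ℂ) (s : Fin 3) : ℂ := ![d, l, r] s

theorem kc_expand (n : ℕ) : ∃ (ι : Type) (_ : Fintype ι) (σ : ι → ℕ → Fin 3),
    ∀ d L R : ℕ → ℂ, kc d (fun i => L i * R (i+1)) n =
      ∑ k : ι, ∏ i ∈ range n, sel (d i) (L i) (R i) (σ k i) := by
  classical
  induction n using Nat.twoStepInduction with
  | zero => exact ⟨Unit, inferInstance, fun _ _ => 0, fun d L R => by simp [kc_zero]⟩
  | one => exact ⟨Unit, inferInstance, fun _ _ => 0, fun d L R => by simp [kc_one, sel]⟩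
  | more n ih1 ih2 =>
    obtain ⟨ι1, _, σ1, h1⟩ := ih1
    obtain ⟨ι2, _, σ2, h2⟩ := ih2
    refine ⟨ι2 ⊕ ι1, inferInstance, Sum.elim (fun k => Function.update (σ2 k) (n+1) 0)
      (fun k => Function.update (Function.update (σ1 k) n 1) (n+1) 2), fun d L R => ?_⟩
    rw [kc_succ, h1, h2, Fintype.sum_sum_type]
    simp only [Sum.elim_inl, Sum.elim_inr]
    congr 1
    · rw [mul_sum]
      refine sum_congr rfl fun k _ => ?_
      rw [prod_range_succ _ (n+1), Function.update_self, mul_comm]
      congr 1
      refine prod_congr rfl fun i hi => ?_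
      rw [Function.update_of_ne (by have := mem_range.1 hi; omega)]
    · rw [mul_sum]
      refine sum_congr rfl fun k _ => ?_
      rw [prod_range_succ _ (n+1), prod_range_succ _ n, Function.update_self,
        Function.update_of_ne (by omega), Function.update_self]
      have : ∏ i ∈ range n, sel (d i) (L i) (R i)
          (Function.update (Function.update (σ1 k) n 1) (n+1) 2 i) =
          ∏ i ∈ range n, sel (d i) (L i) (R i) (σ1 k i) := by
        refine prod_congr rfl fun i hi => ?_
        have := mem_range.1 hi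
        rw [Function.update_of_ne (by omega), Function.update_of_ne (by omega)]
      rw [this]
      simp only [sel]
      simp
      ring

/-- extension of a point of `ℝ^n` to a sequence -/
def ext {n : ℕ} (x : Fin n → ℝ) (i : ℕ) : ℝ := if h : i < n then x ⟨i, h⟩ else 0

theorem ext_fin {n : ℕ} (x : Fin n → ℝ) (i : Fin n) : ext x i = x i := by
  unfold ext; rw [dif_pos i.2]

/-- integral of a continuant -/
theorem integral_kc (n : ℕ) (D L R : ℕ → ℝ → ℂ) (hD : ∀ i, i < n → Integrable (D i))
    (hL : ∀ i, i < n → Integrable (L i)) (hR : ∀ i, i < n → Integrable (R i)) :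
    ∫ x : Fin n → ℝ, kc (fun i => D i (ext x i)) (fun i => L i (ext x i) * R (i+1) (ext x (i+1))) n =
      kc (fun i => ∫ t, D i t) (fun i => (∫ t, L i t) * ∫ t, R (i+1) t) n := by
  obtain ⟨ι, _, σ, h⟩ := kc_expand n
  rw [h (fun i => ∫ t, D i t) (fun i => ∫ t, L i t) (fun i => ∫ t, R i t)]
  have h2 : ∀ x : Fin n → ℝ, kc (fun i => D i (ext x i))
      (fun i => L i (ext x i) * R (i+1) (ext x (i+1))) n =
      ∑ k : ι, ∏ i : Fin n, (fun (i : Fin n) (t : ℝ) => sel (D i t) (L i t) (R i t) (σ k i)) i (x i) := by
    intro x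
    rw [h (fun i => D i (ext x i)) (fun i => L i (ext x i)) (fun i => R i (ext x i))]
    refine sum_congr rfl fun k _ => ?_
    rw [Finset.prod_range]
    refine prod_congr rfl fun i _ => ?_
    simp only [ext_fin]
  have hint : ∀ (k : ι) (i : Fin n), Integrable (fun t : ℝ => sel (D i t) (L i t) (R i t) (σ k i)) := by
    intro k i
    unfold sel
    generalize σ k i = s
    fin_cases s
    · exact hD i i.2
    · exact hL i i.2
    · exact hR i i.2
  simp only [h2]
  rw [integral_finsetSum]
  · refine sum_congr rfl fun k _ => ?_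
    rw [integral_fintype_prod_volume_eq_prod (fun (i : Fin n) (t : ℝ) =>
      sel (D i t) (L i t) (R i t) (σ k i)), Finset.prod_range]
    refine prod_congr rfl fun i _ => ?_
    unfold sel
    generalize σ k i = s
    fin_cases s <;> rfl
  · intro k _
    exact Integrable.fintype_prod (hint k)

/-! ### reversal -/

theorem kc_left (d e : ℕ → ℂ) (n : ℕ) : kc d e (n+2) =
    d 0 * kc (fun i => d (i+1)) (fun i => e (i+1)) (n+1) +
      e 0 * kc (fun i => d (i+2)) (fun i => e (i+2)) n := by
  induction n using Nat.twoStepInduction with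
  | zero => simp [kc]; ring
  | one => simp [kc]; ring
  | more n ih1 ih2 =>
    rw [kc_succ d e (n+2), show n + 2 + 1 = n + 1 + 2 from rfl, ih2, ih1,
      show n + 1 + 2 = n + 3 from rfl]
    rw [show n + 2 + 1 = (n+1) + 2 from rfl, kc_succ (fun i => d (i+1)) (fun i => e (i+1)) (n+1),
      kc_succ (fun i => d (i+2)) (fun i => e (i+2)) n]
    ring_nf

theorem kc_rev (n : ℕ) : ∀ d e : ℕ → ℂ,
    kc (fun i => d (n - 1 - i)) (fun i => e (n - 2 - i)) n = kc d e n := by
  induction n using Nat.twoStepInduction with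
  | zero => intro d e; rfl
  | one => intro d e; simp [kc_one]
  | more n ih1 ih2 =>
    intro d e
    rw [kc_left d e n, kc_succ]
    have h1 : kc (fun i => d (n + 2 - 1 - i)) (fun i => e (n + 2 - 2 - i)) (n+1) =
        kc (fun i => d (i+1)) (fun i => e (i+1)) (n+1) := by
      rw [← ih2 (fun i => d (i+1)) (fun i => e (i+1))]
      apply kc_congr
      · intro i hi; congr 1; omega
      · intro i hi; congr 1; omega
    have h2 : kc (fun i => d (n + 2 - 1 - i)) (fun i => e (n + 2 - 2 - i)) n =
        kc (fun i => d (i+2)) (fun i => e (i+2)) n := by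
      rw [← ih1 (fun i => d (i+2)) (fun i => e (i+2))]
      apply kc_congr
      · intro i hi; congr 1; omega
      · intro i hi; congr 1; omega
    rw [h1, h2]
    have e1 : n + 2 - 1 - (n + 1) = 0 := by omega
    have e2 : n + 2 - 2 - n = 0 := by omega
    rw [e1, e2]

end Pool.Agent.MP2f3d29
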