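import Mathlib
import Pool.Agent.MP_2f3d29_nt.B3

set_option autoImplicit false

open MeasureTheory Set

namespace Pool.Agent.MP2f3d29

/-- functions decaying faster than every exponential -/
structure Rap (f : ℝ → ℂ) : Prop where
  cont : Continuous f
  bd : ∀ N : ℝ, ∃ C : ℝ, 0 ≤ C ∧ ∀ x, ‖f x‖ ≤ C * Real.exp (-(N * |x|))

theorem Rap.integrable {f : ℝ → ℂ} (h : Rap f) : Integrable f := by
  obtain ⟨C, _, hC⟩ := h.bd 1
  exact Integrable.mono' ((integrable_exp_neg_abs one_pos).const_mul C)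
    h.cont.aestronglyMeasurable (Filter.Eventually.of_forall hC)

theorem Rap.mul_bdd {f g : ℝ → ℂ} (h : Rap f) (hg : Continuous g) {K M : ℝ}
    (hb : ∀ x, ‖g x‖ ≤ K * Real.exp (M * |x|)) : Rap (fun x => g x * f x) := by
  refine ⟨hg.mul h.cont, fun N => ?_⟩
  obtain ⟨C, hC0, hC⟩ := h.bd (N + M)
  have hK : 0 ≤ K := by
    have := (norm_nonneg _).trans (hb 0)
    simpa using this
  refine ⟨K * C, by positivity, fun x => ?_⟩
  rw [norm_mul]
  calc ‖g x‖ * ‖f x‖ ≤ (K * Real.exp (M * |x|)) * (C * Real.exp (-((N + M) * |x|))) :=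
        mul_le_mul (hb x) (hC x) (norm_nonneg _) (by positivity)
    _ = K * C * Real.exp (-(N * |x|)) := by
        rw [show K * Real.exp (M * |x|) * (C * Real.exp (-((N + M) * |x|))) =
          K * C * (Real.exp (M * |x|) * Real.exp (-((N + M) * |x|))) by ring, ← Real.exp_add]
        congr 2; ring

theorem norm_cexp_mul_le (c : ℂ) (x : ℝ) : ‖Complex.exp (c * x)‖ ≤ 1 * Real.exp (‖c‖ * |x|) := by
  rw [Complex.norm_exp, one_mul]
  apply Real.exp_le_exp.2
  calc (c * (x : ℂ)).re ≤ ‖c * (x : ℂ)‖ := Complex.re_le_norm _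
    _ = ‖c‖ * |x| := by rw [norm_mul, Complex.norm_real, Real.norm_eq_abs]

theorem Rap.mul_cexp {f : ℝ → ℂ} (h : Rap f) (c : ℂ) : Rap (fun x : ℝ => Complex.exp (c * x) * f x) :=
  h.mul_bdd (by fun_prop) (norm_cexp_mul_le c)

theorem Rap.add {f g : ℝ → ℂ} (hf : Rap f) (hg : Rap g) : Rap (fun x => f x + g x) := by
  refine ⟨hf.cont.add hg.cont, fun N => ?_⟩
  obtain ⟨C, hC0, hC⟩ := hf.bd N
  obtain ⟨D, hD0, hD⟩ := hg.bd N
  refine ⟨C + D, by positivity, fun x => ?_⟩
  calc ‖f x + g x‖ ≤ ‖f x‖ + ‖g x‖ := norm_add_le _ _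
    _ ≤ C * Real.exp (-(N * |x|)) + D * Real.exp (-(N * |x|)) := add_le_add (hC x) (hD x)
    _ = _ := by ring

theorem Rap.const_mul {f : ℝ → ℂ} (hf : Rap f) (c : ℂ) : Rap (fun x => c * f x) :=
  hf.mul_bdd (M := 0) (K := ‖c‖) continuous_const (fun x => by simp)

/-- bound for one factor of the kernel -/
theorem kfac_bound (N : ℝ) (hN : 0 ≤ N) : ∃ C : ℝ, 1 ≤ C ∧ ∀ X Y t : ℝ,
    Real.exp (-(Real.exp (X - t) + Real.exp (t - Y))) ≤
      C * Real.exp (-(N * |t|)) * Real.exp (N * |X| + N * |Y|) := by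
  obtain ⟨C, hC1, hC⟩ := exp_neg_exp_bound N
  refine ⟨C, hC1, fun X Y t => ?_⟩
  have e : Real.exp (-(Real.exp (X - t) + Real.exp (t - Y))) =
      Real.exp (-Real.exp (X - t)) * Real.exp (-Real.exp (t - Y)) := by
    rw [← Real.exp_add]; congr 1; ring
  have hone : ∀ y : ℝ, Real.exp (-Real.exp y) ≤ 1 := fun y => by
    rw [Real.exp_le_one_iff]; linarith [Real.exp_pos y]
  rw [e, mul_assoc C, ← Real.exp_add (-(N * |t|))]
  have hX := abs_nonneg X
  have hY := abs_nonneg Y
  have hX1 := neg_abs_le X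
  have hY1 := le_abs_self Y
  rcases le_total t 0 with ht | ht
  · calc Real.exp (-Real.exp (X - t)) * Real.exp (-Real.exp (t - Y))
        ≤ (C * Real.exp (-(N * (X - t)))) * 1 := by
          gcongr
          · exact hC N hN le_rfl (X - t)
          · exact hone _
      _ = C * Real.exp (-(N * (X - t))) := by ring
      _ ≤ C * Real.exp (-(N * |t|) + (N * |X| + N * |Y|)) := by
          gcongr
          rw [abs_of_nonpos ht]
          nlinarith
  · calc Real.exp (-Real.exp (X - t)) * Real.exp (-Real.exp (t - Y))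
        ≤ 1 * (C * Real.exp (-(N * (t - Y)))) := by
          gcongr
          · exact hone _
          · exact hC N hN le_rfl (t - Y)
      _ = C * Real.exp (-(N * (t - Y))) := by ring
      _ ≤ C * Real.exp (-(N * |t|) + (N * |X| + N * |Y|)) := by
          gcongr
          rw [abs_of_nonneg ht]
          nlinarith

theorem Kre_bound {n : ℕ} (N : ℝ) (hN : 0 ≤ N) : ∃ C : ℝ, 0 ≤ C ∧
    ∀ (x : Fin (n+1) → ℝ) (z : Fin n → ℝ),
    Kre x z ≤ C * Real.exp (-(N * ∑ i, |z i|)) * Real.exp (2 * N * ∑ i, |x i|) := by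
  obtain ⟨C, hC1, hC⟩ := kfac_bound N hN
  have hC0 : 0 ≤ C := by linarith
  refine ⟨C ^ n, by positivity, fun x z => ?_⟩
  unfold Kre
  calc ∏ i : Fin n, Real.exp (-(Real.exp (x i.castSucc - z i) + Real.exp (z i - x i.succ)))
      ≤ ∏ i : Fin n, (C * Real.exp (-(N * |z i|)) * Real.exp (N * |x i.castSucc| + N * |x i.succ|)) :=
        Finset.prod_le_prod (fun _ _ => (Real.exp_pos _).le) (fun i _ => hC _ _ _)
    _ = C ^ n * Real.exp (-(N * ∑ i, |z i|)) *
        Real.exp (N * (∑ i : Fin n, |x i.castSucc| + ∑ i : Fin n, |x i.succ|)) := by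
        rw [Finset.prod_mul_distrib, Finset.prod_mul_distrib, ← Real.exp_sum, ← Real.exp_sum]
        simp only [Finset.prod_const, Finset.card_univ, Fintype.card_fin]
        congr 2
        · rw [Finset.sum_neg_distrib, ← Finset.mul_sum]
        · rw [Finset.sum_add_distrib, ← Finset.mul_sum, ← Finset.mul_sum, mul_add]
    _ ≤ C ^ n * Real.exp (-(N * ∑ i, |z i|)) * Real.exp (2 * N * ∑ i, |x i|) := by
        refine mul_le_mul_of_nonneg_left (Real.exp_le_exp.2 ?_) (by positivity)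
        have h1 := Fin.sum_univ_castSucc (fun i => |x i|)
        have h2 := Fin.sum_univ_succ (fun i => |x i|)
        have h3 := abs_nonneg (x (Fin.last n))
        have h4 := abs_nonneg (x 0)
        nlinarith

theorem Phi_crude (n : ℕ) (R : ℝ) (hR : 0 ≤ R) : ∃ C M : ℝ, 0 ≤ C ∧ 0 ≤ M ∧
    ∀ a : ℕ → ℂ, (∀ i, ‖a i‖ ≤ R) → ∀ x : Fin n → ℝ,
    ‖Phi n a x‖ ≤ C * Real.exp (M * ∑ i, |x i|) := by
  cases n with
  | zero => exact ⟨1, 0, zero_le_one, le_rfl, fun a _ x => by simp [Phi]⟩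
  | succ n =>
    obtain ⟨A, hA⟩ := Phi_bound n R hR
    obtain ⟨C, hC0, hC⟩ := hA (fun _ => A) (fun _ _ => le_rfl)
    refine ⟨C, 2 * |A| + (n+1) * R, hC0, by positivity, fun a ha x => ?_⟩
    refine (hC a ha x).trans ?_
    gcongr
    rw [← Finset.mul_sum, sum_castSucc_sub_succ]
    set s := ∑ i ∈ Finset.range (n+1), (a i).re with hs
    have hsR : |s| ≤ (n+1) * R := by
      refine (Finset.abs_sum_le_sum_abs _ _).trans ?_
      refine (Finset.sum_le_card_nsmul _ _ R (fun i _ =>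
        (Complex.abs_re_le_norm _).trans (ha i))).trans ?_
      simp
    have hx : ∀ i, |x i| ≤ ∑ i, |x i| := fun i =>
      Finset.single_le_sum (f := fun i => |x i|) (fun _ _ => abs_nonneg _) (Finset.mem_univ i)
    have h0 := hx 0
    have hl := hx (Fin.last n)
    set S := ∑ i, |x i| with hS
    have hS0 : 0 ≤ S := (abs_nonneg _).trans h0
    have e1 : -(A * (x 0 - x (Fin.last n))) ≤ 2 * |A| * S := by
      calc -(A * (x 0 - x (Fin.last n))) ≤ |A * (x 0 - x (Fin.last n))| := neg_le_abs _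
        _ = |A| * |x 0 - x (Fin.last n)| := abs_mul _ _
        _ ≤ |A| * (|x 0| + |x (Fin.last n)|) := by gcongr; exact abs_sub _ _
        _ ≤ |A| * (S + S) := by gcongr
        _ = _ := by ring
    have e2 : s * x (Fin.last n) ≤ (n+1) * R * S := by
      calc s * x (Fin.last n) ≤ |s * x (Fin.last n)| := le_abs_self _
        _ = |s| * |x (Fin.last n)| := abs_mul _ _
        _ ≤ ((n+1) * R) * S := by gcongr
    linarith

theorem ext_continuous {n : ℕ} (i : ℕ) : Continuous (fun x : Fin n → ℝ => ext x i) := by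
  unfold ext
  by_cases h : i < n
  · simp only [dif_pos h]; fun_prop
  · simp only [dif_neg h]; fun_prop

theorem kc_continuous {X : Type*} [TopologicalSpace X] {d e : ℕ → X → ℂ}
    (hd : ∀ i, Continuous (d i)) (he : ∀ i, Continuous (e i)) (n : ℕ) :
    Continuous (fun x => kc (fun i => d i x) (fun i => e i x) n) := by
  induction n using Nat.twoStepInduction with
  | zero => simp only [kc_zero]; fun_prop
  | one => simp only [kc_one]; exact hd 0
  | more n ih1 ih2 =>
    simp only [kc_succ]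
    exact ((hd _).mul ih2).add ((he _).mul ih1)

theorem kc_norm_le {d e : ℕ → ℂ} {h : ℕ → ℝ} {K : ℝ} (hK : 0 ≤ K) (hh : ∀ i, 0 ≤ h i) (n : ℕ) :
    (∀ i, i < n → ‖d i‖ ≤ K * h i) → (∀ i, i + 1 < n → ‖e i‖ ≤ K ^ 2 * (h i * h (i+1))) →
    ‖kc d e n‖ ≤ (2 * K) ^ n * ∏ i ∈ Finset.range n, h i := by
  induction n using Nat.twoStepInduction with
  | zero => intro _ _; simp [kc_zero]
  | one =>
    intro h1 _
    simp only [kc_one, pow_one, Finset.prod_range_one]
    have := h1 0 (by omega)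
    have h0 := hh 0
    nlinarith
  | more n ih1 ih2 =>
    intro h1 h2
    rw [kc_succ]
    have i1 := ih1 (fun i hi => h1 i (by omega)) (fun i hi => h2 i (by omega))
    have i2 := ih2 (fun i hi => h1 i (by omega)) (fun i hi => h2 i (by omega))
    have hP : 0 ≤ ∏ i ∈ Finset.range n, h i := Finset.prod_nonneg fun i _ => hh i
    calc ‖d (n+1) * kc d e (n+1) + e n * kc d e n‖
        ≤ ‖d (n+1)‖ * ‖kc d e (n+1)‖ + ‖e n‖ * ‖kc d e n‖ := by
          refine (norm_add_le _ _).trans ?_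
          rw [norm_mul, norm_mul]
      _ ≤ (K * h (n+1)) * ((2 * K) ^ (n+1) * ∏ i ∈ Finset.range (n+1), h i) +
          (K^2 * (h n * h (n+1))) * ((2 * K) ^ n * ∏ i ∈ Finset.range n, h i) := by
          gcongr
          · exact mul_nonneg hK (hh _)
          · exact h1 (n+1) (by omega)
          · exact mul_nonneg (by positivity) (mul_nonneg (hh _) (hh _))
          · exact h2 n (by omega)
      _ = (2 * K) ^ n * (3 * K ^ 2) * (∏ i ∈ Finset.range n, h i) * (h n * h (n+1)) := by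
          rw [Finset.prod_range_succ]; ring
      _ ≤ (2 * K) ^ n * (4 * K ^ 2) * (∏ i ∈ Finset.range n, h i) * (h n * h (n+1)) := by
          gcongr
          · exact mul_nonneg (hh _) (hh _)
          · norm_num
      _ = (2 * K) ^ (n+2) * ∏ i ∈ Finset.range (n+2), h i := by
          rw [Finset.prod_range_succ, Finset.prod_range_succ]; ring

/-- The basic domination lemma. -/
theorem dom_integrable {n : ℕ} (Ψ : (Fin (n+1) → ℝ) × (Fin n → ℝ) → ℂ)
    (hm : AEStronglyMeasurable Ψ (volume.prod volume)) (h : ℕ → ℝ → ℝ)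
    (hh0 : ∀ i x, 0 ≤ h i x)
    (hh : ∀ i (N : ℝ), ∃ C : ℝ, 0 ≤ C ∧ ∀ x, h i x ≤ C * Real.exp (-(N * |x|)))
    (C M : ℝ) (hC : 0 ≤ C) (hM : 0 ≤ M)
    (hb : ∀ x z, ‖Ψ (x, z)‖ ≤ C * Real.exp (M * (∑ i, |x i| + ∑ i, |z i|)) * Kre x z *
      ∏ i ∈ Finset.range (n+1), h i (ext x i)) :
    Integrable Ψ (volume.prod volume) := by
  obtain ⟨CK, hCK0, hCK⟩ := Kre_bound (n := n) (M + 1) (by linarith)
  set N := 2 * (M + 1) + M + 1 with hN
  choose c hc0 hc using fun i => hh i N
  have hI1 : Integrable (fun x : Fin (n+1) → ℝ => ∏ i, Real.exp (-(1 * |x i|))) :=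
    Integrable.fintype_prod (f := fun (_ : Fin (n+1)) (t : ℝ) => Real.exp (-(1 * |t|)))
      (fun _ => integrable_exp_neg_abs one_pos)
  have hI2 : Integrable (fun z : Fin n → ℝ => ∏ i, Real.exp (-(1 * |z i|))) :=
    Integrable.fintype_prod (f := fun (_ : Fin n) (t : ℝ) => Real.exp (-(1 * |t|)))
      (fun _ => integrable_exp_neg_abs one_pos)
  refine Integrable.mono' ((hI1.mul_prod hI2).const_mul
    (C * CK * ∏ i ∈ Finset.range (n+1), c i)) hm (Filter.Eventually.of_forall ?_)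
  rintro ⟨x, z⟩
  refine (hb x z).trans ?_
  have h1 := hCK x z
  have h2 : ∏ i ∈ Finset.range (n+1), h i (ext x i) ≤
      (∏ i ∈ Finset.range (n+1), c i) * Real.exp (-(N * ∑ i, |x i|)) := by
    calc ∏ i ∈ Finset.range (n+1), h i (ext x i)
        ≤ ∏ i ∈ Finset.range (n+1), (c i * Real.exp (-(N * |ext x i|))) :=
          Finset.prod_le_prod (fun i _ => hh0 _ _) (fun i _ => hc _ _)
      _ = _ := by
          rw [Finset.prod_mul_distrib, ← Real.exp_sum, Finset.sum_neg_distrib, ← Finset.mul_sum,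
            Finset.sum_range (fun i => |ext x i|)]
          simp only [ext_fin]
  have hc00 : 0 ≤ ∏ i ∈ Finset.range (n+1), c i := Finset.prod_nonneg fun i _ => hc0 i
  calc C * Real.exp (M * (∑ i, |x i| + ∑ i, |z i|)) * Kre x z *
        ∏ i ∈ Finset.range (n+1), h i (ext x i)
      ≤ C * Real.exp (M * (∑ i, |x i| + ∑ i, |z i|)) *
        (CK * Real.exp (-((M+1) * ∑ i, |z i|)) * Real.exp (2 * (M+1) * ∑ i, |x i|)) *
        ((∏ i ∈ Finset.range (n+1), c i) * Real.exp (-(N * ∑ i, |x i|))) := by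
        gcongr
        exact Finset.prod_nonneg fun i _ => hh0 _ _
    _ = (C * CK * ∏ i ∈ Finset.range (n+1), c i) *
        (Real.exp (M * (∑ i, |x i| + ∑ i, |z i|)) * Real.exp (-((M+1) * ∑ i, |z i|)) *
          Real.exp (2 * (M+1) * ∑ i, |x i|) * Real.exp (-(N * ∑ i, |x i|))) := by ring
    _ = (C * CK * ∏ i ∈ Finset.range (n+1), c i) *
        ((∏ i, Real.exp (-(1 * |x i|))) * ∏ i, Real.exp (-(1 * |z i|))) := by
        congr 1
        rw [← Real.exp_add, ← Real.exp_add, ← Real.exp_add, ← Real.exp_sum, ← Real.exp_sum,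
          ← Real.exp_add]
        congr 1
        simp only [one_mul, Finset.sum_neg_distrib]
        rw [hN]; ring

end Pool.Agent.MP2f3d29
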