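import Mathlib
import Pool.Agent.MP_2f3d29_nt.B4

set_option autoImplicit false

open MeasureTheory Set

namespace Pool.Agent.MP2f3d29

/-- families of test functions -/
structure TF (f f' : ℕ → ℝ → ℂ) : Prop where
  rap : ∀ i, Rap (f i)
  rap' : ∀ i, Rap (f' i)
  deriv : ∀ i t, HasDerivAt (f i) (f' i t) t

noncomputable def Dc (w : ℂ) (f f' : ℕ → ℝ → ℂ) (X : ℕ → ℝ) (i : ℕ) : ℂ := w * f i (X i) + f' i (X i)
noncomputable def Ec (f : ℕ → ℝ → ℂ) (X : ℕ → ℝ) (i : ℕ) : ℂ :=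
  (Complex.exp (1 * (X i : ℂ)) * f i (X i)) * (Complex.exp (-1 * (X (i+1) : ℂ)) * f (i+1) (X (i+1)))

noncomputable def Ker {n : ℕ} (a0 : ℂ) (x : Fin (n+1) → ℝ) (z : Fin n → ℝ) : ℂ :=
  Complex.exp (a0 * ((∑ i, x i - ∑ i, z i : ℝ) : ℂ)) * (Kre x z : ℂ)

/-- exponent terms -/
noncomputable def Ut (z : ℕ → ℝ) (n i : ℕ) (t : ℝ) : ℝ := if i < n then Real.exp (t - z i) else 0
noncomputable def Vt (z : ℕ → ℝ) (i : ℕ) (t : ℝ) : ℝ := if i = 0 then 0 else Real.exp (z (i-1) - t)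

noncomputable def kapx (a0 : ℂ) (z : ℕ → ℝ) (n i : ℕ) (t : ℝ) : ℂ :=
  Complex.exp (a0 * t) * (Real.exp (-(Ut z n i t + Vt z i t)) : ℂ)

noncomputable def gz (a0 : ℂ) (x : ℕ → ℝ) (i : ℕ) (t : ℝ) : ℂ :=
  Complex.exp (-a0 * t) * (Real.exp (-(Real.exp (x i - t) + Real.exp (t - x (i+1)))) : ℂ)

noncomputable def gz' (a0 : ℂ) (x : ℕ → ℝ) (i : ℕ) (t : ℝ) : ℂ :=
  (-a0 + (Real.exp (x i - t) : ℂ) - (Real.exp (t - x (i+1)) : ℂ)) * gz a0 x i t

theorem Ut_continuous (z : ℕ → ℝ) (n i : ℕ) : Continuous (Ut z n i) := by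
  unfold Ut; split_ifs <;> fun_prop

theorem Vt_continuous (z : ℕ → ℝ) (i : ℕ) : Continuous (Vt z i) := by
  unfold Vt; split_ifs <;> fun_prop

theorem Ut_nonneg (z : ℕ → ℝ) (n i : ℕ) (t : ℝ) : 0 ≤ Ut z n i t := by
  unfold Ut; split_ifs <;> positivity

theorem Vt_nonneg (z : ℕ → ℝ) (i : ℕ) (t : ℝ) : 0 ≤ Vt z i t := by
  unfold Vt; split_ifs <;> positivity

theorem Ut_le (z : ℕ → ℝ) (n i : ℕ) (t : ℝ) : Ut z n i t ≤ Real.exp |z i| * Real.exp |t| := by
  unfold Ut; split_ifs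
  · rw [← Real.exp_add]
    apply Real.exp_le_exp.2
    linarith [le_abs_self t, neg_abs_le (z i)]
  · positivity

theorem Vt_le (z : ℕ → ℝ) (i : ℕ) (t : ℝ) : Vt z i t ≤ Real.exp |z (i-1)| * Real.exp |t| := by
  unfold Vt; split_ifs
  · positivity
  · rw [← Real.exp_add]
    apply Real.exp_le_exp.2
    linarith [neg_abs_le t, le_abs_self (z (i-1))]

theorem kapx_continuous (a0 : ℂ) (z : ℕ → ℝ) (n i : ℕ) : Continuous (kapx a0 z n i) := by
  unfold kapx
  have := Ut_continuous z n i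
  have := Vt_continuous z i
  fun_prop

theorem kapx_norm_le (a0 : ℂ) (z : ℕ → ℝ) (n i : ℕ) (t : ℝ) :
    ‖kapx a0 z n i t‖ ≤ 1 * Real.exp (‖a0‖ * |t|) := by
  unfold kapx
  rw [norm_mul, Complex.norm_real, Real.norm_of_nonneg (Real.exp_pos _).le]
  have h1 := norm_cexp_mul_le a0 t
  have h2 : Real.exp (-(Ut z n i t + Vt z i t)) ≤ 1 := by
    rw [Real.exp_le_one_iff]
    linarith [Ut_nonneg z n i t, Vt_nonneg z i t]
  calc _ ≤ (1 * Real.exp (‖a0‖ * |t|)) * 1 := by gcongr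
    _ = _ := by ring

theorem kapx_hasDerivAt (a0 : ℂ) (z : ℕ → ℝ) (n i : ℕ) (t : ℝ) :
    HasDerivAt (kapx a0 z n i)
      ((a0 - (Ut z n i t : ℂ) + (Vt z i t : ℂ)) * kapx a0 z n i t) t := by
  have hU : HasDerivAt (Ut z n i) (Ut z n i t) t := by
    unfold Ut
    split_ifs
    · simpa using ((hasDerivAt_id t).sub_const (z i)).exp
    · exact hasDerivAt_const t 0
  have hV : HasDerivAt (Vt z i) (- Vt z i t) t := by
    unfold Vt
    split_ifs
    · simpa using hasDerivAt_const t (0 : ℝ)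
    · simpa using ((hasDerivAt_id t).const_sub (z (i-1))).exp
  have h1 : HasDerivAt (fun t : ℝ => Complex.exp (a0 * t)) (Complex.exp (a0 * t) * a0) t := by
    have : HasDerivAt (fun t : ℝ => a0 * (t : ℂ)) a0 t := by
      simpa using (Complex.ofRealCLM.hasDerivAt (x := t)).const_mul a0
    exact this.cexp
  have h2 : HasDerivAt (fun t : ℝ => ((Real.exp (-(Ut z n i t + Vt z i t)) : ℝ) : ℂ))
      ((Real.exp (-(Ut z n i t + Vt z i t)) * (-(Ut z n i t + (- Vt z i t))) : ℝ) : ℂ) t :=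
    HasDerivAt.ofReal_comp ((hU.add hV).neg.exp)
  have h3 := h1.mul h2
  refine h3.congr_deriv ?_
  unfold kapx
  push_cast
  ring

theorem gz_hasDerivAt (a0 : ℂ) (x : ℕ → ℝ) (i : ℕ) (t : ℝ) :
    HasDerivAt (gz a0 x i) (gz' a0 x i t) t := by
  have hU : HasDerivAt (fun t => Real.exp (x i - t)) (- Real.exp (x i - t)) t := by
    simpa using ((hasDerivAt_id t).const_sub (x i)).exp
  have hV : HasDerivAt (fun t => Real.exp (t - x (i+1))) (Real.exp (t - x (i+1))) t := by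
    simpa using ((hasDerivAt_id t).sub_const (x (i+1))).exp
  have h1 : HasDerivAt (fun t : ℝ => Complex.exp (-a0 * t)) (Complex.exp (-a0 * t) * (-a0)) t := by
    have : HasDerivAt (fun t : ℝ => -a0 * (t : ℂ)) (-a0) t := by
      simpa using (Complex.ofRealCLM.hasDerivAt (x := t)).const_mul (-a0)
    exact this.cexp
  have h2 : HasDerivAt (fun t : ℝ =>
      ((Real.exp (-(Real.exp (x i - t) + Real.exp (t - x (i+1)))) : ℝ) : ℂ))
      ((Real.exp (-(Real.exp (x i - t) + Real.exp (t - x (i+1)))) *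
        (-((- Real.exp (x i - t)) + Real.exp (t - x (i+1)))) : ℝ) : ℂ) t :=
    HasDerivAt.ofReal_comp ((hU.add hV).neg.exp)
  have h3 := h1.mul h2
  refine h3.congr_deriv ?_
  unfold gz' gz
  push_cast
  ring

theorem gz_rap (a0 : ℂ) (x : ℕ → ℝ) (i : ℕ) : Rap (gz a0 x i) := by
  have h : Rap (fun t => (Real.exp (-(Real.exp (x i - t) + Real.exp (t - x (i+1)))) : ℂ)) := by
    refine ⟨by fun_prop, fun N => ?_⟩
    obtain ⟨C, hC1, hC⟩ := kfac_bound (max N 0) (le_max_right _ _)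
    refine ⟨C * Real.exp (max N 0 * |x i| + max N 0 * |x (i+1)|), by positivity, fun t => ?_⟩
    rw [Complex.norm_real, Real.norm_of_nonneg (Real.exp_pos _).le]
    refine (hC (x i) (x (i+1)) t).trans ?_
    have h1 : Real.exp (-(max N 0 * |t|)) ≤ Real.exp (-(N * |t|)) := by
      apply Real.exp_le_exp.2
      have := le_max_left N 0
      have := abs_nonneg t
      nlinarith
    calc C * Real.exp (-(max N 0 * |t|)) * Real.exp (max N 0 * |x i| + max N 0 * |x (i+1)|)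
        ≤ C * Real.exp (-(N * |t|)) * Real.exp (max N 0 * |x i| + max N 0 * |x (i+1)|) := by gcongr
      _ = _ := by ring
  have := h.mul_cexp (-a0)
  unfold gz
  simpa using this

theorem gz'_rap (a0 : ℂ) (x : ℕ → ℝ) (i : ℕ) : Rap (gz' a0 x i) := by
  refine (gz_rap a0 x i).mul_bdd (K := ‖a0‖ + Real.exp |x i| + Real.exp |x (i+1)|) (M := 1)
    (by fun_prop) (fun t => ?_)
  have h1 : Real.exp (x i - t) ≤ Real.exp |x i| * Real.exp (1 * |t|) := by
    rw [← Real.exp_add]; apply Real.exp_le_exp.2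
    linarith [neg_abs_le t, le_abs_self (x i)]
  have h2 : Real.exp (t - x (i+1)) ≤ Real.exp |x (i+1)| * Real.exp (1 * |t|) := by
    rw [← Real.exp_add]; apply Real.exp_le_exp.2
    linarith [le_abs_self t, neg_abs_le (x (i+1))]
  have h3 : (1 : ℝ) ≤ Real.exp (1 * |t|) := by
    rw [Real.one_le_exp_iff]; positivity
  calc ‖-a0 + (Real.exp (x i - t) : ℂ) - (Real.exp (t - x (i+1)) : ℂ)‖
      ≤ ‖-a0‖ + ‖(Real.exp (x i - t) : ℂ)‖ + ‖(Real.exp (t - x (i+1)) : ℂ)‖ := by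
        refine (norm_sub_le _ _).trans ?_
        gcongr
        exact norm_add_le _ _
    _ = ‖a0‖ * 1 + Real.exp (x i - t) + Real.exp (t - x (i+1)) := by
        rw [norm_neg, Complex.norm_real, Complex.norm_real, Real.norm_of_nonneg (Real.exp_pos _).le,
          Real.norm_of_nonneg (Real.exp_pos _).le, mul_one]
    _ ≤ ‖a0‖ * Real.exp (1 * |t|) + Real.exp |x i| * Real.exp (1 * |t|) +
          Real.exp |x (i+1)| * Real.exp (1 * |t|) := by gcongr
    _ = _ := by ring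

/-- the kernel as a product in the `x` variables -/
theorem Ker_eq_x {n : ℕ} (a0 : ℂ) (x : Fin (n+1) → ℝ) (z : Fin n → ℝ) :
    Ker a0 x z = Complex.exp (-(a0 * ((∑ i, z i : ℝ) : ℂ))) *
      ∏ i ∈ Finset.range (n+1), kapx a0 (ext z) n i (ext x i) := by
  unfold Ker kapx
  rw [Finset.prod_mul_distrib, ← Complex.exp_sum, ← mul_assoc, ← Complex.exp_add]
  have h1 : -(a0 * ((∑ i, z i : ℝ) : ℂ)) + ∑ i ∈ Finset.range (n+1), a0 * (ext x i : ℂ) =
      a0 * ((∑ i, x i - ∑ i, z i : ℝ) : ℂ) := by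
    rw [← Finset.mul_sum, Finset.sum_range (fun i => ((ext x i : ℝ) : ℂ))]
    simp only [ext_fin]
    push_cast; ring
  rw [h1]
  congr 1
  rw [← Complex.ofReal_prod, ← Real.exp_sum]
  congr 1
  unfold Kre
  rw [← Real.exp_sum]
  congr 1
  rw [Finset.sum_neg_distrib, Finset.sum_neg_distrib, neg_inj, Finset.sum_add_distrib,
    Finset.sum_add_distrib]
  congr 1
  · rw [Finset.sum_range_succ, Finset.sum_range]
    simp only [Ut, lt_irrefl, if_false, add_zero]
    refine Finset.sum_congr rfl fun i _ => ?_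
    rw [if_pos i.2, ext_fin]
    congr 2
    exact (ext_fin x i.castSucc).symm
  · rw [Finset.sum_range_succ', Finset.sum_range]
    simp only [Vt, if_true, add_zero, Nat.add_sub_cancel]
    refine Finset.sum_congr rfl fun i _ => ?_
    rw [if_neg (by omega), ext_fin]
    congr 2
    exact (ext_fin x i.succ).symm

/-- the kernel as a product in the `z` variables -/
theorem Ker_eq_z {n : ℕ} (a0 : ℂ) (x : Fin (n+1) → ℝ) (z : Fin n → ℝ) :
    Ker a0 x z = Complex.exp (a0 * ((∑ i, x i : ℝ) : ℂ)) *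
      ∏ i ∈ Finset.range n, gz a0 (ext x) i (ext z i) := by
  unfold Ker gz
  rw [Finset.prod_mul_distrib, ← Complex.exp_sum, ← mul_assoc, ← Complex.exp_add]
  have h1 : a0 * ((∑ i, x i : ℝ) : ℂ) + ∑ i ∈ Finset.range n, -a0 * (ext z i : ℂ) =
      a0 * ((∑ i, x i - ∑ i, z i : ℝ) : ℂ) := by
    rw [← Finset.mul_sum, Finset.sum_range (fun i => ((ext z i : ℝ) : ℂ))]
    simp only [ext_fin]
    push_cast; ring
  rw [h1]
  congr 1
  rw [Finset.prod_range, ← Complex.ofReal_prod]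
  congr 1
  unfold Kre
  refine Finset.prod_congr rfl fun i _ => ?_
  rw [ext_fin]
  have e1 : ext x i = x i.castSucc := ext_fin x i.castSucc
  have e2 : ext x (i+1) = x i.succ := ext_fin x i.succ
  rw [e1, e2]

theorem Phi_succ' (n : ℕ) (a : ℕ → ℂ) (x : Fin (n+1) → ℝ) : Phi (n+1) a x =
    ∫ z : Fin n → ℝ, Ker (a 0) x z * Phi n (fun i => a (i+1)) z := rfl

theorem Ker_norm {n : ℕ} (a0 : ℂ) (x : Fin (n+1) → ℝ) (z : Fin n → ℝ) :
    ‖Ker a0 x z‖ ≤ Real.exp (‖a0‖ * (∑ i, |x i| + ∑ i, |z i|)) * Kre x z := by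
  unfold Ker
  rw [norm_mul, Complex.norm_real, Real.norm_of_nonneg (Kre_pos x z).le]
  gcongr
  · exact (Kre_pos x z).le
  · refine (norm_cexp_mul_le _ _).trans ?_
    rw [one_mul]
    gcongr
    refine (abs_sub _ _).trans ?_
    gcongr
    · exact Finset.abs_sum_le_sum_abs _ _
    · exact Finset.abs_sum_le_sum_abs _ _

theorem Ker_continuous {n : ℕ} (a0 : ℂ) :
    Continuous (fun p : (Fin (n+1) → ℝ) × (Fin n → ℝ) => Ker a0 p.1 p.2) := by
  unfold Ker
  refine Continuous.mul ?_ (Complex.continuous_ofReal.comp continuous_Kre)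
  fun_prop

/-- one-dimensional integration by parts -/
theorem ibp_kapx {f f' : ℝ → ℂ} (hf : Rap f) (hf' : Rap f') (hd : ∀ t, HasDerivAt f (f' t) t)
    (a0 w : ℂ) (z : ℕ → ℝ) (n i : ℕ) :
    ∫ t, kapx a0 z n i t * (w * f t + f' t) =
      ∫ t, kapx a0 z n i t * ((w - a0 + (Ut z n i t : ℂ) - (Vt z i t : ℂ)) * f t) := by
  have hU := Ut_continuous z n i
  have hV := Vt_continuous z i
  have r1 : Rap (fun t => kapx a0 z n i t * f t) :=
    hf.mul_bdd (kapx_continuous a0 z n i) (kapx_norm_le a0 z n i)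
  have r2 : Rap (fun t => kapx a0 z n i t * f' t) :=
    hf'.mul_bdd (kapx_continuous a0 z n i) (kapx_norm_le a0 z n i)
  have r3 : Rap (fun t => (a0 - (Ut z n i t : ℂ) + (Vt z i t : ℂ)) * (kapx a0 z n i t * f t)) := by
    refine r1.mul_bdd (K := ‖a0‖ + Real.exp |z i| + Real.exp |z (i-1)|) (M := 1) (by fun_prop)
      (fun t => ?_)
    have h1 := Ut_le z n i t
    have h2 := Vt_le z i t
    have h3 : (1 : ℝ) ≤ Real.exp (1 * |t|) := by
      rw [Real.one_le_exp_iff]; positivity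
    calc ‖a0 - (Ut z n i t : ℂ) + (Vt z i t : ℂ)‖ ≤ ‖a0‖ + ‖(Ut z n i t : ℂ)‖ + ‖(Vt z i t : ℂ)‖ := by
          refine (norm_add_le _ _).trans ?_
          gcongr
          exact norm_sub_le _ _
      _ = ‖a0‖ * 1 + Ut z n i t + Vt z i t := by
          rw [Complex.norm_real, Complex.norm_real, Real.norm_of_nonneg (Ut_nonneg z n i t),
            Real.norm_of_nonneg (Vt_nonneg z i t), mul_one]
      _ ≤ ‖a0‖ * Real.exp (1 * |t|) + Real.exp |z i| * Real.exp |t| +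
          Real.exp |z (i-1)| * Real.exp |t| := by gcongr
      _ = _ := by rw [one_mul]; ring
  have key : ∫ t, kapx a0 z n i t * f' t =
      - ∫ t, ((a0 - (Ut z n i t : ℂ) + (Vt z i t : ℂ)) * kapx a0 z n i t) * f t := by
    refine integral_mul_deriv_eq_deriv_mul_of_integrable (fun t _ => kapx_hasDerivAt a0 z n i t)
      (fun t _ => hd t) r2.integrable ?_ r1.integrable
    refine r3.integrable.congr (Filter.Eventually.of_forall fun t => ?_)
    simp only [Pi.mul_apply]; ring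
  have e1 : ∀ t, kapx a0 z n i t * (w * f t + f' t) =
      w * (kapx a0 z n i t * f t) + kapx a0 z n i t * f' t := fun t => by ring
  have e2 : ∀ t, kapx a0 z n i t * ((w - a0 + (Ut z n i t : ℂ) - (Vt z i t : ℂ)) * f t) =
      w * (kapx a0 z n i t * f t) -
        (a0 - (Ut z n i t : ℂ) + (Vt z i t : ℂ)) * (kapx a0 z n i t * f t) := fun t => by ring
  simp only [e1, e2]
  rw [integral_add (r1.const_mul w).integrable r2.integrable,
    integral_sub (r1.const_mul w).integrable r3.integrable, key]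
  simp only [mul_assoc]
  ring

end Pool.Agent.MP2f3d29
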