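import Mathlib
import Pool.Agent.MP_2f3d29_nt.B5

set_option autoImplicit false

open MeasureTheory Set

namespace Pool.Agent.MP2f3d29

theorem TF.cont {f f' : ℕ → ℝ → ℂ} (h : TF f f') (i : ℕ) : Continuous (f i) := (h.rap i).cont
theorem TF.cont' {f f' : ℕ → ℝ → ℂ} (h : TF f f') (i : ℕ) : Continuous (f' i) := (h.rap' i).cont

/-- weight functions -/
noncomputable def hw (f f' : ℕ → ℝ → ℂ) (i : ℕ) (t : ℝ) : ℝ := ‖f i t‖ + ‖f' i t‖

theorem hw_nonneg (f f' : ℕ → ℝ → ℂ) (i : ℕ) (t : ℝ) : 0 ≤ hw f f' i t := by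
  unfold hw; positivity

theorem hw_bd {f f' : ℕ → ℝ → ℂ} (h : TF f f') (i : ℕ) (N : ℝ) :
    ∃ C : ℝ, 0 ≤ C ∧ ∀ t, hw f f' i t ≤ C * Real.exp (-(N * |t|)) := by
  obtain ⟨C, hC0, hC⟩ := (h.rap i).bd N
  obtain ⟨D, hD0, hD⟩ := (h.rap' i).bd N
  refine ⟨C + D, by positivity, fun t => ?_⟩
  unfold hw
  calc _ ≤ C * Real.exp (-(N * |t|)) + D * Real.exp (-(N * |t|)) := add_le_add (hC t) (hD t)
    _ = _ := by ring

theorem Dc_norm_le (w : ℂ) (f f' : ℕ → ℝ → ℂ) (X : ℕ → ℝ) (i : ℕ) :
    ‖Dc w f f' X i‖ ≤ (‖w‖ + 1) * hw f f' i (X i) := by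
  unfold Dc hw
  calc ‖w * f i (X i) + f' i (X i)‖ ≤ ‖w‖ * ‖f i (X i)‖ + ‖f' i (X i)‖ := by
        refine (norm_add_le _ _).trans ?_
        rw [norm_mul]
    _ ≤ _ := by
        have h1 := norm_nonneg (f i (X i))
        have h2 := norm_nonneg (f' i (X i))
        have h3 := norm_nonneg w
        nlinarith

theorem abs_ext_le {n : ℕ} (x : Fin n → ℝ) (i : ℕ) : |ext x i| ≤ ∑ i, |x i| := by
  unfold ext
  split_ifs with h
  · exact Finset.single_le_sum (f := fun i => |x i|) (fun _ _ => abs_nonneg _) (Finset.mem_univ _)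
  · rw [abs_zero]; exact Finset.sum_nonneg fun _ _ => abs_nonneg _

theorem Ec_norm_le (f f' : ℕ → ℝ → ℂ) {n : ℕ} (x : Fin n → ℝ) (i : ℕ) :
    ‖Ec f (ext x) i‖ ≤ Real.exp (∑ i, |x i|) ^ 2 * (hw f f' i (ext x i) * hw f f' (i+1) (ext x (i+1))) := by
  unfold Ec
  rw [norm_mul, norm_mul, norm_mul]
  have h1 : ‖Complex.exp (1 * (ext x i : ℂ))‖ ≤ Real.exp (∑ i, |x i|) := by
    refine (norm_cexp_mul_le _ _).trans ?_
    rw [one_mul, norm_one, one_mul]
    exact Real.exp_le_exp.2 (abs_ext_le x i)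
  have h2 : ‖Complex.exp (-1 * (ext x (i+1) : ℂ))‖ ≤ Real.exp (∑ i, |x i|) := by
    refine (norm_cexp_mul_le _ _).trans ?_
    rw [one_mul, norm_neg, norm_one, one_mul]
    exact Real.exp_le_exp.2 (abs_ext_le x (i+1))
  have h3 : ‖f i (ext x i)‖ ≤ hw f f' i (ext x i) := by
    unfold hw; linarith [norm_nonneg (f' i (ext x i))]
  have h4 : ‖f (i+1) (ext x (i+1))‖ ≤ hw f f' (i+1) (ext x (i+1)) := by
    unfold hw; linarith [norm_nonneg (f' (i+1) (ext x (i+1)))]
  calc ‖Complex.exp (1 * (ext x i : ℂ))‖ * ‖f i (ext x i)‖ *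
        (‖Complex.exp (-1 * (ext x (i+1) : ℂ))‖ * ‖f (i+1) (ext x (i+1))‖)
      ≤ Real.exp (∑ i, |x i|) * hw f f' i (ext x i) *
        (Real.exp (∑ i, |x i|) * hw f f' (i+1) (ext x (i+1))) := by
        gcongr
        · exact mul_nonneg (Real.exp_pos _).le (hw_nonneg _ _ _ _)
    _ = _ := by ring

theorem Dc_continuous (w : ℂ) {f f' : ℕ → ℝ → ℂ} (h : TF f f') (i : ℕ) :
    Continuous (fun X : ℕ → ℝ => Dc w f f' X i) := by
  unfold Dc
  have h1 := h.cont i
  have h2 := h.cont' i
  fun_prop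

theorem Ec_continuous {f f' : ℕ → ℝ → ℂ} (h : TF f f') (i : ℕ) :
    Continuous (fun X : ℕ → ℝ => Ec f X i) := by
  unfold Ec
  have h1 := h.cont i
  have h2 := h.cont (i+1)
  fun_prop

theorem ext_continuous' {n : ℕ} : Continuous (fun x : Fin n → ℝ => ext x) :=
  continuous_pi fun i => ext_continuous i

/-- the continuant in the `z`-picture -/
noncomputable def Kz (w a0 : ℂ) (X Z : ℕ → ℝ) (n : ℕ) : ℂ :=
  kc (fun i => (w - a0) + (Real.exp (X i - Z i) : ℂ) - (Real.exp (Z i - X (i+1)) : ℂ))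
    (fun i => (Real.exp (Z i - X (i+1)) : ℂ) * (Real.exp (X (i+1) - Z (i+1)) : ℂ)) n

theorem Kz_continuous (w a0 : ℂ) (n : ℕ) :
    Continuous (fun p : (ℕ → ℝ) × (ℕ → ℝ) => Kz w a0 p.1 p.2 n) := by
  unfold Kz
  refine kc_continuous (d := fun i (p : (ℕ → ℝ) × (ℕ → ℝ)) => (w - a0) + (Real.exp (p.1 i - p.2 i) : ℂ) -
    (Real.exp (p.2 i - p.1 (i+1)) : ℂ)) (e := fun i (p : (ℕ → ℝ) × (ℕ → ℝ)) =>
    (Real.exp (p.2 i - p.1 (i+1)) : ℂ) * (Real.exp (p.1 (i+1) - p.2 (i+1)) : ℂ))
    (fun i => ?_) (fun i => ?_) n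
  · fun_prop
  · fun_prop

theorem exp_sub_le {n m : ℕ} (x : Fin n → ℝ) (z : Fin m → ℝ) (i j : ℕ) :
    Real.exp (ext x i - ext z j) ≤ Real.exp (∑ i, |x i| + ∑ i, |z i|) := by
  apply Real.exp_le_exp.2
  have h1 := abs_ext_le x i
  have h2 := abs_ext_le z j
  linarith [le_abs_self (ext x i), neg_abs_le (ext z j)]

theorem exp_sub_le' {n m : ℕ} (x : Fin n → ℝ) (z : Fin m → ℝ) (i j : ℕ) :
    Real.exp (ext z j - ext x i) ≤ Real.exp (∑ i, |x i| + ∑ i, |z i|) := by
  apply Real.exp_le_exp.2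
  have h1 := abs_ext_le x i
  have h2 := abs_ext_le z j
  linarith [neg_abs_le (ext x i), le_abs_self (ext z j)]

theorem Kz_norm_le (w a0 : ℂ) {n : ℕ} (x : Fin (n+1) → ℝ) (z : Fin n → ℝ) :
    ‖Kz w a0 (ext x) (ext z) n‖ ≤
      (2 * (‖w - a0‖ + 2)) ^ n * Real.exp (n * (∑ i, |x i| + ∑ i, |z i|)) := by
  set S := ∑ i, |x i| + ∑ i, |z i| with hS
  have hS0 : 0 ≤ S := by positivity
  have hE : 1 ≤ Real.exp S := by rw [Real.one_le_exp_iff]; exact hS0
  unfold Kz
  refine (kc_norm_le (K := (‖w - a0‖ + 2) * Real.exp S) (h := fun _ => 1) (by positivity)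
    (fun _ => zero_le_one) n (fun i _ => ?_) (fun i _ => ?_)).trans ?_
  · rw [mul_one]
    have h1 := exp_sub_le x z i i
    have h2 := exp_sub_le' x z (i+1) i
    rw [← hS] at h1 h2
    calc ‖(w - a0) + (Real.exp (ext x i - ext z i) : ℂ) - (Real.exp (ext z i - ext x (i+1)) : ℂ)‖
        ≤ ‖w - a0‖ + ‖(Real.exp (ext x i - ext z i) : ℂ)‖ +
          ‖(Real.exp (ext z i - ext x (i+1)) : ℂ)‖ := by
          refine (norm_sub_le _ _).trans ?_
          gcongr
          exact norm_add_le _ _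
      _ = ‖w - a0‖ * 1 + Real.exp (ext x i - ext z i) + Real.exp (ext z i - ext x (i+1)) := by
          rw [Complex.norm_real, Complex.norm_real, Real.norm_of_nonneg (Real.exp_pos _).le,
            Real.norm_of_nonneg (Real.exp_pos _).le, mul_one]
      _ ≤ ‖w - a0‖ * Real.exp S + Real.exp S + Real.exp S := by gcongr
      _ = _ := by ring
  · rw [mul_one, mul_one, norm_mul, Complex.norm_real, Complex.norm_real,
      Real.norm_of_nonneg (Real.exp_pos _).le, Real.norm_of_nonneg (Real.exp_pos _).le]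
    have h1 := exp_sub_le' x z (i+1) i
    have h2 := exp_sub_le x z (i+1) (i+1)
    rw [← hS] at h1 h2
    have h3 : 1 ≤ ‖w - a0‖ + 2 := by linarith [norm_nonneg (w - a0)]
    calc Real.exp (ext z i - ext x (i+1)) * Real.exp (ext x (i+1) - ext z (i+1))
        ≤ Real.exp S * Real.exp S := by gcongr
      _ = 1 * Real.exp S ^ 2 := by ring
      _ ≤ (‖w - a0‖ + 2)^2 * Real.exp S ^ 2 := by
          gcongr
          exact one_le_pow₀ h3
      _ = _ := by ring
  · rw [Finset.prod_const_one, mul_one, ← mul_assoc, mul_pow, ← Real.exp_nat_mul]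

/-- the `x`-integral at fixed `z` -/
theorem x_integral {n : ℕ} (a0 w : ℂ) {f f' : ℕ → ℝ → ℂ} (h : TF f f') (z : Fin n → ℝ) :
    ∫ x : Fin (n+1) → ℝ, Ker a0 x z * kc (Dc w f f' (ext x)) (Ec f (ext x)) (n+1) =
    ∫ x : Fin (n+1) → ℝ, Ker a0 x z * ((w - a0) * ((∏ i ∈ Finset.range (n+1), f i (ext x i)) *
      Kz w a0 (ext x) (ext z) n)) := by
  -- pointwise rewriting of both sides
  set c := Complex.exp (-(a0 * ((∑ i, z i : ℝ) : ℂ))) with hc
  set κ := kapx a0 (ext z) n with hκ
  have hκc : ∀ i, Continuous (κ i) := fun i => kapx_continuous a0 (ext z) n i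
  have L : ∀ x : Fin (n+1) → ℝ, Ker a0 x z * kc (Dc w f f' (ext x)) (Ec f (ext x)) (n+1) =
      c * kc (fun i => (fun (i : ℕ) (t : ℝ) => κ i t * (w * f i t + f' i t)) i (ext x i))
        (fun i => (fun (i : ℕ) (t : ℝ) => κ i t * (Complex.exp (1 * (t : ℂ)) * f i t)) i (ext x i) *
          (fun (i : ℕ) (t : ℝ) => κ i t * (Complex.exp (-1 * (t : ℂ)) * f i t)) (i+1) (ext x (i+1)))
          (n+1) := by
    intro x
    rw [Ker_eq_x, ← hc, mul_assoc, kc_scale]
    congr 1
    apply kc_congr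
    · intro i _; rfl
    · intro i _; simp only [Ec, hκ]; ring
  have R : ∀ x : Fin (n+1) → ℝ, Ker a0 x z * ((w - a0) *
      ((∏ i ∈ Finset.range (n+1), f i (ext x i)) * Kz w a0 (ext x) (ext z) n)) =
      c * kc (fun i => (fun (i : ℕ) (t : ℝ) => κ i t *
          ((w - a0 + (Ut (ext z) n i t : ℂ) - (Vt (ext z) i t : ℂ)) * f i t)) i (ext x i))
        (fun i => (fun (i : ℕ) (t : ℝ) => κ i t * (Complex.exp (1 * (t : ℂ)) * f i t)) i (ext x i) *
          (fun (i : ℕ) (t : ℝ) => κ i t * (Complex.exp (-1 * (t : ℂ)) * f i t)) (i+1) (ext x (i+1)))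
          (n+1) := by
    intro x
    rw [Ker_eq_x, ← hc, mul_assoc]
    congr 1
    -- the factorisation identity
    set u : ℕ → ℂ := fun i => if i < n then (Real.exp (ext x i - ext z i) : ℂ) else 0 with hu
    set v : ℕ → ℂ := fun i => (Real.exp (ext z i - ext x (i+1)) : ℂ) with hv
    have hfac := kc_factor (w - a0) u v n (by simp [hu])
    have hKz : Kz w a0 (ext x) (ext z) n =
        kc (fun i => w - a0 + u i - v i) (fun i => v i * u (i+1)) n := by
      unfold Kz
      apply kc_congr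
      · intro i hi; simp only [hu, hv, if_pos hi]
      · intro i hi; simp only [hu, hv, if_pos hi]
    rw [hKz, mul_left_comm (w - a0), ← hfac, kc_scale, kc_scale]
    apply kc_congr
    · intro i hi
      have eU : u i = (Ut (ext z) n i (ext x i) : ℂ) := by
        simp only [hu, Ut]; split_ifs <;> simp
      have eV : (if i = 0 then 0 else v (i-1)) = (Vt (ext z) i (ext x i) : ℂ) := by
        simp only [hv, Vt]
        split_ifs with h2
        · simp
        · rw [show i - 1 + 1 = i by omega]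
      rw [eU, eV]
      ring
    · intro i hi
      have h1 : i < n := by omega
      simp only [hu, hv, if_pos h1, hκ]
      have e1 : (Real.exp (ext x i - ext z i) : ℂ) * (Real.exp (ext z i - ext x (i+1)) : ℂ) =
          Complex.exp (1 * (ext x i : ℂ)) * Complex.exp (-1 * (ext x (i+1) : ℂ)) := by
        push_cast
        rw [← Complex.exp_add, ← Complex.exp_add]; congr 1; ring
      rw [e1]; ring
  simp only [L, R]
  rw [integral_const_mul, integral_const_mul]
  congr 1
  have hb := fun i => kapx_norm_le a0 (ext z) n i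
  have rD : ∀ i, Rap (fun t : ℝ => κ i t * (w * f i t + f' i t)) := fun i =>
    (((h.rap i).const_mul w).add (h.rap' i)).mul_bdd (hκc i) (hb i)
  have rL : ∀ i, Rap (fun t : ℝ => κ i t * (Complex.exp (1 * (t : ℂ)) * f i t)) := fun i =>
    ((h.rap i).mul_cexp 1).mul_bdd (hκc i) (hb i)
  have rR : ∀ i, Rap (fun t : ℝ => κ i t * (Complex.exp (-1 * (t : ℂ)) * f i t)) := fun i =>
    ((h.rap i).mul_cexp (-1)).mul_bdd (hκc i) (hb i)
  have rD' : ∀ i, Rap (fun t : ℝ => κ i t *
      ((w - a0 + (Ut (ext z) n i t : ℂ) - (Vt (ext z) i t : ℂ)) * f i t)) := by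
    intro i
    have hU := Ut_continuous (ext z) n i
    have hV := Vt_continuous (ext z) i
    refine Rap.mul_bdd ?_ (hκc i) (hb i)
    refine (h.rap i).mul_bdd (K := ‖w - a0‖ + Real.exp |ext z i| + Real.exp |ext z (i-1)|) (M := 1)
      (by fun_prop) (fun t => ?_)
    have h1 := Ut_le (ext z) n i t
    have h2 := Vt_le (ext z) i t
    have h3 : (1 : ℝ) ≤ Real.exp (1 * |t|) := by
      rw [Real.one_le_exp_iff]; positivity
    calc ‖w - a0 + (Ut (ext z) n i t : ℂ) - (Vt (ext z) i t : ℂ)‖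
        ≤ ‖w - a0‖ + ‖(Ut (ext z) n i t : ℂ)‖ + ‖(Vt (ext z) i t : ℂ)‖ := by
          refine (norm_sub_le _ _).trans ?_
          gcongr
          exact norm_add_le _ _
      _ = ‖w - a0‖ * 1 + Ut (ext z) n i t + Vt (ext z) i t := by
          rw [Complex.norm_real, Complex.norm_real, Real.norm_of_nonneg (Ut_nonneg _ n i t),
            Real.norm_of_nonneg (Vt_nonneg _ i t), mul_one]
      _ ≤ ‖w - a0‖ * Real.exp (1 * |t|) + Real.exp |ext z i| * Real.exp |t| +
          Real.exp |ext z (i-1)| * Real.exp |t| := by gcongr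
      _ = _ := by rw [one_mul]; ring
  rw [integral_kc (n+1) (fun (i : ℕ) (t : ℝ) => κ i t * (w * f i t + f' i t))
      (fun (i : ℕ) (t : ℝ) => κ i t * (Complex.exp (1 * (t : ℂ)) * f i t))
      (fun (i : ℕ) (t : ℝ) => κ i t * (Complex.exp (-1 * (t : ℂ)) * f i t))
      (fun i _ => (rD i).integrable) (fun i _ => (rL i).integrable) (fun i _ => (rR i).integrable),
    integral_kc (n+1) (fun (i : ℕ) (t : ℝ) => κ i t *
          ((w - a0 + (Ut (ext z) n i t : ℂ) - (Vt (ext z) i t : ℂ)) * f i t))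
      (fun (i : ℕ) (t : ℝ) => κ i t * (Complex.exp (1 * (t : ℂ)) * f i t))
      (fun (i : ℕ) (t : ℝ) => κ i t * (Complex.exp (-1 * (t : ℂ)) * f i t))
      (fun i _ => (rD' i).integrable) (fun i _ => (rL i).integrable) (fun i _ => (rR i).integrable)]
  congr 1
  funext i
  exact ibp_kapx (h.rap i) (h.rap' i) (h.deriv i) a0 w (ext z) n i

theorem Phi_congr (n : ℕ) : ∀ {a b : ℕ → ℂ}, (∀ i, i < n → a i = b i) → Phi n a = Phi n b := by
  induction n with
  | zero => intro a b _; rfl
  | succ n ih =>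
    intro a b h
    funext x
    rw [Phi_succ, Phi_succ, h 0 (by omega),
      ih (a := fun i => a (i+1)) (b := fun i => b (i+1)) (fun i hi => h (i+1) (by omega))]

theorem Phi_crude' (n : ℕ) (a : ℕ → ℂ) : ∃ C M : ℝ, 0 ≤ C ∧ 0 ≤ M ∧
    ∀ x : Fin n → ℝ, ‖Phi n a x‖ ≤ C * Real.exp (M * ∑ i, |x i|) := by
  set R : ℝ := ∑ i ∈ Finset.range n, ‖a i‖ with hR
  have hR0 : 0 ≤ R := Finset.sum_nonneg fun _ _ => norm_nonneg _
  obtain ⟨C, M, hC, hM, h⟩ := Phi_crude n R hR0
  refine ⟨C, M, hC, hM, fun x => ?_⟩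
  have e : Phi n a = Phi n (fun i => if i < n then a i else 0) :=
    Phi_congr n (fun i hi => by simp [hi])
  rw [e]
  refine h _ (fun i => ?_) x
  by_cases hi : i < n
  · simp only [hi, if_true]
    exact Finset.single_le_sum (f := fun i => ‖a i‖) (fun _ _ => norm_nonneg _) (Finset.mem_range.2 hi)
  · simp [hi, hR0]

/-- The Toda system, tested against products of rapidly decreasing functions. -/
theorem weak_toda (n : ℕ) : ∀ (a : ℕ → ℂ) (f f' : ℕ → ℝ → ℂ), TF f f' → ∀ w : ℂ,
    ∫ x : Fin n → ℝ, Phi n a x * kc (Dc w f f' (ext x)) (Ec f (ext x)) n =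
      (∏ i ∈ Finset.range n, (w - a i)) *
        ∫ x : Fin n → ℝ, Phi n a x * ∏ i ∈ Finset.range n, f i (ext x i) := by
  induction n with
  | zero => intro a f f' _ w; simp [kc_zero]
  | succ n ih =>
    intro a f f' h w
    set a' : ℕ → ℂ := fun i => a (i+1) with ha'
    obtain ⟨CP, MP, hCP, hMP, hP⟩ := Phi_crude' n a'
    have hPm : StronglyMeasurable (fun p : (Fin (n+1) → ℝ) × (Fin n → ℝ) => Phi n a' p.2) :=
      (Phi_stronglyMeasurable n a').comp_measurable measurable_snd
    have hKm : StronglyMeasurable (fun p : (Fin (n+1) → ℝ) × (Fin n → ℝ) => Ker (a 0) p.1 p.2) :=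
      (Ker_continuous (a 0)).stronglyMeasurable
    -- first integrand
    set Ψ1 : (Fin (n+1) → ℝ) → (Fin n → ℝ) → ℂ := fun x z =>
      (Ker (a 0) x z * Phi n a' z) * kc (Dc w f f' (ext x)) (Ec f (ext x)) (n+1) with hΨ1
    have hkc1 : Continuous (fun p : (Fin (n+1) → ℝ) × (Fin n → ℝ) =>
        kc (Dc w f f' (ext p.1)) (Ec f (ext p.1)) (n+1)) := by
      refine kc_continuous (d := fun i (p : (Fin (n+1) → ℝ) × (Fin n → ℝ)) => Dc w f f' (ext p.1) i)
        (e := fun i (p : (Fin (n+1) → ℝ) × (Fin n → ℝ)) => Ec f (ext p.1) i)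
        (fun i => ?_) (fun i => ?_) (n+1)
      · exact (Dc_continuous w h i).comp (ext_continuous'.comp continuous_fst)
      · exact (Ec_continuous h i).comp (ext_continuous'.comp continuous_fst)
    have hI1 : Integrable (Function.uncurry Ψ1) (volume.prod volume) := by
      refine dom_integrable _ ((hKm.mul hPm).mul hkc1.stronglyMeasurable).aestronglyMeasurable
        (hw f f') (hw_nonneg f f') (fun i N => hw_bd h i N)
        (CP * (2 * (‖w‖ + 1)) ^ (n+1)) (‖a 0‖ + MP + (n+1)) (by positivity) (by positivity) ?_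
      intro x z
      set S := ∑ i, |x i| + ∑ i, |z i| with hS
      have hSx : ∑ i, |x i| ≤ S := by
        have : 0 ≤ ∑ i, |z i| := Finset.sum_nonneg fun _ _ => abs_nonneg _
        linarith
      have hSz : ∑ i, |z i| ≤ S := by
        have : 0 ≤ ∑ i, |x i| := Finset.sum_nonneg fun _ _ => abs_nonneg _
        linarith
      have h1 := Ker_norm (a 0) x z
      have h2 := hP z
      have h3 : ‖kc (Dc w f f' (ext x)) (Ec f (ext x)) (n+1)‖ ≤
          (2 * ((‖w‖ + 1) * Real.exp S)) ^ (n+1) *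
            ∏ i ∈ Finset.range (n+1), hw f f' i (ext x i) := by
        refine kc_norm_le (K := (‖w‖ + 1) * Real.exp S) (h := fun i => hw f f' i (ext x i))
          (by positivity) (fun i => hw_nonneg _ _ _ _) (n+1) (fun i _ => ?_) (fun i _ => ?_)
        · refine (Dc_norm_le w f f' (ext x) i).trans ?_
          have : (1 : ℝ) ≤ Real.exp S := by
            rw [Real.one_le_exp_iff, hS]; positivity
          have h0 := hw_nonneg f f' i (ext x i)
          calc (‖w‖ + 1) * hw f f' i (ext x i) = (‖w‖ + 1) * 1 * hw f f' i (ext x i) := by ring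
            _ ≤ (‖w‖ + 1) * Real.exp S * hw f f' i (ext x i) := by gcongr
        · refine (Ec_norm_le f f' x i).trans ?_
          have e1 : Real.exp (∑ i, |x i|) ≤ (‖w‖ + 1) * Real.exp S := by
            calc Real.exp (∑ i, |x i|) ≤ 1 * Real.exp S := by
                  rw [one_mul]; exact Real.exp_le_exp.2 hSx
              _ ≤ _ := by gcongr; linarith [norm_nonneg w]
          have h0 := hw_nonneg f f' i (ext x i)
          have h00 := hw_nonneg f f' (i+1) (ext x (i+1))
          gcongr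
      simp only [Function.uncurry, hΨ1]
      rw [norm_mul, norm_mul]
      have hh0 : 0 ≤ ∏ i ∈ Finset.range (n+1), hw f f' i (ext x i) :=
        Finset.prod_nonneg fun i _ => hw_nonneg _ _ _ _
      have hK0 := (Kre_pos x z).le
      calc ‖Ker (a 0) x z‖ * ‖Phi n a' z‖ * ‖kc (Dc w f f' (ext x)) (Ec f (ext x)) (n+1)‖
          ≤ (Real.exp (‖a 0‖ * S) * Kre x z) * (CP * Real.exp (MP * S)) *
            ((2 * ((‖w‖ + 1) * Real.exp S)) ^ (n+1) *
            ∏ i ∈ Finset.range (n+1), hw f f' i (ext x i)) := by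
            gcongr
            refine h2.trans ?_
            gcongr
        _ = CP * (2 * (‖w‖ + 1)) ^ (n+1) *
            (Real.exp (‖a 0‖ * S) * Real.exp (MP * S) * Real.exp S ^ (n+1)) * Kre x z *
            ∏ i ∈ Finset.range (n+1), hw f f' i (ext x i) := by
            rw [← mul_assoc 2, mul_pow]; ring
        _ = _ := by
            rw [← Real.exp_nat_mul, ← Real.exp_add, ← Real.exp_add]
            congr 4
            push_cast; ring
    -- second integrand
    set Ψ2 : (Fin (n+1) → ℝ) → (Fin n → ℝ) → ℂ := fun x z =>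
      (Ker (a 0) x z * Phi n a' z) * ((w - a 0) * ((∏ i ∈ Finset.range (n+1), f i (ext x i)) *
        Kz w (a 0) (ext x) (ext z) n)) with hΨ2
    have hfc : Continuous (fun p : (Fin (n+1) → ℝ) × (Fin n → ℝ) =>
        ∏ i ∈ Finset.range (n+1), f i (ext p.1 i)) := by
      refine continuous_finsetProd _ fun i _ => ?_
      exact (h.cont i).comp ((ext_continuous i).comp continuous_fst)
    have hkzc : Continuous (fun p : (Fin (n+1) → ℝ) × (Fin n → ℝ) =>
        Kz w (a 0) (ext p.1) (ext p.2) n) :=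
      (Kz_continuous w (a 0) n).comp
        ((ext_continuous'.comp continuous_fst).prodMk (ext_continuous'.comp continuous_snd))
    have hI2 : Integrable (Function.uncurry Ψ2) (volume.prod volume) := by
      refine dom_integrable _ ((hKm.mul hPm).mul
        (continuous_const.mul (hfc.mul hkzc)).stronglyMeasurable).aestronglyMeasurable
        (hw f f') (hw_nonneg f f') (fun i N => hw_bd h i N)
        (CP * ‖w - a 0‖ * (2 * (‖w - a 0‖ + 2)) ^ n) (‖a 0‖ + MP + n)
        (by positivity) (by positivity) ?_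
      intro x z
      set S := ∑ i, |x i| + ∑ i, |z i| with hS
      have hSz : ∑ i, |z i| ≤ S := by
        have : 0 ≤ ∑ i, |x i| := Finset.sum_nonneg fun _ _ => abs_nonneg _
        linarith
      have h1 := Ker_norm (a 0) x z
      have h2 := hP z
      have h3 := Kz_norm_le w (a 0) x z
      rw [← hS] at h1 h3
      have h4 : ‖∏ i ∈ Finset.range (n+1), f i (ext x i)‖ ≤
          ∏ i ∈ Finset.range (n+1), hw f f' i (ext x i) := by
        rw [norm_prod]
        refine Finset.prod_le_prod (fun _ _ => norm_nonneg _) (fun i _ => ?_)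
        unfold hw; linarith [norm_nonneg (f' i (ext x i))]
      simp only [Function.uncurry, hΨ2]
      rw [norm_mul, norm_mul, norm_mul, norm_mul]
      have hh0 : 0 ≤ ∏ i ∈ Finset.range (n+1), hw f f' i (ext x i) :=
        Finset.prod_nonneg fun i _ => hw_nonneg _ _ _ _
      have hK0 := (Kre_pos x z).le
      calc ‖Ker (a 0) x z‖ * ‖Phi n a' z‖ * (‖w - a 0‖ *
            (‖∏ i ∈ Finset.range (n+1), f i (ext x i)‖ * ‖Kz w (a 0) (ext x) (ext z) n‖))
          ≤ (Real.exp (‖a 0‖ * S) * Kre x z) * (CP * Real.exp (MP * S)) * (‖w - a 0‖ *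
            ((∏ i ∈ Finset.range (n+1), hw f f' i (ext x i)) *
              ((2 * (‖w - a 0‖ + 2)) ^ n * Real.exp (n * S)))) := by
            gcongr
            refine h2.trans ?_
            gcongr
        _ = CP * ‖w - a 0‖ * (2 * (‖w - a 0‖ + 2)) ^ n *
            (Real.exp (‖a 0‖ * S) * Real.exp (MP * S) * Real.exp (n * S)) * Kre x z *
            ∏ i ∈ Finset.range (n+1), hw f f' i (ext x i) := by ring
        _ = _ := by
            rw [← Real.exp_add, ← Real.exp_add]
            congr 4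
            ring
    -- main computation
    have s1 : ∫ x : Fin (n+1) → ℝ, Phi (n+1) a x * kc (Dc w f f' (ext x)) (Ec f (ext x)) (n+1) =
        ∫ x : Fin (n+1) → ℝ, ∫ z : Fin n → ℝ, Ψ1 x z := by
      refine integral_congr_ae (Filter.Eventually.of_forall fun x => ?_)
      simp only [hΨ1]
      rw [integral_mul_const, Phi_succ']
    have s2 : ∫ z : Fin n → ℝ, ∫ x : Fin (n+1) → ℝ, Ψ1 x z =
        ∫ z : Fin n → ℝ, ∫ x : Fin (n+1) → ℝ, Ψ2 x z := by
      refine integral_congr_ae (Filter.Eventually.of_forall fun z => ?_)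
      simp only [hΨ1, hΨ2]
      have e1 : ∀ x : Fin (n+1) → ℝ, Ker (a 0) x z * Phi n a' z *
          kc (Dc w f f' (ext x)) (Ec f (ext x)) (n+1) =
          Phi n a' z * (Ker (a 0) x z * kc (Dc w f f' (ext x)) (Ec f (ext x)) (n+1)) := fun x => by ring
      have e2 : ∀ x : Fin (n+1) → ℝ, Ker (a 0) x z * Phi n a' z *
          ((w - a 0) * ((∏ i ∈ Finset.range (n+1), f i (ext x i)) *
            Kz w (a 0) (ext x) (ext z) n)) =
          Phi n a' z * (Ker (a 0) x z * ((w - a 0) * ((∏ i ∈ Finset.range (n+1), f i (ext x i)) *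
            Kz w (a 0) (ext x) (ext z) n))) := fun x => by ring
      simp only [e1, e2]
      rw [integral_const_mul, integral_const_mul, x_integral (a 0) w h z]
    have s3 : ∀ x : Fin (n+1) → ℝ, ∫ z : Fin n → ℝ, Ψ2 x z =
        (∏ i ∈ Finset.range (n+1), (w - a i)) *
          (Phi (n+1) a x * ∏ i ∈ Finset.range (n+1), f i (ext x i)) := by
      intro x
      have hTF : TF (gz (a 0) (ext x)) (gz' (a 0) (ext x)) :=
        ⟨gz_rap _ _, gz'_rap _ _, fun i t => gz_hasDerivAt _ _ _ _⟩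
      have hih := ih a' (gz (a 0) (ext x)) (gz' (a 0) (ext x)) hTF w
      have e1 : ∀ z : Fin n → ℝ, Ψ2 x z =
          ((w - a 0) * (∏ i ∈ Finset.range (n+1), f i (ext x i)) *
            Complex.exp (a 0 * ((∑ i, x i : ℝ) : ℂ))) *
          (Phi n a' z * kc (Dc w (gz (a 0) (ext x)) (gz' (a 0) (ext x)) (ext z))
            (Ec (gz (a 0) (ext x)) (ext z)) n) := by
        intro z
        simp only [hΨ2]
        have e2 : (∏ i ∈ Finset.range n, gz (a 0) (ext x) i (ext z i)) *
            Kz w (a 0) (ext x) (ext z) n =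
            kc (Dc w (gz (a 0) (ext x)) (gz' (a 0) (ext x)) (ext z))
            (Ec (gz (a 0) (ext x)) (ext z)) n := by
          unfold Kz
          rw [kc_scale]
          apply kc_congr
          · intro i _
            simp only [Dc, gz']; ring
          · intro i _
            simp only [Ec]
            have e3 : (Real.exp (ext z i - ext x (i+1)) : ℂ) *
                (Real.exp (ext x (i+1) - ext z (i+1)) : ℂ) =
                Complex.exp (1 * (ext z i : ℂ)) * Complex.exp (-1 * (ext z (i+1) : ℂ)) := by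
              push_cast
              rw [← Complex.exp_add, ← Complex.exp_add]; congr 1; ring
            rw [e3]; ring
        rw [← e2, Ker_eq_z]
        ring
      simp only [e1]
      rw [integral_const_mul, hih]
      have e4 : Phi (n+1) a x = Complex.exp (a 0 * ((∑ i, x i : ℝ) : ℂ)) *
          ∫ z : Fin n → ℝ, Phi n a' z * ∏ i ∈ Finset.range n, gz (a 0) (ext x) i (ext z i) := by
        rw [Phi_succ', ← integral_const_mul]
        refine integral_congr_ae (Filter.Eventually.of_forall fun z => ?_)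
        simp only [Ker_eq_z]
        ring
      rw [e4, Finset.prod_range_succ' (fun i => w - a i)]
      simp only [ha']
      ring
    rw [s1, integral_integral_swap hI1, s2, ← integral_integral_swap hI2]
    simp only [s3]
    rw [integral_const_mul]

end Pool.Agent.MP2f3d29
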