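import Mathlib
import Pool.Agent.MP_2f3d29_nt.B6

set_option autoImplicit false

open MeasureTheory Set

namespace Pool.Agent.MP2f3d29

variable {k : ℕ}

/-- from gaps to points, with last coordinate `0` -/
noncomputable def xg (g : Fin k → ℝ) : Fin (k+1) → ℝ :=
  fun i => ∑ j ∈ Finset.Ico (i : ℕ) k, ext g j

theorem xg_gap (g : Fin k → ℝ) (j : Fin k) : xg g j.castSucc - xg g j.succ = g j := by
  unfold xg
  simp only [Fin.val_castSucc, Fin.val_succ]
  rw [Finset.sum_eq_sum_Ico_succ_bot j.2, ext_fin]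
  ring

theorem xg_last (g : Fin k → ℝ) : xg g (Fin.last k) = 0 := by
  unfold xg; simp

theorem Phi_translate (n : ℕ) : ∀ (a : ℕ → ℂ) (x : Fin n → ℝ) (t : ℝ),
    Phi n a (fun i => t + x i) = Complex.exp ((∑ i ∈ Finset.range n, a i) * t) * Phi n a x := by
  induction n with
  | zero => intro a x t; simp [Phi]
  | succ n ih =>
    intro a x t
    rw [Phi_succ, Phi_succ]
    have e1 := integral_add_left_eq_self (μ := (volume : Measure (Fin n → ℝ)))
      (fun z : Fin n → ℝ =>
      Complex.exp (a 0 * ((∑ i, (t + x i) - ∑ i, z i : ℝ) : ℂ)) *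
        (Kre (fun i => t + x i) z : ℂ) * Phi n (fun i => a (i+1)) z) (fun _ => t)
    rw [← e1, ← integral_const_mul]
    refine integral_congr_ae (Filter.Eventually.of_forall fun z => ?_)
    simp only [Pi.add_apply]
    have h1 : (fun i => t + z i) = (fun i => t + z i) := rfl
    have h2 : ((fun _ => t) + z : Fin n → ℝ) = fun i => t + z i := rfl
    rw [h2, ih]
    have h3 : Kre (fun i => t + x i) (fun i => t + z i) = Kre x z := by
      unfold Kre
      refine Finset.prod_congr rfl fun i _ => ?_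
      congr 4 <;> ring
    rw [h3, Finset.sum_range_succ' a n]
    have h4 : Complex.exp (a 0 * ((∑ i, (t + x i) - ∑ i, (t + z i) : ℝ) : ℂ)) =
        Complex.exp (a 0 * t) * Complex.exp (a 0 * ((∑ i, x i - ∑ i, z i : ℝ) : ℂ)) := by
      rw [← Complex.exp_add]
      congr 1
      rw [Finset.sum_add_distrib, Finset.sum_add_distrib]
      simp only [Finset.sum_const, Finset.card_univ, Fintype.card_fin, nsmul_eq_mul]
      push_cast
      ring
    rw [h4, add_mul, Complex.exp_add]
    ring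

/-- The good constants for the parameter `a`. -/
def Good (k : ℕ) (A : ℝ) (a : ℕ → ℂ) : Prop :=
  ∀ c : ℕ → ℝ, (∀ j, j < k → A ≤ c j) → ∃ C : ℝ, 0 ≤ C ∧ ∀ x : Fin (k+1) → ℝ,
      ‖Phi (k+1) a x‖ ≤ C * Real.exp (-(∑ j : Fin k, c j * (x j.castSucc - x j.succ)) +
        (∑ i ∈ Finset.range (k+1), (a i).re) * x (Fin.last k))

theorem good_exists (k : ℕ) (a : ℕ → ℂ) : ∃ A, Good k A a := by
  set R : ℝ := ∑ i ∈ Finset.range (k+1), ‖a i‖ with hR
  have hR0 : 0 ≤ R := Finset.sum_nonneg fun _ _ => norm_nonneg _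
  obtain ⟨A, hA⟩ := Phi_bound k R hR0
  refine ⟨A, fun c hc => ?_⟩
  obtain ⟨C, hC0, hC⟩ := hA c hc
  refine ⟨C, hC0, fun x => ?_⟩
  have e : Phi (k+1) a = Phi (k+1) (fun i => if i < k+1 then a i else 0) :=
    Phi_congr (k+1) (fun i hi => by simp [hi])
  have e2 : ∑ i ∈ Finset.range (k+1), (a i).re =
      ∑ i ∈ Finset.range (k+1), ((fun i => if i < k+1 then a i else 0) i : ℂ).re := by
    refine Finset.sum_congr rfl fun i hi => ?_
    simp [Finset.mem_range.1 hi]
  rw [e, e2]
  refine hC _ (fun i => ?_) x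
  by_cases hi : i < k+1
  · simp only [hi, if_true]
    exact Finset.single_le_sum (f := fun i => ‖a i‖) (fun _ _ => norm_nonneg _) (Finset.mem_range.2 hi)
  · simp [hi, hR0]

/-- The decay of `Phi` against exponentials in the gaps. -/
theorem Good.bound {A : ℝ} {a : ℕ → ℂ} (hA : Good k A a) (ha : ∑ i ∈ Finset.range (k+1), a i = 0)
    (σ : Fin k → ℝ) (hσ : ∀ j, A + 1 ≤ σ j) (B : ℝ) (hB : 0 ≤ B) : ∃ C : ℝ, 0 ≤ C ∧
    ∀ x : Fin (k+1) → ℝ, ‖Phi (k+1) a x‖ * Real.exp (∑ j, σ j * (x j.castSucc - x j.succ)) *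
      Real.exp (B * ∑ j : Fin k, max (x j.castSucc - x j.succ) 0) ≤
      C * Real.exp (-∑ j : Fin k, |x j.castSucc - x j.succ|) := by
  classical
  set c : Finset (Fin k) → ℕ → ℝ := fun T j => if h : j < k then
    (if (⟨j, h⟩ : Fin k) ∈ T then σ ⟨j, h⟩ + B + 1 else σ ⟨j, h⟩ - 1) else A with hc
  have h1 : ∀ T, ∃ C : ℝ, 0 ≤ C ∧ ∀ x : Fin (k+1) → ℝ,
      ‖Phi (k+1) a x‖ ≤ C * Real.exp (-(∑ j : Fin k, c T j * (x j.castSucc - x j.succ)) +
        (∑ i ∈ Finset.range (k+1), (a i).re) * x (Fin.last k)) := by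
    intro T
    refine hA (c T) (fun j hj => ?_)
    simp only [hc, hj, dif_pos]
    have := hσ ⟨j, hj⟩
    split_ifs <;> linarith
  choose C hC0 hC using h1
  have ha' : ∑ i ∈ Finset.range (k+1), (a i).re = 0 := by
    rw [← Complex.re_sum, ha, Complex.zero_re]
  refine ⟨∑ T, C T, Finset.sum_nonneg fun T _ => hC0 T, fun x => ?_⟩
  set g : Fin k → ℝ := fun j => x j.castSucc - x j.succ with hg
  set T : Finset (Fin k) := Finset.univ.filter (fun j => 0 ≤ g j) with hT
  have h2 := hC T x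
  rw [ha', zero_mul, add_zero] at h2
  have hle : C T ≤ ∑ T, C T := Finset.single_le_sum (f := C) (fun T _ => hC0 T) (Finset.mem_univ T)
  calc ‖Phi (k+1) a x‖ * Real.exp (∑ j, σ j * g j) * Real.exp (B * ∑ j : Fin k, max (g j) 0)
      ≤ (C T * Real.exp (-(∑ j : Fin k, c T j * g j))) * Real.exp (∑ j, σ j * g j) *
          Real.exp (B * ∑ j : Fin k, max (g j) 0) := by gcongr
    _ = C T * Real.exp (-∑ j : Fin k, |g j|) := by
        rw [mul_assoc, mul_assoc, ← Real.exp_add, ← Real.exp_add]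
        congr 2
        rw [Finset.mul_sum, ← Finset.sum_neg_distrib, ← Finset.sum_neg_distrib,
          ← Finset.sum_add_distrib, ← Finset.sum_add_distrib]
        refine Finset.sum_congr rfl fun j _ => ?_
        simp only [hc, j.2, dif_pos, Fin.eta, hT, Finset.mem_filter, Finset.mem_univ, true_and]
        split_ifs with h
        · rw [max_eq_left h, abs_of_nonneg h]; ring
        · rw [max_eq_right (by linarith), abs_of_nonpos (by linarith)]; ring
    _ ≤ _ := by gcongr

/-! ### change of variables -/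

/-- `(t, g) ↦ t + xg g` -/
noncomputable def xt (p : ℝ × (Fin k → ℝ)) : Fin (k+1) → ℝ := fun i => p.1 + xg p.2 i

theorem xt_gap (p : ℝ × (Fin k → ℝ)) (j : Fin k) : xt p j.castSucc - xt p j.succ = p.2 j := by
  unfold xt
  have := xg_gap p.2 j
  linarith

theorem xt_last (p : ℝ × (Fin k → ℝ)) : xt p (Fin.last k) = p.1 := by
  unfold xt; rw [xg_last, add_zero]

theorem xg_continuous : Continuous (xg : (Fin k → ℝ) → Fin (k+1) → ℝ) := by
  refine continuous_pi fun i => ?_
  unfold xg
  exact continuous_finsetSum _ fun j _ => ext_continuous j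

theorem xt_continuous : Continuous (xt : ℝ × (Fin k → ℝ) → Fin (k+1) → ℝ) := by
  refine continuous_pi fun i => ?_
  unfold xt
  exact continuous_fst.add ((continuous_apply i).comp (xg_continuous.comp continuous_snd))

/-- the triangular matrix -/
def Mtri (k : ℕ) : Matrix (Fin (k+1)) (Fin (k+1)) ℝ := fun i j => if i ≤ j then 1 else 0

theorem Mtri_det (k : ℕ) : (Mtri k).det = 1 := by
  rw [Matrix.det_of_isUpperTriangular]
  · simp [Mtri]
  · intro i j hij
    simp only [id] at hij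
    simp [Mtri, hij]

theorem xt_eq (p : ℝ × (Fin k → ℝ)) :
    xt p = Matrix.toLin' (Mtri k) ((MeasurableEquiv.piFinSuccAbove (fun _ => ℝ) (Fin.last k)).symm p) := by
  funext i
  rw [Matrix.toLin'_apply, Matrix.mulVec, dotProduct]
  have hs : (MeasurableEquiv.piFinSuccAbove (fun _ => ℝ) (Fin.last k)).symm p =
      Fin.insertNth (α := fun _ => ℝ) (Fin.last k) p.1 p.2 := rfl
  rw [hs, Fin.sum_univ_castSucc]
  have e1 : ∀ j : Fin k, (Fin.insertNth (α := fun _ => ℝ) (Fin.last k) p.1 p.2) j.castSucc = p.2 j := by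
    intro j
    have := Fin.insertNth_apply_succAbove (α := fun _ => ℝ) (Fin.last k) p.1 p.2 j
    rwa [Fin.succAbove_last] at this
  have e2 : (Fin.insertNth (α := fun _ => ℝ) (Fin.last k) p.1 p.2) (Fin.last k) = p.1 :=
    Fin.insertNth_apply_same _ _ _
  rw [e2]
  simp only [e1, Mtri, Fin.le_last, if_true, one_mul]
  unfold xt xg
  rw [add_comm]
  congr 1
  have h1 : ∀ j : Fin k, (if i ≤ j.castSucc then (1:ℝ) else 0) * p.2 j =
      (fun j : ℕ => if (i : ℕ) ≤ j then ext p.2 j else 0) j := by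
    intro j
    simp only [Fin.le_def, Fin.val_castSucc, ext_fin]
    split_ifs <;> simp
  rw [Finset.sum_congr rfl (fun j _ => h1 j), ← Finset.sum_range
    (fun j : ℕ => if (i : ℕ) ≤ j then ext p.2 j else 0), ← Finset.sum_filter]
  refine Finset.sum_congr ?_ fun _ _ => rfl
  ext j
  simp only [Finset.mem_Ico, Finset.mem_filter, Finset.mem_range]
  tauto

theorem xt_measurePreserving : MeasurePreserving (xt : ℝ × (Fin k → ℝ) → Fin (k+1) → ℝ)
    (volume.prod volume) volume := by
  have h1 := (volume_preserving_piFinSuccAbove (fun _ : Fin (k+1) => ℝ) (Fin.last k)).symm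
  have h2 : MeasurePreserving (Matrix.toLin' (Mtri k)) (volume : Measure (Fin (k+1) → ℝ)) volume := by
    refine ⟨(Matrix.toLin' (Mtri k)).continuous_of_finiteDimensional.measurable, ?_⟩
    rw [Real.map_matrix_volume_pi_eq_smul_volume_pi (by rw [Mtri_det]; exact one_ne_zero), Mtri_det]
    simp
  have h3 := h2.comp h1
  have : (xt : ℝ × (Fin k → ℝ) → Fin (k+1) → ℝ) =
      (Matrix.toLin' (Mtri k)) ∘ (MeasurableEquiv.piFinSuccAbove (fun _ => ℝ) (Fin.last k)).symm := by
    funext p; exact xt_eq p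
  rw [this]
  exact h3

theorem integral_xt (H : (Fin (k+1) → ℝ) → ℂ) (hH : AEStronglyMeasurable H volume) :
    ∫ x, H x = ∫ p, H (xt p) ∂((volume : Measure ℝ).prod (volume : Measure (Fin k → ℝ))) := by
  have h := xt_measurePreserving (k := k)
  rw [← h.map_eq] at hH
  conv_lhs => rw [← h.map_eq]
  exact integral_map h.measurable.aemeasurable hH

end Pool.Agent.MP2f3d29
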