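import Mathlib
import Pool.Agent.MP_2f3d29_nt.B7

set_option autoImplicit false

open MeasureTheory Set

namespace Pool.Agent.MP2f3d29

variable {k : ℕ}

/-- Gaussian test functions -/
noncomputable def gf (p : ℕ → ℂ) (ε : ℕ → ℝ) (i : ℕ) (t : ℝ) : ℂ :=
  Complex.exp (p i * t - ε i * t ^ 2)

noncomputable def gf' (p : ℕ → ℂ) (ε : ℕ → ℝ) (i : ℕ) (t : ℝ) : ℂ :=
  (p i - 2 * ε i * t) * gf p ε i t

theorem gf_norm (p : ℕ → ℂ) (ε : ℕ → ℝ) (i : ℕ) (t : ℝ) :
    ‖gf p ε i t‖ = Real.exp ((p i).re * t - ε i * t ^ 2) := by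
  unfold gf
  rw [Complex.norm_exp]
  congr 1
  rw [Complex.sub_re, Complex.re_mul_ofReal]
  congr 1
  have : (ε i : ℂ) * (t : ℂ) ^ 2 = ((ε i * t ^ 2 : ℝ) : ℂ) := by push_cast; ring
  rw [this, Complex.ofReal_re]

theorem gf_TF (p : ℕ → ℂ) (ε : ℕ → ℝ) (hε : ∀ i, 0 < ε i) : TF (gf p ε) (gf' p ε) := by
  have hrap : ∀ i, Rap (gf p ε i) := by
    intro i
    refine ⟨by unfold gf; fun_prop, fun N => ?_⟩
    set M := |N| + ‖p i‖ with hM
    refine ⟨Real.exp (M ^ 2 / (4 * ε i)), (Real.exp_pos _).le, fun t => ?_⟩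
    rw [gf_norm, ← Real.exp_add]
    apply Real.exp_le_exp.2
    have h1 : (p i).re * t ≤ ‖p i‖ * |t| := by
      calc (p i).re * t ≤ |(p i).re * t| := le_abs_self _
        _ = |(p i).re| * |t| := abs_mul _ _
        _ ≤ ‖p i‖ * |t| := by gcongr; exact Complex.abs_re_le_norm _
    have h2 : N * |t| ≤ |N| * |t| := by gcongr; exact le_abs_self _
    have h3 : M * |t| - ε i * t ^ 2 ≤ M ^ 2 / (4 * ε i) := by
      rw [le_div_iff₀ (by have := hε i; positivity), ← sq_abs t]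
      nlinarith [sq_nonneg (M - 2 * ε i * |t|)]
    have h4 : M * |t| = |N| * |t| + ‖p i‖ * |t| := by rw [hM]; ring
    linarith
  refine ⟨hrap, fun i => ?_, fun i t => ?_⟩
  · refine (hrap i).mul_bdd (K := ‖p i‖ + 2 * ε i) (M := 1) (by fun_prop) (fun t => ?_)
    have hεi := hε i
    have h3 : (1 : ℝ) ≤ Real.exp (1 * |t|) := by
      rw [Real.one_le_exp_iff]; positivity
    have h4 : |t| ≤ Real.exp (1 * |t|) := by
      have := Real.add_one_le_exp (1 * |t|)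
      linarith
    calc ‖p i - 2 * ε i * t‖ ≤ ‖p i‖ + ‖(2 * ε i * t : ℂ)‖ := norm_sub_le _ _
      _ = ‖p i‖ * 1 + 2 * ε i * |t| := by
        rw [norm_mul, norm_mul, Complex.norm_real, Complex.norm_real, Real.norm_eq_abs,
          Real.norm_eq_abs, abs_of_pos hεi]
        norm_num
      _ ≤ ‖p i‖ * Real.exp (1 * |t|) + 2 * ε i * Real.exp (1 * |t|) := by gcongr
      _ = _ := by ring
  · unfold gf' gf
    have h1 : HasDerivAt (fun t : ℝ => p i * (t : ℂ)) (p i) t := by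
      simpa using (Complex.ofRealCLM.hasDerivAt (x := t)).const_mul (p i)
    have h2 : HasDerivAt (fun t : ℝ => (ε i : ℂ) * (t : ℂ) ^ 2) ((ε i : ℂ) * (2 * t)) t := by
      have h3 : HasDerivAt (fun t : ℝ => (t : ℂ)) 1 t := Complex.ofRealCLM.hasDerivAt (x := t)
      have := (h3.pow 2).const_mul (ε i : ℂ)
      simpa using this
    refine ((h1.sub h2).cexp).congr_deriv ?_
    simp only [Pi.sub_apply]
    ring

theorem kc_gf (p : ℕ → ℂ) (ε : ℕ → ℝ) (w : ℂ) (X : ℕ → ℝ) (n : ℕ) :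
    kc (Dc w (gf p ε) (gf' p ε) X) (Ec (gf p ε) X) n =
      (∏ i ∈ Finset.range n, gf p ε i (X i)) *
        kc (fun i => w + p i - 2 * ε i * X i) (fun i => Complex.exp (X i - X (i+1))) n := by
  rw [kc_scale]
  apply kc_congr
  · intro i _
    unfold Dc gf'; ring
  · intro i _
    unfold Ec
    have : Complex.exp ((X i : ℂ) - X (i+1)) = Complex.exp (1 * (X i : ℂ)) *
        Complex.exp (-1 * (X (i+1) : ℂ)) := by
      rw [← Complex.exp_add]; congr 1; ring
    rw [this]; ring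

theorem abel_sum' {R : Type*} [CommRing R] (p X : ℕ → R) (k : ℕ) :
    ∑ i ∈ Finset.range (k+1), p i * X i =
      ∑ j ∈ Finset.range k, (∑ i ∈ Finset.range (j+1), p i) * (X j - X (j+1)) +
        (∑ i ∈ Finset.range (k+1), p i) * X k := by
  induction k with
  | zero => simp
  | succ k ih =>
    rw [Finset.sum_range_succ (fun i => p i * X i), ih,
      Finset.sum_range_succ (fun j => (∑ i ∈ Finset.range (j+1), p i) * (X j - X (j+1))),
      Finset.sum_range_succ (fun i => p i) (k+1)]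
    ring

theorem poly_exp (N : ℕ) (δ : ℝ) (hδ : 0 < δ) : ∃ C : ℝ, 0 ≤ C ∧ ∀ y : ℝ, 0 ≤ y →
    (1 + y) ^ N ≤ C * Real.exp (δ * y) := by
  set d := min 1 (δ / (N + 1)) with hd
  have hd0 : 0 < d := by
    rw [hd]; positivity
  have hd1 : d ≤ 1 := min_le_left _ _
  have hd2 : N * d ≤ δ := by
    have h1 : d ≤ δ / (N+1) := min_le_right _ _
    have h2 : (0 : ℝ) ≤ N := Nat.cast_nonneg _
    have h3 : (N : ℝ) * d ≤ N * (δ / (N+1)) := by gcongr
    have h4 : (N : ℝ) * (δ / (N+1)) ≤ δ := by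
      rw [mul_div_assoc', div_le_iff₀ (by positivity)]
      nlinarith
    linarith
  refine ⟨(1/d) ^ N, by positivity, fun y hy => ?_⟩
  have h1 : 1 + y ≤ (1/d) * Real.exp (d * y) := by
    have := Real.add_one_le_exp (d * y)
    rw [div_mul_eq_mul_div, one_mul, le_div_iff₀ hd0]
    nlinarith
  calc (1 + y) ^ N ≤ ((1/d) * Real.exp (d * y)) ^ N := by gcongr
    _ = (1/d) ^ N * Real.exp (N * (d * y)) := by rw [mul_pow, ← Real.exp_nat_mul]
    _ ≤ (1/d) ^ N * Real.exp (δ * y) := by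
      refine mul_le_mul_of_nonneg_left (Real.exp_le_exp.2 ?_) (by positivity)
      rw [← mul_assoc]
      exact mul_le_mul_of_nonneg_right hd2 hy

theorem abs_le_last (x : Fin (k+1) → ℝ) (i : Fin (k+1)) :
    |x i| ≤ |x (Fin.last k)| + ∑ j : Fin k, |x j.castSucc - x j.succ| := by
  have h1 := dist_le_Ico_sum_dist (ext x) (m := (i : ℕ)) (n := k) (Nat.lt_succ_iff.1 i.2)
  have h2 : ∑ j ∈ Finset.Ico (i : ℕ) k, dist (ext x j) (ext x (j+1)) ≤
      ∑ j ∈ Finset.range k, dist (ext x j) (ext x (j+1)) := by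
    refine Finset.sum_le_sum_of_subset_of_nonneg ?_ (fun _ _ _ => dist_nonneg)
    intro j hj
    simp only [Finset.mem_Ico] at hj
    exact Finset.mem_range.2 hj.2
  have h3 : ∑ j ∈ Finset.range k, dist (ext x j) (ext x (j+1)) =
      ∑ j : Fin k, |x j.castSucc - x j.succ| := by
    rw [Finset.sum_range]
    refine Finset.sum_congr rfl fun j _ => ?_
    rw [Real.dist_eq]
    congr 2
    · exact ext_fin x j.castSucc
    · exact ext_fin x j.succ
  rw [ext_fin, Real.dist_eq] at h1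
  have h4 : ext x k = x (Fin.last k) := ext_fin x (Fin.last k)
  rw [h4] at h1
  have h5 : |x i| ≤ |x i - x (Fin.last k)| + |x (Fin.last k)| := by
    have := abs_add_le (x i - x (Fin.last k)) (x (Fin.last k))
    simpa using this
  linarith

/-- the exponents `p` -/
noncomputable def pU (k : ℕ) (U : ℕ → ℂ) (i : ℕ) : ℂ := U (k - i) - U (k + 1 - i)

theorem pU_sum (U : ℕ → ℂ) (hUk : U (k+1) = 0) (j : ℕ) (hj : j ≤ k) :
    ∑ i ∈ Finset.range (j+1), pU k U i = U (k - j) := by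
  induction j with
  | zero => simp [pU, hUk]
  | succ j ih =>
    rw [Finset.sum_range_succ, ih (by omega), pU]
    have : k + 1 - (j + 1) = k - j := by omega
    rw [this]; ring

theorem pU_lin (U : ℕ → ℂ) (hU0 : U 0 = 0) (hUk : U (k+1) = 0) (x : Fin (k+1) → ℝ) :
    ∑ i ∈ Finset.range (k+1), pU k U i * (ext x i : ℂ) =
      ∑ j : Fin k, U (k - j) * ((x j.castSucc - x j.succ : ℝ) : ℂ) := by
  rw [abel_sum', pU_sum U hUk k le_rfl, Nat.sub_self, hU0, zero_mul, add_zero,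
    Finset.sum_range]
  refine Finset.sum_congr rfl fun j _ => ?_
  rw [pU_sum U hUk j j.2.le]
  have e1 : ext x j = x j.castSucc := ext_fin x j.castSucc
  have e2 : ext x (j+1) = x j.succ := ext_fin x j.succ
  rw [e1, e2]; push_cast; ring

/-- the weight `∏ f_i(x_i)` -/
noncomputable def wt (k : ℕ) (U : ℕ → ℂ) (ε : ℕ → ℝ) (x : Fin (k+1) → ℝ) : ℂ :=
  ∏ i ∈ Finset.range (k+1), gf (pU k U) ε i (ext x i)

theorem wt_eq (U : ℕ → ℂ) (hU0 : U 0 = 0) (hUk : U (k+1) = 0) (ε : ℕ → ℝ)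
    (x : Fin (k+1) → ℝ) : wt k U ε x =
      Complex.exp (∑ j : Fin k, U (k - j) * ((x j.castSucc - x j.succ : ℝ) : ℂ)) *
      Complex.exp (-∑ i ∈ Finset.range (k+1), (ε i : ℂ) * (ext x i : ℂ) ^ 2) := by
  unfold wt gf
  rw [← Complex.exp_sum, Finset.sum_sub_distrib, pU_lin U hU0 hUk, ← Complex.exp_add]
  rfl

theorem wt_norm (U : ℕ → ℂ) (hU0 : U 0 = 0) (hUk : U (k+1) = 0) (ε : ℕ → ℝ)
    (hε : ∀ i, 0 ≤ ε i) (hk : ε k = 1) (x : Fin (k+1) → ℝ) : ‖wt k U ε x‖ ≤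
      Real.exp (∑ j : Fin k, (U (k - j)).re * (x j.castSucc - x j.succ)) *
      Real.exp (- (x (Fin.last k)) ^ 2) := by
  rw [wt_eq U hU0 hUk, norm_mul, Complex.norm_exp, Complex.norm_exp]
  gcongr
  · rw [Complex.re_sum]
    refine le_of_eq (Finset.sum_congr rfl fun j _ => ?_)
    rw [Complex.re_mul_ofReal]
  · have e : (-∑ i ∈ Finset.range (k+1), (ε i : ℂ) * (ext x i : ℂ) ^ 2) =
        ((-∑ i ∈ Finset.range (k+1), ε i * (ext x i) ^ 2 : ℝ) : ℂ) := by push_cast; ring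
    rw [e, Complex.ofReal_re]
    have h4 : ext x k = x (Fin.last k) := ext_fin x (Fin.last k)
    rw [Finset.sum_range_succ, hk, h4, one_mul]
    have : 0 ≤ ∑ i ∈ Finset.range k, ε i * (ext x i) ^ 2 :=
      Finset.sum_nonneg fun i _ => mul_nonneg (hε i) (sq_nonneg _)
    linarith

theorem dom2 {A : ℝ} {a : ℕ → ℂ} (hA : Good k A a) (ha : ∑ i ∈ Finset.range (k+1), a i = 0)
    (U : ℕ → ℂ) (hU0 : U 0 = 0) (hUk : U (k+1) = 0) (hσ : ∀ j : Fin k, A + 1 ≤ (U (k-j)).re) :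
    ∃ C c : ℝ, 0 ≤ C ∧ 0 < c ∧ ∀ ε : ℕ → ℝ, (∀ i, 0 ≤ ε i) → ε k = 1 → ∀ x : Fin (k+1) → ℝ,
      ‖Phi (k+1) a x‖ * ‖wt k U ε x‖ * ((1 + ∑ i, |x i|) ^ (k+1) *
        Real.exp ((k+1) * ∑ j : Fin k, max (x j.castSucc - x j.succ) 0)) ≤
      C * Real.exp (-(c * ∑ i, |x i|)) := by
  obtain ⟨C1, hC10, hC1⟩ := hA.bound ha (fun j => (U (k-j)).re) hσ (k+1) (by positivity)
  obtain ⟨C2, hC20, hC2⟩ := poly_exp (k+1) (1 / (2 * (k+1))) (by positivity)
  refine ⟨C1 * C2 * Real.exp 1, 1 / (2 * (k+1)), by positivity, by positivity,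
    fun ε hε hk x => ?_⟩
  have h1 := hC1 x
  have h2 := wt_norm U hU0 hUk ε hε hk x
  set G := ∑ j : Fin k, |x j.castSucc - x j.succ| with hG
  set S := ∑ i, |x i| with hS
  set Mx := ∑ j : Fin k, max (x j.castSucc - x j.succ) 0 with hMx
  have hS0 : 0 ≤ S := by positivity
  have h3 := hC2 S hS0
  have h4 : Real.exp (- (x (Fin.last k)) ^ 2) ≤ Real.exp 1 * Real.exp (-|x (Fin.last k)|) := by
    rw [← Real.exp_add]
    apply Real.exp_le_exp.2
    rw [← sq_abs]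
    nlinarith [sq_nonneg (|x (Fin.last k)| - 1/2)]
  have h5 : S ≤ (k+1) * (|x (Fin.last k)| + G) := by
    rw [hS]
    refine (Finset.sum_le_card_nsmul _ _ _ (fun i _ => abs_le_last x i)).trans ?_
    rw [Finset.card_univ, Fintype.card_fin, nsmul_eq_mul]
    push_cast
    exact le_rfl
  have hk1 : (0 : ℝ) < k + 1 := by positivity
  calc ‖Phi (k+1) a x‖ * ‖wt k U ε x‖ * ((1 + S) ^ (k+1) * Real.exp ((k+1) * Mx))
      ≤ ‖Phi (k+1) a x‖ * (Real.exp (∑ j : Fin k, (U (k - j)).re * (x j.castSucc - x j.succ)) *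
          (Real.exp 1 * Real.exp (-|x (Fin.last k)|))) *
          ((C2 * Real.exp (1 / (2 * (k+1)) * S)) * Real.exp ((k+1) * Mx)) := by
        gcongr
        exact h2.trans (by gcongr)
    _ = (‖Phi (k+1) a x‖ * Real.exp (∑ j : Fin k, (U (k - j)).re * (x j.castSucc - x j.succ)) *
          Real.exp ((k+1) * Mx)) * (C2 * Real.exp 1 * (Real.exp (-|x (Fin.last k)|) *
          Real.exp (1 / (2 * (k+1)) * S))) := by ring
    _ ≤ (C1 * Real.exp (-G)) * (C2 * Real.exp 1 * (Real.exp (-|x (Fin.last k)|) *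
          Real.exp (1 / (2 * (k+1)) * S))) := by gcongr
    _ = C1 * C2 * Real.exp 1 * Real.exp (-(|x (Fin.last k)| + G) + 1 / (2 * (k+1)) * S) := by
        rw [Real.exp_add, neg_add, Real.exp_add]; ring
    _ ≤ C1 * C2 * Real.exp 1 * Real.exp (-(1 / (2 * (k+1)) * S)) := by
        gcongr
        have h6 : (1 / (2 * ((k:ℝ)+1))) * S ≤ (|x (Fin.last k)| + G) / 2 := by
          rw [div_mul_eq_mul_div, one_mul, div_le_div_iff₀ (by positivity) (by positivity)]
          linarith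
        linarith

theorem kc_bound2 (w : ℂ) (U : ℕ → ℂ) : ∃ K : ℝ, 1 ≤ K ∧ ∀ ε : ℕ → ℝ, (∀ i, 0 ≤ ε i) →
    (∀ i, ε i ≤ 1) → ∀ x : Fin (k+1) → ℝ,
    ‖kc (fun i => w + pU k U i - 2 * ε i * ext x i) (fun i => Complex.exp (ext x i - ext x (i+1)))
      (k+1)‖ ≤ K * ((1 + ∑ i, |x i|) ^ (k+1) *
        Real.exp ((k+1) * ∑ j : Fin k, max (x j.castSucc - x j.succ) 0)) := by
  set P := ∑ i ∈ Finset.range (k+1), ‖pU k U i‖ with hP
  have hP0 : 0 ≤ P := Finset.sum_nonneg fun _ _ => norm_nonneg _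
  set K0 := ‖w‖ + P + 2 with hK0
  have hK02 : 2 ≤ K0 := by rw [hK0]; linarith [norm_nonneg w]
  refine ⟨(2 * K0) ^ (k+1), one_le_pow₀ (by linarith), fun ε hε0 hε1 x => ?_⟩
  set S := ∑ i, |x i| with hS
  set Mx := ∑ j : Fin k, max (x j.castSucc - x j.succ) 0 with hMx
  have hS0 : 0 ≤ S := by positivity
  have hM0 : 0 ≤ Mx := Finset.sum_nonneg fun _ _ => le_max_right _ _
  have hE1 : 1 ≤ Real.exp Mx := by rw [Real.one_le_exp_iff]; exact hM0
  have hK1 : 1 ≤ K0 * (1 + S) * Real.exp Mx := by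
    have h1 : 1 ≤ K0 * (1 + S) := by nlinarith
    nlinarith
  refine (kc_norm_le (K := K0 * (1 + S) * Real.exp Mx) (h := fun _ => 1) (by positivity)
    (fun _ => zero_le_one) (k+1) (fun i hi => ?_) (fun i hi => ?_)).trans ?_
  · rw [mul_one]
    have h1 : ‖pU k U i‖ ≤ P := Finset.single_le_sum (f := fun i => ‖pU k U i‖)
      (fun _ _ => norm_nonneg _) (Finset.mem_range.2 hi)
    have h2 := abs_ext_le x i
    have h3 : ‖(2 * ε i * ext x i : ℂ)‖ ≤ 2 * S := by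
      rw [norm_mul, norm_mul, Complex.norm_real, Complex.norm_real, Real.norm_eq_abs,
        Real.norm_eq_abs, abs_of_nonneg (hε0 i)]
      have h4 : ‖(2:ℂ)‖ = 2 := by norm_num
      rw [h4]
      have h5 := hε1 i
      have h6 := abs_nonneg (ext x i)
      nlinarith [hε0 i]
    calc ‖w + pU k U i - 2 * ε i * ext x i‖ ≤ ‖w‖ + ‖pU k U i‖ + ‖(2 * ε i * ext x i : ℂ)‖ := by
          refine (norm_sub_le _ _).trans ?_
          gcongr
          exact norm_add_le _ _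
      _ ≤ ‖w‖ + P + 2 * S := by gcongr
      _ ≤ K0 * (1 + S) := by rw [hK0]; nlinarith [norm_nonneg w]
      _ ≤ K0 * (1 + S) * Real.exp Mx := le_mul_of_one_le_right (by positivity) hE1
  · rw [mul_one, mul_one]
    have h1 : ‖Complex.exp ((ext x i : ℂ) - ext x (i+1))‖ ≤ Real.exp Mx := by
      rw [Complex.norm_exp]
      apply Real.exp_le_exp.2
      rw [Complex.sub_re, Complex.ofReal_re, Complex.ofReal_re]
      have hik : i < k := by omega
      have e1 : ext x i = x (⟨i, hik⟩ : Fin k).castSucc := ext_fin x (⟨i, hik⟩ : Fin k).castSucc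
      have e2 : ext x (i+1) = x (⟨i, hik⟩ : Fin k).succ := ext_fin x (⟨i, hik⟩ : Fin k).succ
      rw [e1, e2]
      refine (le_max_left _ 0).trans ?_
      exact Finset.single_le_sum (f := fun j : Fin k => max (x j.castSucc - x j.succ) 0)
        (fun _ _ => le_max_right _ _) (Finset.mem_univ _)
    calc _ ≤ Real.exp Mx := h1
      _ ≤ K0 * (1 + S) * Real.exp Mx := by
        refine le_mul_of_one_le_left (by positivity) ?_
        nlinarith
      _ ≤ (K0 * (1 + S) * Real.exp Mx) ^ 2 := by nlinarith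
  · simp only [Finset.prod_const_one, mul_one]
    rw [show 2 * (K0 * (1 + S) * Real.exp Mx) = (2 * K0) * ((1 + S) * Real.exp Mx) by ring,
      mul_pow (2 * K0), mul_pow (1 + S), ← Real.exp_nat_mul]
    push_cast
    exact le_rfl

end Pool.Agent.MP2f3d29
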