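import Mathlib
import Pool.Agent.MP_2f3d29_nt.B8

set_option autoImplicit false

open MeasureTheory Set Filter Topology

namespace Pool.Agent.MP2f3d29

variable {k : ℕ}

/-- the parameters of the Gaussians -/
noncomputable def es (k : ℕ) (τ : ℝ) (i : ℕ) : ℝ := if i = k then 1 else τ

/-- the limiting kernel -/
noncomputable def kk (k : ℕ) (U : ℕ → ℂ) (w : ℂ) (ε : ℕ → ℝ) (x : Fin (k+1) → ℝ) : ℂ :=
  kc (fun i => w + pU k U i - 2 * ε i * ext x i) (fun i => Complex.exp (ext x i - ext x (i+1))) (k+1)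

theorem wt_continuous (U : ℕ → ℂ) (ε : ℕ → ℝ) : Continuous (fun x : Fin (k+1) → ℝ => wt k U ε x) := by
  unfold wt gf
  refine continuous_finsetProd _ fun i _ => ?_
  have := ext_continuous (n := k+1) i
  fun_prop

theorem kk_continuous (U : ℕ → ℂ) (w : ℂ) (ε : ℕ → ℝ) :
    Continuous (fun x : Fin (k+1) → ℝ => kk k U w ε x) := by
  unfold kk
  refine kc_continuous (d := fun i (x : Fin (k+1) → ℝ) => w + pU k U i - 2 * ε i * ext x i)
    (e := fun i (x : Fin (k+1) → ℝ) => Complex.exp (ext x i - ext x (i+1))) (fun i => ?_)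
    (fun i => ?_) (k+1)
  · have := ext_continuous (n := k+1) i
    fun_prop
  · have := ext_continuous (n := k+1) i
    have := ext_continuous (n := k+1) (i+1)
    fun_prop

theorem exp_sum_abs_integrable (n : ℕ) {c : ℝ} (hc : 0 < c) :
    Integrable (fun x : Fin n → ℝ => Real.exp (-(c * ∑ i, |x i|))) := by
  have h := Integrable.fintype_prod (f := fun (_ : Fin n) (t : ℝ) => Real.exp (-(c * |t|)))
      (fun _ => integrable_exp_neg_abs hc)
  refine h.congr (Eventually.of_forall fun x => ?_)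
  simp only
  rw [← Real.exp_sum, Finset.sum_neg_distrib, ← Finset.mul_sum]

theorem es_cont (k i : ℕ) : Continuous (fun τ => es k τ i) := by
  unfold es; split_ifs <;> fun_prop

theorem gauss_limit {A : ℝ} {a : ℕ → ℂ} (hA : Good k A a)
    (ha : ∑ i ∈ Finset.range (k+1), a i = 0) (U : ℕ → ℂ) (hU0 : U 0 = 0) (hUk : U (k+1) = 0)
    (hσ : ∀ j : Fin k, A + 1 ≤ (U (k-j)).re) (w : ℂ) :
    ∫ x : Fin (k+1) → ℝ, Phi (k+1) a x * (wt k U (es k 0) x * kk k U w (es k 0) x) =
      (∏ i ∈ Finset.range (k+1), (w - a i)) *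
        ∫ x : Fin (k+1) → ℝ, Phi (k+1) a x * wt k U (es k 0) x := by
  set τ : ℕ → ℝ := fun n => 1 / ((n : ℝ) + 1) with hτ
  have hτ0 : ∀ n, 0 < τ n := fun n => by simp only [hτ]; positivity
  have hτ1 : ∀ n, τ n ≤ 1 := fun n => by
    simp only [hτ]
    rw [div_le_one (by positivity)]
    have : (0 : ℝ) ≤ n := Nat.cast_nonneg n
    linarith
  have hτlim : Tendsto τ atTop (𝓝 0) := tendsto_one_div_add_atTop_nhds_zero_nat
  obtain ⟨C, c, hC0, hc, hC⟩ := dom2 hA ha U hU0 hUk hσ
  obtain ⟨K, hK1, hK⟩ := kc_bound2 (k := k) w U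
  have hΦ : AEStronglyMeasurable (Phi (k+1) a) volume := (Phi_stronglyMeasurable _ _).aestronglyMeasurable
  have es0 : ∀ n i, 0 ≤ es k (τ n) i := by
    intro n i; unfold es; split_ifs
    · exact zero_le_one
    · exact (hτ0 n).le
  have es1 : ∀ n i, es k (τ n) i ≤ 1 := by
    intro n i; unfold es; split_ifs
    · exact le_rfl
    · exact hτ1 n
  have esk : ∀ t, es k t k = 1 := fun t => by simp [es]
  have main : ∀ n, ∫ x : Fin (k+1) → ℝ, Phi (k+1) a x *
      (wt k U (es k (τ n)) x * kk k U w (es k (τ n)) x) =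
      (∏ i ∈ Finset.range (k+1), (w - a i)) *
        ∫ x : Fin (k+1) → ℝ, Phi (k+1) a x * wt k U (es k (τ n)) x := by
    intro n
    have h := weak_toda (k+1) a _ _ (gf_TF (pU k U) (es k (τ n)) (fun i => by
      unfold es; split_ifs
      · exact one_pos
      · exact hτ0 n)) w
    simp only [kc_gf] at h
    exact h
  have lim1 : Tendsto (fun n => ∫ x : Fin (k+1) → ℝ, Phi (k+1) a x *
      (wt k U (es k (τ n)) x * kk k U w (es k (τ n)) x)) atTop
      (𝓝 (∫ x : Fin (k+1) → ℝ, Phi (k+1) a x * (wt k U (es k 0) x * kk k U w (es k 0) x))) := by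
    refine tendsto_integral_of_dominated_convergence
      (fun x => K * C * Real.exp (-(c * ∑ i, |x i|))) (fun n => ?_)
      ((exp_sum_abs_integrable (k+1) hc).const_mul _) (fun n => ?_) ?_
    · exact hΦ.mul (((wt_continuous _ _).mul (kk_continuous _ _ _)).aestronglyMeasurable)
    · refine Eventually.of_forall fun x => ?_
      have h1 := hC (es k (τ n)) (es0 n) (esk _) x
      have h2 := hK (es k (τ n)) (es0 n) (es1 n) x
      rw [norm_mul, norm_mul]
      calc ‖Phi (k+1) a x‖ * (‖wt k U (es k (τ n)) x‖ * ‖kk k U w (es k (τ n)) x‖)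
          ≤ ‖Phi (k+1) a x‖ * (‖wt k U (es k (τ n)) x‖ * (K * ((1 + ∑ i, |x i|) ^ (k+1) *
            Real.exp ((k+1) * ∑ j : Fin k, max (x j.castSucc - x j.succ) 0)))) := by
            gcongr
            exact h2
        _ = K * (‖Phi (k+1) a x‖ * ‖wt k U (es k (τ n)) x‖ * ((1 + ∑ i, |x i|) ^ (k+1) *
            Real.exp ((k+1) * ∑ j : Fin k, max (x j.castSucc - x j.succ) 0))) := by ring
        _ ≤ K * (C * Real.exp (-(c * ∑ i, |x i|))) := by gcongr
        _ = _ := by ring
    · refine Eventually.of_forall fun x => ?_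
      have hcont : Continuous (fun t : ℝ => Phi (k+1) a x * (wt k U (es k t) x * kk k U w (es k t) x)) := by
        refine continuous_const.mul (Continuous.mul ?_ ?_)
        · unfold wt gf
          refine continuous_finsetProd _ fun i _ => ?_
          have := es_cont k i
          fun_prop
        · unfold kk
          refine kc_continuous (d := fun i (t : ℝ) => w + pU k U i - 2 * es k t i * ext x i)
            (e := fun i (_ : ℝ) => Complex.exp (ext x i - ext x (i+1))) (fun i => ?_)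
            (fun i => continuous_const) (k+1)
          have := es_cont k i
          fun_prop
      exact (hcont.tendsto 0).comp hτlim
  have lim2 : Tendsto (fun n => ∫ x : Fin (k+1) → ℝ, Phi (k+1) a x * wt k U (es k (τ n)) x) atTop
      (𝓝 (∫ x : Fin (k+1) → ℝ, Phi (k+1) a x * wt k U (es k 0) x)) := by
    refine tendsto_integral_of_dominated_convergence
      (fun x => C * Real.exp (-(c * ∑ i, |x i|))) (fun n => ?_)
      ((exp_sum_abs_integrable (k+1) hc).const_mul _) (fun n => ?_) ?_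
    · exact hΦ.mul ((wt_continuous _ _).aestronglyMeasurable)
    · refine Eventually.of_forall fun x => ?_
      have h1 := hC (es k (τ n)) (es0 n) (esk _) x
      rw [norm_mul]
      have h2 : 1 ≤ (1 + ∑ i, |x i|) ^ (k+1) *
            Real.exp ((k+1) * ∑ j : Fin k, max (x j.castSucc - x j.succ) 0) := by
        have e1 : 1 ≤ (1 + ∑ i, |x i|) ^ (k+1) := one_le_pow₀ (by
          have : 0 ≤ ∑ i, |x i| := by positivity
          linarith)
        have e2 : 1 ≤ Real.exp ((k+1) * ∑ j : Fin k, max (x j.castSucc - x j.succ) 0) := by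
          rw [Real.one_le_exp_iff]
          refine mul_nonneg (by positivity) (Finset.sum_nonneg fun _ _ => le_max_right _ _)
        nlinarith
      exact (le_mul_of_one_le_right (by positivity) h2).trans h1
    · refine Eventually.of_forall fun x => ?_
      have hcont : Continuous (fun t : ℝ => Phi (k+1) a x * wt k U (es k t) x) := by
        refine continuous_const.mul ?_
        unfold wt gf
        refine continuous_finsetProd _ fun i _ => ?_
        have := es_cont k i
        fun_prop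
      exact (hcont.tendsto 0).comp hτlim
  refine tendsto_nhds_unique lim1 ?_
  simp only [main]
  exact lim2.const_mul _

/-- the character `e^{∑ U(k-j) g_j}` -/
noncomputable def ex (U : ℕ → ℂ) (g : Fin k → ℝ) : ℂ := Complex.exp (∑ j : Fin k, U (k - j) * (g j : ℂ))

/-- the continuant in gap coordinates -/
noncomputable def kg (U : ℕ → ℂ) (w : ℂ) (g : Fin k → ℝ) (m : ℕ) : ℂ :=
  kc (fun i => w + pU k U i) (fun i => Complex.exp (ext g i)) m

theorem kc_shift_last (d e : ℕ → ℂ) (c : ℂ) (k : ℕ) :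
    kc (fun i => d i - if i = k then c else 0) e (k+1) = kc d e (k+1) - c * kc d e k := by
  cases k with
  | zero => simp [kc_one, kc_zero]
  | succ k =>
    rw [kc_succ, kc_succ]
    have h1 : kc (fun i => d i - if i = k+1 then c else 0) e (k+1) = kc d e (k+1) :=
      kc_congr _ (fun i hi => by rw [if_neg (by omega), sub_zero]) (fun _ _ => rfl)
    have h2 : kc (fun i => d i - if i = k+1 then c else 0) e k = kc d e k :=
      kc_congr _ (fun i hi => by rw [if_neg (by omega), sub_zero]) (fun _ _ => rfl)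
    rw [h1, h2, if_pos rfl]; ring

theorem ex_continuous (U : ℕ → ℂ) : Continuous (ex U : (Fin k → ℝ) → ℂ) := by
  unfold ex; fun_prop

theorem kg_continuous (U : ℕ → ℂ) (w : ℂ) (m : ℕ) : Continuous (fun g : Fin k → ℝ => kg U w g m) := by
  unfold kg
  refine kc_continuous (d := fun i (_ : Fin k → ℝ) => w + pU k U i)
    (e := fun i (g : Fin k → ℝ) => Complex.exp (ext g i)) (fun i => continuous_const)
    (fun i => ?_) m
  have := ext_continuous (n := k) i
  fun_prop

theorem kg_norm_le (U : ℕ → ℂ) (w : ℂ) (m : ℕ) (hm : m ≤ k + 1) : ∃ K : ℝ, 0 ≤ K ∧ ∀ g : Fin k → ℝ,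
    ‖kg U w g m‖ ≤ K * Real.exp (m * ∑ j : Fin k, max (g j) 0) := by
  set P := ∑ i ∈ Finset.range m, ‖w + pU k U i‖ with hP
  have hP0 : 0 ≤ P := Finset.sum_nonneg fun _ _ => norm_nonneg _
  refine ⟨(2 * (P + 1)) ^ m, by positivity, fun g => ?_⟩
  set Mx := ∑ j : Fin k, max (g j) 0 with hMx
  have hM0 : 0 ≤ Mx := Finset.sum_nonneg fun _ _ => le_max_right _ _
  have hE1 : 1 ≤ Real.exp Mx := by rw [Real.one_le_exp_iff]; exact hM0
  refine (kc_norm_le (K := (P + 1) * Real.exp Mx) (h := fun _ => 1) (by positivity)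
    (fun _ => zero_le_one) m (fun i hi => ?_) (fun i hi => ?_)).trans ?_
  · rw [mul_one]
    have h1 : ‖w + pU k U i‖ ≤ P := Finset.single_le_sum (f := fun i => ‖w + pU k U i‖)
      (fun _ _ => norm_nonneg _) (Finset.mem_range.2 hi)
    nlinarith
  · rw [mul_one, mul_one]
    have h1 : ‖Complex.exp (ext g i : ℂ)‖ ≤ Real.exp Mx := by
      rw [Complex.norm_exp, Complex.ofReal_re]
      apply Real.exp_le_exp.2
      have hik : i < k := by omega
      have e1 : ext g i = g ⟨i, hik⟩ := ext_fin g ⟨i, hik⟩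
      rw [e1]
      refine (le_max_left _ 0).trans ?_
      exact Finset.single_le_sum (f := fun j : Fin k => max (g j) 0)
        (fun _ _ => le_max_right _ _) (Finset.mem_univ _)
    calc _ ≤ Real.exp Mx := h1
      _ ≤ (P + 1) * Real.exp Mx := le_mul_of_one_le_left (by positivity) (by linarith)
      _ ≤ ((P + 1) * Real.exp Mx) ^ 2 := by
        have : 1 ≤ (P + 1) * Real.exp Mx := by nlinarith
        nlinarith
  · simp only [Finset.prod_const_one, mul_one]
    rw [show 2 * ((P + 1) * Real.exp Mx) = (2 * (P + 1)) * Real.exp Mx by ring,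
      mul_pow (2 * (P + 1)), ← Real.exp_nat_mul]

/-- integrability in the gap variables -/
theorem gap_integrable {A : ℝ} {a : ℕ → ℂ} (hA : Good k A a)
    (ha : ∑ i ∈ Finset.range (k+1), a i = 0) (U : ℕ → ℂ)
    (hσ : ∀ j : Fin k, A + 1 ≤ (U (k-j)).re) (w : ℂ) (m : ℕ) (hm : m ≤ k+1) :
    Integrable (fun g : Fin k → ℝ => Phi (k+1) a (xg g) * (ex U g * kg U w g m)) := by
  obtain ⟨C, hC0, hC⟩ := hA.bound ha (fun j => (U (k-j)).re) hσ m (by positivity)
  obtain ⟨K, hK0, hK⟩ := kg_norm_le (k := k) U w m hm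
  refine Integrable.mono' ((exp_sum_abs_integrable k one_pos).const_mul (C * K)) ?_
    (Eventually.of_forall fun g => ?_)
  · exact ((Phi_stronglyMeasurable _ _).comp_measurable xg_continuous.measurable).aestronglyMeasurable.mul
      ((ex_continuous U).mul (kg_continuous U w m)).aestronglyMeasurable
  · have h1 := hC (xg g)
    have h2 := hK g
    simp only [xg_gap] at h1
    rw [norm_mul, norm_mul]
    have h3 : ‖ex U g‖ = Real.exp (∑ j : Fin k, (U (k - j)).re * g j) := by
      unfold ex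
      rw [Complex.norm_exp, Complex.re_sum]
      congr 1
      refine Finset.sum_congr rfl fun j _ => ?_
      rw [Complex.re_mul_ofReal]
    rw [h3]
    calc ‖Phi (k+1) a (xg g)‖ * (Real.exp (∑ j : Fin k, (U (k - j)).re * g j) * ‖kg U w g m‖)
        ≤ ‖Phi (k+1) a (xg g)‖ * (Real.exp (∑ j : Fin k, (U (k - j)).re * g j) *
          (K * Real.exp (m * ∑ j : Fin k, max (g j) 0))) := by gcongr
      _ = K * (‖Phi (k+1) a (xg g)‖ * Real.exp (∑ j : Fin k, (U (k - j)).re * g j) *
          Real.exp (m * ∑ j : Fin k, max (g j) 0)) := by ring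
      _ ≤ K * (C * Real.exp (-∑ j : Fin k, |g j|)) := by gcongr
      _ = _ := by rw [one_mul]; ring

theorem integral_odd_gauss : ∫ t : ℝ, (2 * (t : ℂ)) * Complex.exp (-((t : ℂ) ^ 2)) = 0 := by
  have h := integral_neg_eq_self (fun t : ℝ => (2 * (t : ℂ)) * Complex.exp (-((t : ℂ) ^ 2))) volume
  have h2 : ∀ t : ℝ, (2 * ((-t : ℝ) : ℂ)) * Complex.exp (-(((-t : ℝ) : ℂ) ^ 2)) =
      - ((2 * (t : ℂ)) * Complex.exp (-((t : ℂ) ^ 2))) := by
    intro t
    push_cast
    rw [neg_sq]; ring
  simp only [h2] at h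
  rw [integral_neg] at h
  exact self_eq_neg.1 h.symm

theorem gauss_rap : Rap (fun t : ℝ => Complex.exp (-((t : ℂ) ^ 2))) := by
  have := (gf_TF (fun _ => 0) (fun _ => 1) (fun _ => one_pos)).rap 0
  unfold gf at this
  simpa using this

theorem gauss_rap' : Rap (fun t : ℝ => (2 * (t : ℂ)) * Complex.exp (-((t : ℂ) ^ 2))) := by
  refine gauss_rap.mul_bdd (K := 2) (M := 1) (by fun_prop) (fun t => ?_)
  rw [norm_mul, Complex.norm_real, Real.norm_eq_abs]
  have h4 : ‖(2:ℂ)‖ = 2 := by norm_num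
  rw [h4]
  have := Real.add_one_le_exp (1 * |t|)
  linarith

theorem integral_gauss_ne : ∫ t : ℝ, Complex.exp (-((t : ℂ) ^ 2)) ≠ 0 := by
  have h : ∀ t : ℝ, Complex.exp (-((t : ℂ) ^ 2)) = ((Real.exp (-1 * t ^ 2) : ℝ) : ℂ) := by
    intro t; push_cast; congr 1; ring
  simp only [h]
  rw [integral_complex_ofReal, integral_gaussian]
  norm_cast
  positivity

/-- The difference Toda system for the Mellin transform of the Givental integral. -/
theorem mellin_toda {A : ℝ} {a : ℕ → ℂ} (hA : Good k A a)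
    (ha : ∑ i ∈ Finset.range (k+1), a i = 0) (U : ℕ → ℂ) (hU0 : U 0 = 0) (hUk : U (k+1) = 0)
    (hσ : ∀ j : Fin k, A + 1 ≤ (U (k-j)).re) (w : ℂ) :
    ∫ g : Fin k → ℝ, Phi (k+1) a (xg g) * (ex U g * kg U w g (k+1)) =
      (∏ i ∈ Finset.range (k+1), (w - a i)) * ∫ g : Fin k → ℝ, Phi (k+1) a (xg g) * ex U g := by
  have h := gauss_limit hA ha U hU0 hUk hσ w
  have hΦ : AEStronglyMeasurable (Phi (k+1) a) volume := (Phi_stronglyMeasurable _ _).aestronglyMeasurable
  rw [integral_xt (fun x => Phi (k+1) a x * (wt k U (es k 0) x * kk k U w (es k 0) x))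
      (hΦ.mul (((wt_continuous _ _).mul (kk_continuous _ _ _)).aestronglyMeasurable)),
    integral_xt (fun x => Phi (k+1) a x * wt k U (es k 0) x)
      (hΦ.mul ((wt_continuous _ _).aestronglyMeasurable))] at h
  have hΦt : ∀ p : ℝ × (Fin k → ℝ), Phi (k+1) a (xt p) = Phi (k+1) a (xg p.2) := by
    intro p
    unfold xt
    rw [Phi_translate, ha, zero_mul, Complex.exp_zero, one_mul]
  have hwt : ∀ p : ℝ × (Fin k → ℝ), wt k U (es k 0) (xt p) =
      Complex.exp (-((p.1 : ℂ) ^ 2)) * ex U p.2 := by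
    intro p
    rw [wt_eq U hU0 hUk]
    simp only [xt_gap]
    rw [mul_comm]
    congr 1
    congr 1
    have e : ext (xt p) k = p.1 := by
      rw [← xt_last p]; exact ext_fin (xt p) (Fin.last k)
    rw [Finset.sum_range_succ, e, Finset.sum_eq_zero, zero_add]
    · simp [es]
    · intro i hi
      have := Finset.mem_range.1 hi
      simp [es, this.ne]
  have hkk : ∀ p : ℝ × (Fin k → ℝ), kk k U w (es k 0) (xt p) =
      kg U w p.2 (k+1) - 2 * p.1 * kg U w p.2 k := by
    intro p
    unfold kk kg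
    rw [← kc_shift_last]
    apply kc_congr
    · intro i hi
      have e : ext (xt p) k = p.1 := by
        rw [← xt_last p]; exact ext_fin (xt p) (Fin.last k)
      by_cases hik : i = k
      · subst hik; simp [es, e]
      · simp [es, hik]
    · intro i hi
      have hik : i < k := by omega
      have e1 : ext (xt p) i = xt p (⟨i, hik⟩ : Fin k).castSucc :=
        ext_fin (xt p) (⟨i, hik⟩ : Fin k).castSucc
      have e2 : ext (xt p) (i+1) = xt p (⟨i, hik⟩ : Fin k).succ :=
        ext_fin (xt p) (⟨i, hik⟩ : Fin k).succ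
      have e3 : ext p.2 i = p.2 ⟨i, hik⟩ := ext_fin p.2 ⟨i, hik⟩
      rw [e1, e2, e3, ← xt_gap p ⟨i, hik⟩]
      push_cast; rfl
  set E : ℝ → ℂ := fun t => Complex.exp (-((t : ℂ) ^ 2)) with hE
  set E' : ℝ → ℂ := fun t => (2 * (t : ℂ)) * Complex.exp (-((t : ℂ) ^ 2)) with hE'
  set H1 : (Fin k → ℝ) → ℂ := fun g => Phi (k+1) a (xg g) * (ex U g * kg U w g (k+1)) with hH1
  set H2 : (Fin k → ℝ) → ℂ := fun g => Phi (k+1) a (xg g) * (ex U g * kg U w g k) with hH2
  set H3 : (Fin k → ℝ) → ℂ := fun g => Phi (k+1) a (xg g) * ex U g with hH3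
  have i1 : Integrable H1 := gap_integrable hA ha U hσ w (k+1) le_rfl
  have i2 : Integrable H2 := gap_integrable hA ha U hσ w k (by omega)
  have l1 : ∀ p : ℝ × (Fin k → ℝ), Phi (k+1) a (xt p) * (wt k U (es k 0) (xt p) *
      kk k U w (es k 0) (xt p)) = E p.1 * H1 p.2 - E' p.1 * H2 p.2 := by
    intro p
    rw [hΦt, hwt, hkk]
    simp only [hE, hE', hH1, hH2]; ring
  have l2 : ∀ p : ℝ × (Fin k → ℝ), Phi (k+1) a (xt p) * wt k U (es k 0) (xt p) =
      E p.1 * H3 p.2 := by
    intro p
    rw [hΦt, hwt]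
    simp only [hE, hH3]; ring
  have j1 : Integrable (fun p : ℝ × (Fin k → ℝ) => E p.1 * H1 p.2) (volume.prod volume) :=
    gauss_rap.integrable.mul_prod i1
  have j2 : Integrable (fun p : ℝ × (Fin k → ℝ) => E' p.1 * H2 p.2) (volume.prod volume) :=
    gauss_rap'.integrable.mul_prod i2
  have hodd : ∫ t : ℝ, E' t = 0 := integral_odd_gauss
  simp only [l1, l2] at h
  rw [integral_sub j1 j2, integral_prod_mul E H1, integral_prod_mul E' H2, integral_prod_mul E H3,
    hodd, zero_mul, sub_zero] at h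
  have hne : ∫ t : ℝ, E t ≠ 0 := integral_gauss_ne
  apply mul_left_cancel₀ hne
  rw [h]; ring

end Pool.Agent.MP2f3d29
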