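import Mathlib
import Pool.Agent.MP_2f3d29_nt.B9
import Pool.Agent.MP_2f3d29_nt.A5

set_option autoImplicit false

open MeasureTheory Set Filter Topology

namespace Pool.Agent.MP2f3d29

variable {k : ℕ}

/-- the parameters as a sequence -/
noncomputable def al (v : Pt k) (i : ℕ) : ℂ := if h : i < k+1 then v (Sum.inr ⟨i, h⟩) else 0

/-- the shift variables, with `s_0 = s_{k+1} = 0` -/
noncomputable def Sx (v : Pt k) (i : ℕ) : ℂ := MvPolynomial.eval v (sxP k i)

theorem Sx_zero (v : Pt k) : Sx v 0 = 0 := by simp [Sx, sxP]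
theorem Sx_last (v : Pt k) : Sx v (k+1) = 0 := by simp [Sx, sxP]
theorem Sx_mid (v : Pt k) (j : Fin k) : Sx v (j+1) = v (Sum.inl j) := by simp [Sx, sxP]

theorem Sx_sh (v : Pt k) (m : ℕ) (h : m < k) (i : ℕ) :
    Sx (sh (Pi.single ⟨m, h⟩ 1) v) i = Sx v i + if i = m + 1 then 1 else 0 := by
  unfold Sx
  rw [← eval_shP, shP_sxP, map_add]
  congr 1
  split_ifs <;> simp

theorem al_sh (v : Pt k) (c : Fin k → ℕ) : al (sh c v) = al v := by
  funext i
  unfold al sh
  split_ifs <;> rfl

theorem al_sum (v : Pt k) : ∑ i ∈ Finset.range (k+1), al v i = ∑ i, v (Sum.inr i) := by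
  rw [Finset.sum_range]
  refine Finset.sum_congr rfl fun i _ => ?_
  unfold al
  rw [dif_pos i.2]

/-- the Mellin transform in gap coordinates -/
noncomputable def FM (k : ℕ) : Fn k := fun v =>
  ∫ g : Fin k → ℝ, Phi (k+1) (al v) (xg g) * ex (Sx v) g

/-- the region of absolute convergence (a part of it) -/
def OM (k : ℕ) : Set (Pt k) := {v | ∑ i, v (Sum.inr i) = 0 ∧
  ∃ A, Good k A (al v) ∧ ∀ j : Fin k, A + 1 ≤ (v (Sum.inl j)).re}

theorem OM_stable (v : Pt k) (hv : v ∈ OM k) (c : Fin k → ℕ) : sh c v ∈ OM k := by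
  obtain ⟨h1, A, hA, h2⟩ := hv
  refine ⟨h1, A, by rwa [al_sh], fun j => ?_⟩
  have := h2 j
  simp only [sh, Sum.elim_inl, Complex.add_re, Complex.natCast_re]
  have : (0 : ℝ) ≤ c j := Nat.cast_nonneg _
  linarith [h2 j]

theorem OM_re (v : Pt k) {A : ℝ} (h : ∀ j : Fin k, A + 1 ≤ (v (Sum.inl j)).re) (j : Fin k) :
    A + 1 ≤ (Sx v (k - j)).re := by
  have hj := j.2
  have e : k - (j : ℕ) = (⟨k - 1 - j, by omega⟩ : Fin k) + 1 := by simp; omega
  rw [e, Sx_mid]
  exact h _

theorem OM_integrable (v : Pt k) (hv : v ∈ OM k) :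
    Integrable (fun g : Fin k → ℝ => Phi (k+1) (al v) (xg g) * ex (Sx v) g) := by
  obtain ⟨h1, A, hA, h2⟩ := hv
  have := gap_integrable hA (by rw [al_sum, h1]) (Sx v) (OM_re v h2) 0 0 (by omega)
  simpa [kg, kc_zero] using this

/-- exchange of a difference operator and the integral -/
theorem exchange {μ : Fin k → ℕ} {d : ℕ} {T : Module.End ℂ (Fn k)} (hT : T ∈ Dm μ d)
    (v : Pt k) (hv : v ∈ OM k) :
    T (FM k) v = ∫ g : Fin k → ℝ, Phi (k+1) (al v) (xg g) * T (fun u => ex (Sx u) g) v := by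
  obtain ⟨r, P, c, -, -, rfl⟩ := Dm_repr hT
  simp only [LinearMap.sum_apply, Finset.sum_apply, op_apply]
  have h1 : ∀ i, MvPolynomial.eval v (P i) * FM k (sh (c i) v) =
      ∫ g : Fin k → ℝ, MvPolynomial.eval v (P i) *
        (Phi (k+1) (al v) (xg g) * ex (Sx (sh (c i) v)) g) := by
    intro i
    rw [integral_const_mul]
    unfold FM
    rw [al_sh]
  simp only [h1]
  rw [← integral_finsetSum]
  · refine integral_congr_ae (Eventually.of_forall fun g => ?_)
    simp only [Finset.mul_sum]
    refine Finset.sum_congr rfl fun i _ => ?_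
    ring
  · intro i _
    have := OM_integrable _ (OM_stable v hv (c i))
    rw [al_sh] at this
    exact this.const_mul _

theorem ex_sh (v : Pt k) (m : ℕ) (h : m < k) (g : Fin k → ℝ) :
    ex (Sx (sh (Pi.single ⟨m, h⟩ 1) v)) g =
      Complex.exp (ext g (k - 1 - m)) * ex (Sx v) g := by
  unfold ex
  rw [← Complex.exp_add]
  congr 1
  simp only [Sx_sh, add_mul, Finset.sum_add_distrib]
  rw [add_comm]
  congr 1
  have hlt : k - 1 - m < k := by omega
  rw [Finset.sum_eq_single (⟨k - 1 - m, hlt⟩ : Fin k)]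
  · rw [if_pos (by simp; omega), one_mul]
    congr 1
    exact (ext_fin g ⟨k - 1 - m, hlt⟩).symm
  · intro j _ hj
    rw [if_neg, zero_mul]
    intro h'
    apply hj
    ext
    simp
    omega
  · intro h'; exact absurd (Finset.mem_univ _) h'

theorem ka_ex (w : ℂ) (g : Fin k → ℝ) (m : ℕ) : m ≤ k + 1 → ∀ v : Pt k,
    ka (pO k) (xO k) w m (fun u => ex (Sx u) g) v =
      kc (fun i => w - (Sx v (i+1) - Sx v i)) (fun i => Complex.exp (ext g (k - 1 - i))) m *
        ex (Sx v) g := by
  have hp : ∀ (i : ℕ) (F : Fn k) (v : Pt k), pO k i F v = (Sx v (i+1) - Sx v i) * F v := by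
    intro i F v
    unfold pO
    rw [op_apply, sh_zero, map_sub]
    rfl
  induction m using Nat.twoStepInduction with
  | zero =>
    intro _ v
    simp [ka, kc_zero]
  | one =>
    intro _ v
    simp only [ka, kc_one, LinearMap.sub_apply, LinearMap.smul_apply, Module.End.one_apply,
      Pi.sub_apply, Pi.smul_apply, smul_eq_mul, hp]
    ring
  | more m ih1 ih2 =>
    intro hm v
    have hmk : m < k := by omega
    rw [ka_succ, kc_succ]
    simp only [LinearMap.add_apply, Module.End.mul_apply, Pi.add_apply, LinearMap.sub_apply,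
      LinearMap.smul_apply, Module.End.one_apply, Pi.sub_apply, Pi.smul_apply, smul_eq_mul, hp]
    rw [ih2 (by omega)]
    have hx : xO k m (ka (pO k) (xO k) w m (fun u => ex (Sx u) g)) v =
        Complex.exp (ext g (k - 1 - m)) *
        kc (fun i => w - (Sx v (i+1) - Sx v i)) (fun i => Complex.exp (ext g (k - 1 - i))) m *
        ex (Sx v) g := by
      unfold xO
      rw [dif_pos hmk, op_apply, map_one, one_mul]
      have := ih1 (by omega) (sh (Pi.single ⟨m, hmk⟩ 1) v)
      unfold xO at this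
      rw [this, ex_sh]
      have h2 : kc (fun i => w - (Sx (sh (Pi.single ⟨m, hmk⟩ 1) v) (i+1) -
          Sx (sh (Pi.single ⟨m, hmk⟩ 1) v) i)) (fun i => Complex.exp (ext g (k - 1 - i))) m =
          kc (fun i => w - (Sx v (i+1) - Sx v i)) (fun i => Complex.exp (ext g (k - 1 - i))) m := by
        apply kc_congr
        · intro i hi
          rw [Sx_sh, Sx_sh, if_neg (by omega), if_neg (by omega), add_zero, add_zero]
        · intro i _; rfl
      rw [h2]; ring
    rw [hx]
    ring

theorem ka_mem (w : ℂ) (m : ℕ) : ka (pO k) (xO k) w m ∈ Dm (0 : Fin k → ℕ) m := by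
  rw [ka_eq_sum (pO k) (xO k) w m (m+1) (Nat.lt_succ_self m)]
  refine Submodule.sum_mem _ fun i hi => Submodule.smul_mem _ _ ?_
  have h1 := Finset.mem_range.1 hi
  have := ((PFm_kp (k := k) pO_mem xO_mem m) i).1 (by omega)
  exact Dm_mono le_rfl (by omega) this

/-- The Mellin transform of the Givental integral solves the difference Toda system. -/
theorem sol_FM (k : ℕ) : Sol (OM k) (FM k) where
  stable := OM_stable
  toda := by
    intro v hv w
    rw [exchange (ka_mem w (k+1)) v hv]
    obtain ⟨h1, A, hA, h2⟩ := hv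
    have h := mellin_toda hA (by rw [al_sum, h1]) (Sx v) (Sx_zero v) (Sx_last v) (OM_re v h2) w
    have h3 : (∏ i ∈ Finset.range (k+1), (w - al v i)) = ∏ i, (w - v (Sum.inr i)) := by
      rw [Finset.prod_range]
      refine Finset.prod_congr rfl fun i _ => ?_
      unfold al
      rw [dif_pos i.2]
    rw [h3] at h
    unfold FM
    rw [← h]
    refine integral_congr_ae (Eventually.of_forall fun g => ?_)
    simp only
    rw [ka_ex w g (k+1) le_rfl v, mul_comm (kc _ _ _)]
    congr 2
    unfold kg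
    rw [← kc_rev (k+1) (fun i => w + pU k (Sx v) i)]
    apply kc_congr
    · intro i hi
      unfold pU
      have e1 : k - (k + 1 - 1 - i) = i := by omega
      have e2 : k + 1 - (k + 1 - 1 - i) = i + 1 := by omega
      rw [e1, e2]; ring
    · intro i hi
      have e1 : k + 1 - 2 - i = k - 1 - i := by omega
      rw [e1]

end Pool.Agent.MP2f3d29
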