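import Mathlib
import Pool.Agent.MP_2f3d29_nt.B10

set_option autoImplicit false

open MeasureTheory Set Filter Topology

namespace Pool.Agent.MP2f3d29

section laplace

variable {X : Type*} [MeasurableSpace X] {μ : Measure X} {f : X → ℂ} {G : X → ℝ} {T : ℝ}

theorem exp_strip {a T y : ℝ} (h0 : 0 ≤ a) (h1 : a ≤ T) : Real.exp (a * y) ≤ 1 + Real.exp (T * y) := by
  rcases le_total y 0 with hy | hy
  · have : Real.exp (a * y) ≤ 1 := by rw [Real.exp_le_one_iff]; nlinarith
    linarith [Real.exp_pos (T * y)]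
  · have : Real.exp (a * y) ≤ Real.exp (T * y) := by
      apply Real.exp_le_exp.2; nlinarith
    linarith

theorem norm_laplace (f : X → ℂ) (G : X → ℝ) (z : ℂ) (x : X) :
    ‖f x * Complex.exp (z * G x)‖ = ‖f x‖ * Real.exp (z.re * G x) := by
  rw [norm_mul, Complex.norm_exp, Complex.re_mul_ofReal]

theorem laplace_dom (f : X → ℂ) (G : X → ℝ) {z : ℂ} (h0 : 0 ≤ z.re) (h1 : z.re ≤ T) (x : X) :
    ‖f x * Complex.exp (z * G x)‖ ≤ ‖f x‖ + ‖f x * Complex.exp (T * G x)‖ := by
  rw [norm_laplace, norm_laplace, Complex.ofReal_re]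
  have := exp_strip (y := G x) h0 h1
  nlinarith [norm_nonneg (f x)]

theorem laplace_aesm (hG : Measurable G) (h0 : Integrable f μ) (z : ℂ) :
    AEStronglyMeasurable (fun x => f x * Complex.exp (z * G x)) μ := by
  refine h0.aestronglyMeasurable.mul ?_
  have : Measurable (fun x => Complex.exp (z * G x)) := by fun_prop
  exact this.aestronglyMeasurable

theorem laplace_integrable (hG : Measurable G) (h0 : Integrable f μ)
    (hT : Integrable (fun x => f x * Complex.exp (T * G x)) μ) {z : ℂ} (hz0 : 0 ≤ z.re)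
    (hz1 : z.re ≤ T) : Integrable (fun x => f x * Complex.exp (z * G x)) μ :=
  Integrable.mono' (h0.norm.add hT.norm) (laplace_aesm hG h0 z)
    (Eventually.of_forall fun x => laplace_dom f G hz0 hz1 x)

theorem laplace_cont (hG : Measurable G) (h0 : Integrable f μ)
    (hT : Integrable (fun x => f x * Complex.exp (T * G x)) μ) :
    ContinuousOn (fun z : ℂ => ∫ x, f x * Complex.exp (z * G x) ∂μ) {z | 0 ≤ z.re ∧ z.re ≤ T} := by
  refine continuousOn_of_dominated (bound := fun x => ‖f x‖ + ‖f x * Complex.exp (T * G x)‖)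
    (fun z _ => laplace_aesm hG h0 z) (fun z hz => Eventually.of_forall fun x =>
      laplace_dom f G hz.1 hz.2 x) (h0.norm.add hT.norm) (Eventually.of_forall fun x => ?_)
  exact Continuous.continuousOn (by fun_prop)

theorem laplace_diff (hG : Measurable G) (h0 : Integrable f μ)
    (hT : Integrable (fun x => f x * Complex.exp (T * G x)) μ) :
    DifferentiableOn ℂ (fun z : ℂ => ∫ x, f x * Complex.exp (z * G x) ∂μ)
      {z | 0 < z.re ∧ z.re < T} := by
  intro z0 hz0
  obtain ⟨h1, h2⟩ := hz0
  set ε := min z0.re (T - z0.re) / 2 with hε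
  have hε0 : 0 < ε := by
    rw [hε]; have := lt_min h1 (sub_pos.2 h2); linarith
  have hε1 : 2 * ε ≤ z0.re := by
    rw [hε]; have := min_le_left z0.re (T - z0.re); linarith
  have hε2 : 2 * ε ≤ T - z0.re := by
    rw [hε]; have := min_le_right z0.re (T - z0.re); linarith
  have key := hasDerivAt_integral_of_dominated_loc_of_deriv_le (μ := μ) (𝕜 := ℂ)
    (F := fun (z : ℂ) x => f x * Complex.exp (z * G x))
    (F' := fun (z : ℂ) x => f x * (Complex.exp (z * G x) * G x)) (x₀ := z0)
    (s := Metric.ball z0 ε)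
    (bound := fun x => 2 / ε * (‖f x‖ + ‖f x * Complex.exp (T * G x)‖))
    (Metric.ball_mem_nhds z0 hε0) (Eventually.of_forall fun z => laplace_aesm hG h0 z)
    (laplace_integrable hG h0 hT h1.le h2.le) ?_ ?_ ((h0.norm.add hT.norm).const_mul _) ?_
  · exact key.2.differentiableAt.differentiableWithinAt
  · refine h0.aestronglyMeasurable.mul ?_
    have : Measurable (fun x => Complex.exp (z0 * G x) * G x) := by fun_prop
    exact this.aestronglyMeasurable
  · refine Eventually.of_forall fun x z hz => ?_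
    have hzr : |z.re - z0.re| < ε := by
      have h3 := Complex.abs_re_le_norm (z - z0)
      rw [Complex.sub_re] at h3
      rw [Metric.mem_ball, dist_eq_norm] at hz
      linarith
    obtain ⟨h3, h4⟩ := abs_lt.1 hzr
    rw [norm_mul, norm_mul, Complex.norm_exp, Complex.re_mul_ofReal, Complex.norm_real,
      Real.norm_eq_abs, norm_laplace, Complex.ofReal_re]
    have e1 : |G x| ≤ 1 / ε * (Real.exp (ε * G x) + Real.exp (-ε * G x)) := by
      rw [div_mul_eq_mul_div, one_mul, le_div_iff₀ hε0]
      rcases le_total (G x) 0 with hy | hy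
      · rw [abs_of_nonpos hy]
        have := Real.add_one_le_exp (-ε * G x)
        have := Real.exp_pos (ε * G x)
        nlinarith
      · rw [abs_of_nonneg hy]
        have := Real.add_one_le_exp (ε * G x)
        have := Real.exp_pos (-ε * G x)
        nlinarith
    have e2 : Real.exp (z.re * G x) * (Real.exp (ε * G x) + Real.exp (-ε * G x)) ≤
        2 * (1 + Real.exp (T * G x)) := by
      rw [mul_add, ← Real.exp_add, ← Real.exp_add, ← add_mul, ← add_mul]
      have a1 := exp_strip (y := G x) (a := z.re + ε) (T := T) (by linarith) (by linarith)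
      have a2 := exp_strip (y := G x) (a := z.re + -ε) (T := T) (by linarith) (by linarith)
      linarith
    have hf := norm_nonneg (f x)
    calc ‖f x‖ * (Real.exp (z.re * G x) * |G x|)
        ≤ ‖f x‖ * (Real.exp (z.re * G x) * (1 / ε * (Real.exp (ε * G x) + Real.exp (-ε * G x)))) := by
          gcongr
      _ = 1 / ε * ‖f x‖ * (Real.exp (z.re * G x) * (Real.exp (ε * G x) + Real.exp (-ε * G x))) := by
          ring
      _ ≤ 1 / ε * ‖f x‖ * (2 * (1 + Real.exp (T * G x))) := by gcongr
      _ = 2 / ε * (‖f x‖ + ‖f x‖ * Real.exp (T * G x)) := by ring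
  · refine Eventually.of_forall fun x z _ => ?_
    have h3 : HasDerivAt (fun z : ℂ => z * (G x : ℂ)) (G x) z := by
      simpa using (hasDerivAt_id z).mul_const (G x : ℂ)
    exact (h3.cexp).const_mul _

end laplace

variable {k : ℕ}

/-- translation of all shift variables -/
noncomputable def tr (z : ℂ) (v : Pt k) : Pt k :=
  Sum.elim (fun j => v (Sum.inl j) + z) (fun i => v (Sum.inr i))

theorem tr_zero (v : Pt k) : tr 0 v = v := by
  funext i; cases i <;> simp [tr]

theorem sh_tr (c : Fin k → ℕ) (z : ℂ) (v : Pt k) : sh c (tr z v) = tr z (sh c v) := by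
  funext i; cases i
  · simp only [sh, tr, Sum.elim_inl]; ring
  · simp [sh, tr]

theorem al_tr (z : ℂ) (v : Pt k) : al (tr z v) = al v := by
  funext i
  unfold al tr
  split_ifs <;> rfl

theorem ex_tr (z : ℂ) (v : Pt k) (g : Fin k → ℝ) :
    ex (Sx (tr z v)) g = ex (Sx v) g * Complex.exp (z * (∑ j, g j : ℝ)) := by
  unfold ex
  rw [← Complex.exp_add]
  congr 1
  push_cast
  rw [Finset.mul_sum, ← Finset.sum_add_distrib]
  refine Finset.sum_congr rfl fun j _ => ?_
  have hj := j.2
  have e : k - (j : ℕ) = (⟨k - 1 - j, by omega⟩ : Fin k) + 1 := by simp; omega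
  rw [e, Sx_mid, Sx_mid]
  simp only [tr, Sum.elim_inl]
  ring

/-- absolute convergence of the Mellin integral in gap coordinates -/
def Cv (v : Pt k) : Prop :=
  Integrable (fun g : Fin k → ℝ => Phi (k+1) (al v) (xg g) * ex (Sx v) g)

theorem exists_tr_mem (v : Pt k) (hv : ∑ i, v (Sum.inr i) = 0) :
    ∃ T0 : ℝ, 0 ≤ T0 ∧ ∀ z : ℂ, T0 ≤ z.re → tr z v ∈ OM k := by
  obtain ⟨A, hA⟩ := good_exists k (al v)
  refine ⟨|A| + 1 + ∑ j, |(v (Sum.inl j)).re|, by positivity, fun z hz => ⟨?_, A, ?_, fun j => ?_⟩⟩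
  · simpa [tr] using hv
  · rwa [al_tr]
  · simp only [tr, Sum.elim_inl, Complex.add_re]
    have h1 : |(v (Sum.inl j)).re| ≤ ∑ j, |(v (Sum.inl j)).re| :=
      Finset.single_le_sum (f := fun j => |(v (Sum.inl j)).re|) (fun _ _ => abs_nonneg _)
        (Finset.mem_univ j)
    have h2 := neg_abs_le (v (Sum.inl j)).re
    have h3 := le_abs_self A
    linarith

/-- Extension of a shift equation from the good region to all points of convergence. -/
theorem extend {r : ℕ} (Q : Pl k) (P : Fin r → Pl k) (c : Fin r → Fin k → ℕ)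
    (h : ∀ v ∈ OM k, MvPolynomial.eval v Q * FM k v =
      ∑ i, MvPolynomial.eval v (P i) * FM k (sh (c i) v))
    (v : Pt k) (hv : ∑ i, v (Sum.inr i) = 0) (hc : Cv v) (hci : ∀ i, Cv (sh (c i) v)) :
    MvPolynomial.eval v Q * FM k v = ∑ i, MvPolynomial.eval v (P i) * FM k (sh (c i) v) := by
  obtain ⟨T0, hT00, hT0⟩ := exists_tr_mem v hv
  set T := T0 + 1 with hT
  have hmem : ∀ (w : Pt k), (∃ d, w = sh d v) → tr (T : ℂ) w ∈ OM k := by
    rintro w ⟨d, rfl⟩
    rw [← sh_tr]
    exact OM_stable _ (hT0 _ (by simp [hT])) _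
  set G : (Fin k → ℝ) → ℝ := fun g => ∑ j, g j with hG
  have hGm : Measurable G := by fun_prop
  -- all the relevant functions
  have hFM : ∀ (w : Pt k) (z : ℂ), FM k (tr z w) =
      ∫ g : Fin k → ℝ, (Phi (k+1) (al w) (xg g) * ex (Sx w) g) * Complex.exp (z * G g) := by
    intro w z
    unfold FM
    rw [al_tr]
    refine integral_congr_ae (Eventually.of_forall fun g => ?_)
    simp only [ex_tr, hG]
    ring
  have hTint : ∀ w : Pt k, (∃ d, w = sh d v) →
      Integrable (fun g : Fin k → ℝ => (Phi (k+1) (al w) (xg g) * ex (Sx w) g) *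
        Complex.exp (T * G g)) := by
    intro w hw
    have := OM_integrable _ (hmem w hw)
    rw [al_tr] at this
    refine this.congr (Eventually.of_forall fun g => ?_)
    simp only [ex_tr, hG]
    ring
  have hcont : ∀ w : Pt k, (∃ d, w = sh d v) → Cv w →
      ContinuousOn (fun z : ℂ => FM k (tr z w)) {z | 0 ≤ z.re ∧ z.re ≤ T} := by
    intro w hw hcw
    have := laplace_cont hGm hcw (hTint w hw)
    exact this.congr fun z _ => hFM w z
  have hdiff : ∀ w : Pt k, (∃ d, w = sh d v) → Cv w →
      DifferentiableOn ℂ (fun z : ℂ => FM k (tr z w)) {z | 0 < z.re ∧ z.re < T} := by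
    intro w hw hcw
    have := laplace_diff hGm hcw (hTint w hw)
    exact this.congr fun z _ => hFM w z
  have hpoly : ∀ R : Pl k, Differentiable ℂ (fun z : ℂ => MvPolynomial.eval (tr z v) R) := by
    intro R
    induction R using MvPolynomial.induction_on with
    | C a => simp
    | add p q hp hq =>
      simp only [map_add]
      exact hp.add hq
    | mul_X p i hp =>
      simp only [map_mul, MvPolynomial.eval_X]
      refine hp.mul ?_
      cases i with
      | inl j => simp only [tr, Sum.elim_inl]; fun_prop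
      | inr j => simp only [tr, Sum.elim_inr]; fun_prop
  set E : ℂ → ℂ := fun z => MvPolynomial.eval (tr z v) Q * FM k (tr z v) -
    ∑ i, MvPolynomial.eval (tr z v) (P i) * FM k (tr z (sh (c i) v)) with hE
  have hEc : ContinuousOn E {z | 0 ≤ z.re ∧ z.re ≤ T} := by
    refine ContinuousOn.sub ?_ ?_
    · exact (hpoly Q).continuous.continuousOn.mul (hcont v ⟨0, (sh_zero v).symm⟩ hc)
    · refine continuousOn_finsetSum _ fun i _ => ?_
      exact (hpoly _).continuous.continuousOn.mul (hcont _ ⟨c i, rfl⟩ (hci i))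
  have hEd : DifferentiableOn ℂ E {z | 0 < z.re ∧ z.re < T} := by
    refine DifferentiableOn.sub ?_ ?_
    · exact (hpoly Q).differentiableOn.mul (hdiff v ⟨0, (sh_zero v).symm⟩ hc)
    · refine DifferentiableOn.fun_sum fun i _ => ?_
      exact (hpoly _).differentiableOn.mul (hdiff _ ⟨c i, rfl⟩ (hci i))
  have hopen : IsOpen {z : ℂ | 0 < z.re ∧ z.re < T} :=
    (isOpen_lt continuous_const Complex.continuous_re).inter
      (isOpen_lt Complex.continuous_re continuous_const)
  have hE0 : ∀ z : ℂ, T0 ≤ z.re → E z = 0 := by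
    intro z hz
    simp only [hE]
    rw [h _ (hT0 z hz), sub_eq_zero]
    refine Finset.sum_congr rfl fun i _ => ?_
    rw [sh_tr]
  have hconn : IsPreconnected {z : ℂ | 0 < z.re ∧ z.re < T} := by
    have : Convex ℝ {z : ℂ | 0 < z.re ∧ z.re < T} :=
      (convex_halfSpace_re_gt 0).inter (convex_halfSpace_re_lt T)
    exact this.isPreconnected
  have hz1 : ((T0 + 1/2 : ℝ) : ℂ) ∈ {z : ℂ | 0 < z.re ∧ z.re < T} := by
    simp only [mem_ofPred_eq, Complex.ofReal_re, hT]
    constructor <;> linarith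
  have hEzero : EqOn E 0 {z : ℂ | 0 < z.re ∧ z.re < T} := by
    refine (hEd.analyticOnNhd hopen).eqOn_zero_of_preconnected_of_eventuallyEq_zero hconn hz1 ?_
    have : {z : ℂ | T0 < z.re} ∈ 𝓝 ((T0 + 1/2 : ℝ) : ℂ) := by
      refine (isOpen_lt continuous_const Complex.continuous_re).mem_nhds ?_
      simp only [mem_ofPred_eq, Complex.ofReal_re]; linarith
    filter_upwards [this] with z hz
    exact hE0 z (le_of_lt hz)
  have hfin : E 0 = 0 := by
    have hc0 : ContinuousWithinAt E {z | 0 ≤ z.re ∧ z.re ≤ T} 0 := hEc 0 (by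
      simp only [mem_ofPred_eq, Complex.zero_re]; constructor <;> linarith)
    have hseq : Tendsto (fun n : ℕ => ((1 / ((n : ℝ) + 1) * (T/2) : ℝ) : ℂ)) atTop
        (𝓝[{z | 0 ≤ z.re ∧ z.re ≤ T}] 0) := by
      refine tendsto_nhdsWithin_iff.2 ⟨?_, Eventually.of_forall fun n => ?_⟩
      · have h1 := (tendsto_one_div_add_atTop_nhds_zero_nat (𝕜 := ℝ)).mul_const (T/2)
        rw [zero_mul] at h1
        have := (Complex.continuous_ofReal.tendsto 0).comp h1
        rw [Complex.ofReal_zero] at this
        exact this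
      · simp only [mem_ofPred_eq, Complex.ofReal_re]
        have h1 : (1 : ℝ) / ((n : ℝ) + 1) ≤ 1 := by
          rw [div_le_one (by positivity)]
          have : (0 : ℝ) ≤ n := Nat.cast_nonneg n
          linarith
        have h2 : (0:ℝ) < 1 / ((n : ℝ) + 1) := by positivity
        constructor
        · have : 0 ≤ T / 2 := by linarith
          positivity
        · nlinarith
    have hlim := hc0.tendsto.comp hseq
    refine tendsto_nhds_unique hlim ?_
    have : ∀ n : ℕ, (E ∘ fun n : ℕ => ((1 / ((n : ℝ) + 1) * (T/2) : ℝ) : ℂ)) n = 0 := by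
      intro n
      refine hEzero ?_
      simp only [mem_ofPred_eq, Complex.ofReal_re]
      have h1 : (1 : ℝ) / ((n : ℝ) + 1) ≤ 1 := by
        rw [div_le_one (by positivity)]
        have : (0 : ℝ) ≤ n := Nat.cast_nonneg n
        linarith
      have h2 : (0:ℝ) < 1 / ((n : ℝ) + 1) := by positivity
      constructor
      · have : 0 < T / 2 := by linarith
        positivity
      · nlinarith
    refine (tendsto_congr this).2 tendsto_const_nhds
  simp only [hE, tr_zero] at hfin
  exact sub_eq_zero.1 hfin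

/-- shift equations for the Mellin transform of the Givental integral -/
theorem givental_shift (m : Fin k) (δ : ℕ) :
    ∃ (r : ℕ) (_ : 1 ≤ r) (P : Fin r → Pl k) (c : Fin r → Fin k → ℕ),
      (∀ i, δ ≤ c i m) ∧
      (∀ i, (P i).totalDegree + 2 * ∑ j, c i j = δ * (k+1).choose (m.1+1)) ∧
      ∀ v : Pt k, ∑ i, v (Sum.inr i) = 0 → Cv v → (∀ i, Cv (sh (c i) v)) →
        (∏ J ∈ Finset.powersetCard (m.1+1) (Finset.univ : Finset (Fin (k+1))),
          ∏ i ∈ Finset.range δ, (v (Sum.inl m) - ∑ j ∈ J, v (Sum.inr j) + i)) * FM k v =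
        ∑ i, MvPolynomial.eval v (P i) * FM k (sh (c i) v) := by
  obtain ⟨r, hr, P, c, h1, h2, h3⟩ := core m δ
  refine ⟨r, hr, P, c, h1, h2, fun v hv hc hci => ?_⟩
  have e1 : ∀ v : Pt k, MvPolynomial.eval v (PP k m δ) =
      ∏ J ∈ Finset.powersetCard (m.1+1) (Finset.univ : Finset (Fin (k+1))),
        ∏ i ∈ Finset.range δ, (v (Sum.inl m) - ∑ j ∈ J, v (Sum.inr j) + i) := by
    intro v
    rw [PP, map_prod, Finset.prod_comm]
    refine Finset.prod_congr rfl fun i _ => ?_
    rw [eval_QP]
  rw [← e1]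
  refine extend (PP k m δ) P c (fun u hu => ?_) v hv hc hci
  rw [e1]
  exact h3 _ _ (sol_FM k) u hu

end Pool.Agent.MP2f3d29
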