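import Mathlib
import Pool.Agent.MP_2f3d29_nt.C1
import Pool.Agent.MP_2f3d29_nt.A7

set_option autoImplicit false

open MeasureTheory Set Filter Topology

namespace Pool.Agent.MP2f3d29

variable {k : ℕ}

/-- shift equations for the Mellin transform of the Givental integral, with pairwise distinct
shifts and exact degrees -/
theorem givental_shift_exact (hk : 3 ≤ k) (m : Fin k) (δ : ℕ) :
    ∃ (r : ℕ) (_ : 1 ≤ r) (P : Fin r → Pl k) (c : Fin r → Fin k → ℕ),
      Function.Injective c ∧ (∀ i, δ ≤ c i m) ∧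
      (∀ i, (P i).totalDegree + 2 * ∑ j, c i j = δ * (k+1).choose (m.1+1)) ∧
      (∀ i, MvPolynomial.coeff (Finsupp.single (Sum.inl m) (P i).totalDegree) (P i) ≠ 0) ∧
      ∀ v : Pt k, ∑ i, v (Sum.inr i) = 0 → Cv v → (∀ i, Cv (sh (c i) v)) →
        (∏ J ∈ Finset.powersetCard (m.1+1) (Finset.univ : Finset (Fin (k+1))),
          ∏ i ∈ Finset.range δ, (v (Sum.inl m) - ∑ j ∈ J, v (Sum.inr j) + i)) * FM k v =
        ∑ i, MvPolynomial.eval v (P i) * FM k (sh (c i) v) := by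
  obtain ⟨r, hr, P, c, h0, h1, h2, h2', h3⟩ := core_exact hk m δ
  refine ⟨r, hr, P, c, h0, h1, h2, h2', fun v hv hc hci => ?_⟩
  have e1 : ∀ v : Pt k, MvPolynomial.eval v (PP k m δ) =
      ∏ J ∈ Finset.powersetCard (m.1+1) (Finset.univ : Finset (Fin (k+1))),
        ∏ i ∈ Finset.range δ, (v (Sum.inl m) - ∑ j ∈ J, v (Sum.inr j) + i) := by
    intro v
    rw [PP, map_prod, Finset.prod_comm]
    refine Finset.prod_congr rfl fun i _ => ?_
    rw [eval_QP]
  rw [← e1]
  refine extend (PP k m δ) P c (fun u hu => ?_) v hv hc hci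
  rw [e1]
  exact h3 _ _ (sol_FM k) u hu

end Pool.Agent.MP2f3d29
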