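import Mathlib

set_option autoImplicit false

open MeasureTheory

namespace Pool.Agent.MP2f3d29

/-- The positions strictly above the diagonal of an `n × n` matrix. -/
abbrev UT (n : ℕ) := {p : Fin n × Fin n // p.1 < p.2}

/-- The upper triangular unipotent `n × n` matrix with entries `u` above the diagonal.
The measure `du = ∏_{i<j} du_{ij}` is the Lebesgue measure on `UT n → ℝ`. -/
def unip {n : ℕ} (u : UT n → ℝ) : Matrix (Fin n) (Fin n) ℝ :=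
  fun i j => if h : i < j then u ⟨(i, j), h⟩ else if i = j then 1 else 0

/-- The antidiagonal permutation matrix. -/
def wLong (n : ℕ) : Matrix (Fin n) (Fin n) ℝ := fun i j => if j = Fin.rev i then 1 else 0

/-- The diagonal matrix `diag(y_1⋯y_{n-1}, y_1⋯y_{n-2}, …, y_1, 1)`, where `n = k + 1`. -/
noncomputable def torus {k : ℕ} (y : Fin k → ℝ) : Matrix (Fin (k+1)) (Fin (k+1)) ℝ :=
  Matrix.diagonal fun i => ∏ j : Fin k, if (j : ℕ) + i < k then y j else 1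

/-- The character `ψ(u) = exp(2πi (u_{12} + u_{23} + ⋯ + u_{n-1,n}))`, where `n = k + 1`. -/
noncomputable def psiChar {k : ℕ} (u : UT (k+1) → ℝ) : ℂ :=
  Complex.exp (2 * Real.pi * Complex.I * ((∑ i : Fin k, unip u i.castSucc i.succ : ℝ) : ℂ))

/-- `ρ_i = (n+1)/2 - i`, where `n = k + 1` (the index `i : Fin (k+1)` stands for `i + 1`). -/
noncomputable def rhoC (k : ℕ) (i : Fin (k+1)) : ℂ := (((k : ℂ) + 1) + 1) / 2 - (((i : ℕ) : ℂ) + 1)

/-- `I` is the function `I(g, α)` of the problem: for `α` with `∑ α_i = 0` and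
`g = x y κ r` with `x` unipotent upper triangular, `y` a positive diagonal matrix as above, `κ`
orthogonal and `r ≠ 0` a scalar, `I(g, α) = ∏_{i=1}^{n-1} y_i^{α_1+⋯+α_{n-i}+ρ_1+⋯+ρ_{n-i}}`. -/
def IsPower (k : ℕ) (I : (Fin (k+1) → ℂ) → Matrix (Fin (k+1)) (Fin (k+1)) ℝ → ℂ) : Prop :=
  ∀ α : Fin (k+1) → ℂ, ∑ i, α i = 0 → ∀ (x : UT (k+1) → ℝ) (y : Fin k → ℝ), (∀ i, 0 < y i) →
    ∀ κ ∈ Matrix.orthogonalGroup (Fin (k+1)) ℝ, ∀ r : ℝ, r ≠ 0 →
      I α (r • (unip x * torus y * κ)) =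
        ∏ i : Fin k, (y i : ℂ) ^
          (∑ j ∈ Finset.univ.filter (fun j : Fin (k+1) => (j : ℕ) + i < k), (α j + rhoC k j))

/-- The range of absolute convergence: `Re(α_i - α_{i+1}) > 0` for all `i`. -/
def Dominant {k : ℕ} (α : Fin (k+1) → ℂ) : Prop := ∀ i : Fin k, 0 < (α i.castSucc - α i.succ).re

/-- The factor `∏_{j<k} Γ((1+α_j-α_k)/2) / π^{(1+α_j-α_k)/2}`. -/
noncomputable def gammaFactor {k : ℕ} (α : Fin (k+1) → ℂ) : ℂ :=
  ∏ p : UT (k+1), Complex.Gamma ((1 + α p.1.1 - α p.1.2) / 2) /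
    (Real.pi : ℂ) ^ ((1 + α p.1.1 - α p.1.2) / 2)

/-- The integrand `I(w_long u y, α) conj(ψ(u))` of the Jacquet integral. -/
noncomputable def jacquetIntegrand {k : ℕ}
    (I : (Fin (k+1) → ℂ) → Matrix (Fin (k+1)) (Fin (k+1)) ℝ → ℂ) (α : Fin (k+1) → ℂ)
    (y : Fin k → ℝ) (u : UT (k+1) → ℝ) : ℂ :=
  I α (wLong (k+1) * unip u * torus y) * (starRingEnd ℂ) (psiChar u)

/-- `W` is the completed Whittaker function `(α, y) ↦ W_{n,α}(y)` on positive diagonal matrices: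
it is given by the completed Jacquet integral when `Re(α_i - α_{i+1}) > 0` for all `i`, and for
each `y` it is holomorphic in `α` on the whole hyperplane `∑ α_i = 0`. -/
structure IsCompletedWhittaker (k : ℕ)
    (I : (Fin (k+1) → ℂ) → Matrix (Fin (k+1)) (Fin (k+1)) ℝ → ℂ)
    (W : (Fin (k+1) → ℂ) → (Fin k → ℝ) → ℂ) : Prop where
  eq_integral : ∀ α : Fin (k+1) → ℂ, ∑ i, α i = 0 → Dominant α → ∀ y : Fin k → ℝ, (∀ i, 0 < y i) →
    W α y = gammaFactor α * ∫ u : UT (k+1) → ℝ, jacquetIntegrand I α y u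
  holomorphic : ∀ y : Fin k → ℝ, (∀ i, 0 < y i) →
    DifferentiableOn ℂ (fun α => W α y) {α : Fin (k+1) → ℂ | ∑ i, α i = 0}

/-- The integrand of the Mellin transform, `n = k + 1`:
`W_{n,2α}(y) ∏_{j=1}^{n-1} (π y_j)^{2 s_j} / y_j^{1+j(n-j)/2}`. -/
noncomputable def mellinIntegrand {k : ℕ} (W : (Fin (k+1) → ℂ) → (Fin k → ℝ) → ℂ)
    (α : Fin (k+1) → ℂ) (s : Fin k → ℂ) (y : Fin k → ℝ) : ℂ :=
  W (fun i => 2 * α i) y * ∏ j : Fin k, (((Real.pi * y j : ℝ) : ℂ) ^ (2 * s j) /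
    ((y j : ℝ) : ℂ) ^ (1 + (((j : ℕ) : ℂ) + 1) * (((k : ℂ) + 1) - (((j : ℕ) : ℂ) + 1)) / 2))

/-- Absolute convergence of the Mellin integral at `s`. -/
def MellinConverges {k : ℕ} (W : (Fin (k+1) → ℂ) → (Fin k → ℝ) → ℂ)
    (α : Fin (k+1) → ℂ) (s : Fin k → ℂ) : Prop :=
  IntegrableOn (mellinIntegrand W α s) (Set.univ.pi fun _ => Set.Ioi (0 : ℝ))

/-- The normalized Mellin transform, `n = k + 1`. -/
noncomputable def mellinW {k : ℕ} (W : (Fin (k+1) → ℂ) → (Fin k → ℝ) → ℂ)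
    (α : Fin (k+1) → ℂ) (s : Fin k → ℂ) : ℂ :=
  2 ^ k * ∫ y in Set.univ.pi fun _ => Set.Ioi (0 : ℝ), mellinIntegrand W α s y

end Pool.Agent.MP2f3d29
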