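import Mathlib
import Pool.Agent.MP_2f3d29_nt.Defs

set_option autoImplicit false

open MeasureTheory Set

namespace Pool.Agent.MP2f3d29

/-! ### bordered matrices -/

variable {n : ℕ}

/-- bordered matrix -/
def blk (A : Matrix (Fin n) (Fin n) ℝ) (b c : Fin n → ℝ) (d : ℝ) :
    Matrix (Fin (n+1)) (Fin (n+1)) ℝ :=
  fun i j => Fin.lastCases (motive := fun _ => ℝ) (Fin.lastCases (motive := fun _ => ℝ) d c j)
    (fun i' => Fin.lastCases (motive := fun _ => ℝ) (b i') (fun j' => A i' j') j) i

section
variable (A A' : Matrix (Fin n) (Fin n) ℝ) (b b' c c' : Fin n → ℝ) (d d' : ℝ)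

@[simp] theorem blk_cc (i j : Fin n) : blk A b c d i.castSucc j.castSucc = A i j := by
  simp [blk]
@[simp] theorem blk_cl (i : Fin n) : blk A b c d i.castSucc (Fin.last n) = b i := by
  simp [blk]
@[simp] theorem blk_lc (j : Fin n) : blk A b c d (Fin.last n) j.castSucc = c j := by
  simp [blk]
@[simp] theorem blk_ll : blk A b c d (Fin.last n) (Fin.last n) = d := by
  simp [blk]

theorem blk_ext {M M' : Matrix (Fin (n+1)) (Fin (n+1)) ℝ}
    (h1 : ∀ i j : Fin n, M i.castSucc j.castSucc = M' i.castSucc j.castSucc)
    (h2 : ∀ i : Fin n, M i.castSucc (Fin.last n) = M' i.castSucc (Fin.last n))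
    (h3 : ∀ j : Fin n, M (Fin.last n) j.castSucc = M' (Fin.last n) j.castSucc)
    (h4 : M (Fin.last n) (Fin.last n) = M' (Fin.last n) (Fin.last n)) : M = M' := by
  ext i j
  induction i using Fin.lastCases with
  | last =>
    induction j using Fin.lastCases with
    | last => exact h4
    | cast j => exact h3 j
  | cast i =>
    induction j using Fin.lastCases with
    | last => exact h2 i
    | cast j => exact h1 i j

theorem blk_eta (M : Matrix (Fin (n+1)) (Fin (n+1)) ℝ) :
    blk (M.submatrix Fin.castSucc Fin.castSucc) (fun i => M i.castSucc (Fin.last n))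
      (fun j => M (Fin.last n) j.castSucc) (M (Fin.last n) (Fin.last n)) = M := by
  apply blk_ext <;> simp

theorem blk_mul : blk A b c d * blk A' b' c' d' =
    blk (A * A' + Matrix.vecMulVec b c') (A.mulVec b' + d' • b)
      (Matrix.vecMul c A' + d • c') (c ⬝ᵥ b' + d * d') := by
  apply blk_ext
  · intro i j
    rw [Matrix.mul_apply, Fin.sum_univ_castSucc]
    simp [Matrix.mul_apply, Matrix.vecMulVec_apply]
  · intro i
    rw [Matrix.mul_apply, Fin.sum_univ_castSucc]
    simp [Matrix.mulVec, dotProduct, mul_comm]
  · intro j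
    rw [Matrix.mul_apply, Fin.sum_univ_castSucc]
    simp [Matrix.vecMul, dotProduct]
  · rw [Matrix.mul_apply, Fin.sum_univ_castSucc]
    simp [dotProduct]

theorem blk_transpose : (blk A b c d).transpose = blk A.transpose c b d := by
  apply blk_ext <;> simp [Matrix.transpose_apply]

theorem blk_one : blk (1 : Matrix (Fin n) (Fin n) ℝ) 0 0 1 = 1 := by
  apply blk_ext
  · intro i j
    rw [blk_cc, Matrix.one_apply, Matrix.one_apply]
    simp
  · intro i
    rw [blk_cl, Matrix.one_apply_ne (Fin.castSucc_lt_last i).ne]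
    rfl
  · intro i
    rw [blk_lc, Matrix.one_apply_ne (Fin.castSucc_lt_last i).ne']
    rfl
  · simp

theorem blk_diagonal (t : Fin (n+1) → ℝ) : Matrix.diagonal t =
    blk (Matrix.diagonal (fun i : Fin n => t i.castSucc)) 0 0 (t (Fin.last n)) := by
  apply blk_ext
  · intro i j
    rw [blk_cc, Matrix.diagonal_apply, Matrix.diagonal_apply]
    simp
  · intro i
    rw [blk_cl, Matrix.diagonal_apply_ne _ (Fin.castSucc_lt_last i).ne]
    rfl
  · intro i
    rw [blk_lc, Matrix.diagonal_apply_ne _ (Fin.castSucc_lt_last i).ne']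
    rfl
  · simp

end

/-! ### unipotent coordinates -/

/-- the coordinates of a matrix -/
def crd (M : Matrix (Fin n) (Fin n) ℝ) : UT n → ℝ := fun p => M p.1.1 p.1.2

theorem crd_unip (u : UT n → ℝ) : crd (unip u) = u := by
  funext p
  unfold crd unip
  rw [dif_pos p.2]

theorem unip_diag (u : UT n → ℝ) (i : Fin n) : unip u i i = 1 := by
  unfold unip; rw [dif_neg (lt_irrefl i), if_pos rfl]

theorem unip_lower (u : UT n → ℝ) {i j : Fin n} (h : j < i) : unip u i j = 0 := by
  unfold unip; rw [dif_neg (not_lt.2 h.le), if_neg h.ne']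

theorem unip_upper (u : UT n → ℝ) (p : UT n) : unip u p.1.1 p.1.2 = u p := by
  unfold unip; rw [dif_pos p.2]

/-- `UT (n+1)` as a disjoint union -/
def utF (n : ℕ) : UT n ⊕ Fin n → UT (n+1) :=
  Sum.elim (fun p => ⟨(p.1.1.castSucc, p.1.2.castSucc), by simpa using p.2⟩)
    (fun i => ⟨(i.castSucc, Fin.last n), Fin.castSucc_lt_last i⟩)

theorem utF_bij (n : ℕ) : Function.Bijective (utF n) := by
  constructor
  · rintro (p | i) (q | j) h
    · have h1 := congrArg (fun r : UT (n+1) => r.1.1) h
      have h2 := congrArg (fun r : UT (n+1) => r.1.2) h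
      simp only [utF, Sum.elim_inl, Fin.castSucc_inj] at h1 h2
      congr 1
      exact Subtype.ext (Prod.ext h1 h2)
    · have h2 := congrArg (fun r : UT (n+1) => r.1.2) h
      simp only [utF, Sum.elim_inl, Sum.elim_inr] at h2
      exact absurd h2 (Fin.castSucc_lt_last _).ne
    · have h2 := congrArg (fun r : UT (n+1) => r.1.2) h
      simp only [utF, Sum.elim_inl, Sum.elim_inr] at h2
      exact absurd h2 (Fin.castSucc_lt_last _).ne'
    · have h1 := congrArg (fun r : UT (n+1) => r.1.1) h
      simp only [utF, Sum.elim_inr, Fin.castSucc_inj] at h1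
      rw [h1]
  · intro p
    by_cases h : p.1.2 = Fin.last n
    · refine ⟨Sum.inr (p.1.1.castPred (by rw [← h]; exact p.2.ne)), ?_⟩
      apply Subtype.ext
      apply Prod.ext
      · simp [utF]
      · simp [utF, h]
    · refine ⟨Sum.inl ⟨(p.1.1.castPred (p.2.trans_le (Fin.le_last _)).ne, p.1.2.castPred h), by
        rw [Fin.castPred_lt_castPred_iff]; exact p.2⟩, ?_⟩
      apply Subtype.ext
      apply Prod.ext
      · simp [utF]
      · simp [utF]

noncomputable def utE (n : ℕ) : UT n ⊕ Fin n ≃ UT (n+1) := Equiv.ofBijective (utF n) (utF_bij n)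

/-- join coordinates -/
noncomputable def joinU (q : (UT n → ℝ) × (Fin n → ℝ)) : UT (n+1) → ℝ :=
  fun p => Sum.elim q.1 q.2 ((utE n).symm p)

theorem joinU_inl (q : (UT n → ℝ) × (Fin n → ℝ)) (p : UT n) :
    joinU q (utE n (Sum.inl p)) = q.1 p := by
  unfold joinU; rw [Equiv.symm_apply_apply]; rfl

theorem joinU_inr (q : (UT n → ℝ) × (Fin n → ℝ)) (i : Fin n) :
    joinU q (utE n (Sum.inr i)) = q.2 i := by
  unfold joinU; rw [Equiv.symm_apply_apply]; rfl

theorem joinU_surj (u : UT (n+1) → ℝ) : ∃ q, joinU q = u := by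
  refine ⟨(fun p => u (utE n (Sum.inl p)), fun i => u (utE n (Sum.inr i))), ?_⟩
  funext p
  obtain ⟨s, rfl⟩ := (utE n).surjective p
  cases s with
  | inl p => rw [joinU_inl]
  | inr i => rw [joinU_inr]

theorem unip_joinU (q : (UT n → ℝ) × (Fin n → ℝ)) : unip (joinU q) = blk (unip q.1) q.2 0 1 := by
  apply blk_ext
  · intro i j
    rw [blk_cc]
    by_cases h : i < j
    · have h' : i.castSucc < j.castSucc := by simpa using h
      have e1 : unip (joinU q) i.castSucc j.castSucc = joinU q ⟨(i.castSucc, j.castSucc), h'⟩ := by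
        unfold unip; rw [dif_pos h']
      have e2 : unip q.1 i j = q.1 ⟨(i, j), h⟩ := by
        unfold unip; rw [dif_pos h]
      rw [e1, e2]
      exact joinU_inl q ⟨(i, j), h⟩
    · have h' : ¬ i.castSucc < j.castSucc := by simpa using h
      unfold unip
      rw [dif_neg h, dif_neg h']
      simp
  · intro i
    rw [blk_cl]
    have h' := Fin.castSucc_lt_last i
    have e1 : unip (joinU q) i.castSucc (Fin.last n) = joinU q ⟨(i.castSucc, Fin.last n), h'⟩ := by
      unfold unip; rw [dif_pos h']
    rw [e1]
    exact joinU_inr q i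
  · intro j
    rw [blk_lc, unip_lower _ (Fin.castSucc_lt_last j)]
    rfl
  · rw [blk_ll, unip_diag]

theorem joinU_measurePreserving : MeasurePreserving (joinU : (UT n → ℝ) × (Fin n → ℝ) → UT (n+1) → ℝ)
    (volume.prod volume) volume := by
  have h1 := volume_measurePreserving_sumPiEquivProdPi_symm (fun _ : UT n ⊕ Fin n => ℝ)
  have h2 := volume_preserving_arrowCongr' (utE n) (MeasurableEquiv.refl ℝ)
    (MeasurePreserving.id (volume : Measure ℝ))
  exact h2.comp h1

theorem mul_unip_upper (v u : UT n → ℝ) : unip (crd (unip v * unip u)) = unip v * unip u := by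
  ext i j
  unfold unip
  by_cases h : i < j
  · rw [dif_pos h]; rfl
  · rw [dif_neg h]
    by_cases h2 : i = j
    · rw [if_pos h2]
      subst h2
      change 1 = (unip v * unip u) i i
      rw [Matrix.mul_apply, Finset.sum_eq_single i]
      · rw [unip_diag, unip_diag, mul_one]
      · intro l _ hl
        rcases lt_or_gt_of_ne hl with h3 | h3
        · rw [unip_lower v h3, zero_mul]
        · rw [unip_lower u h3, mul_zero]
      · intro h; exact absurd (Finset.mem_univ _) h
    · rw [if_neg h2]
      change 0 = (unip v * unip u) i j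
      rw [Matrix.mul_apply, Finset.sum_eq_zero]
      intro l _
      have hji : j < i := lt_of_le_of_ne (not_lt.1 h) (Ne.symm h2)
      rcases lt_or_ge l i with h3 | h3
      · rw [unip_lower v h3, zero_mul]
      · rw [unip_lower u (hji.trans_le h3), mul_zero]

/-- product in coordinates -/
def mulU (v u : UT n → ℝ) : UT n → ℝ := crd (unip v * unip u)

theorem unip_mulU (v u : UT n → ℝ) : unip (mulU v u) = unip v * unip u := mul_unip_upper v u

theorem unip_injective : Function.Injective (unip : (UT n → ℝ) → Matrix (Fin n) (Fin n) ℝ) :=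
  fun u v h => by rw [← crd_unip u, h, crd_unip]

theorem unip_zero : unip (0 : UT n → ℝ) = 1 := by
  ext i j
  unfold unip
  rw [Matrix.one_apply]
  split_ifs with h1 h2
  · exact absurd h2 h1.ne
  · rfl
  · rfl
  · rfl

theorem mulU_joinU (p q : (UT n → ℝ) × (Fin n → ℝ)) : mulU (joinU p) (joinU q) =
    joinU (mulU p.1 q.1, (unip p.1).mulVec q.2 + p.2) := by
  apply unip_injective
  rw [unip_mulU, unip_joinU, unip_joinU, unip_joinU, blk_mul, unip_mulU]
  congr 1
  · ext i j; simp
  · simp
  · simp
  · simp

theorem unip_det (u : UT n → ℝ) : (unip u).det = 1 := by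
  rw [Matrix.det_of_isUpperTriangular]
  · simp [unip_diag]
  · intro i j hij
    exact unip_lower u hij

theorem unip_mul_inv (u : UT n → ℝ) : unip u * (unip u)⁻¹ = 1 :=
  Matrix.mul_nonsing_inv _ (by rw [unip_det]; exact isUnit_one)

theorem unip_inv_mul (u : UT n → ℝ) : (unip u)⁻¹ * unip u = 1 :=
  Matrix.nonsing_inv_mul _ (by rw [unip_det]; exact isUnit_one)

/-- inverse in coordinates -/
noncomputable def invU : {n : ℕ} → (UT n → ℝ) → (UT n → ℝ)
  | 0, u => u
  | n+1, u =>
    let q := (fun p => u (utE n (Sum.inl p)), fun i => u (utE n (Sum.inr i)))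
    joinU (invU q.1, - (unip (invU q.1)).mulVec q.2)

theorem invU_joinU (q : (UT n → ℝ) × (Fin n → ℝ)) :
    invU (joinU q) = joinU (invU q.1, - (unip (invU q.1)).mulVec q.2) := by
  conv_lhs => unfold invU
  simp only [joinU_inl, joinU_inr]

theorem unip_invU_mul : ∀ {n : ℕ} (u : UT n → ℝ), unip (invU u) * unip u = 1 := by
  intro n
  induction n with
  | zero => intro u; ext i; exact i.elim0
  | succ n ih =>
    intro u
    obtain ⟨q, rfl⟩ := joinU_surj u
    rw [invU_joinU, unip_joinU, unip_joinU, blk_mul, ← blk_one]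
    have := ih q.1
    congr 1
    · rw [this]; ext i j; simp
    · simp
    · simp
    · simp

theorem unip_invU (u : UT n → ℝ) : unip (invU u) = (unip u)⁻¹ := by
  have h1 := unip_invU_mul u
  exact (Matrix.inv_eq_left_inv h1).symm

theorem unip_mul_invU (u : UT n → ℝ) : unip u * unip (invU u) = 1 := by
  rw [unip_invU, unip_mul_inv]

theorem unip_continuous : Continuous (unip : (UT n → ℝ) → Matrix (Fin n) (Fin n) ℝ) := by
  refine continuous_matrix fun i j => ?_
  unfold unip
  split_ifs with h1 h2
  · exact continuous_apply _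
  · exact continuous_const
  · exact continuous_const

theorem joinU_continuous : Continuous (joinU : (UT n → ℝ) × (Fin n → ℝ) → UT (n+1) → ℝ) := by
  refine continuous_pi fun p => ?_
  obtain ⟨s, rfl⟩ := (utE n).surjective p
  cases s with
  | inl p => simp only [joinU_inl]; fun_prop
  | inr i => simp only [joinU_inr]; fun_prop

theorem invU_continuous : ∀ {n : ℕ}, Continuous (invU : (UT n → ℝ) → UT n → ℝ) := by
  intro n
  induction n with
  | zero => exact continuous_id
  | succ n ih =>
    have e : (invU : (UT (n+1) → ℝ) → UT (n+1) → ℝ) = fun u =>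
        joinU (invU (fun p => u (utE n (Sum.inl p))),
          - (unip (invU (fun p => u (utE n (Sum.inl p))))).mulVec
            (fun i => u (utE n (Sum.inr i)))) := by
      funext u; rfl
    rw [e]
    refine joinU_continuous.comp (Continuous.prodMk (ih.comp ?_) ?_)
    · fun_prop
    · refine Continuous.neg ?_
      refine Continuous.matrix_mulVec (unip_continuous.comp (ih.comp ?_)) ?_
      · fun_prop
      · fun_prop

theorem crd_continuous : Continuous (crd : Matrix (Fin n) (Fin n) ℝ → UT n → ℝ) := by
  refine continuous_pi fun p => ?_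
  unfold crd
  exact continuous_apply_apply _ _

theorem mulU_continuous : Continuous (fun p : (UT n → ℝ) × (UT n → ℝ) => mulU p.1 p.2) := by
  unfold mulU
  exact crd_continuous.comp ((unip_continuous.comp continuous_fst).matrix_mul
    (unip_continuous.comp continuous_snd))

/-- an affine map with unipotent linear part preserves the volume -/
theorem affine_mp (A : Matrix (Fin n) (Fin n) ℝ) (hA : A.det = 1) (b : Fin n → ℝ) :
    MeasurePreserving (fun c : Fin n → ℝ => A.mulVec c + b) volume volume := by
  have h2 : MeasurePreserving (Matrix.toLin' A) (volume : Measure (Fin n → ℝ)) volume := by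
    refine ⟨(Matrix.toLin' A).continuous_of_finiteDimensional.measurable, ?_⟩
    rw [Real.map_matrix_volume_pi_eq_smul_volume_pi (by rw [hA]; exact one_ne_zero), hA]
    simp
  exact (measurePreserving_add_right volume b).comp h2

theorem of_joinU_comm {f : (UT (n+1) → ℝ) → (UT (n+1) → ℝ)}
    {g : (UT n → ℝ) × (Fin n → ℝ) → (UT n → ℝ) × (Fin n → ℝ)}
    (hf : Measurable f) (hg : MeasurePreserving g (volume.prod volume) (volume.prod volume))
    (h : ∀ q, f (joinU q) = joinU (g q)) : MeasurePreserving f volume volume := by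
  refine ⟨hf, ?_⟩
  have h1 := joinU_measurePreserving (n := n)
  conv_lhs => rw [← h1.map_eq]
  rw [Measure.map_map hf h1.measurable]
  have : f ∘ joinU = joinU ∘ g := by funext q; exact h q
  rw [this, ← Measure.map_map h1.measurable hg.measurable, hg.map_eq, h1.map_eq]

theorem mulU_left_mp : ∀ {n : ℕ} (v : UT n → ℝ),
    MeasurePreserving (fun u => mulU v u) (volume : Measure (UT n → ℝ)) volume := by
  intro n
  induction n with
  | zero =>
    intro v
    have : (fun u => mulU v u) = (id : (UT 0 → ℝ) → (UT 0 → ℝ)) := by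
      funext u p; exact p.1.1.elim0
    rw [this]; exact MeasurePreserving.id _
  | succ n ih =>
    intro v
    obtain ⟨p, rfl⟩ := joinU_surj v
    have hmeas : Measurable (fun u => mulU (joinU p) u) :=
      (mulU_continuous.comp (Continuous.prodMk continuous_const continuous_id)).measurable
    refine of_joinU_comm hmeas ?_ (fun q => mulU_joinU p q)
    have := (ih p.1).prod (affine_mp (unip p.1) (unip_det p.1) p.2)
    exact this

theorem invU_mp : ∀ {n : ℕ}, MeasurePreserving (invU : (UT n → ℝ) → UT n → ℝ) volume volume := by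
  intro n
  induction n with
  | zero => exact MeasurePreserving.id _
  | succ n ih =>
    refine of_joinU_comm invU_continuous.measurable ?_ invU_joinU
    refine MeasurePreserving.skew_product (f := invU)
      (g := fun (u : UT n → ℝ) (c : Fin n → ℝ) => - (unip (invU u)).mulVec c) ih ?_ ?_
    · have : Continuous (fun p : (UT n → ℝ) × (Fin n → ℝ) => - (unip (invU p.1)).mulVec p.2) := by
        refine Continuous.neg ?_
        exact Continuous.matrix_mulVec (unip_continuous.comp (invU_continuous.comp continuous_fst))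
          continuous_snd
      exact this.measurable
    · refine Filter.Eventually.of_forall fun u => ?_
      have h1 := (affine_mp (unip (invU u)) (unip_det _) 0)
      have h2 := (Measure.measurePreserving_neg (volume : Measure (Fin n → ℝ))).comp h1
      have h3 : (Neg.neg ∘ fun c : Fin n → ℝ => (unip (invU u)).mulVec c + 0) =
          (fun c : Fin n → ℝ => - (unip (invU u)).mulVec c) := by
        funext c; simp
      rw [h3] at h2
      exact h2.map_eq

end Pool.Agent.MP2f3d29
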