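import Mathlib
import Pool.Agent.MP_2f3d29_nt.D1

set_option autoImplicit false

open MeasureTheory Set

namespace Pool.Agent.MP2f3d29

variable {n : ℕ}

/-- append a last coordinate -/
def snc (p : (Fin n → ℝ) × ℝ) : Fin (n+1) → ℝ := fun i => Fin.lastCases (motive := fun _ => ℝ) p.2 p.1 i

@[simp] theorem snc_cast (p : (Fin n → ℝ) × ℝ) (i : Fin n) : snc p i.castSucc = p.1 i := by
  simp [snc]
@[simp] theorem snc_last (p : (Fin n → ℝ) × ℝ) : snc p (Fin.last n) = p.2 := by
  simp [snc]

theorem snc_surj (x : Fin (n+1) → ℝ) : snc (fun i => x i.castSucc, x (Fin.last n)) = x := by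
  funext i
  induction i using Fin.lastCases with
  | last => simp
  | cast i => simp

theorem snc_continuous : Continuous (snc : (Fin n → ℝ) × ℝ → Fin (n+1) → ℝ) := by
  refine continuous_pi fun i => ?_
  induction i using Fin.lastCases with
  | last => simp only [snc_last]; fun_prop
  | cast i => simp only [snc_cast]; fun_prop

theorem snc_mp : MeasurePreserving (snc : (Fin n → ℝ) × ℝ → Fin (n+1) → ℝ)
    (volume.prod volume) volume := by
  have h1 := (volume_preserving_piFinSuccAbove (fun _ : Fin (n+1) => ℝ) (Fin.last n)).symm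
  have h2 := h1.comp (Measure.measurePreserving_swap (μ := (volume : Measure (Fin n → ℝ)))
    (ν := (volume : Measure ℝ)))
  have : (snc : (Fin n → ℝ) × ℝ → Fin (n+1) → ℝ) =
      (MeasurableEquiv.piFinSuccAbove (fun _ : Fin (n+1) => ℝ) (Fin.last n)).symm ∘ Prod.swap := by
    funext p i
    have hs : (MeasurableEquiv.piFinSuccAbove (fun _ => ℝ) (Fin.last n)).symm (Prod.swap p) =
      Fin.insertNth (α := fun _ => ℝ) (Fin.last n) p.2 p.1 := rfl
    rw [Function.comp_apply, hs]
    induction i using Fin.lastCases with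
    | last => rw [snc_last, Fin.insertNth_apply_same]
    | cast i =>
      have := Fin.insertNth_apply_succAbove (α := fun _ => ℝ) (Fin.last n) p.2 p.1 i
      rw [Fin.succAbove_last] at this
      rw [snc_cast, this]
  rw [this]
  exact h2

/-- the coordinate space -/
abbrev CS (n : ℕ) := (UT n → ℝ) × (Fin n → ℝ)

/-- `(v, x) ↦ V e^x Vᵀ` -/
noncomputable def qq (p : CS n) : Matrix (Fin n) (Fin n) ℝ :=
  unip p.1 * Matrix.diagonal (fun i => Real.exp (p.2 i)) * (unip p.1).transpose

theorem qq_continuous : Continuous (qq : CS n → Matrix (Fin n) (Fin n) ℝ) := by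
  unfold qq
  refine Continuous.matrix_mul (Continuous.matrix_mul (unip_continuous.comp continuous_fst) ?_)
    (unip_continuous.comp continuous_fst).matrix_transpose
  refine Continuous.matrix_diagonal ?_
  fun_prop

theorem qq_symm (p : CS n) : (qq p).transpose = qq p := by
  unfold qq
  rw [Matrix.transpose_mul, Matrix.transpose_mul, Matrix.transpose_transpose,
    Matrix.diagonal_transpose, Matrix.mul_assoc]

theorem qq_det (p : CS n) : (qq p).det = Real.exp (∑ i, p.2 i) := by
  unfold qq
  rw [Matrix.det_mul, Matrix.det_mul, Matrix.det_transpose, unip_det, Matrix.det_diagonal,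
    Real.exp_sum]
  ring

theorem qq_join (v : UT n → ℝ) (c x : Fin n → ℝ) (t : ℝ) :
    qq (joinU (v, c), snc (x, t)) = blk (qq (v, x) + Real.exp t • Matrix.vecMulVec c c)
      (Real.exp t • c) (Real.exp t • c) (Real.exp t) := by
  unfold qq
  simp only [unip_joinU]
  rw [blk_diagonal, blk_transpose, blk_mul, blk_mul]
  congr 1
  · simp only [snc_cast, snc_last]
    congr 1
    · congr 1
      ext i j; simp
    · ext i j; simp [Matrix.vecMulVec_apply]; ring
  · simp
  · simp
  · simp

theorem qq_posDef (p : CS n) : (qq p).PosDef := by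
  unfold qq
  have h1 : (Matrix.diagonal (fun i => Real.exp (p.2 i))).PosDef :=
    Matrix.posDef_diagonal_iff.2 fun i => Real.exp_pos _
  have hU : IsUnit (unip p.1) := by
    rw [Matrix.isUnit_iff_isUnit_det, unip_det]; exact isUnit_one
  have := (Matrix.IsUnit.posDef_star_right_conjugate_iff (x := Matrix.diagonal
    (fun i => Real.exp (p.2 i))) hU).2 h1
  rwa [Matrix.star_eq_conjTranspose, Matrix.conjTranspose_eq_transpose_of_trivial] at this

theorem posDef_real {N : ℕ} (M : Matrix (Fin N) (Fin N) ℝ) :
    M.PosDef ↔ M.transpose = M ∧ ∀ x : Fin N → ℝ, x ≠ 0 → 0 < x ⬝ᵥ M.mulVec x := by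
  rw [Matrix.posDef_iff_dotProduct_mulVec, Matrix.IsHermitian,
    Matrix.conjTranspose_eq_transpose_of_trivial]
  simp

theorem blk_diag_posDef (A : Matrix (Fin n) (Fin n) ℝ) (t : ℝ) :
    (blk A 0 0 t).PosDef ↔ 0 < t ∧ A.PosDef := by
  rw [posDef_real, posDef_real, blk_transpose]
  have key : ∀ x : Fin (n+1) → ℝ, x ⬝ᵥ (blk A 0 0 t).mulVec x =
      (fun i : Fin n => x i.castSucc) ⬝ᵥ A.mulVec (fun i : Fin n => x i.castSucc) +
        t * x (Fin.last n) ^ 2 := by
    intro x
    simp only [dotProduct, Matrix.mulVec, Fin.sum_univ_castSucc, blk_cc, blk_cl, blk_lc, blk_ll,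
      Pi.zero_apply, zero_mul, add_zero, Finset.sum_const_zero, zero_add]
    ring
  constructor
  · rintro ⟨h1, h2⟩
    refine ⟨?_, ?_, fun x hx => ?_⟩
    · have := h2 (snc ((0 : Fin n → ℝ), (1:ℝ))) (by
        intro h
        have := congrFun h (Fin.last n)
        simp at this)
      rw [key] at this
      simpa using this
    · ext i j
      have := congrFun (congrFun h1 i.castSucc) j.castSucc
      simpa using this
    · have := h2 (snc (x, (0:ℝ))) (by
        intro h
        apply hx
        funext i
        have := congrFun h i.castSucc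
        simpa using this)
      rw [key] at this
      simpa using this
  · rintro ⟨ht, h1, h2⟩
    refine ⟨by rw [h1], fun x hx => ?_⟩
    rw [key]
    by_cases hx0 : (fun i : Fin n => x i.castSucc) = 0
    · have hl : x (Fin.last n) ≠ 0 := by
        intro hl
        apply hx
        funext i
        induction i using Fin.lastCases with
        | last => exact hl
        | cast i => exact congrFun hx0 i
      rw [hx0]
      simp only [Matrix.mulVec_zero, dotProduct_zero, zero_add]
      positivity
    · have := h2 _ hx0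
      positivity

/-- Schur complement criterion -/
theorem posDef_blk (A : Matrix (Fin n) (Fin n) ℝ) (b : Fin n → ℝ) (t : ℝ) :
    (blk A b b t).PosDef ↔ 0 < t ∧ (A - t⁻¹ • Matrix.vecMulVec b b).PosDef := by
  by_cases ht : 0 < t
  · rw [← blk_diag_posDef]
    have hne : t ≠ 0 := ht.ne'
    set U := blk (1 : Matrix (Fin n) (Fin n) ℝ) (t⁻¹ • b) 0 1 with hU
    have e : U * blk (A - t⁻¹ • Matrix.vecMulVec b b) 0 0 t * star U = blk A b b t := by
      rw [Matrix.star_eq_conjTranspose, Matrix.conjTranspose_eq_transpose_of_trivial, hU,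
        blk_transpose, blk_mul, blk_mul]
      congr 1
      · ext i j
        simp [Matrix.vecMulVec_apply]
        field_simp
        ring
      · simp [smul_smul, hne]
      · simp [smul_smul, hne]
      · simp
    have hUu : IsUnit U := by
      have hUe : U = unip (joinU (0, t⁻¹ • b)) := by rw [unip_joinU, unip_zero]
      rw [Matrix.isUnit_iff_isUnit_det, hUe, unip_det]; exact isUnit_one
    rw [← e, Matrix.IsUnit.posDef_star_right_conjugate_iff hUu]
  · constructor
    · intro h
      exfalso
      apply ht
      have := h.diag_pos (i := Fin.last n)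
      simpa using this
    · rintro ⟨h, _⟩; exact absurd h ht

/-- the diagonal exponents -/
noncomputable def lam : (n : ℕ) → Matrix (Fin n) (Fin n) ℝ → (Fin n → ℝ)
  | 0, _ => fun i => i.elim0
  | n+1, S => snc (lam n (S.submatrix Fin.castSucc Fin.castSucc -
      (S (Fin.last n) (Fin.last n))⁻¹ • Matrix.vecMulVec (fun i => S i.castSucc (Fin.last n))
        (fun j => S (Fin.last n) j.castSucc)), Real.log (S (Fin.last n) (Fin.last n)))

theorem lam_succ (S : Matrix (Fin (n+1)) (Fin (n+1)) ℝ) : lam (n+1) S =
    snc (lam n (S.submatrix Fin.castSucc Fin.castSucc -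
      (S (Fin.last n) (Fin.last n))⁻¹ • Matrix.vecMulVec (fun i => S i.castSucc (Fin.last n))
        (fun j => S (Fin.last n) j.castSucc)), Real.log (S (Fin.last n) (Fin.last n))) := rfl

theorem lam_blk (A : Matrix (Fin n) (Fin n) ℝ) (b c : Fin n → ℝ) (t : ℝ) :
    lam (n+1) (blk A b c t) = snc (lam n (A - t⁻¹ • Matrix.vecMulVec b c), Real.log t) := by
  rw [lam_succ]
  simp only [blk_ll, blk_cl, blk_lc]
  congr 4
  ext i j; simp

theorem lam_qq : ∀ {n : ℕ} (p : CS n), lam n (qq p) = p.2 := by
  intro n
  induction n with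
  | zero => intro p; funext i; exact i.elim0
  | succ n ih =>
    rintro ⟨u, x⟩
    obtain ⟨⟨v, c⟩, rfl⟩ := joinU_surj u
    obtain ⟨x, t, rfl⟩ : ∃ x' t, x = snc (x', t) := ⟨_, _, (snc_surj x).symm⟩
    rw [qq_join, lam_blk, Real.log_exp]
    have : qq (v, x) + Real.exp t • Matrix.vecMulVec c c -
        (Real.exp t)⁻¹ • Matrix.vecMulVec (Real.exp t • c) (Real.exp t • c) = qq (v, x) := by
      ext i j
      simp [Matrix.vecMulVec_apply]
    rw [this, ih (v, x)]

/-- Cholesky decomposition -/
theorem chol : ∀ {n : ℕ} (S : Matrix (Fin n) (Fin n) ℝ), S.PosDef → ∃ p : CS n, qq p = S := by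
  intro n
  induction n with
  | zero => intro S _; exact ⟨(fun p => p.1.1.elim0, fun i => i.elim0), by ext i; exact i.elim0⟩
  | succ n ih =>
    intro S hS
    set A := S.submatrix Fin.castSucc Fin.castSucc
    set b : Fin n → ℝ := fun i => S i.castSucc (Fin.last n) with hb
    set t := S (Fin.last n) (Fin.last n) with ht
    have hsym := ((posDef_real S).1 hS).1
    have hbc : (fun j : Fin n => S (Fin.last n) j.castSucc) = b := by
      funext j
      exact congrFun (congrFun hsym j.castSucc) (Fin.last n)
    have hSe : S = blk A b b t := by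
      rw [← blk_eta S, hbc]
    rw [hSe, posDef_blk] at hS
    obtain ⟨ht0, hS'⟩ := hS
    obtain ⟨⟨v, x⟩, hp⟩ := ih _ hS'
    refine ⟨(joinU (v, t⁻¹ • b), snc (x, Real.log t)), ?_⟩
    rw [qq_join, hSe, hp, Real.exp_log ht0]
    have hne : t ≠ 0 := ht0.ne'
    congr 1
    · ext i j
      simp [Matrix.vecMulVec_apply]
      field_simp
      ring
    · simp [smul_smul, hne]
    · simp [smul_smul, hne]

/-- symmetric matrix with given coordinates -/
def symOf (p : CS n) : Matrix (Fin n) (Fin n) ℝ :=
  fun i j => if h : i < j then p.1 ⟨(i, j), h⟩ else if h : j < i then p.1 ⟨(j, i), h⟩ else p.2 i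

theorem symOf_continuous : Continuous (symOf : CS n → Matrix (Fin n) (Fin n) ℝ) := by
  refine continuous_matrix fun i j => ?_
  unfold symOf
  split_ifs <;> fun_prop

theorem symOf_add (p q : CS n) : symOf (p + q) = symOf p + symOf q := by
  ext i j
  simp only [symOf, Matrix.add_apply]
  split_ifs <;> simp

theorem symOf_sub (p q : CS n) : symOf (p - q) = symOf p - symOf q := by
  ext i j
  simp only [symOf, Matrix.sub_apply]
  split_ifs <;> simp

theorem symOf_crd (S : Matrix (Fin n) (Fin n) ℝ) (hS : S.transpose = S) :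
    symOf (crd S, fun i => S i i) = S := by
  ext i j
  simp only [symOf, crd]
  split_ifs with h1 h2
  · rfl
  · exact congrFun (congrFun hS i) j
  · have : i = j := le_antisymm (not_lt.1 h2) (not_lt.1 h1)
    rw [this]

theorem symOf_join (u : UT n → ℝ) (b d : Fin n → ℝ) (t : ℝ) :
    symOf (joinU (u, b), snc (d, t)) = blk (symOf (u, d)) b b t := by
  have hl : ∀ i j : Fin n, i < j → ∀ h : (i.castSucc < j.castSucc),
      joinU (u, b) ⟨(i.castSucc, j.castSucc), h⟩ = u ⟨(i, j), by simpa using h⟩ := fun i j hij h =>
    joinU_inl (u, b) ⟨(i, j), hij⟩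
  have hr : ∀ (i : Fin n) (h : i.castSucc < Fin.last n),
      joinU (u, b) ⟨(i.castSucc, Fin.last n), h⟩ = b i := fun i h => joinU_inr (u, b) i
  apply blk_ext
  · intro i j
    rw [blk_cc]
    unfold symOf
    by_cases h1 : i < j
    · have h1' : i.castSucc < j.castSucc := by simpa using h1
      rw [dif_pos h1, dif_pos h1']
      exact hl i j h1 h1'
    · have h1' : ¬ i.castSucc < j.castSucc := by simpa using h1
      rw [dif_neg h1, dif_neg h1']
      by_cases h2 : j < i
      · have h2' : j.castSucc < i.castSucc := by simpa using h2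
        rw [dif_pos h2, dif_pos h2']
        exact hl j i h2 h2'
      · have h2' : ¬ j.castSucc < i.castSucc := by simpa using h2
        rw [dif_neg h2, dif_neg h2']
        exact snc_cast _ _
  · intro i
    rw [blk_cl]
    unfold symOf
    rw [dif_pos (Fin.castSucc_lt_last i)]
    exact hr i _
  · intro i
    rw [blk_lc]
    unfold symOf
    rw [dif_neg (not_lt.2 (Fin.castSucc_lt_last i).le), dif_pos (Fin.castSucc_lt_last i)]
    exact hr i _
  · rw [blk_ll]
    unfold symOf
    rw [dif_neg (lt_irrefl _), dif_neg (lt_irrefl _)]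
    exact snc_last _

/-- the splitting of the coordinate space -/
noncomputable def spl (p : CS n × ((Fin n → ℝ) × ℝ)) : CS (n+1) :=
  (joinU (p.1.1, p.2.1), snc (p.1.2, p.2.2))

theorem spl_surj (q : CS (n+1)) : ∃ p, spl p = q := by
  obtain ⟨u, x⟩ := q
  obtain ⟨⟨v, c⟩, rfl⟩ := joinU_surj u
  exact ⟨((v, fun i => x i.castSucc), (c, x (Fin.last n))), by unfold spl; simp only [snc_surj]⟩

theorem spl_continuous : Continuous (spl : CS n × ((Fin n → ℝ) × ℝ) → CS (n+1)) := by
  unfold spl
  refine Continuous.prodMk (joinU_continuous.comp ?_) (snc_continuous.comp ?_)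
  · fun_prop
  · fun_prop

theorem prodProdProdComm_mp {α β γ δ : Type*} [MeasureSpace α] [MeasureSpace β] [MeasureSpace γ]
    [MeasureSpace δ] [SFinite (volume : Measure α)] [SFinite (volume : Measure β)]
    [SFinite (volume : Measure γ)] [SFinite (volume : Measure δ)] :
    MeasurePreserving (fun p : (α × β) × (γ × δ) => ((p.1.1, p.2.1), (p.1.2, p.2.2)))
      ((volume.prod volume).prod (volume.prod volume))
      ((volume.prod volume).prod (volume.prod volume)) := by
  -- ((a,b),(c,d)) → (a,(b,(c,d))) → (a,((b,c),d)) → (a,((c,b),d)) → (a,(c,(b,d))) → ((a,c),(b,d))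
  have m1 : MeasurePreserving (MeasurableEquiv.prodAssoc : (α × β) × (γ × δ) ≃ᵐ α × β × γ × δ)
      ((volume.prod volume).prod (volume.prod volume))
      (volume.prod (volume.prod (volume.prod volume))) := measurePreserving_prodAssoc _ _ _
  have m2 : MeasurePreserving (MeasurableEquiv.prodAssoc : (β × γ) × δ ≃ᵐ β × γ × δ)
      ((volume.prod volume).prod volume) (volume.prod (volume.prod volume)) :=
    measurePreserving_prodAssoc _ _ _
  have m3 : MeasurePreserving (Prod.swap : β × γ → γ × β) (volume.prod volume) (volume.prod volume) :=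
    Measure.measurePreserving_swap
  have m4 : MeasurePreserving (MeasurableEquiv.prodAssoc : (γ × β) × δ ≃ᵐ γ × β × δ)
      ((volume.prod volume).prod volume) (volume.prod (volume.prod volume)) :=
    measurePreserving_prodAssoc _ _ _
  have m5 : MeasurePreserving (MeasurableEquiv.prodAssoc : (α × γ) × (β × δ) ≃ᵐ α × γ × β × δ)
      ((volume.prod volume).prod (volume.prod volume))
      (volume.prod (volume.prod (volume.prod volume))) := measurePreserving_prodAssoc _ _ _
  have m6 := (MeasurePreserving.id (volume : Measure α)).prod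
    ((m4.comp ((m3.prod (MeasurePreserving.id (volume : Measure δ))).comp m2.symm)))
  exact m5.symm.comp (m6.comp m1)

theorem spl_mp : MeasurePreserving (spl : CS n × ((Fin n → ℝ) × ℝ) → CS (n+1))
    ((volume.prod volume).prod (volume.prod volume)) (volume.prod volume) := by
  have h1 := (joinU_measurePreserving (n := n)).prod (snc_mp (n := n))
  exact h1.comp prodProdProdComm_mp

theorem posDef_measurable : ∀ {n : ℕ}, MeasurableSet {p : CS n | (symOf p).PosDef} := by
  intro n
  induction n with
  | zero =>
    have : {p : CS 0 | (symOf p).PosDef} = univ := by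
      ext p
      simp only [Set.mem_ofPred_eq, mem_univ, iff_true]
      rw [posDef_real]
      refine ⟨by ext i; exact i.elim0, fun x hx => ?_⟩
      exact absurd (by funext i; exact i.elim0) hx
    rw [this]; exact MeasurableSet.univ
  | succ n ih =>
    -- inverse of spl
    set inv : CS (n+1) → CS n × ((Fin n → ℝ) × ℝ) := fun q =>
      ((fun p => q.1 (utE n (Sum.inl p)), fun i => q.2 i.castSucc),
        (fun i => q.1 (utE n (Sum.inr i)), q.2 (Fin.last n))) with hinv
    have hinvm : Measurable inv := by
      have : Continuous inv := by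
        simp only [hinv]; fun_prop
      exact this.measurable
    have hinv2 : ∀ q, spl (inv q) = q := by
      intro q
      unfold spl
      simp only [hinv, snc_surj]
      apply Prod.ext
      · funext p
        obtain ⟨s, rfl⟩ := (utE n).surjective p
        cases s with
        | inl p => exact joinU_inl _ _
        | inr i => exact joinU_inr _ _
      · rfl
    set ϑ : CS n × ((Fin n → ℝ) × ℝ) → CS n := fun p =>
      (p.1.1 - crd ((p.2.2)⁻¹ • Matrix.vecMulVec p.2.1 p.2.1),
        fun i => p.1.2 i - (p.2.2)⁻¹ * (p.2.1 i * p.2.1 i)) with hϑ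
    have hϑm : Measurable ϑ := by
      refine Measurable.prodMk ?_ ?_
      · refine measurable_pi_lambda _ fun p => ?_
        simp only [Pi.sub_apply, crd, Matrix.smul_apply, Matrix.vecMulVec_apply, smul_eq_mul]
        fun_prop
      · fun_prop
    have hset : {p : CS (n+1) | (symOf p).PosDef} =
        inv ⁻¹' ({p | 0 < p.2.2} ∩ ϑ ⁻¹' {p : CS n | (symOf p).PosDef}) := by
      ext q
      simp only [Set.mem_ofPred_eq, mem_preimage, mem_inter_iff]
      conv_lhs => rw [← hinv2 q]
      generalize inv q = p
      obtain ⟨⟨u, d⟩, ⟨b, t⟩⟩ := p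
      unfold spl
      rw [symOf_join, posDef_blk]
      simp only [hϑ]
      have hsymm : (t⁻¹ • Matrix.vecMulVec b b).transpose = t⁻¹ • Matrix.vecMulVec b b := by
        ext i j; simp [Matrix.vecMulVec_apply, mul_comm]
      have e : symOf (u - crd (t⁻¹ • Matrix.vecMulVec b b), fun i => d i - t⁻¹ * (b i * b i)) =
          symOf (u, d) - t⁻¹ • Matrix.vecMulVec b b := by
        have := symOf_sub (u, d) (crd (t⁻¹ • Matrix.vecMulVec b b),
          fun i => (t⁻¹ • Matrix.vecMulVec b b) i i)
        rw [symOf_crd _ hsymm] at this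
        rw [← this]
        rfl
      rw [e]
    rw [hset]
    refine hinvm (MeasurableSet.inter ?_ (hϑm ih))
    exact measurableSet_lt measurable_const (measurable_snd.comp measurable_snd)

end Pool.Agent.MP2f3d29
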