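import Mathlib
import Pool.Agent.MP_2f3d29_nt.D2

set_option autoImplicit false

open MeasureTheory Set

namespace Pool.Agent.MP2f3d29

variable {n : ℕ}

/-- the product sigma-algebra on matrices -/
@[reducible] def matMS (m n : ℕ) : MeasurableSpace (Matrix (Fin m) (Fin n) ℝ) :=
  inferInstanceAs (MeasurableSpace (Fin m → Fin n → ℝ))

attribute [local instance] matMS

theorem matBS (m n : ℕ) : BorelSpace (Matrix (Fin m) (Fin n) ℝ) :=
  inferInstanceAs (BorelSpace (Fin m → Fin n → ℝ))

attribute [local instance] matBS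

theorem lint_scale (r : ℝ) (hr : 0 < r) (f : (Fin n → ℝ) → ENNReal) (hf : Measurable f) :
    ∫⁻ b, f b = ENNReal.ofReal (r ^ n) * ∫⁻ c : Fin n → ℝ, f (r • c) := by
  have h := Measure.map_addHaar_smul (volume : Measure (Fin n → ℝ)) hr.ne'
  rw [Module.finrank_fintype_fun_eq_card, Fintype.card_fin] at h
  have h2 : ∫⁻ c : Fin n → ℝ, f (r • c) = ∫⁻ b, f b ∂(Measure.map (r • ·) volume) := by
    rw [lintegral_map hf (measurable_const_smul r)]
  rw [h2, h, lintegral_smul_measure, smul_eq_mul, ← mul_assoc, ← ENNReal.ofReal_mul (by positivity)]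
  have : r ^ n * |(r ^ n)⁻¹| = 1 := by
    rw [abs_of_pos (by positivity)]
    exact mul_inv_cancel₀ (by positivity)
  rw [this, ENNReal.ofReal_one, one_mul]

theorem lint_exp (Θ : ℝ → ENNReal) :
    ∫⁻ t : ℝ, ENNReal.ofReal (Real.exp t) * Θ (Real.exp t) = ∫⁻ s in Ioi (0:ℝ), Θ s := by
  have h := lintegral_image_eq_lintegral_abs_deriv_mul (s := univ) (f := Real.exp)
    (f' := Real.exp) MeasurableSet.univ (fun x _ => (Real.hasDerivAt_exp x).hasDerivWithinAt)
    (Real.exp_injective.injOn) Θ
  rw [image_univ, Real.range_exp] at h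
  rw [h, Measure.restrict_univ]
  refine lintegral_congr fun t => ?_
  rw [abs_of_pos (Real.exp_pos t)]

/-- the shifted coordinates -/
noncomputable def thet (p : CS n × ((Fin n → ℝ) × ℝ)) : CS n :=
  (p.1.1 - crd ((p.2.2)⁻¹ • Matrix.vecMulVec p.2.1 p.2.1),
    fun i => p.1.2 i - (p.2.2)⁻¹ * (p.2.1 i * p.2.1 i))

theorem thet_measurable : Measurable (thet : CS n × ((Fin n → ℝ) × ℝ) → CS n) := by
  refine Measurable.prodMk ?_ ?_
  · refine measurable_pi_lambda _ fun p => ?_
    simp only [Pi.sub_apply, crd, Matrix.smul_apply, Matrix.vecMulVec_apply, smul_eq_mul]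
    fun_prop
  · fun_prop

theorem symOf_thet (p : CS n) (b : Fin n → ℝ) (t : ℝ) :
    symOf (thet (p, (b, t))) = symOf p - t⁻¹ • Matrix.vecMulVec b b := by
  have hsymm : (t⁻¹ • Matrix.vecMulVec b b).transpose = t⁻¹ • Matrix.vecMulVec b b := by
    ext i j; simp [Matrix.vecMulVec_apply, mul_comm]
  have := symOf_sub p (crd (t⁻¹ • Matrix.vecMulVec b b),
    fun i => (t⁻¹ • Matrix.vecMulVec b b) i i)
  rw [symOf_crd _ hsymm] at this
  rw [← this]
  rfl

theorem scale_exp (Ψ : (Fin n → ℝ) × ℝ → ENNReal) (hΨ : Measurable Ψ) :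
    ∫⁻ p : (Fin n → ℝ) × ℝ, ENNReal.ofReal (Real.exp ((n+1) * p.2)) *
      Ψ (Real.exp p.2 • p.1, Real.exp p.2) ∂(volume.prod volume) =
    ∫⁻ p : (Fin n → ℝ) × ℝ, {p : (Fin n → ℝ) × ℝ | 0 < p.2}.indicator Ψ p
      ∂(volume.prod volume) := by
  have hset : MeasurableSet {p : (Fin n → ℝ) × ℝ | 0 < p.2} :=
    measurableSet_lt measurable_const measurable_snd
  have m1 : Measurable (fun p : (Fin n → ℝ) × ℝ => ENNReal.ofReal (Real.exp ((n+1) * p.2)) *
      Ψ (Real.exp p.2 • p.1, Real.exp p.2)) := by
    refine Measurable.mul (by fun_prop) (hΨ.comp ?_)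
    fun_prop
  rw [lintegral_prod_symm' _ m1, lintegral_prod_symm' _ (hΨ.indicator hset)]
  have e1 : ∀ t : ℝ, ∫⁻ c : Fin n → ℝ, ENNReal.ofReal (Real.exp ((n+1) * t)) *
      Ψ (Real.exp t • c, Real.exp t) =
      ENNReal.ofReal (Real.exp t) * ∫⁻ b : Fin n → ℝ, Ψ (b, Real.exp t) := by
    intro t
    have hm : Measurable (fun b : Fin n → ℝ => Ψ (b, Real.exp t)) :=
      hΨ.comp (Measurable.prodMk measurable_id measurable_const)
    rw [lint_scale (Real.exp t) (Real.exp_pos t) _ hm, ← mul_assoc,
      ← ENNReal.ofReal_mul (Real.exp_pos _).le, lintegral_const_mul]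
    · congr 2
      rw [← Real.exp_nat_mul, ← Real.exp_add]
      congr 1; ring
    · exact hΨ.comp (Measurable.prodMk (by fun_prop) measurable_const)
  simp only [e1]
  rw [lint_exp (fun s => ∫⁻ b : Fin n → ℝ, Ψ (b, s)), ← lintegral_indicator measurableSet_Ioi]
  refine lintegral_congr fun s => ?_
  by_cases hs : 0 < s
  · rw [indicator_of_mem (show s ∈ Ioi 0 from hs)]
    refine lintegral_congr fun b => ?_
    rw [indicator_of_mem (show (b, s) ∈ {p : (Fin n → ℝ) × ℝ | 0 < p.2} from hs)]
  · rw [indicator_of_notMem (show s ∉ Ioi 0 from hs)]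
    symm
    have : ∀ b : Fin n → ℝ, {p : (Fin n → ℝ) × ℝ | 0 < p.2}.indicator Ψ (b, s) = 0 := fun b =>
      indicator_of_notMem (show (b, s) ∉ {p : (Fin n → ℝ) × ℝ | 0 < p.2} from hs) _
    simp [this]

theorem blk_measurable {α : Type*} [MeasurableSpace α] {A : α → Matrix (Fin n) (Fin n) ℝ}
    {b c : α → Fin n → ℝ} {d : α → ℝ} (hA : Measurable A) (hb : Measurable b) (hc : Measurable c)
    (hd : Measurable d) : Measurable (fun a => blk (A a) (b a) (c a) (d a)) := by
  refine measurable_pi_lambda _ fun i => measurable_pi_lambda _ fun j => ?_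
  induction i using Fin.lastCases with
  | last =>
    induction j using Fin.lastCases with
    | last => simp only [blk_ll]; exact hd
    | cast j => simp only [blk_lc]; exact (measurable_pi_apply j).comp hc
  | cast i =>
    induction j using Fin.lastCases with
    | last => simp only [blk_cl]; exact (measurable_pi_apply i).comp hb
    | cast j =>
      simp only [blk_cc]
      exact (measurable_pi_apply j).comp ((measurable_pi_apply i).comp hA)

theorem chart : ∀ {n : ℕ} (G : Matrix (Fin n) (Fin n) ℝ → ENNReal), Measurable G →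
    ∫⁻ p : CS n, G (qq p) * ENNReal.ofReal (Real.exp (∑ i : Fin _, ((i : ℕ) + 1 : ℝ) * p.2 i))
      ∂(volume.prod volume) =
    ∫⁻ p : CS n, {p : CS n | (symOf p).PosDef}.indicator (fun p => G (symOf p)) p
      ∂(volume.prod volume) := by
  intro n
  induction n with
  | zero =>
    intro G _
    refine lintegral_congr fun p => ?_
    have h1 : (symOf p).PosDef := by
      rw [posDef_real]
      refine ⟨by ext i; exact i.elim0, fun x hx => ?_⟩
      exact absurd (by funext i; exact i.elim0) hx
    rw [indicator_of_mem (show p ∈ {p : CS 0 | (symOf p).PosDef} from h1)]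
    have : qq p = symOf p := by ext i; exact i.elim0
    rw [this]
    simp
  | succ n ih =>
    intro G hG
    have hsc : Continuous (symOf : CS n → Matrix (Fin n) (Fin n) ℝ) := symOf_continuous
    -- left side
    have mL : Measurable (fun p : CS (n+1) => G (qq p) *
        ENNReal.ofReal (Real.exp (∑ i : Fin _, ((i : ℕ) + 1 : ℝ) * p.2 i))) := by
      refine Measurable.mul (hG.comp qq_continuous.measurable) (by fun_prop)
    have mR : Measurable (fun p : CS (n+1) =>
        {p : CS (n+1) | (symOf p).PosDef}.indicator (fun p => G (symOf p)) p) :=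
      (hG.comp symOf_continuous.measurable).indicator posDef_measurable
    have mL' : Measurable (fun q : CS n × ((Fin n → ℝ) × ℝ) => G (qq (spl q)) *
        ENNReal.ofReal (Real.exp (∑ i : Fin _, ((i : ℕ) + 1 : ℝ) * (spl q).2 i))) :=
      mL.comp spl_continuous.measurable
    have mR' : Measurable (fun q : CS n × ((Fin n → ℝ) × ℝ) =>
        {p : CS (n+1) | (symOf p).PosDef}.indicator (fun p => G (symOf p)) (spl q)) :=
      mR.comp spl_continuous.measurable
    rw [← spl_mp.lintegral_comp mL, ← spl_mp.lintegral_comp mR,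
      lintegral_prod_symm' _ mL', lintegral_prod_symm' _ mR']
    -- the common function
    set f : CS n × ((Fin n → ℝ) × ℝ) → ENNReal := fun q =>
      (thet ⁻¹' {p : CS n | (symOf p).PosDef}).indicator
        (fun q => G (blk (symOf q.1) q.2.1 q.2.1 q.2.2)) q with hf
    have hfm : Measurable f := by
      refine Measurable.indicator (hG.comp ?_) (thet_measurable posDef_measurable)
      refine blk_measurable (hsc.measurable.comp measurable_fst) ?_ ?_ ?_ <;> fun_prop
    set Ψ : (Fin n → ℝ) × ℝ → ENNReal := fun y => ∫⁻ p : CS n, f (p, y) ∂(volume.prod volume) with hΨ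
    have hΨm : Measurable Ψ := by
      have : Measurable (fun z : ((Fin n → ℝ) × ℝ) × CS n => f (z.2, z.1)) :=
        hfm.comp measurable_swap
      exact this.lintegral_prod_right'
    -- rewrite the left side
    have eL : ∀ y : (Fin n → ℝ) × ℝ, (∫⁻ p : CS n, G (qq (spl (p, y))) *
        ENNReal.ofReal (Real.exp (∑ i : Fin _, ((i : ℕ) + 1 : ℝ) * (spl (p, y)).2 i))
        ∂(volume.prod volume)) =
        ENNReal.ofReal (Real.exp ((n+1) * y.2)) * Ψ (Real.exp y.2 • y.1, Real.exp y.2) := by
      rintro ⟨c, t⟩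
      have e1 : ∀ p : CS n, G (qq (spl (p, (c, t)))) *
          ENNReal.ofReal (Real.exp (∑ i : Fin _, ((i : ℕ) + 1 : ℝ) * (spl (p, (c, t))).2 i)) =
          ENNReal.ofReal (Real.exp ((n+1) * t)) *
          (G (blk (qq p + Real.exp t • Matrix.vecMulVec c c) (Real.exp t • c) (Real.exp t • c)
            (Real.exp t)) * ENNReal.ofReal (Real.exp (∑ i : Fin _, ((i : ℕ) + 1 : ℝ) * p.2 i))) := by
        intro p
        unfold spl
        rw [qq_join]
        simp only [Fin.sum_univ_castSucc, snc_cast, snc_last, Fin.val_castSucc, Fin.val_last]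
        rw [Real.exp_add, ENNReal.ofReal_mul (Real.exp_pos _).le]
        ring
      simp only [e1]
      rw [lintegral_const_mul]
      · congr 1
        have hG' : Measurable (fun S : Matrix (Fin n) (Fin n) ℝ =>
            G (blk (S + Real.exp t • Matrix.vecMulVec c c) (Real.exp t • c) (Real.exp t • c)
            (Real.exp t))) := by
          refine hG.comp (blk_measurable ?_ measurable_const measurable_const measurable_const)
          fun_prop
        rw [ih _ hG']
        -- translation
        set Z : CS n := (crd (Real.exp t • Matrix.vecMulVec c c),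
          fun i => (Real.exp t • Matrix.vecMulVec c c) i i) with hZ
        have hsZ : symOf Z = Real.exp t • Matrix.vecMulVec c c := by
          rw [hZ]
          apply symOf_crd
          ext i j; simp [Matrix.vecMulVec_apply, mul_comm]
        rw [hΨ]
        simp only
        rw [← lintegral_add_right_eq_self (μ := (volume : Measure (UT n → ℝ)).prod
          (volume : Measure (Fin n → ℝ))) (fun p => f (p, (Real.exp t • c, Real.exp t))) Z]
        refine lintegral_congr fun p => ?_
        have hzz : (Real.exp t)⁻¹ • Matrix.vecMulVec (Real.exp t • c) (Real.exp t • c) =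
            Real.exp t • Matrix.vecMulVec c c := by
          ext i j
          simp [Matrix.vecMulVec_apply]
        have hmem : ((p + Z, (Real.exp t • c, Real.exp t)) ∈
            thet ⁻¹' {p : CS n | (symOf p).PosDef}) ↔ p ∈ {p : CS n | (symOf p).PosDef} := by
          rw [mem_preimage, Set.mem_ofPred_eq, Set.mem_ofPred_eq, symOf_thet, symOf_add, hsZ, hzz,
            add_sub_cancel_right]
        rw [hf]
        simp only
        by_cases hp : p ∈ {p : CS n | (symOf p).PosDef}
        · rw [indicator_of_mem hp, indicator_of_mem (hmem.2 hp), symOf_add, hsZ]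
        · rw [indicator_of_notMem hp, indicator_of_notMem (fun h => hp (hmem.1 h))]
      · refine Measurable.mul (hG.comp (blk_measurable ?_ measurable_const measurable_const
          measurable_const)) (by fun_prop)
        exact (qq_continuous.add continuous_const).measurable
    rw [lintegral_congr eL, scale_exp Ψ hΨm]
    refine lintegral_congr fun y => ?_
    obtain ⟨b, s⟩ := y
    by_cases hs : 0 < s
    · rw [indicator_of_mem (show (b, s) ∈ {p : (Fin n → ℝ) × ℝ | 0 < p.2} from hs)]
      rw [hΨ]
      refine lintegral_congr fun p => ?_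
      have hmem : (spl (p, (b, s)) ∈ {p : CS (n+1) | (symOf p).PosDef}) ↔
          (p, (b, s)) ∈ thet ⁻¹' {p : CS n | (symOf p).PosDef} := by
        rw [mem_preimage, Set.mem_ofPred_eq, Set.mem_ofPred_eq, symOf_thet]
        unfold spl
        rw [symOf_join, posDef_blk]
        exact and_iff_right hs
      have hsym : symOf (spl (p, (b, s))) = blk (symOf p) b b s := by
        unfold spl
        rw [symOf_join]
      rw [hf]
      simp only
      by_cases hp : (p, (b, s)) ∈ thet ⁻¹' {p : CS n | (symOf p).PosDef}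
      · rw [indicator_of_mem hp, indicator_of_mem (hmem.2 hp), hsym]
      · rw [indicator_of_notMem hp, indicator_of_notMem (fun h => hp (hmem.1 h))]
    · rw [indicator_of_notMem (show (b, s) ∉ {p : (Fin n → ℝ) × ℝ | 0 < p.2} from hs)]
      symm
      have : ∀ p : CS n, {p : CS (n+1) | (symOf p).PosDef}.indicator (fun p => G (symOf p))
          (spl (p, (b, s))) = 0 := by
        intro p
        apply indicator_of_notMem
        rw [Set.mem_ofPred_eq]
        unfold spl
        rw [symOf_join, posDef_blk]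
        exact fun h => hs h.1
      simp [this]

/-! ### the flip -/

/-- reversal of matrices -/
def rvM (M : Matrix (Fin n) (Fin n) ℝ) : Matrix (Fin n) (Fin n) ℝ := M.submatrix Fin.rev Fin.rev

theorem rvM_rvM (M : Matrix (Fin n) (Fin n) ℝ) : rvM (rvM M) = M := by
  ext i j; simp [rvM]

theorem rvM_det (M : Matrix (Fin n) (Fin n) ℝ) : (rvM M).det = M.det := by
  unfold rvM
  have := Matrix.det_submatrix_equiv_self (Fin.revPerm : Fin n ≃ Fin n) M
  exact this

theorem rvM_continuous : Continuous (rvM : Matrix (Fin n) (Fin n) ℝ → Matrix (Fin n) (Fin n) ℝ) := by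
  refine continuous_matrix fun i j => ?_
  unfold rvM
  exact continuous_apply_apply _ _

theorem rvM_posDef (M : Matrix (Fin n) (Fin n) ℝ) : (rvM M).PosDef ↔ M.PosDef := by
  constructor
  · intro h
    rw [← rvM_rvM M]
    exact h.submatrix Fin.rev_injective
  · intro h
    exact h.submatrix Fin.rev_injective

/-- reversal on indices -/
def rvE (n : ℕ) : UT n ≃ UT n where
  toFun := fun p => ⟨(Fin.rev p.1.2, Fin.rev p.1.1), Fin.rev_lt_rev.2 p.2⟩
  invFun := fun p => ⟨(Fin.rev p.1.2, Fin.rev p.1.1), Fin.rev_lt_rev.2 p.2⟩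
  left_inv := fun p => by simp
  right_inv := fun p => by simp

/-- reversal on coordinates -/
def rvC (p : CS n) : CS n := (fun q => p.1 (rvE n q), fun i => p.2 (Fin.rev i))

theorem symOf_apply (p : CS n) (i j : Fin n) : symOf p i j =
    if h : i < j then p.1 ⟨(i, j), h⟩ else if h : j < i then p.1 ⟨(j, i), h⟩ else p.2 i := rfl

theorem rvM_apply (M : Matrix (Fin n) (Fin n) ℝ) (i j : Fin n) :
    rvM M i j = M (Fin.rev i) (Fin.rev j) := rfl

theorem symOf_rvC (p : CS n) : symOf (rvC p) = rvM (symOf p) := by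
  ext i j
  rw [rvM_apply, symOf_apply, symOf_apply]
  by_cases h1 : i < j
  · have h2 : ¬ Fin.rev i < Fin.rev j := by rw [Fin.rev_lt_rev]; exact not_lt.2 h1.le
    have h3 : Fin.rev j < Fin.rev i := by rw [Fin.rev_lt_rev]; exact h1
    rw [dif_pos h1, dif_neg h2, dif_pos h3]
    rfl
  · by_cases h4 : j < i
    · have h3 : Fin.rev i < Fin.rev j := by rw [Fin.rev_lt_rev]; exact h4
      rw [dif_neg h1, dif_pos h4, dif_pos h3]
      rfl
    · have h2 : ¬ Fin.rev i < Fin.rev j := by rw [Fin.rev_lt_rev]; exact h4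
      have h3 : ¬ Fin.rev j < Fin.rev i := by rw [Fin.rev_lt_rev]; exact h1
      rw [dif_neg h1, dif_neg h4, dif_neg h2, dif_neg h3]
      rfl

theorem rvC_mp : MeasurePreserving (rvC : CS n → CS n) (volume.prod volume) (volume.prod volume) := by
  have h1 := volume_preserving_arrowCongr' (rvE n) (MeasurableEquiv.refl ℝ)
    (MeasurePreserving.id (volume : Measure ℝ))
  have h2 := volume_preserving_arrowCongr' (Fin.revPerm : Fin n ≃ Fin n) (MeasurableEquiv.refl ℝ)
    (MeasurePreserving.id (volume : Measure ℝ))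
  exact h1.prod h2

/-- the weight -/
noncomputable def wgt (x : Fin n → ℝ) : ℝ := Real.exp (∑ i : Fin n, (((i : ℕ) : ℝ) - ((n : ℝ) - 1) / 2) * x i)

theorem wgt_continuous : Continuous (wgt : (Fin n → ℝ) → ℝ) := by
  unfold wgt; fun_prop

theorem flip_lintegral (F : Matrix (Fin n) (Fin n) ℝ → ENNReal) (hF : Measurable F) :
    ∫⁻ p : CS n, F (rvM (qq p)) * ENNReal.ofReal (wgt p.2) ∂(volume.prod volume) =
    ∫⁻ p : CS n, F (qq p) * ENNReal.ofReal (wgt p.2) ∂(volume.prod volume) := by
  set D : Matrix (Fin n) (Fin n) ℝ → ENNReal := fun S =>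
    ENNReal.ofReal (Real.exp (-((n:ℝ)+1)/2 * Real.log S.det)) with hD
  have hdet : Measurable (fun S : Matrix (Fin n) (Fin n) ℝ => S.det) :=
    (Continuous.matrix_det continuous_id).measurable
  have hDm : Measurable D := by
    simp only [hD]; fun_prop
  have hw : ∀ p : CS n, ENNReal.ofReal (wgt p.2) = D (qq p) *
      ENNReal.ofReal (Real.exp (∑ i : Fin _, ((i : ℕ) + 1 : ℝ) * p.2 i)) := by
    intro p
    simp only [hD, wgt]
    rw [← ENNReal.ofReal_mul (Real.exp_pos _).le, ← Real.exp_add, qq_det, Real.log_exp,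
      Finset.mul_sum, ← Finset.sum_add_distrib]
    congr 2
    refine Finset.sum_congr rfl fun i _ => ?_
    ring
  have hDr : ∀ S : Matrix (Fin n) (Fin n) ℝ, D (rvM S) = D S := by
    intro S; simp only [hD, rvM_det]
  have e1 : ∀ p : CS n, F (rvM (qq p)) * ENNReal.ofReal (wgt p.2) =
      (fun S => F (rvM S) * D (rvM S)) (qq p) *
        ENNReal.ofReal (Real.exp (∑ i : Fin _, ((i : ℕ) + 1 : ℝ) * p.2 i)) := by
    intro p; simp only [hw, hDr]; ring
  have e2 : ∀ p : CS n, F (qq p) * ENNReal.ofReal (wgt p.2) =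
      (fun S => F S * D S) (qq p) *
        ENNReal.ofReal (Real.exp (∑ i : Fin _, ((i : ℕ) + 1 : ℝ) * p.2 i)) := by
    intro p; simp only [hw]; ring
  have m2 : Measurable (fun S : Matrix (Fin n) (Fin n) ℝ => F S * D S) := hF.mul hDm
  have m1 : Measurable (fun S : Matrix (Fin n) (Fin n) ℝ => F (rvM S) * D (rvM S)) :=
    m2.comp rvM_continuous.measurable
  rw [lintegral_congr e1, lintegral_congr e2, chart _ m1, chart _ m2]
  have mI : Measurable (fun p : CS n => {p : CS n | (symOf p).PosDef}.indicator
      (fun p => F (symOf p) * D (symOf p)) p) :=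
    (m2.comp symOf_continuous.measurable).indicator posDef_measurable
  rw [← rvC_mp.lintegral_comp mI]
  refine lintegral_congr fun p => ?_
  have hmem : rvC p ∈ {p : CS n | (symOf p).PosDef} ↔ p ∈ {p : CS n | (symOf p).PosDef} := by
    rw [Set.mem_ofPred_eq, Set.mem_ofPred_eq, symOf_rvC, rvM_posDef]
  by_cases hp : p ∈ {p : CS n | (symOf p).PosDef}
  · rw [indicator_of_mem hp, indicator_of_mem (hmem.2 hp), symOf_rvC]
  · rw [indicator_of_notMem hp, indicator_of_notMem (fun h => hp (hmem.1 h))]

/-- the invariant measure on the coordinate space -/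
noncomputable def bet (n : ℕ) : Measure (CS n) :=
  ((volume : Measure (UT n → ℝ)).prod (volume : Measure (Fin n → ℝ))).withDensity
    (fun p => ENNReal.ofReal (wgt p.2))

theorem flip_map : Measure.map (fun p : CS n => rvM (qq p)) (bet n) = Measure.map qq (bet n) := by
  have m1 : Measurable (fun p : CS n => rvM (qq p)) :=
    (rvM_continuous.comp qq_continuous).measurable
  refine Measure.ext_of_lintegral _ fun F hF => ?_
  rw [lintegral_map hF m1, lintegral_map hF qq_continuous.measurable]
  have mw : Measurable (fun p : CS n => ENNReal.ofReal (wgt p.2)) :=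
    ENNReal.measurable_ofReal.comp (wgt_continuous.measurable.comp measurable_snd)
  unfold bet
  have m3 : Measurable (fun p : CS n => F (rvM (qq p))) := hF.comp m1
  have m4 : Measurable (fun p : CS n => F (qq p)) := hF.comp qq_continuous.measurable
  rw [lintegral_withDensity_eq_lintegral_mul _ mw m3,
    lintegral_withDensity_eq_lintegral_mul _ mw m4]
  have := flip_lintegral F hF
  simp only [Pi.mul_apply, mul_comm] at this ⊢
  exact this

end Pool.Agent.MP2f3d29
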