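import Mathlib
import Pool.Agent.MP_2f3d29_nt.D3

set_option autoImplicit false

open MeasureTheory Set

namespace Pool.Agent.MP2f3d29

variable {n : ℕ}

attribute [local instance] matMS matBS

theorem lam_measurable : ∀ {n : ℕ}, Measurable (lam n : Matrix (Fin n) (Fin n) ℝ → Fin n → ℝ) := by
  intro n
  induction n with
  | zero => exact measurable_pi_lambda _ fun i => i.elim0
  | succ n ih =>
    have e : (lam (n+1) : Matrix (Fin (n+1)) (Fin (n+1)) ℝ → Fin (n+1) → ℝ) =
        fun S => snc (lam n (S.submatrix Fin.castSucc Fin.castSucc -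
      (S (Fin.last n) (Fin.last n))⁻¹ • Matrix.vecMulVec (fun i => S i.castSucc (Fin.last n))
        (fun j => S (Fin.last n) j.castSucc)), Real.log (S (Fin.last n) (Fin.last n))) := by
      funext S; exact lam_succ S
    rw [e]
    have hent : ∀ i j : Fin (n+1), Measurable (fun S : Matrix (Fin (n+1)) (Fin (n+1)) ℝ => S i j) :=
      fun i j => (measurable_pi_apply j).comp (measurable_pi_apply i)
    refine snc_continuous.measurable.comp (Measurable.prodMk (ih.comp ?_) ?_)
    · refine measurable_pi_lambda _ fun i => measurable_pi_lambda _ fun j => ?_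
      simp only [Matrix.sub_apply, Matrix.smul_apply, Matrix.vecMulVec_apply, smul_eq_mul,
        Matrix.submatrix_apply]
      exact (hent _ _).sub ((hent _ _).inv.mul ((hent _ _).mul (hent _ _)))
    · exact Real.measurable_log.comp (hent _ _)

theorem qq_inv (p : CS n) : (qq p)⁻¹ = (unip (invU p.1)).transpose *
    Matrix.diagonal (fun i => Real.exp (-p.2 i)) * unip (invU p.1) := by
  apply Matrix.inv_eq_left_inv
  unfold qq
  have h1 := unip_invU_mul p.1
  have h2 : (unip (invU p.1)).transpose * (unip p.1).transpose = 1 := by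
    rw [← Matrix.transpose_mul, unip_mul_invU, Matrix.transpose_one]
  have h3 : Matrix.diagonal (fun i => Real.exp (-p.2 i)) *
      Matrix.diagonal (fun i => Real.exp (p.2 i)) = (1 : Matrix (Fin n) (Fin n) ℝ) := by
    rw [Matrix.diagonal_mul_diagonal, ← Matrix.diagonal_one]
    congr 1
    funext i
    rw [← Real.exp_add, neg_add_cancel, Real.exp_zero]
  calc (unip (invU p.1)).transpose * Matrix.diagonal (fun i => Real.exp (-p.2 i)) *
        unip (invU p.1) * (unip p.1 * Matrix.diagonal (fun i => Real.exp (p.2 i)) *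
          (unip p.1).transpose)
      = (unip (invU p.1)).transpose * (Matrix.diagonal (fun i => Real.exp (-p.2 i)) *
        (unip (invU p.1) * unip p.1) * Matrix.diagonal (fun i => Real.exp (p.2 i))) *
          (unip p.1).transpose := by simp only [Matrix.mul_assoc]
    _ = 1 := by rw [h1, Matrix.mul_one, h3, Matrix.mul_one, h2]

theorem trace_qq (p : CS n) (S : Matrix (Fin n) (Fin n) ℝ) :
    ((qq p)⁻¹ * S).trace = ∑ i, Real.exp (-p.2 i) *
      (unip (invU p.1) * S * (unip (invU p.1)).transpose) i i := by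
  rw [qq_inv]
  have : ((unip (invU p.1)).transpose * Matrix.diagonal (fun i => Real.exp (-p.2 i)) *
      unip (invU p.1) * S).trace =
      (Matrix.diagonal (fun i => Real.exp (-p.2 i)) *
        (unip (invU p.1) * S * (unip (invU p.1)).transpose)).trace := by
    rw [Matrix.mul_assoc, Matrix.mul_assoc, Matrix.trace_mul_comm]
    simp only [Matrix.mul_assoc]
  rw [this, Matrix.trace]
  refine Finset.sum_congr rfl fun i _ => ?_
  rw [Matrix.diag_apply, Matrix.diagonal_mul]

theorem conj_qq (w v : UT n → ℝ) (x : Fin n → ℝ) :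
    unip w * qq (v, x) * (unip w).transpose = qq (mulU w v, x) := by
  unfold qq
  simp only [unip_mulU, Matrix.transpose_mul, Matrix.mul_assoc]

theorem qq_diag (p : CS n) (i : Fin n) : qq p i i = ∑ j, (unip p.1 i j) ^ 2 * Real.exp (p.2 j) := by
  unfold qq
  rw [Matrix.mul_apply]
  refine Finset.sum_congr rfl fun j _ => ?_
  rw [Matrix.mul_diagonal, Matrix.transpose_apply]
  ring

/-- `trace (qq p)⁻¹ (qq p0)` -/
theorem trace_qq_qq (v v0 : UT n → ℝ) (y x0 : Fin n → ℝ) :
    ((qq (v, y))⁻¹ * qq (v0, x0)).trace =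
      ∑ i, Real.exp (-y i) * qq (mulU (invU v) v0, x0) i i := by
  rw [trace_qq]
  simp only [conj_qq]

/-- top left block -/
noncomputable def tl (M : Matrix (Fin (n+1)) (Fin (n+1)) ℝ) : Matrix (Fin n) (Fin n) ℝ :=
  M.submatrix Fin.castSucc Fin.castSucc

theorem tl_continuous : Continuous (tl : Matrix (Fin (n+1)) (Fin (n+1)) ℝ → Matrix (Fin n) (Fin n) ℝ) := by
  refine continuous_matrix fun i j => ?_
  unfold tl
  exact continuous_apply_apply _ _

theorem tl_conj (W : Matrix (Fin n) (Fin n) ℝ) (M : Matrix (Fin (n+1)) (Fin (n+1)) ℝ) :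
    tl (blk W 0 0 1 * M * (blk W 0 0 1).transpose) = W * tl M * W.transpose := by
  have h : M = blk (tl M) (fun i => M i.castSucc (Fin.last n))
      (fun j => M (Fin.last n) j.castSucc) (M (Fin.last n) (Fin.last n)) := (blk_eta M).symm
  conv_lhs => rw [h]
  rw [blk_transpose, blk_mul, blk_mul]
  ext i j
  unfold tl
  simp

theorem trace_qq_tl (v : UT n → ℝ) (y : Fin n → ℝ) (u : UT (n+1) → ℝ) (x : Fin (n+1) → ℝ) :
    ((qq (v, y))⁻¹ * tl (qq (u, x))).trace =
      ∑ i : Fin n, Real.exp (-y i) *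
        qq (mulU (joinU (invU v, 0)) u, x) i.castSucc i.castSucc := by
  rw [trace_qq]
  refine Finset.sum_congr rfl fun i _ => ?_
  congr 1
  have h := tl_conj (unip (invU v)) (qq (u, x))
  have h2 : blk (unip (invU v)) 0 0 1 = unip (joinU (invU v, 0)) :=
    (unip_joinU (invU v, (0 : Fin n → ℝ))).symm
  rw [h2, conj_qq] at h
  rw [← h]
  rfl

theorem tl_qq_posDef (p : CS (n+1)) : (tl (qq p)).PosDef :=
  (qq_posDef p).submatrix (Fin.castSucc_injective n)

/-- tail of coordinates -/
def tailC (p : CS (n+1)) : CS n :=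
  (fun q => p.1 ⟨(q.1.1.succ, q.1.2.succ), Fin.succ_lt_succ_iff.2 q.2⟩, fun i => p.2 i.succ)

theorem unip_tailC (p : CS (n+1)) (i j : Fin n) : unip (tailC p).1 i j = unip p.1 i.succ j.succ := by
  unfold unip tailC
  by_cases h : i < j
  · have h' : i.succ < j.succ := Fin.succ_lt_succ_iff.2 h
    rw [dif_pos h, dif_pos h']
  · have h' : ¬ i.succ < j.succ := fun h' => h (Fin.succ_lt_succ_iff.1 h')
    rw [dif_neg h, dif_neg h']
    simp

theorem qq_succ_succ (p : CS (n+1)) : (qq p).submatrix Fin.succ Fin.succ = qq (tailC p) := by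
  ext i j
  rw [Matrix.submatrix_apply]
  unfold qq
  rw [Matrix.mul_apply, Matrix.mul_apply, Fin.sum_univ_succ]
  simp only [Matrix.mul_diagonal, Matrix.transpose_apply]
  rw [unip_lower p.1 (Fin.succ_pos i)]
  simp only [zero_mul, zero_add, unip_tailC]
  rfl

theorem rvM_succ (M : Matrix (Fin (n+1)) (Fin (n+1)) ℝ) :
    (rvM M).submatrix Fin.succ Fin.succ = rvM (tl M) := by
  ext i j
  simp only [Matrix.submatrix_apply, rvM_apply, tl, Fin.rev_succ]

/-- The recursion for the exponents of the reversed matrix. -/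
theorem lam_rev_rec (p : CS (n+1)) (c : Fin (n+1) → ℂ) :
    ∑ i, c i * (lam (n+1) (rvM (qq p)) i : ℂ) = c 0 * ((∑ i, p.2 i : ℝ) : ℂ) +
      ∑ i : Fin n, (c i.succ - c 0) * (lam n (rvM (tl (qq p))) i : ℂ) := by
  obtain ⟨p0, hp0⟩ := chol (rvM (qq p)) ((rvM_posDef _).2 (qq_posDef p))
  have h1 : rvM (tl (qq p)) = qq (tailC p0) := by
    rw [← rvM_succ, ← hp0, qq_succ_succ]
  have h2 : ∑ i, p0.2 i = ∑ i, p.2 i := by
    have := congrArg Matrix.det hp0
    rw [rvM_det, qq_det, qq_det] at this
    exact Real.exp_injective this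
  rw [← hp0, lam_qq, h1, lam_qq, ← h2, Fin.sum_univ_succ, Fin.sum_univ_succ (fun i => p0.2 i)]
  have h3 : ∀ i : Fin n, (tailC p0).2 i = p0.2 i.succ := fun i => rfl
  simp only [h3, sub_mul, Finset.sum_sub_distrib]
  push_cast
  rw [mul_add, ← Finset.mul_sum]
  ring

/-- the additive character exponent -/
noncomputable def psi (u : UT n → ℝ) : ℝ := ∑ p : UT n, if (p.1.1 : ℕ) + 1 = p.1.2 then u p else 0

theorem psi_mul (v u : UT n → ℝ) : psi (mulU v u) = psi v + psi u := by
  unfold psi
  rw [← Finset.sum_add_distrib]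
  refine Finset.sum_congr rfl fun p _ => ?_
  by_cases h : (p.1.1 : ℕ) + 1 = p.1.2
  · rw [if_pos h, if_pos h, if_pos h]
    unfold mulU crd
    rw [Matrix.mul_apply]
    have hne : p.1.1 ≠ p.1.2 := p.2.ne
    have hsub : ∀ l ∈ (Finset.univ : Finset (Fin n)), l ∉ ({p.1.1, p.1.2} : Finset (Fin n)) →
        unip v p.1.1 l * unip u l p.1.2 = 0 := by
      intro l _ hl
      simp only [Finset.mem_insert, Finset.mem_singleton, not_or] at hl
      rcases lt_trichotomy l p.1.1 with h1 | h1 | h1
      · rw [unip_lower v h1, zero_mul]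
      · exact absurd h1 hl.1
      · have h2 : p.1.2 < l := by
          rw [Fin.lt_def] at h1 ⊢
          have h3 : (l : ℕ) ≠ p.1.2 := fun h' => hl.2 (Fin.ext h')
          omega
        rw [unip_lower u h2, mul_zero]
    rw [← Finset.sum_subset (Finset.subset_univ _) hsub, Finset.sum_pair hne, unip_diag, unip_diag,
      unip_upper, unip_upper]
    ring
  · rw [if_neg h, if_neg h, if_neg h, add_zero]

theorem psi_joinU_zero (v : UT n → ℝ) : psi (joinU (v, 0)) = psi v := by
  unfold psi
  rw [← (utE n).sum_comp, Fintype.sum_sum_type]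
  have h1 : ∀ p : UT n, (if ((utE n (Sum.inl p)).1.1 : ℕ) + 1 = (utE n (Sum.inl p)).1.2 then
      joinU (v, (0 : Fin n → ℝ)) (utE n (Sum.inl p)) else 0) =
      if (p.1.1 : ℕ) + 1 = p.1.2 then v p else 0 := by
    intro p
    rw [joinU_inl]
    rfl
  have h2 : ∀ i : Fin n, (if ((utE n (Sum.inr i)).1.1 : ℕ) + 1 = (utE n (Sum.inr i)).1.2 then
      joinU (v, (0 : Fin n → ℝ)) (utE n (Sum.inr i)) else 0) = 0 := by
    intro i
    rw [joinU_inr]
    simp
  simp only [h1, h2, Finset.sum_const_zero, add_zero]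

theorem psi_zero : psi (0 : UT n → ℝ) = 0 := by
  unfold psi; simp

theorem psi_continuous : Continuous (psi : (UT n → ℝ) → ℝ) := by
  unfold psi
  refine continuous_finsetSum _ fun p _ => ?_
  split_ifs
  · exact continuous_apply p
  · exact continuous_const

theorem invU_joinU_zero (v : UT n → ℝ) : invU (joinU (v, 0)) = joinU (invU v, 0) := by
  rw [invU_joinU]; simp

theorem mulU_inv_cancel (v u : UT n → ℝ) : mulU (invU v) (mulU v u) = u := by
  apply unip_injective
  rw [unip_mulU, unip_mulU, ← Matrix.mul_assoc, unip_invU_mul, Matrix.one_mul]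

theorem mulU_inv_left (v0 v : UT n → ℝ) : mulU (invU v) v0 = invU (mulU (invU v0) v) := by
  apply unip_injective
  rw [unip_mulU, unip_invU, unip_invU, unip_mulU, unip_invU, Matrix.mul_inv_rev]
  congr 1
  rw [Matrix.nonsing_inv_nonsing_inv]
  rw [unip_det]; exact isUnit_one

/-- sums over the index set -/
theorem sum_fst (f : Fin n → ℝ) : ∑ p : UT n, f p.1.1 = ∑ i : Fin n, ((n : ℝ) - 1 - i) * f i := by
  induction n with
  | zero => simp
  | succ n ih =>
    rw [← (utE n).sum_comp, Fintype.sum_sum_type]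
    have h1 : ∀ p : UT n, f (utE n (Sum.inl p)).1.1 = f p.1.1.castSucc := fun p => rfl
    have h2 : ∀ i : Fin n, f (utE n (Sum.inr i)).1.1 = f i.castSucc := fun i => rfl
    simp only [h1, h2]
    rw [ih (fun i => f i.castSucc), Fin.sum_univ_castSucc, ← Finset.sum_add_distrib]
    simp only [Fin.val_castSucc, Fin.val_last]
    push_cast
    rw [show ((n : ℝ) + 1 - 1 - n) = 0 by ring, zero_mul, add_zero]
    refine Finset.sum_congr rfl fun i _ => ?_
    ring

theorem sum_snd (f : Fin n → ℝ) : ∑ p : UT n, f p.1.2 = ∑ i : Fin n, ((i : ℕ) : ℝ) * f i := by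
  induction n with
  | zero => simp
  | succ n ih =>
    rw [← (utE n).sum_comp, Fintype.sum_sum_type]
    have h1 : ∀ p : UT n, f (utE n (Sum.inl p)).1.2 = f p.1.2.castSucc := fun p => rfl
    have h2 : ∀ i : Fin n, f (utE n (Sum.inr i)).1.2 = f (Fin.last n) := fun i => rfl
    simp only [h1, h2]
    rw [ih (fun i => f i.castSucc), Fin.sum_univ_castSucc]
    simp only [Fin.val_castSucc, Fin.val_last]
    simp

end Pool.Agent.MP2f3d29
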