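import Mathlib
import Pool.Agent.MP_2f3d29_nt.D4
import Pool.Agent.MP_2f3d29_nt.B1

set_option autoImplicit false

open MeasureTheory Set

namespace Pool.Agent.MP2f3d29

variable {n : ℕ}

theorem sqrt_factor (a : ℝ) : ((Real.pi : ℂ) / ((Real.pi : ℂ) * Real.exp a)) ^ (1 / 2 : ℂ) =
    Complex.exp (-(a / 2 : ℝ)) := by
  have h1 : (Real.pi : ℂ) / ((Real.pi : ℂ) * Real.exp a) = ((Real.exp (-a) : ℝ) : ℂ) := by
    rw [Real.exp_neg]
    push_cast
    have : (Real.pi : ℂ) ≠ 0 := by exact_mod_cast Real.pi_ne_zero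
    field_simp
  rw [h1]
  have h2 : (1 / 2 : ℂ) = ((1 / 2 : ℝ) : ℂ) := by push_cast; rfl
  rw [h2, ← Complex.ofReal_cpow (Real.exp_pos _).le, ← Real.exp_mul]
  push_cast
  congr 1
  ring

theorem gauss_char {ι : Type*} [Fintype ι] (a ε : ι → ℝ) :
    Integrable (fun v : ι → ℝ => Complex.exp (-(∑ p, ((Real.pi : ℂ) * Real.exp (a p)) * (v p : ℂ) ^ 2) +
      ∑ p, (-(2 * Real.pi * Complex.I * ε p)) * v p)) ∧
    ∫ v : ι → ℝ, Complex.exp (-(∑ p, ((Real.pi : ℂ) * Real.exp (a p)) * (v p : ℂ) ^ 2) +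
      ∑ p, (-(2 * Real.pi * Complex.I * ε p)) * v p) =
      Complex.exp (((-(∑ p, a p) / 2 : ℝ)) - ((Real.pi * ∑ p, ε p ^ 2 * Real.exp (-a p) : ℝ) : ℂ)) := by
  have hb : ∀ p, 0 < ((Real.pi : ℂ) * Real.exp (a p)).re := by
    intro p
    rw [← Complex.ofReal_mul, Complex.ofReal_re]
    positivity
  refine ⟨GaussianFourier.integrable_cexp_neg_sum_mul_add hb _, ?_⟩
  rw [GaussianFourier.integral_cexp_neg_sum_mul_add hb]
  have : ∀ p, ((Real.pi : ℂ) / ((Real.pi : ℂ) * Real.exp (a p))) ^ (1 / 2 : ℂ) *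
      Complex.exp ((-(2 * Real.pi * Complex.I * ε p)) ^ 2 / (4 * ((Real.pi : ℂ) * Real.exp (a p)))) =
      Complex.exp (-(a p / 2 : ℝ) - ((Real.pi * (ε p ^ 2 * Real.exp (-a p)) : ℝ) : ℂ)) := by
    intro p
    rw [sqrt_factor, ← Complex.exp_add]
    congr 1
    rw [sub_eq_add_neg]
    congr 1
    rw [Real.exp_neg]
    push_cast
    have h1 : (Real.pi : ℂ) ≠ 0 := by exact_mod_cast Real.pi_ne_zero
    have h2 : Complex.exp (a p) ≠ 0 := Complex.exp_ne_zero _
    have h3 : (-(2 * (Real.pi : ℂ) * Complex.I * ε p)) ^ 2 =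
        -(4 * (Real.pi : ℂ) ^ 2 * (ε p) ^ 2) := by
      rw [neg_sq, mul_pow, mul_pow, mul_pow, Complex.I_sq]; ring
    rw [h3]
    field_simp
  simp only [this]
  rw [← Complex.exp_sum]
  congr 1
  rw [Finset.sum_sub_distrib, Finset.sum_neg_distrib, Finset.mul_sum]
  push_cast
  rw [neg_div, Finset.sum_div]

theorem gauss_real {ι : Type*} [Fintype ι] (a : ι → ℝ) :
    Integrable (fun v : ι → ℝ => Real.exp (-(∑ p, (Real.pi * Real.exp (a p)) * v p ^ 2))) ∧
    ∫ v : ι → ℝ, Real.exp (-(∑ p, (Real.pi * Real.exp (a p)) * v p ^ 2)) =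
      Real.exp (-(∑ p, a p) / 2) := by
  obtain ⟨h1, h2⟩ := gauss_char a (fun _ => 0)
  have e : ∀ v : ι → ℝ, Complex.exp (-(∑ p, ((Real.pi : ℂ) * Real.exp (a p)) * (v p : ℂ) ^ 2) +
      ∑ p, (-(2 * Real.pi * Complex.I * ((0 : ℝ) : ℂ))) * v p) =
      ((Real.exp (-(∑ p, (Real.pi * Real.exp (a p)) * v p ^ 2)) : ℝ) : ℂ) := by
    intro v
    push_cast
    congr 1
    simp
  simp only [e] at h1 h2
  constructor
  · exact h1.re.congr (Filter.Eventually.of_forall fun v => Complex.ofReal_re _)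
  · rw [integral_complex_ofReal] at h2
    apply Complex.ofReal_injective
    rw [h2]
    push_cast
    congr 1
    simp

theorem gam_integrable (s : ℂ) (hs : 0 < s.re) (a : ℝ) :
    Integrable (fun y : ℝ => Complex.exp (-((Real.pi * Real.exp (a - y) : ℝ) : ℂ)) *
      Complex.exp (-(s / 2) * y)) := by
  have h1 := (integrable_gamma (g := s.re / 2) (by linarith)).comp_sub_left a
  refine Integrable.mono' (h1.const_mul (Real.exp (-(s.re / 2) * a))) (by fun_prop)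
    (Filter.Eventually.of_forall fun y => ?_)
  rw [norm_mul, Complex.norm_exp, Complex.norm_exp, Complex.re_mul_ofReal, Complex.neg_re,
    Complex.neg_re, Complex.ofReal_re]
  have hs2 : (s / 2).re = s.re / 2 := by
    rw [show s / 2 = s * ((1/2 : ℝ) : ℂ) by push_cast; ring, Complex.re_mul_ofReal]; ring
  rw [hs2]
  have hpi : (1 : ℝ) ≤ Real.pi := by linarith [Real.pi_gt_three]
  calc Real.exp (-(Real.pi * Real.exp (a - y))) * Real.exp (-(s.re / 2) * y)
      ≤ Real.exp (-Real.exp (a - y)) * Real.exp (-(s.re / 2) * y) := by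
        gcongr
        nlinarith [Real.exp_pos (a - y)]
    _ = Real.exp (-(s.re / 2) * a) * (Real.exp (s.re / 2 * (a - y)) * Real.exp (-Real.exp (a - y))) := by
        rw [← Real.exp_add, ← Real.exp_add, ← Real.exp_add]; congr 1; ring

theorem gam_value (s : ℂ) (hs : 0 < s.re) (a : ℝ) :
    ∫ y : ℝ, Complex.exp (-((Real.pi * Real.exp (a - y) : ℝ) : ℂ)) *
      Complex.exp (-(s / 2) * y) = Complex.Gammaℝ s * Complex.exp (-(s / 2) * a) := by
  have hs2 : 0 < (s / 2).re := by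
    rw [show s / 2 = s * ((1/2 : ℝ) : ℂ) by push_cast; ring, Complex.re_mul_ofReal]; linarith
  have e1 := integral_sub_left_eq_self (fun y : ℝ =>
    Complex.exp (-((Real.pi * Real.exp (a - y) : ℝ) : ℂ)) * Complex.exp (-(s / 2) * y)) volume a
  rw [← e1]
  have e2 : ∀ t : ℝ, Complex.exp (-((Real.pi * Real.exp (a - (a - t)) : ℝ) : ℂ)) *
      Complex.exp (-(s / 2) * ((a - t : ℝ) : ℂ)) = Complex.exp (-(s / 2) * a) *
      (|Real.exp t| • (((Real.exp t : ℝ) : ℂ) ^ (s / 2 - 1) *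
        Complex.exp (-((Real.pi : ℂ) * (Real.exp t : ℝ))))) := by
    intro t
    rw [abs_of_pos (Real.exp_pos t), Complex.real_smul, sub_sub_cancel]
    have h1 : ((Real.exp t : ℝ) : ℂ) ^ (s / 2 - 1) = Complex.exp ((s / 2 - 1) * t) := by
      rw [Complex.cpow_def_of_ne_zero (by exact_mod_cast (Real.exp_pos t).ne'),
        ← Complex.ofReal_log (Real.exp_pos t).le, Real.log_exp, mul_comm]
    rw [h1]
    push_cast
    set Z := Complex.exp (t : ℂ) with hZ
    have h2 : Complex.exp (-(s / 2) * (a - t)) = Complex.exp (-(s / 2) * a) * (Z *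
        Complex.exp ((s / 2 - 1) * t)) := by
      rw [hZ, ← Complex.exp_add, ← Complex.exp_add]; congr 1; ring
    rw [h2]; ring
  simp only [e2]
  rw [integral_const_mul]
  have h := integral_image_eq_integral_abs_deriv_smul (s := univ) (f := Real.exp)
    (f' := Real.exp) MeasurableSet.univ (fun x _ => (Real.hasDerivAt_exp x).hasDerivWithinAt)
    (Real.exp_injective.injOn) (fun r : ℝ => (r : ℂ) ^ (s / 2 - 1) *
        Complex.exp (-((Real.pi : ℂ) * r)))
  rw [image_univ, Real.range_exp, Measure.restrict_univ] at h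
  rw [← h, Complex.integral_cpow_mul_exp_neg_mul_Ioi hs2 Real.pi_pos, Complex.Gammaℝ_def, mul_comm]
  congr 2
  rw [one_div, Complex.inv_cpow, neg_div, Complex.cpow_neg]
  rw [Complex.arg_ofReal_of_nonneg Real.pi_pos.le]
  exact Real.pi_pos.ne

theorem quad_sum {n : ℕ} (w z : Fin n → ℝ) (v : UT n → ℝ) :
    ∑ i, w i * ∑ j, (unip v i j) ^ 2 * z j =
      ∑ i, w i * z i + ∑ p : UT n, w p.1.1 * (v p) ^ 2 * z p.1.2 := by
  induction n with
  | zero => simp
  | succ n ih =>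
    obtain ⟨⟨v, c⟩, rfl⟩ := joinU_surj v
    rw [← (utE n).sum_comp, Fintype.sum_sum_type]
    simp only [joinU_inl, joinU_inr]
    have h1 : ∀ p : UT n, w (utE n (Sum.inl p)).1.1 * (v p) ^ 2 * z (utE n (Sum.inl p)).1.2 =
        w p.1.1.castSucc * (v p) ^ 2 * z p.1.2.castSucc := fun p => rfl
    have h2 : ∀ i : Fin n, w (utE n (Sum.inr i)).1.1 * (c i) ^ 2 * z (utE n (Sum.inr i)).1.2 =
        w i.castSucc * (c i) ^ 2 * z (Fin.last n) := fun i => rfl
    simp only [h1, h2]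
    rw [Fin.sum_univ_castSucc, Fin.sum_univ_castSucc (fun i => w i * z i)]
    simp only [Fin.sum_univ_castSucc, unip_joinU, blk_cc, blk_cl, blk_lc, blk_ll]
    have := ih (fun i => w i.castSucc) (fun i => z i.castSucc) v
    simp only [mul_add, Finset.sum_add_distrib] at this ⊢
    rw [this]
    have h3 : ∀ i : Fin n, w i.castSucc * (c i ^ 2 * z (Fin.last n)) =
        w i.castSucc * (c i) ^ 2 * z (Fin.last n) := fun i => by ring
    simp only [h3, Pi.zero_apply]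
    simp
    ring

/-- the exponent in quadratic form -/
theorem quad_qq (w : Fin n → ℝ) (v : UT n → ℝ) (x : Fin n → ℝ) :
    ∑ i, w i * qq (v, x) i i =
      ∑ i, w i * Real.exp (x i) + ∑ p : UT n, w p.1.1 * (v p) ^ 2 * Real.exp (x p.1.2) := by
  simp only [qq_diag]
  exact quad_sum w (fun j => Real.exp (x j)) v

/-- integrand for `G1` -/
noncomputable def g1 (μ : Fin n → ℂ) (x0 : Fin n → ℝ) (p : CS n) : ℂ :=
  Complex.exp (-((Real.pi * ∑ i, Real.exp (-p.2 i) * qq (p.1, x0) i i : ℝ) : ℂ)) *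
    Complex.exp (∑ i, μ i * p.2 i) * (wgt p.2 : ℂ)

theorem g1_continuous (μ : Fin n → ℂ) (x0 : Fin n → ℝ) : Continuous (g1 μ x0) := by
  unfold g1
  have h1 : ∀ i : Fin n, Continuous (fun p : CS n => qq (p.1, x0) i i) := fun i =>
    (continuous_apply_apply i i).comp (qq_continuous.comp (Continuous.prodMk continuous_fst
      continuous_const))
  have h2 : Continuous (fun p : CS n => wgt p.2) := wgt_continuous.comp continuous_snd
  fun_prop

theorem g1_split (μ : Fin n → ℂ) (x0 : Fin n → ℝ) (v : UT n → ℝ) (y : Fin n → ℝ) :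
    g1 μ x0 (v, y) =
      (Complex.exp (-((Real.pi * ∑ i, Real.exp (x0 i - y i) : ℝ) : ℂ)) *
        Complex.exp (∑ i, μ i * y i) * (wgt y : ℂ)) *
      ((Real.exp (-(∑ p : UT n, (Real.pi * Real.exp (x0 p.1.2 - y p.1.1)) * v p ^ 2)) : ℝ) : ℂ) := by
  unfold g1
  simp only
  rw [quad_qq (fun i => Real.exp (-y i)) v x0]
  have h1 : ∀ i : Fin n, Real.exp (-y i) * Real.exp (x0 i) = Real.exp (x0 i - y i) := fun i => by
    rw [← Real.exp_add]; congr 1; ring
  have h2 : ∀ p : UT n, Real.exp (-y p.1.1) * (v p) ^ 2 * Real.exp (x0 p.1.2) =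
      Real.exp (x0 p.1.2 - y p.1.1) * v p ^ 2 := fun p => by
    rw [sub_eq_add_neg, Real.exp_add]; ring
  simp only [h1, h2, mul_add]
  rw [Complex.ofReal_add, neg_add, Complex.exp_add, Finset.mul_sum _ (fun p : UT n =>
    Real.exp (x0 p.1.2 - y p.1.1) * v p ^ 2)]
  simp only [mul_assoc]
  push_cast
  ring

/-- the one-dimensional factors -/
theorem g1_y (μ : Fin n → ℂ) (x0 y : Fin n → ℝ) :
    (Complex.exp (-((Real.pi * ∑ i, Real.exp (x0 i - y i) : ℝ) : ℂ)) *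
        Complex.exp (∑ i, μ i * y i) * (wgt y : ℂ)) *
      ((Real.exp (-(∑ p : UT n, (x0 p.1.2 - y p.1.1)) / 2) : ℝ) : ℂ) =
    Complex.exp (-((∑ i : Fin n, ((i : ℕ) : ℝ) * x0 i) / 2 : ℝ)) *
    ∏ i : Fin n, (Complex.exp (-((Real.pi * Real.exp (x0 i - y i) : ℝ) : ℂ)) *
      Complex.exp (-((-2 * μ i - (i : ℕ)) / 2) * y i)) := by
  rw [Finset.prod_mul_distrib, ← Complex.exp_sum, ← Complex.exp_sum, Finset.sum_sub_distrib,
    sum_fst, sum_snd]
  unfold wgt
  rw [Complex.ofReal_exp, Complex.ofReal_exp]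
  rw [← Complex.exp_add, ← Complex.exp_add, ← Complex.exp_add, ← Complex.exp_add,
    ← Complex.exp_add]
  congr 1
  push_cast
  rw [Finset.mul_sum, Finset.sum_neg_distrib]
  have : ∑ i : Fin n, μ i * (y i : ℂ) + ∑ i : Fin n, (((i : ℕ) : ℂ) - ((n : ℂ) - 1) / 2) * (y i : ℂ) +
      -(∑ i : Fin n, ((i : ℕ) : ℂ) * (x0 i : ℂ) - ∑ i : Fin n, ((n : ℂ) - 1 - (i : ℕ)) * (y i : ℂ)) / 2 =
      -((∑ i : Fin n, ((i : ℕ) : ℂ) * (x0 i : ℂ)) / 2) +
      ∑ i : Fin n, (-((-2 * μ i - (i : ℕ)) / 2) * (y i : ℂ)) := by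
    have h3 : -(∑ i : Fin n, ((i : ℕ) : ℂ) * (x0 i : ℂ) -
        ∑ i : Fin n, ((n : ℂ) - 1 - (i : ℕ)) * (y i : ℂ)) / 2 =
        -((∑ i : Fin n, ((i : ℕ) : ℂ) * (x0 i : ℂ)) / 2) +
        ∑ i : Fin n, (((n : ℂ) - 1 - (i : ℕ)) * (y i : ℂ)) / 2 := by
      rw [← Finset.sum_div]; ring
    rw [h3]
    have h4 : ∑ i : Fin n, μ i * (y i : ℂ) +
        ∑ i : Fin n, (((i : ℕ) : ℂ) - ((n : ℂ) - 1) / 2) * (y i : ℂ) +
        ∑ i : Fin n, (((n : ℂ) - 1 - (i : ℕ)) * (y i : ℂ)) / 2 =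
        ∑ i : Fin n, (-((-2 * μ i - (i : ℕ)) / 2) * (y i : ℂ)) := by
      rw [← Finset.sum_add_distrib, ← Finset.sum_add_distrib]
      refine Finset.sum_congr rfl fun i _ => ?_
      ring
    rw [← h4]; ring
  linear_combination this

theorem g1_norm_y (μ : Fin n → ℂ) (x0 y : Fin n → ℝ) :
    ∫ v : UT n → ℝ, ‖g1 μ x0 (v, y)‖ = ‖Complex.exp (-((∑ i : Fin n, ((i : ℕ) : ℝ) * x0 i) / 2 : ℝ)) *
    ∏ i : Fin n, (Complex.exp (-((Real.pi * Real.exp (x0 i - y i) : ℝ) : ℂ)) *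
      Complex.exp (-((-2 * μ i - (i : ℕ)) / 2) * y i))‖ := by
  rw [← g1_y]
  simp only [g1_split, norm_mul _ ((Real.exp _ : ℝ) : ℂ)]
  rw [integral_const_mul]
  simp only [Complex.norm_real, Real.norm_of_nonneg (Real.exp_pos _).le]
  rw [(gauss_real (fun p : UT n => x0 p.1.2 - y p.1.1)).2]

theorem g1_integrable (μ : Fin n → ℂ) (hμ : ∀ i : Fin n, 0 < (-2 * μ i - (i : ℕ)).re)
    (x0 : Fin n → ℝ) : Integrable (g1 μ x0) (volume.prod volume) := by
  rw [integrable_prod_iff' (g1_continuous μ x0).aestronglyMeasurable]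
  constructor
  · refine Filter.Eventually.of_forall fun y => ?_
    simp only [g1_split]
    exact ((gauss_real (fun p : UT n => x0 p.1.2 - y p.1.1)).1.ofReal).const_mul _
  · simp only [g1_norm_y]
    refine Integrable.norm ?_
    refine Integrable.const_mul ?_ _
    exact Integrable.fintype_prod (f := fun (i : Fin n) (t : ℝ) =>
      Complex.exp (-((Real.pi * Real.exp (x0 i - t) : ℝ) : ℂ)) *
      Complex.exp (-((-2 * μ i - (i : ℕ)) / 2) * t)) (fun i => gam_integrable _ (hμ i) (x0 i))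

theorem g1_integral (μ : Fin n → ℂ) (hμ : ∀ i : Fin n, 0 < (-2 * μ i - (i : ℕ)).re)
    (x0 : Fin n → ℝ) : ∫ p, g1 μ x0 p ∂(volume.prod volume) =
      (∏ i : Fin n, Complex.Gammaℝ (-2 * μ i - (i : ℕ))) * Complex.exp (∑ i, μ i * x0 i) := by
  rw [integral_prod_symm _ (g1_integrable μ hμ x0)]
  have h1 : ∀ y : Fin n → ℝ, ∫ v : UT n → ℝ, g1 μ x0 (v, y) =
      Complex.exp (-((∑ i : Fin n, ((i : ℕ) : ℝ) * x0 i) / 2 : ℝ)) *
      ∏ i : Fin n, (fun (i : Fin n) (t : ℝ) =>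
        Complex.exp (-((Real.pi * Real.exp (x0 i - t) : ℝ) : ℂ)) *
        Complex.exp (-((-2 * μ i - (i : ℕ)) / 2) * t)) i (y i) := by
    intro y
    simp only
    rw [← g1_y]
    simp only [g1_split]
    rw [integral_const_mul, integral_complex_ofReal,
      (gauss_real (fun p : UT n => x0 p.1.2 - y p.1.1)).2]
  rw [integral_congr_ae (Filter.Eventually.of_forall h1), integral_const_mul,
    integral_fintype_prod_volume_eq_prod (fun (i : Fin n) (t : ℝ) =>
        Complex.exp (-((Real.pi * Real.exp (x0 i - t) : ℝ) : ℂ)) *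
        Complex.exp (-((-2 * μ i - (i : ℕ)) / 2) * t))]
  simp only [gam_value _ (hμ _)]
  rw [Finset.prod_mul_distrib, ← Complex.exp_sum, mul_left_comm, ← Complex.exp_add]
  congr 2
  push_cast
  rw [Finset.sum_div, ← Finset.sum_neg_distrib, ← Finset.sum_add_distrib]
  refine Finset.sum_congr rfl fun i _ => ?_
  ring

end Pool.Agent.MP2f3d29
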