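import Mathlib
import Pool.Agent.MP_2f3d29_nt.D5

set_option autoImplicit false

open MeasureTheory Set

namespace Pool.Agent.MP2f3d29

variable {n : ℕ}

attribute [local instance] matMS matBS

theorem inv_measurable : Measurable (fun Q : Matrix (Fin n) (Fin n) ℝ => Q⁻¹) := by
  refine measurable_pi_lambda _ fun i => measurable_pi_lambda _ fun j => ?_
  have h : ∀ Q : Matrix (Fin n) (Fin n) ℝ, Q⁻¹ i j = (Q.det)⁻¹ * Q.adjugate i j := by
    intro Q
    rw [Matrix.inv_def, Ring.inverse_eq_inv']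
    rfl
  simp only [h]
  have h1 : Measurable (fun S : Matrix (Fin n) (Fin n) ℝ => S.det) :=
    (Continuous.matrix_det continuous_id).measurable
  have h2 : Measurable (fun S : Matrix (Fin n) (Fin n) ℝ => S.adjugate i j) := by
    have : Continuous (fun S : Matrix (Fin n) (Fin n) ℝ => S.adjugate) :=
      Continuous.matrix_adjugate continuous_id
    exact ((continuous_apply_apply i j).comp this).measurable
  exact h1.inv.mul h2

theorem rvM_inv (A : Matrix (Fin n) (Fin n) ℝ) : (rvM A)⁻¹ = rvM (A⁻¹) := by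
  unfold rvM
  exact Matrix.inv_submatrix_equiv A (Fin.revPerm : Fin n ≃ Fin n) Fin.revPerm

theorem rvM_mul (A B : Matrix (Fin n) (Fin n) ℝ) : rvM A * rvM B = rvM (A * B) := by
  unfold rvM
  exact Matrix.submatrix_mul_equiv A B (Fin.rev) (Fin.revPerm : Fin n ≃ Fin n) Fin.rev

theorem rvM_trace (A : Matrix (Fin n) (Fin n) ℝ) : (rvM A).trace = A.trace := by
  unfold rvM Matrix.trace
  exact Equiv.sum_comp (Fin.revPerm : Fin n ≃ Fin n) (fun i => A i i)

theorem wgt_pos (x : Fin n → ℝ) : 0 < wgt x := Real.exp_pos _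

theorem bet_density_measurable : Measurable (fun p : CS n => ENNReal.ofReal (wgt p.2)) :=
  ENNReal.measurable_ofReal.comp (wgt_continuous.measurable.comp measurable_snd)

theorem bet_integral (H : CS n → ℂ) : ∫ p, H p ∂(bet n) =
    ∫ p, H p * (wgt p.2 : ℂ) ∂(volume.prod volume) := by
  unfold bet
  rw [integral_withDensity_eq_integral_toReal_smul bet_density_measurable
    (Filter.Eventually.of_forall fun _ => ENNReal.ofReal_lt_top)]
  refine integral_congr_ae (Filter.Eventually.of_forall fun p => ?_)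
  simp only
  rw [ENNReal.toReal_ofReal (wgt_pos _).le, Complex.real_smul, mul_comm]

theorem bet_integrable (H : CS n → ℂ) : Integrable H (bet n) ↔
    Integrable (fun p : CS n => H p * (wgt p.2 : ℂ)) (volume.prod volume) := by
  unfold bet
  rw [integrable_withDensity_iff_integrable_smul' bet_density_measurable
    (Filter.Eventually.of_forall fun _ => ENNReal.ofReal_lt_top)]
  refine integrable_congr (Filter.Eventually.of_forall fun p => ?_)
  simp only
  rw [ENNReal.toReal_ofReal (wgt_pos _).le, Complex.real_smul, mul_comm]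

theorem flip_integral (F : Matrix (Fin n) (Fin n) ℝ → ℂ) (hF : Measurable F) :
    (Integrable (fun p : CS n => F (rvM (qq p)) * (wgt p.2 : ℂ)) (volume.prod volume) ↔
      Integrable (fun p : CS n => F (qq p) * (wgt p.2 : ℂ)) (volume.prod volume)) ∧
    ∫ p : CS n, F (rvM (qq p)) * (wgt p.2 : ℂ) ∂(volume.prod volume) =
    ∫ p : CS n, F (qq p) * (wgt p.2 : ℂ) ∂(volume.prod volume) := by
  have m1 : Measurable (fun p : CS n => rvM (qq p)) :=
    (rvM_continuous.comp qq_continuous).measurable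
  have m2 : Measurable (qq : CS n → Matrix (Fin n) (Fin n) ℝ) := qq_continuous.measurable
  have a1 : AEStronglyMeasurable F (Measure.map (fun p : CS n => rvM (qq p)) (bet n)) :=
    hF.aestronglyMeasurable
  have a2 : AEStronglyMeasurable F (Measure.map qq (bet n)) := hF.aestronglyMeasurable
  constructor
  · have i1 := integrable_map_measure a1 m1.aemeasurable
    have i2 := integrable_map_measure a2 m2.aemeasurable
    rw [flip_map] at i1
    have := i1.symm.trans i2
    exact (bet_integrable _).symm.trans (this.trans (bet_integrable _))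
  · have i1 := integral_map m1.aemeasurable a1
    have i2 := integral_map m2.aemeasurable a2
    rw [flip_map] at i1
    rw [← bet_integral (fun p => F (rvM (qq p))), ← bet_integral (fun p => F (qq p)), ← i1, ← i2]

theorem theta_mp (v0 : UT n → ℝ) : MeasurePreserving
    (fun p : CS n => (mulU (invU p.1) v0, p.2)) (volume.prod volume) (volume.prod volume) := by
  have h1 : MeasurePreserving (fun v : UT n → ℝ => mulU (invU v) v0) volume volume := by
    have : (fun v : UT n → ℝ => mulU (invU v) v0) = invU ∘ (fun v => mulU (invU v0) v) := by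
      funext v; exact mulU_inv_left v0 v
    rw [this]
    exact invU_mp.comp (mulU_left_mp _)
  exact h1.prod (MeasurePreserving.id _)

/-- the exponential character of the reversed matrix -/
noncomputable def chr (μ : Fin n → ℂ) (S : Matrix (Fin n) (Fin n) ℝ) : ℂ :=
  Complex.exp (∑ i, μ i * (lam n (rvM S) i : ℂ))

theorem chr_measurable (μ : Fin n → ℂ) : Measurable (chr μ) := by
  unfold chr
  have h : Measurable (fun S : Matrix (Fin n) (Fin n) ℝ => lam n (rvM S)) :=
    lam_measurable.comp rvM_continuous.measurable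
  have h2 : ∀ i, Measurable (fun S : Matrix (Fin n) (Fin n) ℝ => lam n (rvM S) i) := fun i =>
    (measurable_pi_apply i).comp h
  have h3 : Measurable (fun S : Matrix (Fin n) (Fin n) ℝ =>
      ∑ i, μ i * (lam n (rvM S) i : ℂ)) := by
    refine Finset.measurable_sum _ fun i _ => ?_
    exact measurable_const.mul (Complex.measurable_ofReal.comp (h2 i))
  exact h3.cexp

/-- the Gaussian factor -/
noncomputable def gss (q : CS (n+1)) (p : CS n) : ℝ :=
  Real.exp (-(Real.pi * ∑ i : Fin n, Real.exp (-p.2 i) *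
    qq (mulU (joinU (invU p.1, 0)) q.1, q.2) i.castSucc i.castSucc))

/-- the integrand of the star identity -/
noncomputable def stf (μ : Fin n → ℂ) (q : CS (n+1)) (p : CS n) : ℂ :=
  (gss q p : ℂ) * chr μ (qq p) * (wgt p.2 : ℂ)

/-- product of Gamma factors -/
noncomputable def gmf (μ : Fin n → ℂ) : ℂ := ∏ i : Fin n, Complex.Gammaℝ (-2 * μ i - (i : ℕ))

theorem star_identity (μ : Fin n → ℂ) (hμ : ∀ i : Fin n, 0 < (-2 * μ i - (i : ℕ)).re)
    (q : CS (n+1)) : Integrable (stf μ q) (volume.prod volume) ∧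
    ∫ p, stf μ q p ∂(volume.prod volume) = gmf μ * chr μ (tl (qq q)) := by
  obtain ⟨⟨v0, x0⟩, h0⟩ := chol (rvM (tl (qq q))) ((rvM_posDef _).2 (tl_qq_posDef q))
  set F : Matrix (Fin n) (Fin n) ℝ → ℂ := fun Q =>
    Complex.exp (-((Real.pi * (Q⁻¹ * qq (v0, x0)).trace : ℝ) : ℂ)) *
      Complex.exp (∑ i, μ i * (lam n Q i : ℂ)) with hF
  have hFm : Measurable F := by
    refine Measurable.mul ?_ ?_
    · have h1 : Measurable (fun Q : Matrix (Fin n) (Fin n) ℝ => (Q⁻¹ * qq (v0, x0)).trace) := by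
        have h2 : Continuous (fun Q : Matrix (Fin n) (Fin n) ℝ => (Q * qq (v0, x0)).trace) := by
          refine Continuous.matrix_trace ?_
          exact continuous_id.matrix_mul continuous_const
        exact h2.measurable.comp inv_measurable
      exact (Complex.measurable_ofReal.comp (measurable_const.mul h1)).neg.cexp
    · have h2 : ∀ i, Measurable (fun S : Matrix (Fin n) (Fin n) ℝ => lam n S i) := fun i =>
        (measurable_pi_apply i).comp lam_measurable
      have h3 : Measurable (fun S : Matrix (Fin n) (Fin n) ℝ =>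
          ∑ i, μ i * (lam n S i : ℂ)) := by
        refine Finset.measurable_sum _ fun i _ => ?_
        exact measurable_const.mul (Complex.measurable_ofReal.comp (h2 i))
      exact h3.cexp
  have e1 : ∀ p : CS n, F (qq p) * (wgt p.2 : ℂ) = g1 μ x0 (mulU (invU p.1) v0, p.2) := by
    rintro ⟨v, y⟩
    simp only [hF]
    rw [trace_qq_qq, lam_qq]
    rfl
  have e2 : ∀ p : CS n, F (rvM (qq p)) * (wgt p.2 : ℂ) = stf μ q p := by
    rintro ⟨v, y⟩
    simp only [hF, h0]
    rw [rvM_inv, rvM_mul, rvM_trace]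
    unfold stf chr gss
    have : ((qq (v, y))⁻¹ * tl (qq q)).trace = _ := trace_qq_tl v y q.1 q.2
    rw [this]
    push_cast
    rfl
  obtain ⟨f1, f2⟩ := flip_integral F hFm
  simp only [e1, e2] at f1 f2
  have hθ := theta_mp v0
  have hg := g1_integrable μ hμ x0
  constructor
  · rw [f1]
    exact hθ.integrable_comp_of_integrable hg
  · rw [f2]
    have : ∫ p : CS n, g1 μ x0 (mulU (invU p.1) v0, p.2) ∂(volume.prod volume) =
        ∫ p, g1 μ x0 p ∂(volume.prod volume) := by
      have h3 := integral_map (φ := fun p : CS n => (mulU (invU p.1) v0, p.2))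
        (μ := (volume : Measure (UT n → ℝ)).prod (volume : Measure (Fin n → ℝ))) (f := g1 μ x0)
        hθ.measurable.aemeasurable (g1_continuous μ x0).aestronglyMeasurable
      rw [hθ.map_eq] at h3
      exact h3.symm
    rw [this, g1_integral μ hμ x0]
    unfold gmf chr
    rw [← h0, lam_qq]

/-! ### the kernel -/

theorem sum_super {M : Type*} [AddCommMonoid M] (f : UT (n+1) → M) :
    ∑ p : UT (n+1), (if (p.1.1 : ℕ) + 1 = p.1.2 then f p else 0) =
      ∑ i : Fin n, f ⟨(i.castSucc, i.succ), by rw [Fin.lt_def]; simp⟩ := by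
  rw [← Finset.sum_filter]
  symm
  refine Finset.sum_bij (fun i _ => ⟨(i.castSucc, i.succ), by rw [Fin.lt_def]; simp⟩) ?_ ?_ ?_ ?_
  · intro i _
    simp
  · intro i _ j _ h
    have := congrArg (fun r : UT (n+1) => r.1.1) h
    simpa using this
  · intro p hp
    simp only [Finset.mem_filter, Finset.mem_univ, true_and] at hp
    have h2 := p.2
    have h3 : p.1.1 ≠ Fin.last n := (p.2.trans_le (Fin.le_last _)).ne
    refine ⟨p.1.1.castPred h3, Finset.mem_univ _, ?_⟩
    apply Subtype.ext
    apply Prod.ext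
    · simp
    · apply Fin.ext
      simp only [Fin.val_succ, Fin.coe_castPred]
      exact hp
  · intro i _; rfl

/-- the exponents in the kernel -/
noncomputable def apx (x : Fin (n+1) → ℝ) (y : Fin n → ℝ) (p : UT (n+1)) : ℝ :=
  x p.1.2 - snc (y, 0) p.1.1

theorem ker_exponent (x : Fin (n+1) → ℝ) (y : Fin n → ℝ) (u : UT (n+1) → ℝ) :
    ∑ i : Fin n, Real.exp (-y i) * qq (u, x) i.castSucc i.castSucc =
      ∑ i : Fin n, Real.exp (x i.castSucc - y i) + ∑ p : UT (n+1), Real.exp (apx x y p) * u p ^ 2 := by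
  have h := quad_qq (snc ((fun i => Real.exp (-y i)), 0)) u x
  rw [Fin.sum_univ_castSucc, Fin.sum_univ_castSucc] at h
  simp only [snc_cast, snc_last, zero_mul, add_zero] at h
  rw [h]
  congr 1
  · refine Finset.sum_congr rfl fun i _ => ?_
    rw [← Real.exp_add]; congr 1; ring
  · refine Finset.sum_congr rfl fun p _ => ?_
    have h3 : p.1.1 ≠ Fin.last n := (p.2.trans_le (Fin.le_last _)).ne
    have h4 : p.1.1 = (p.1.1.castPred h3).castSucc := by simp
    unfold apx
    have e1 : snc ((fun i => Real.exp (-y i)), (0:ℝ)) p.1.1 =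
        Real.exp (-snc (y, (0:ℝ)) p.1.1) := by
      rw [h4, snc_cast, snc_cast]
    rw [e1, sub_eq_add_neg, Real.exp_add]; ring

theorem apx_sum (x : Fin (n+1) → ℝ) (y : Fin n → ℝ) : ∑ p : UT (n+1), apx x y p =
    ∑ i : Fin (n+1), ((i : ℕ) : ℝ) * x i - ∑ i : Fin n, ((n : ℝ) - (i : ℕ)) * y i := by
  unfold apx
  rw [Finset.sum_sub_distrib, sum_snd, sum_fst, Fin.sum_univ_castSucc (fun i : Fin (n+1) =>
    (((n+1 : ℕ) : ℝ) - 1 - (i : ℕ)) * snc (y, (0:ℝ)) i)]
  simp only [snc_cast, snc_last, mul_zero, add_zero, Fin.val_castSucc]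
  push_cast
  congr 1
  refine Finset.sum_congr rfl fun i _ => ?_
  ring

/-- the power factor -/
noncomputable def pwr (x : Fin (n+1) → ℝ) (y : Fin n → ℝ) : ℝ :=
  Real.exp ((∑ i : Fin n, ((n : ℝ) - (i : ℕ)) * y i - ∑ i : Fin (n+1), ((i : ℕ) : ℝ) * x i) / 2)

theorem pwr_eq (x : Fin (n+1) → ℝ) (y : Fin n → ℝ) :
    Real.exp (-(∑ p : UT (n+1), apx x y p) / 2) = pwr x y := by
  unfold pwr
  rw [apx_sum]
  congr 1
  ring

theorem ker_real (x : Fin (n+1) → ℝ) (y : Fin n → ℝ) :
    Integrable (fun u : UT (n+1) → ℝ =>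
      Real.exp (-(Real.pi * ∑ i : Fin n, Real.exp (-y i) * qq (u, x) i.castSucc i.castSucc))) ∧
    ∫ u : UT (n+1) → ℝ,
      Real.exp (-(Real.pi * ∑ i : Fin n, Real.exp (-y i) * qq (u, x) i.castSucc i.castSucc)) =
      Real.exp (-(Real.pi * ∑ i : Fin n, Real.exp (x i.castSucc - y i))) * pwr x y := by
  obtain ⟨h1, h2⟩ := gauss_real (apx x y)
  have e : ∀ u : UT (n+1) → ℝ,
      Real.exp (-(Real.pi * ∑ i : Fin n, Real.exp (-y i) * qq (u, x) i.castSucc i.castSucc)) =
      Real.exp (-(Real.pi * ∑ i : Fin n, Real.exp (x i.castSucc - y i))) *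
        Real.exp (-(∑ p, (Real.pi * Real.exp (apx x y p)) * u p ^ 2)) := by
    intro u
    rw [ker_exponent, ← Real.exp_add]
    congr 1
    rw [mul_add, Finset.mul_sum _ (fun p => Real.exp (apx x y p) * u p ^ 2)]
    simp only [mul_assoc]
    ring
  simp only [e]
  refine ⟨h1.const_mul _, ?_⟩
  rw [integral_const_mul, h2, pwr_eq]

theorem ker_char (x : Fin (n+1) → ℝ) (y : Fin n → ℝ) :
    Integrable (fun u : UT (n+1) → ℝ =>
      ((Real.exp (-(Real.pi * ∑ i : Fin n, Real.exp (-y i) * qq (u, x) i.castSucc i.castSucc)) : ℝ) : ℂ) *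
        Complex.exp (-(2 * Real.pi * Complex.I * psi u))) ∧
    ∫ u : UT (n+1) → ℝ,
      ((Real.exp (-(Real.pi * ∑ i : Fin n, Real.exp (-y i) * qq (u, x) i.castSucc i.castSucc)) : ℝ) : ℂ) *
        Complex.exp (-(2 * Real.pi * Complex.I * psi u)) =
      ((Real.exp (-(Real.pi * ∑ i : Fin n, (Real.exp (x i.castSucc - y i) +
        Real.exp (y i - x i.succ)))) * pwr x y : ℝ) : ℂ) := by
  set ε : UT (n+1) → ℝ := fun p => if (p.1.1 : ℕ) + 1 = p.1.2 then 1 else 0 with hε
  obtain ⟨h1, h2⟩ := gauss_char (apx x y) ε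
  have hpsi : ∀ u : UT (n+1) → ℝ, psi u = ∑ p, ε p * u p := by
    intro u
    unfold psi
    refine Finset.sum_congr rfl fun p _ => ?_
    simp only [hε]; split_ifs <;> simp
  have e : ∀ u : UT (n+1) → ℝ,
      ((Real.exp (-(Real.pi * ∑ i : Fin n, Real.exp (-y i) * qq (u, x) i.castSucc i.castSucc)) : ℝ) : ℂ) *
        Complex.exp (-(2 * Real.pi * Complex.I * psi u)) =
      ((Real.exp (-(Real.pi * ∑ i : Fin n, Real.exp (x i.castSucc - y i))) : ℝ) : ℂ) *
        Complex.exp (-(∑ p, ((Real.pi : ℂ) * Real.exp (apx x y p)) * (u p : ℂ) ^ 2) +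
      ∑ p, (-(2 * Real.pi * Complex.I * ε p)) * u p) := by
    intro u
    rw [ker_exponent, hpsi, Complex.ofReal_exp, Complex.ofReal_exp, ← Complex.exp_add,
      ← Complex.exp_add]
    congr 1
    push_cast
    rw [mul_add, Finset.mul_sum _ (fun p => Complex.exp (apx x y p) * (u p : ℂ) ^ 2),
      Finset.mul_sum _ (fun p => (ε p : ℂ) * (u p : ℂ))]
    simp only [mul_assoc, Finset.sum_neg_distrib, neg_mul]
    ring
  simp only [e]
  refine ⟨h1.const_mul _, ?_⟩
  rw [integral_const_mul, h2]
  have hs : ∑ p, ε p ^ 2 * Real.exp (-apx x y p) = ∑ i : Fin n, Real.exp (y i - x i.succ) := by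
    have : ∀ p : UT (n+1), ε p ^ 2 * Real.exp (-apx x y p) =
        if (p.1.1 : ℕ) + 1 = p.1.2 then Real.exp (-apx x y p) else 0 := by
      intro p; simp only [hε]; split_ifs <;> simp
    simp only [this]
    rw [sum_super]
    refine Finset.sum_congr rfl fun i _ => ?_
    unfold apx
    simp
  rw [hs, Complex.exp_sub, ← Complex.ofReal_exp, pwr_eq, ← Complex.ofReal_exp,
    ← Complex.ofReal_div, ← Complex.ofReal_mul]
  congr 1
  rw [Finset.sum_add_distrib, mul_add, neg_add, Real.exp_add, Real.exp_neg (Real.pi *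
    ∑ i : Fin n, Real.exp (y i - x i.succ))]
  field_simp

end Pool.Agent.MP2f3d29
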