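import Mathlib
import Pool.Agent.MP_2f3d29_nt.D6

set_option autoImplicit false

open MeasureTheory Set

namespace Pool.Agent.MP2f3d29

variable {n : ℕ}

attribute [local instance] matMS matBS

theorem lam_rev_sum (p : CS n) : ∑ i, lam n (rvM (qq p)) i = ∑ i, p.2 i := by
  obtain ⟨p0, hp0⟩ := chol (rvM (qq p)) ((rvM_posDef _).2 (qq_posDef p))
  have := congrArg Matrix.det hp0
  rw [rvM_det, qq_det, qq_det] at this
  rw [← hp0, lam_qq]
  exact Real.exp_injective this

theorem chr_shift (c : Fin n → ℂ) (s : ℂ) (p : CS n) : chr (fun i => c i - s) (qq p) =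
    Complex.exp (-s * ((∑ i, p.2 i : ℝ) : ℂ)) * chr c (qq p) := by
  unfold chr
  rw [← Complex.exp_add]
  congr 1
  rw [← lam_rev_sum p]
  simp only [sub_mul, Finset.sum_sub_distrib]
  push_cast
  rw [Finset.mul_sum, ← Finset.sum_sub_distrib, ← Finset.sum_add_distrib]
  refine Finset.sum_congr rfl fun i _ => ?_
  ring

theorem chr_split (c : Fin (n+1) → ℂ) (p : CS (n+1)) : chr c (qq p) =
    Complex.exp (c 0 * ((∑ i, p.2 i : ℝ) : ℂ)) *
      chr (fun i : Fin n => c i.succ - c 0) (tl (qq p)) := by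
  unfold chr
  rw [← Complex.exp_add, lam_rev_rec]

/-- the exponents -/
noncomputable def cc (n : ℕ) (α : ℕ → ℂ) (i : Fin n) : ℂ := (α i + (((n : ℂ) - 1) / 2 - (i : ℕ))) / 2

noncomputable def mm (n : ℕ) (α : ℕ → ℂ) (i : Fin n) : ℂ := (α (i + 1) - α 0 - ((i : ℕ) + 1)) / 2

noncomputable def ss (n : ℕ) (α : ℕ → ℂ) : ℂ := (α 0 + ((n : ℂ) + 1) / 2) / 2

theorem mm_eq (α : ℕ → ℂ) : (fun i : Fin n => cc (n+1) α i.succ - cc (n+1) α 0) = mm n α := by
  funext i
  unfold cc mm
  simp only [Fin.val_succ, Fin.val_zero]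
  push_cast
  ring

theorem mm_eq' (α : ℕ → ℂ) : mm n α = fun i => cc n (fun j => α (j+1)) i - ss n α := by
  funext i
  unfold cc mm ss
  ring

theorem mm_gam (α : ℕ → ℂ) (i : Fin n) : -2 * mm n α i - (i : ℕ) = 1 + α 0 - α (i + 1) := by
  unfold mm; ring

/-- dominance -/
def Dom (n : ℕ) (α : ℕ → ℂ) : Prop := ∀ i, i + 1 < n → 0 < (α i - α (i+1)).re

theorem Dom.tail {α : ℕ → ℂ} (h : Dom (n+1) α) : Dom n (fun j => α (j+1)) :=
  fun i hi => h (i+1) (by omega)

theorem Dom.pos {α : ℕ → ℂ} (h : Dom n α) (j : ℕ) : ∀ i, i < j → j < n → 0 < (α i - α j).re := by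
  induction j with
  | zero => intro i hi; omega
  | succ j ih =>
    intro i hi hj
    have h1 := h j hj
    rcases Nat.lt_succ_iff_lt_or_eq.1 hi with h2 | h2
    · have := ih i h2 (by omega)
      simp only [Complex.sub_re] at *
      linarith
    · rw [h2]; exact h1

theorem mm_gam_pos {α : ℕ → ℂ} (h : Dom (n+1) α) (i : Fin n) : 0 < (-2 * mm n α i - (i : ℕ)).re := by
  rw [mm_gam]
  have := h.pos (i+1) 0 (by omega) (by omega)
  simp only [Complex.sub_re, Complex.add_re, Complex.one_re] at *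
  linarith

theorem gss_continuous (x : Fin (n+1) → ℝ) :
    Continuous (fun z : (UT (n+1) → ℝ) × CS n => gss (z.1, x) z.2) := by
  unfold gss
  have h1 : Continuous (fun z : (UT (n+1) → ℝ) × CS n =>
      mulU (joinU (invU z.2.1, (0 : Fin n → ℝ))) z.1) := by
    refine mulU_continuous.comp (Continuous.prodMk (joinU_continuous.comp ?_) continuous_fst)
    exact Continuous.prodMk (invU_continuous.comp (continuous_fst.comp continuous_snd))
      continuous_const
  have h2 : Continuous (fun z : (UT (n+1) → ℝ) × CS n =>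
      qq (mulU (joinU (invU z.2.1, (0 : Fin n → ℝ))) z.1, x)) :=
    qq_continuous.comp (Continuous.prodMk h1 continuous_const)
  have h3 : ∀ i j : Fin (n+1), Continuous (fun z : (UT (n+1) → ℝ) × CS n =>
      qq (mulU (joinU (invU z.2.1, (0 : Fin n → ℝ))) z.1, x) i j) := fun i j =>
    (continuous_apply_apply i j).comp h2
  fun_prop

theorem stf_measurable (μ : Fin n → ℂ) (x : Fin (n+1) → ℝ) :
    Measurable (fun z : (UT (n+1) → ℝ) × CS n => stf μ (z.1, x) z.2) := by
  unfold stf
  refine Measurable.mul (Measurable.mul ?_ ?_) ?_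
  · exact Complex.measurable_ofReal.comp (gss_continuous x).measurable
  · exact (chr_measurable μ).comp (qq_continuous.measurable.comp measurable_snd)
  · exact Complex.measurable_ofReal.comp
      (wgt_continuous.measurable.comp (measurable_snd.comp measurable_snd))

theorem gss_subst (x : Fin (n+1) → ℝ) (v : UT n → ℝ) (y : Fin n → ℝ) (u : UT (n+1) → ℝ) :
    gss (mulU (joinU (v, 0)) u, x) (v, y) =
      Real.exp (-(Real.pi * ∑ i : Fin n, Real.exp (-y i) * qq (u, x) i.castSucc i.castSucc)) := by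
  unfold gss
  simp only
  rw [← invU_joinU_zero, mulU_inv_cancel]

theorem gss_lint (x : Fin (n+1) → ℝ) (v : UT n → ℝ) (y : Fin n → ℝ) :
    ∫⁻ u : UT (n+1) → ℝ, ENNReal.ofReal (gss (u, x) (v, y)) =
      ENNReal.ofReal (Real.exp (-(Real.pi * ∑ i : Fin n, Real.exp (x i.castSucc - y i))) * pwr x y) := by
  have hm : Measurable (fun u : UT (n+1) → ℝ => ENNReal.ofReal (gss (u, x) (v, y))) := by
    refine ENNReal.measurable_ofReal.comp ?_
    exact ((gss_continuous x).comp (Continuous.prodMk continuous_id continuous_const)).measurable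
  rw [← (mulU_left_mp (joinU (v, (0 : Fin n → ℝ)))).lintegral_comp hm]
  simp only [gss_subst]
  obtain ⟨h1, h2⟩ := ker_real x y
  rw [← h2, ofReal_integral_eq_lintegral_ofReal h1
    (Filter.Eventually.of_forall fun _ => (Real.exp_pos _).le)]

theorem prod_real_lint (a β : Fin n → ℝ) (hβ : ∀ i, 0 < β i) :
    ∫⁻ y : Fin n → ℝ, ENNReal.ofReal (∏ i, (Real.exp (-(Real.pi * Real.exp (a i - y i))) *
      Real.exp (-(β i / 2) * y i))) =
    ENNReal.ofReal ((∏ i, ∫ y : ℝ, Real.exp (-(Real.pi * Real.exp (-y))) *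
      Real.exp (-(β i / 2) * y)) * Real.exp (-(∑ i, β i / 2 * a i))) := by
  have h0 : ∀ (i : Fin n) (a : ℝ), Integrable (fun y : ℝ =>
      Real.exp (-(Real.pi * Real.exp (a - y))) * Real.exp (-(β i / 2) * y)) := by
    intro i a
    have := (gam_integrable (β i : ℂ) (by simpa using hβ i) a).norm
    refine this.congr (Filter.Eventually.of_forall fun y => ?_)
    simp only
    rw [norm_mul, Complex.norm_exp, Complex.norm_exp]
    have t1 : (-((Real.pi * Real.exp (a - y) : ℝ) : ℂ)).re = -(Real.pi * Real.exp (a - y)) := by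
      rw [← Complex.ofReal_neg, Complex.ofReal_re]
    have t2 : (-((β i : ℂ) / 2) * (y : ℂ)).re = -(β i / 2) * y := by
      have : -((β i : ℂ) / 2) * (y : ℂ) = ((-(β i / 2) * y : ℝ) : ℂ) := by push_cast; ring
      rw [this, Complex.ofReal_re]
    rw [t1, t2]
  have h1 : Integrable (fun y : Fin n → ℝ => ∏ i, (Real.exp (-(Real.pi * Real.exp (a i - y i))) *
      Real.exp (-(β i / 2) * y i))) :=
    Integrable.fintype_prod (f := fun (i : Fin n) (t : ℝ) =>
      Real.exp (-(Real.pi * Real.exp (a i - t))) * Real.exp (-(β i / 2) * t)) (fun i => h0 i (a i))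
  rw [← ofReal_integral_eq_lintegral_ofReal h1 (Filter.Eventually.of_forall fun y =>
    Finset.prod_nonneg fun i _ => by positivity)]
  congr 1
  rw [integral_fintype_prod_volume_eq_prod (fun (i : Fin n) (t : ℝ) =>
      Real.exp (-(Real.pi * Real.exp (a i - t))) * Real.exp (-(β i / 2) * t)),
    ← Finset.sum_neg_distrib, Real.exp_sum, ← Finset.prod_mul_distrib]
  refine Finset.prod_congr rfl fun i _ => ?_
  have e1 := integral_add_right_eq_self (μ := (volume : Measure ℝ)) (fun t : ℝ =>
      Real.exp (-(Real.pi * Real.exp (a i - t))) * Real.exp (-(β i / 2) * t)) (a i)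
  rw [← e1, ← integral_mul_const]
  refine integral_congr_ae (Filter.Eventually.of_forall fun t => ?_)
  simp only
  rw [show a i - (t + a i) = -t by ring, ← Real.exp_add, ← Real.exp_add, ← Real.exp_add]
  congr 1
  ring

/-- one-dimensional constants -/
noncomputable def gpc (n : ℕ) (α : ℕ → ℂ) : ℝ := ∏ i : Fin n, ∫ y : ℝ,
  Real.exp (-(Real.pi * Real.exp (-y))) * Real.exp (-((α 0 - α (n - i)).re / 2) * y)

theorem gpc_nonneg (n : ℕ) (α : ℕ → ℂ) : 0 ≤ gpc n α :=
  Finset.prod_nonneg fun i _ => integral_nonneg fun _ => by positivity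

theorem key_bound (n : ℕ) (α : ℕ → ℂ) (hα : Dom (n+1) α) (C : ENNReal) (hC : C ≠ ⊤)
    (hb : ∀ x : Fin n → ℝ,
    ∫⁻ u : UT n → ℝ, ‖chr (cc n (fun j => α (j+1))) (qq (u, x))‖ₑ ≤ C * ENNReal.ofReal
      (Real.exp (∑ i : Fin n, ((α (n - 1 - i + 1)).re + (((n : ℝ) - 1) / 2 - (i : ℕ))) / 2 * x i)))
    (x : Fin (n+1) → ℝ) :
    ∫⁻ p : CS n, ∫⁻ u : UT (n+1) → ℝ, ‖stf (mm n α) (u, x) p‖ₑ
        ∂volume ∂(volume.prod volume) ≤
        C * ENNReal.ofReal (gpc n α * Real.exp (-(∑ i : Fin n, (α 0 - α (n - i)).re / 2 * x i.castSucc) -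
          (∑ i : Fin (n+1), ((i : ℕ) : ℝ) * x i) / 2)) := by
  set μ := mm n α with hμ
  set β : Fin n → ℝ := fun i => (α 0 - α (n - i)).re with hβ
  have hβ0 : ∀ i, 0 < β i := fun i => hα.pos (n - i) 0 (by omega) (by omega)
  set Gp : ℝ := ∏ i, ∫ y : ℝ, Real.exp (-(Real.pi * Real.exp (-y))) *
      Real.exp (-(β i / 2) * y) with hGp
  have hGpc : gpc n α = Gp := rfl
  rw [hGpc]
  have e1 : ∀ p : CS n, ∫⁻ u : UT (n+1) → ℝ, ‖stf μ (u, x) p‖ₑ =
      ENNReal.ofReal (Real.exp (-(Real.pi * ∑ i : Fin n, Real.exp (x i.castSucc - p.2 i))) *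
        pwr x p.2 * wgt p.2) * ‖chr μ (qq p)‖ₑ := by
    rintro ⟨v, y⟩
    have e2 : ∀ u : UT (n+1) → ℝ, ‖stf μ (u, x) (v, y)‖ₑ =
        ENNReal.ofReal (gss (u, x) (v, y)) *
          (‖chr μ (qq (v, y))‖ₑ * ENNReal.ofReal (wgt y)) := by
      intro u
      unfold stf
      rw [enorm_mul, enorm_mul]
      have h1 : ‖(gss (u, x) (v, y) : ℂ)‖ₑ = ENNReal.ofReal (gss (u, x) (v, y)) := by
        rw [← ofReal_norm, Complex.norm_real, Real.norm_of_nonneg]
        exact (Real.exp_pos _).le
      have h2 : ‖((wgt y : ℝ) : ℂ)‖ₑ = ENNReal.ofReal (wgt y) := by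
        rw [← ofReal_norm, Complex.norm_real, Real.norm_of_nonneg (wgt_pos y).le]
      rw [h1, h2]; ring
    simp only [e2]
    rw [lintegral_mul_const, gss_lint, ENNReal.ofReal_mul (q := wgt y)]
    · ring
    · exact mul_nonneg (Real.exp_pos _).le (Real.exp_pos _).le
    · refine ENNReal.measurable_ofReal.comp ?_
      exact ((gss_continuous x).comp
        (Continuous.prodMk continuous_id continuous_const)).measurable
  simp only [e1]
  have hcm : Measurable (fun p : CS n => ‖chr μ (qq p)‖ₑ) :=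
    ((chr_measurable μ).comp qq_continuous.measurable).enorm
  have hpm : Continuous (fun p : CS n =>
      Real.exp (-(Real.pi * ∑ i : Fin n, Real.exp (x i.castSucc - p.2 i))) *
        pwr x p.2 * wgt p.2) := by
    have := (wgt_continuous (n := n)).comp (continuous_snd (X := UT n → ℝ))
    unfold pwr
    fun_prop
  have hpc : Measurable (fun p : CS n => ENNReal.ofReal
      (Real.exp (-(Real.pi * ∑ i : Fin n, Real.exp (x i.castSucc - p.2 i))) *
        pwr x p.2 * wgt p.2) * ‖chr μ (qq p)‖ₑ) :=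
    (ENNReal.measurable_ofReal.comp hpm.measurable).mul hcm
  rw [lintegral_prod_symm' _ hpc]
  have e3 : ∀ y : Fin n → ℝ, ∫⁻ v : UT n → ℝ, ENNReal.ofReal
      (Real.exp (-(Real.pi * ∑ i : Fin n, Real.exp (x i.castSucc - y i))) *
        pwr x y * wgt y) * ‖chr μ (qq (v, y))‖ₑ ≤
      C * (ENNReal.ofReal (∏ i, (Real.exp (-(Real.pi * Real.exp (x i.castSucc - y i))) *
        Real.exp (-(β i / 2) * y i))) *
        ENNReal.ofReal (Real.exp (-(∑ i : Fin (n+1), ((i : ℕ) : ℝ) * x i) / 2))) := by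
    intro y
    rw [lintegral_const_mul' _ _ ENNReal.ofReal_ne_top]
    have h1 : ∀ v : UT n → ℝ, ‖chr μ (qq (v, y))‖ₑ =
        ENNReal.ofReal (Real.exp (-((ss n α).re * ∑ i, y i))) *
          ‖chr (cc n (fun j => α (j+1))) (qq (v, y))‖ₑ := by
      intro v
      rw [hμ, mm_eq', chr_shift, enorm_mul]
      congr 1
      rw [← ofReal_norm, Complex.norm_exp, Complex.re_mul_ofReal]
      congr 2
      simp
    simp only [h1]
    rw [lintegral_const_mul' _ _ ENNReal.ofReal_ne_top]
    calc _ ≤ ENNReal.ofReal (Real.exp (-(Real.pi * ∑ i : Fin n, Real.exp (x i.castSucc - y i))) *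
          pwr x y * wgt y) * (ENNReal.ofReal (Real.exp (-((ss n α).re * ∑ i, y i))) *
          (C * ENNReal.ofReal (Real.exp (∑ i : Fin n,
            ((α (n - 1 - i + 1)).re + (((n : ℝ) - 1) / 2 - (i : ℕ))) / 2 * y i)))) := by
          gcongr
          exact hb y
      _ = C * ENNReal.ofReal ((Real.exp (-(Real.pi * ∑ i : Fin n, Real.exp (x i.castSucc - y i))) *
          pwr x y * wgt y) * (Real.exp (-((ss n α).re * ∑ i, y i)) *
          Real.exp (∑ i : Fin n,
            ((α (n - 1 - i + 1)).re + (((n : ℝ) - 1) / 2 - (i : ℕ))) / 2 * y i))) := by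
          rw [ENNReal.ofReal_mul (q := Real.exp (-((ss n α).re * ∑ i, y i)) * _),
            ENNReal.ofReal_mul (Real.exp_pos _).le]
          · ring
          · exact mul_nonneg (mul_nonneg (Real.exp_pos _).le (Real.exp_pos _).le)
              (Real.exp_pos _).le
      _ = _ := by
          rw [← ENNReal.ofReal_mul (Finset.prod_nonneg fun i _ => by positivity)]
          congr 2
          unfold pwr wgt
          rw [Finset.prod_mul_distrib, ← Real.exp_sum, ← Real.exp_sum]
          simp only [← Real.exp_add]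
          congr 1
          rw [Finset.sum_neg_distrib, Finset.mul_sum]
          have hs : (ss n α).re = ((α 0).re + ((n : ℝ) + 1) / 2) / 2 := by
            unfold ss
            have : (α 0 + ((n : ℂ) + 1) / 2) / 2 =
                (α 0) * ((1/2 : ℝ) : ℂ) + (((((n : ℝ) + 1) / 2) / 2 : ℝ) : ℂ) := by
              push_cast; ring
            rw [this, Complex.add_re, Complex.re_mul_ofReal, Complex.ofReal_re]
            ring
          have hsum : ∑ i : Fin n, -(β i / 2) * y i =
              (∑ i : Fin n, ((n : ℝ) - (i : ℕ)) * y i) / 2 +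
              ∑ i : Fin n, (((i : ℕ) : ℝ) - ((n : ℝ) - 1) / 2) * y i +
              (-((ss n α).re * ∑ i, y i)) +
              ∑ i : Fin n, ((α (n - 1 - i + 1)).re + (((n : ℝ) - 1) / 2 - (i : ℕ))) / 2 * y i := by
            rw [hs, Finset.mul_sum, ← Finset.sum_neg_distrib, Finset.sum_div,
              ← Finset.sum_add_distrib, ← Finset.sum_add_distrib, ← Finset.sum_add_distrib]
            refine Finset.sum_congr rfl fun i _ => ?_
            have hi : n - 1 - (i : ℕ) + 1 = n - i := by omega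
            rw [hi]
            simp only [hβ, Complex.sub_re]
            ring
          rw [hsum]
          ring
  refine (lintegral_mono e3).trans ?_
  rw [lintegral_const_mul' _ _ hC, lintegral_mul_const' _ _ ENNReal.ofReal_ne_top,
    prod_real_lint (fun i => x i.castSucc) β hβ0, ← hGp,
    ← ENNReal.ofReal_mul (mul_nonneg (Finset.prod_nonneg fun i _ =>
      integral_nonneg fun _ => by positivity) (Real.exp_pos _).le), mul_assoc, ← Real.exp_add]
  gcongr
  apply le_of_eq
  ring

/-- The absolute bound -/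
theorem MM_bound (n : ℕ) : ∀ (α : ℕ → ℂ), Dom n α → ∃ C : ENNReal, C ≠ ⊤ ∧ ∀ x : Fin n → ℝ,
    ∫⁻ u : UT n → ℝ, ‖chr (cc n α) (qq (u, x))‖ₑ ≤ C * ENNReal.ofReal
      (Real.exp (∑ i : Fin n, ((α (n - 1 - i)).re + (((n : ℝ) - 1) / 2 - (i : ℕ))) / 2 * x i)) := by
  induction n with
  | zero =>
    intro α _
    refine ⟨volume (univ : Set (UT 0 → ℝ)), ?_, fun x => ?_⟩
    · rw [volume_pi, Measure.pi_empty_univ]; exact ENNReal.one_ne_top
    · simp [chr]
  | succ n ih =>
    intro α hα
    obtain ⟨C, hC, hb⟩ := ih _ hα.tail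
    set μ := mm n α with hμ
    have hμpos := mm_gam_pos hα
    set β : Fin n → ℝ := fun i => (α 0 - α (n - i)).re with hβ
    have hβ0 : ∀ i, 0 < β i := fun i => hα.pos (n - i) 0 (by omega) (by omega)
    set Gp : ℝ := ∏ i, ∫ y : ℝ, Real.exp (-(Real.pi * Real.exp (-y))) *
      Real.exp (-(β i / 2) * y) with hGp
    have hg0 : gmf μ ≠ 0 := by
      unfold gmf
      refine Finset.prod_ne_zero_iff.2 fun i _ => ?_
      exact Complex.Gammaℝ_ne_zero_of_re_pos (hμpos i)
    -- the double integral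
    have key := key_bound n α hα C hC hb
    have hGpc : gpc n α = Gp := rfl
    rw [hGpc] at key
    refine ⟨‖gmf μ‖ₑ⁻¹ * C * ENNReal.ofReal Gp, ?_, fun x => ?_⟩
    · refine ENNReal.mul_ne_top (ENNReal.mul_ne_top ?_ hC) ENNReal.ofReal_ne_top
      exact ENNReal.inv_ne_top.2 (by simpa using hg0)
    · have e1 : ∀ u : UT (n+1) → ℝ, ‖chr (cc (n+1) α) (qq (u, x))‖ₑ ≤
          ENNReal.ofReal (Real.exp ((cc (n+1) α 0).re * ∑ i, x i)) *
          (‖gmf μ‖ₑ⁻¹ * ∫⁻ p : CS n, ‖stf μ (u, x) p‖ₑ ∂(volume.prod volume)) := by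
        intro u
        rw [chr_split, enorm_mul, mm_eq]
        have h1 : ‖Complex.exp (cc (n+1) α 0 * ((∑ i, x i : ℝ) : ℂ))‖ₑ =
            ENNReal.ofReal (Real.exp ((cc (n+1) α 0).re * ∑ i, x i)) := by
          rw [← ofReal_norm, Complex.norm_exp, Complex.re_mul_ofReal]
        rw [h1]
        gcongr
        obtain ⟨-, h2⟩ := star_identity μ hμpos (u, x)
        have h3 : ‖gmf μ‖ₑ * ‖chr μ (tl (qq (u, x)))‖ₑ ≤
            ∫⁻ p : CS n, ‖stf μ (u, x) p‖ₑ ∂(volume.prod volume) := by
          rw [← enorm_mul, ← h2]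
          exact enorm_integral_le_lintegral_enorm _
        rw [mul_comm (‖gmf μ‖ₑ⁻¹), ← div_eq_mul_inv, ENNReal.le_div_iff_mul_le
          (Or.inl (by simpa using hg0)) (Or.inl enorm_ne_top), mul_comm]
        exact h3
      refine (lintegral_mono e1).trans ?_
      have hmeas : Measurable (fun z : (UT (n+1) → ℝ) × CS n => ‖stf μ (z.1, x) z.2‖ₑ) :=
        (stf_measurable μ x).enorm
      rw [lintegral_const_mul' _ _ ENNReal.ofReal_ne_top,
        lintegral_const_mul' _ _ (ENNReal.inv_ne_top.2 (by simpa using hg0)),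
        lintegral_lintegral_swap hmeas.aemeasurable]
      calc _ ≤ ENNReal.ofReal (Real.exp ((cc (n+1) α 0).re * ∑ i, x i)) *
            (‖gmf μ‖ₑ⁻¹ * (C * ENNReal.ofReal (Gp * Real.exp (-(∑ i : Fin n, β i / 2 * x i.castSucc) -
          (∑ i : Fin (n+1), ((i : ℕ) : ℝ) * x i) / 2)))) := by
            gcongr
            exact key x
        _ = ‖gmf μ‖ₑ⁻¹ * C * ENNReal.ofReal Gp *
            ENNReal.ofReal (Real.exp ((cc (n+1) α 0).re * ∑ i, x i) *
              Real.exp (-(∑ i : Fin n, β i / 2 * x i.castSucc) -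
          (∑ i : Fin (n+1), ((i : ℕ) : ℝ) * x i) / 2)) := by
            rw [ENNReal.ofReal_mul (p := Gp) (Finset.prod_nonneg fun i _ =>
              integral_nonneg fun _ => by positivity), ENNReal.ofReal_mul (Real.exp_pos _).le]
            ring
        _ = _ := by
            congr 2
            rw [← Real.exp_add]
            congr 1
            have hc0 : (cc (n+1) α 0).re = ((α 0).re + (n : ℝ) / 2) / 2 := by
              unfold cc
              have : (α ((0 : Fin (n+1)) : ℕ) + ((((n+1 : ℕ) : ℂ) - 1) / 2 - ((0 : Fin (n+1)) : ℕ))) / 2 =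
                  (α 0) * ((1/2 : ℝ) : ℂ) + ((((n : ℝ) / 2) / 2 : ℝ) : ℂ) := by
                simp only [Fin.val_zero]
                push_cast; ring
              rw [this, Complex.add_re, Complex.re_mul_ofReal, Complex.ofReal_re]
              ring
            rw [hc0]
            simp only [Fin.sum_univ_castSucc, Fin.val_castSucc, Fin.val_last]
            have h1 : ∑ i : Fin n, ((α (n + 1 - 1 - i)).re + ((((n+1 : ℕ) : ℝ) - 1) / 2 - (i : ℕ))) / 2 *
                x i.castSucc = ((α 0).re + (n : ℝ) / 2) / 2 * ∑ i : Fin n, x i.castSucc -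
                ∑ i : Fin n, β i / 2 * x i.castSucc -
                (∑ i : Fin n, ((i : ℕ) : ℝ) * x i.castSucc) / 2 := by
              rw [Finset.mul_sum, Finset.sum_div, ← Finset.sum_sub_distrib,
                ← Finset.sum_sub_distrib]
              refine Finset.sum_congr rfl fun i _ => ?_
              simp only [hβ, Complex.sub_re]
              have : n + 1 - 1 - (i : ℕ) = n - i := by omega
              rw [this]
              push_cast
              ring
            rw [h1]
            have h2 : n + 1 - 1 - n = 0 := by omega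
            rw [h2]
            push_cast
            ring

end Pool.Agent.MP2f3d29
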