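import Mathlib
import Pool.Agent.MP_2f3d29_nt.D7
import Pool.Agent.MP_2f3d29_nt.B2

set_option autoImplicit false

open MeasureTheory Set

namespace Pool.Agent.MP2f3d29

variable {n : ℕ}

attribute [local instance] matMS matBS

/-- the conjugate additive character -/
noncomputable def psb (u : UT n → ℝ) : ℂ := Complex.exp (-(2 * Real.pi * Complex.I * psi u))

theorem psb_continuous : Continuous (psb : (UT n → ℝ) → ℂ) := by
  unfold psb
  have := psi_continuous (n := n)
  fun_prop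

theorem psb_norm (u : UT n → ℝ) : ‖psb u‖ = 1 := by
  unfold psb
  rw [Complex.norm_exp]
  have : (-(2 * Real.pi * Complex.I * psi u) : ℂ) = ((-(2 * Real.pi * psi u) : ℝ) : ℂ) * Complex.I := by
    push_cast; ring
  rw [this, Complex.re_ofReal_mul, Complex.I_re, mul_zero, Real.exp_zero]

theorem psb_mul (v : UT n → ℝ) (u : UT (n+1) → ℝ) :
    psb (mulU (joinU (v, 0)) u) = psb v * psb u := by
  unfold psb
  rw [psi_mul, psi_joinU_zero, ← Complex.exp_add]
  congr 1
  push_cast; ring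

/-- the Jacquet integral in logarithmic coordinates -/
noncomputable def JJ (n : ℕ) (α : ℕ → ℂ) (x : Fin n → ℝ) : ℂ :=
  ∫ u : UT n → ℝ, chr (cc n α) (qq (u, x)) * psb u

theorem MM_integrable (α : ℕ → ℂ) (hα : Dom n α) (x : Fin n → ℝ) :
    Integrable (fun u : UT n → ℝ => chr (cc n α) (qq (u, x)) * psb u) := by
  obtain ⟨C, hC, hb⟩ := MM_bound n α hα
  have hm : Measurable (fun u : UT n → ℝ => chr (cc n α) (qq (u, x))) :=
    (chr_measurable _).comp (qq_continuous.comp
      (Continuous.prodMk continuous_id continuous_const)).measurable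
  refine ⟨(hm.mul psb_continuous.measurable).aestronglyMeasurable, ?_⟩
  unfold HasFiniteIntegral
  have : ∀ u : UT n → ℝ, ‖chr (cc n α) (qq (u, x)) * psb u‖ₑ = ‖chr (cc n α) (qq (u, x))‖ₑ := by
    intro u
    rw [enorm_mul, ← ofReal_norm (psb u), psb_norm, ENNReal.ofReal_one, mul_one]
  simp only [this]
  exact (hb x).trans_lt (ENNReal.mul_lt_top hC.lt_top ENNReal.ofReal_lt_top)

/-- the joint integrand -/
noncomputable def FF (n : ℕ) (α : ℕ → ℂ) (x : Fin (n+1) → ℝ) (z : (UT (n+1) → ℝ) × CS n) : ℂ :=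
  stf (mm n α) (z.1, x) z.2 * psb z.1

theorem FF_integrable (α : ℕ → ℂ) (hα : Dom (n+1) α) (x : Fin (n+1) → ℝ) :
    Integrable (FF n α x) (volume.prod (volume.prod volume)) := by
  obtain ⟨C, hC, hb⟩ := MM_bound n _ hα.tail
  have hm : Measurable (FF n α x) :=
    (stf_measurable (mm n α) x).mul (psb_continuous.measurable.comp measurable_fst)
  refine ⟨hm.aestronglyMeasurable, ?_⟩
  unfold HasFiniteIntegral
  rw [lintegral_prod_symm' _ hm.enorm]
  have : ∀ (u : UT (n+1) → ℝ) (p : CS n), ‖FF n α x (u, p)‖ₑ = ‖stf (mm n α) (u, x) p‖ₑ := by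
    intro u p
    unfold FF
    rw [enorm_mul, ← ofReal_norm (psb u), psb_norm, ENNReal.ofReal_one, mul_one]
  simp only [this]
  exact (key_bound n α hα C hC hb x).trans_lt (ENNReal.mul_lt_top hC.lt_top ENNReal.ofReal_lt_top)

/-- the kernel value -/
noncomputable def Kv (x : Fin (n+1) → ℝ) (y : Fin n → ℝ) : ℝ :=
  Real.exp (-(Real.pi * ∑ i : Fin n, (Real.exp (x i.castSucc - y i) +
        Real.exp (y i - x i.succ)))) * pwr x y

theorem FF_inner (α : ℕ → ℂ) (x : Fin (n+1) → ℝ) (v : UT n → ℝ) (y : Fin n → ℝ) :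
    ∫ u : UT (n+1) → ℝ, FF n α x (u, (v, y)) =
      (chr (mm n α) (qq (v, y)) * psb v) * ((wgt y * Kv x y : ℝ) : ℂ) := by
  have h1 : ∀ u : UT (n+1) → ℝ, FF n α x (u, (v, y)) =
      (chr (mm n α) (qq (v, y)) * (wgt y : ℂ)) * ((gss (u, x) (v, y) : ℂ) * psb u) := by
    intro u
    unfold FF stf
    ring
  simp only [h1]
  rw [integral_const_mul]
  have hmp := mulU_left_mp (joinU (v, (0 : Fin n → ℝ)))
  have hc : Continuous (fun u : UT (n+1) → ℝ => (gss (u, x) (v, y) : ℂ) * psb u) := by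
    have hg : Continuous (fun u : UT (n+1) → ℝ => gss (u, x) (v, y)) :=
      (gss_continuous x).comp (Continuous.prodMk continuous_id continuous_const)
    exact (Complex.continuous_ofReal.comp hg).mul psb_continuous
  have h2 := integral_map (φ := fun u => mulU (joinU (v, (0 : Fin n → ℝ))) u)
    (μ := (volume : Measure (UT (n+1) → ℝ)))
    (f := fun u : UT (n+1) → ℝ => (gss (u, x) (v, y) : ℂ) * psb u)
    hmp.measurable.aemeasurable hc.aestronglyMeasurable
  rw [hmp.map_eq] at h2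
  rw [h2]
  simp only [gss_subst, psb_mul]
  obtain ⟨-, h3⟩ := ker_char x y
  have h4 : ∀ u : UT (n+1) → ℝ,
      ((Real.exp (-(Real.pi * ∑ i : Fin n, Real.exp (-y i) * qq (u, x) i.castSucc i.castSucc)) : ℝ) : ℂ) *
        (psb v * psb u) = psb v * (((Real.exp (-(Real.pi * ∑ i : Fin n, Real.exp (-y i) *
          qq (u, x) i.castSucc i.castSucc)) : ℝ) : ℂ) *
        Complex.exp (-(2 * Real.pi * Complex.I * psi u))) := by
    intro u
    unfold psb
    ring
  simp only [h4]
  rw [integral_const_mul, h3]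
  unfold Kv
  push_cast
  ring

theorem JJ_rec (α : ℕ → ℂ) (hα : Dom (n+1) α) (x : Fin (n+1) → ℝ) :
    gmf (mm n α) * JJ (n+1) α x = Complex.exp (cc (n+1) α 0 * ((∑ i, x i : ℝ) : ℂ)) *
      ∫ y : Fin n → ℝ, ((wgt y * Kv x y : ℝ) : ℂ) *
        (Complex.exp (-ss n α * ((∑ i, y i : ℝ) : ℂ)) * JJ n (fun j => α (j+1)) y) := by
  have hF := FF_integrable α hα x
  have hμ := mm_gam_pos hα
  have e1 : gmf (mm n α) * JJ (n+1) α x = Complex.exp (cc (n+1) α 0 * ((∑ i, x i : ℝ) : ℂ)) *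
      ∫ u : UT (n+1) → ℝ, ∫ p, FF n α x (u, p) ∂(volume.prod volume) := by
    unfold JJ
    rw [← integral_const_mul, ← integral_const_mul]
    refine integral_congr_ae (Filter.Eventually.of_forall fun u => ?_)
    simp only
    unfold FF
    simp only
    rw [integral_mul_const, (star_identity (mm n α) hμ (u, x)).2, chr_split, mm_eq]
    ring
  rw [e1]
  congr 1
  have e2 : ∫ u : UT (n+1) → ℝ, ∫ p, FF n α x (u, p) ∂(volume.prod volume) =
      ∫ p : CS n, ∫ u : UT (n+1) → ℝ, FF n α x (u, p) ∂volume ∂(volume.prod volume) := by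
    rw [← integral_prod _ hF, integral_prod_symm _ hF]
  rw [e2]
  have hG : Integrable (fun p : CS n => ∫ u : UT (n+1) → ℝ, FF n α x (u, p))
    (volume.prod volume) := hF.integral_prod_right
  rw [integral_prod_symm _ hG]
  refine integral_congr_ae (Filter.Eventually.of_forall fun y => ?_)
  simp only [FF_inner]
  rw [integral_mul_const, mul_comm]
  congr 1
  unfold JJ
  rw [← integral_const_mul]
  refine integral_congr_ae (Filter.Eventually.of_forall fun v => ?_)
  simp only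
  rw [mm_eq', chr_shift]
  ring

/-- shifted coordinates -/
noncomputable def xtl (x : Fin n → ℝ) (i : Fin n) : ℝ :=
  x i + (((n : ℝ) - 1) - 2 * (i : ℕ)) * Real.log Real.pi

theorem sum_centered (n : ℕ) : ∑ i : Fin n, (((n : ℝ) - 1) - 2 * (i : ℕ)) = 0 := by
  rw [Finset.sum_sub_distrib, ← Finset.mul_sum]
  have h : ∑ i : Fin n, ((i : ℕ) : ℝ) = (n : ℝ) * ((n : ℝ) - 1) / 2 := by
    rw [← Finset.sum_range (fun i => (i : ℝ))]
    induction n with
    | zero => simp
    | succ n ih =>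
      rw [Finset.sum_range_succ, ih]
      push_cast; ring
  rw [h]
  simp only [Finset.sum_const, Finset.card_univ, Fintype.card_fin, nsmul_eq_mul]
  ring

theorem xtl_sum (x : Fin n → ℝ) : ∑ i, xtl x i = ∑ i, x i := by
  unfold xtl
  rw [Finset.sum_add_distrib, ← Finset.sum_mul, sum_centered, zero_mul, add_zero]

theorem Kre_xtl (x : Fin (n+1) → ℝ) (y : Fin n → ℝ) : Kre (xtl x) (xtl y) =
    Real.exp (-(Real.pi * ∑ i : Fin n, (Real.exp (x i.castSucc - y i) +
        Real.exp (y i - x i.succ)))) := by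
  unfold Kre
  rw [← Real.exp_sum, Finset.sum_neg_distrib, Finset.mul_sum]
  congr 2
  refine Finset.sum_congr rfl fun i _ => ?_
  unfold xtl
  simp only [Fin.val_castSucc, Fin.val_succ]
  rw [mul_add]
  congr 1
  · rw [show x i.castSucc + ((((n+1 : ℕ) : ℝ) - 1) - 2 * (i : ℕ)) * Real.log Real.pi -
      (y i + (((n : ℝ) - 1) - 2 * (i : ℕ)) * Real.log Real.pi) =
      Real.log Real.pi + (x i.castSucc - y i) by push_cast; ring, Real.exp_add,
      Real.exp_log Real.pi_pos]
  · rw [show y i + (((n : ℝ) - 1) - 2 * (i : ℕ)) * Real.log Real.pi -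
      (x i.succ + ((((n+1 : ℕ) : ℝ) - 1) - 2 * ((i + 1 : ℕ) : ℝ)) * Real.log Real.pi) =
      Real.log Real.pi + (y i - x i.succ) by push_cast; ring, Real.exp_add,
      Real.exp_log Real.pi_pos]

/-- the product of Gamma factors, recursively -/
noncomputable def GG : (n : ℕ) → (ℕ → ℂ) → ℂ
  | 0, _ => 1
  | n+1, α => gmf (mm n α) * GG n (fun j => α (j+1))

/-- **Jacquet = Givental** -/
theorem jacquet_givental (n : ℕ) : ∀ α : ℕ → ℂ, Dom n α → ∀ x : Fin n → ℝ,
    GG n α * JJ n α x = Complex.exp (((∑ i : Fin n, (((n : ℝ) - 1) / 2 - (i : ℕ)) / 2 * x i : ℝ) : ℂ)) *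
      Phi n (fun i => α i / 2) (xtl x) := by
  induction n with
  | zero =>
    intro α _ x
    have hv : (volume : Measure (UT 0 → ℝ)) univ = 1 := by
      rw [volume_pi]; exact Measure.pi_empty_univ _
    simp [GG, JJ, Phi, chr, psb, psi, measureReal_def, hv]
  | succ n ih =>
    intro α hα x
    have h1 : GG (n+1) α * JJ (n+1) α x =
        GG n (fun j => α (j+1)) * (gmf (mm n α) * JJ (n+1) α x) := by
      show gmf (mm n α) * GG n (fun j => α (j+1)) * JJ (n+1) α x = _
      ring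
    rw [h1, JJ_rec α hα x, Phi_succ]
    have e1 := integral_add_right_eq_self (μ := (volume : Measure (Fin n → ℝ)))
      (fun z : Fin n → ℝ =>
      Complex.exp (α 0 / 2 * ((∑ i, xtl x i - ∑ i, z i : ℝ) : ℂ)) *
        (Kre (xtl x) z : ℂ) * Phi n (fun i => α (i+1) / 2) z)
      (fun i : Fin n => (((n : ℝ) - 1) - 2 * (i : ℕ)) * Real.log Real.pi)
    have e2 : ∀ y : Fin n → ℝ, (y + fun i : Fin n => (((n : ℝ) - 1) - 2 * (i : ℕ)) * Real.log Real.pi) =
        xtl y := fun y => rfl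
    simp only [e2] at e1
    rw [← e1, ← integral_const_mul, ← integral_const_mul, ← integral_const_mul]
    refine integral_congr_ae (Filter.Eventually.of_forall fun y => ?_)
    simp only
    have h2 := ih (fun j => α (j+1)) hα.tail y
    rw [Kre_xtl, xtl_sum, xtl_sum]
    set E := Real.exp (-(Real.pi * ∑ i : Fin n, (Real.exp (x i.castSucc - y i) +
        Real.exp (y i - x i.succ)))) with hE
    have h3 : GG n (fun j => α (j+1)) * (Complex.exp (cc (n+1) α 0 * ((∑ i, x i : ℝ) : ℂ)) *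
        (((wgt y * Kv x y : ℝ) : ℂ) * (Complex.exp (-ss n α * ((∑ i, y i : ℝ) : ℂ)) *
          JJ n (fun j => α (j+1)) y))) =
        (Complex.exp (cc (n+1) α 0 * ((∑ i, x i : ℝ) : ℂ)) * ((wgt y * Kv x y : ℝ) : ℂ) *
          Complex.exp (-ss n α * ((∑ i, y i : ℝ) : ℂ))) *
          (GG n (fun j => α (j+1)) * JJ n (fun j => α (j+1)) y) := by ring
    rw [h3, h2]
    have h4 : Complex.exp (cc (n+1) α 0 * ((∑ i, x i : ℝ) : ℂ)) * ((wgt y * Kv x y : ℝ) : ℂ) *
          Complex.exp (-ss n α * ((∑ i, y i : ℝ) : ℂ)) *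
          Complex.exp (((∑ i : Fin n, (((n : ℝ) - 1) / 2 - (i : ℕ)) / 2 * y i : ℝ) : ℂ)) =
        Complex.exp (((∑ i : Fin (n+1), ((((n+1 : ℕ) : ℝ) - 1) / 2 - (i : ℕ)) / 2 * x i : ℝ) : ℂ)) *
          Complex.exp (α 0 / 2 * ((∑ i, x i - ∑ i, y i : ℝ) : ℂ)) * (E : ℂ) := by
      have hK : Kv x y = E * pwr x y := rfl
      rw [hK]
      clear_value E
      unfold wgt pwr
      rw [Complex.ofReal_mul, Complex.ofReal_mul, Complex.ofReal_exp, Complex.ofReal_exp]
      rw [show ∀ a b c d e f : ℂ, a * (b * (e * c)) * d * f = (a * b * c * d * f) * e from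
        fun a b c d e f => by ring]
      rw [← Complex.exp_add, ← Complex.exp_add, ← Complex.exp_add, ← Complex.exp_add,
        ← Complex.exp_add]
      congr 2
      unfold cc ss
      simp only [Fin.val_zero]
      have hx : ∑ i : Fin (n+1), ((((n+1 : ℕ) : ℂ) - 1) / 2 - ((i : ℕ) : ℂ)) / 2 * (x i : ℂ) =
          ((n : ℂ) / 4) * ∑ i, (x i : ℂ) - (∑ i : Fin (n+1), ((i : ℕ) : ℂ) * (x i : ℂ)) / 2 := by
        rw [Finset.mul_sum, Finset.sum_div, ← Finset.sum_sub_distrib]
        refine Finset.sum_congr rfl fun i _ => ?_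
        push_cast; ring
      have hy : ∑ i : Fin n, (((i : ℕ) : ℂ) - ((n : ℂ) - 1) / 2) * (y i : ℂ) +
          (∑ i : Fin n, ((n : ℂ) - ((i : ℕ) : ℂ)) * (y i : ℂ)) / 2 +
          ∑ i : Fin n, (((n : ℂ) - 1) / 2 - ((i : ℕ) : ℂ)) / 2 * (y i : ℂ) =
          (((n : ℂ) + 1) / 4) * ∑ i, (y i : ℂ) := by
        rw [Finset.mul_sum, Finset.sum_div, ← Finset.sum_add_distrib, ← Finset.sum_add_distrib]
        refine Finset.sum_congr rfl fun i _ => ?_
        ring
      push_cast at hx hy ⊢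
      linear_combination hy - hx
    calc _ = (Complex.exp (cc (n+1) α 0 * ((∑ i, x i : ℝ) : ℂ)) * ((wgt y * Kv x y : ℝ) : ℂ) *
          Complex.exp (-ss n α * ((∑ i, y i : ℝ) : ℂ)) *
          Complex.exp (((∑ i : Fin n, (((n : ℝ) - 1) / 2 - (i : ℕ)) / 2 * y i : ℝ) : ℂ))) *
          Phi n (fun i => α (i+1) / 2) (xtl y) := by ring
      _ = _ := by rw [h4]; ring

end Pool.Agent.MP2f3d29
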