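import Mathlib
import Pool.Agent.MP_2f3d29_nt.D8

set_option autoImplicit false

open MeasureTheory Set

namespace Pool.Agent.MP2f3d29

variable {k : ℕ}

/-- `2 log t_i` -/
noncomputable def lX (y : Fin k → ℝ) (i : Fin (k+1)) : ℝ :=
  ∑ j : Fin k, if (j : ℕ) + i < k then 2 * Real.log (y j) else 0

theorem torus_eq (y : Fin k → ℝ) (hy : ∀ i, 0 < y i) :
    torus y = Matrix.diagonal (fun i => Real.exp (lX y i / 2)) := by
  unfold torus lX
  congr 1
  funext i
  rw [Finset.sum_div, Real.exp_sum]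
  refine Finset.prod_congr rfl fun j _ => ?_
  split_ifs
  · rw [show 2 * Real.log (y j) / 2 = Real.log (y j) by ring, Real.exp_log (hy j)]
  · simp

theorem rho_sum (k : ℕ) : ∑ i, rhoC k i = 0 := by
  have h := sum_centered (k+1)
  have h2 : ∑ i : Fin (k+1), rhoC k i =
      (((∑ i : Fin (k+1), ((((k+1 : ℕ) : ℝ) - 1) - 2 * (i : ℕ)) : ℝ) : ℂ)) / 2 := by
    push_cast
    rw [Finset.sum_div]
    refine Finset.sum_congr rfl fun i _ => ?_
    unfold rhoC; ring
  rw [h2, h]; simp

/-- the power function in exponential form -/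
theorem power_exp (l : Fin (k+1) → ℂ) (y : Fin k → ℝ) (hy : ∀ i, 0 < y i) :
    ∏ i : Fin k, (y i : ℂ) ^
          (∑ j ∈ Finset.univ.filter (fun j : Fin (k+1) => (j : ℕ) + i < k), l j) =
      Complex.exp (∑ j, l j * (lX y j / 2 : ℝ)) := by
  have h1 : ∀ i : Fin k, (y i : ℂ) ^
      (∑ j ∈ Finset.univ.filter (fun j : Fin (k+1) => (j : ℕ) + i < k), l j) =
      Complex.exp (∑ j : Fin (k+1), if (i : ℕ) + j < k then l j * (Real.log (y i) : ℂ) else 0) := by
    intro i
    rw [Complex.cpow_def_of_ne_zero (by exact_mod_cast (hy i).ne'),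
      ← Complex.ofReal_log (hy i).le, Finset.mul_sum, Finset.sum_filter]
    congr 1
    refine Finset.sum_congr rfl fun j _ => ?_
    by_cases h : (i : ℕ) + j < k
    · rw [if_pos (by omega), if_pos h, mul_comm]
    · rw [if_neg (by omega), if_neg h]
  rw [Finset.prod_congr rfl (fun i _ => h1 i), ← Complex.exp_sum, Finset.sum_comm]
  congr 1
  refine Finset.sum_congr rfl fun j _ => ?_
  unfold lX
  rw [Finset.sum_div]
  push_cast
  rw [Finset.mul_sum]
  refine Finset.sum_congr rfl fun i _ => ?_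
  split_ifs
  · push_cast; ring
  · simp

theorem diag_half (x : Fin (k+1) → ℝ) :
    Matrix.diagonal (fun i => Real.exp (x i / 2)) * Matrix.diagonal (fun i => Real.exp (x i / 2)) =
      Matrix.diagonal (fun i => Real.exp (x i)) := by
  rw [Matrix.diagonal_mul_diagonal]
  congr 1
  funext i
  rw [← Real.exp_add]
  congr 1
  ring

/-- Gram matrix of a decomposed matrix -/
theorem gram_decomp (x : UT (k+1) → ℝ) (y : Fin k → ℝ) (hy : ∀ i, 0 < y i)
    (κ : Matrix (Fin (k+1)) (Fin (k+1)) ℝ) (hκ : κ ∈ Matrix.orthogonalGroup (Fin (k+1)) ℝ)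
    (r : ℝ) (hr : r ≠ 0) :
    (r • (unip x * torus y * κ)) * (r • (unip x * torus y * κ)).transpose =
      qq (x, fun i => Real.log (r ^ 2) + lX y i) := by
  have hκ' : κ * κ.transpose = 1 := by
    exact (Matrix.mem_orthogonalGroup_iff _ _).1 hκ
  unfold qq
  simp only
  rw [torus_eq y hy, Matrix.transpose_smul, Matrix.smul_mul, Matrix.mul_smul, smul_smul,
    Matrix.transpose_mul, Matrix.transpose_mul, Matrix.diagonal_transpose]
  have h1 : unip x * Matrix.diagonal (fun i => Real.exp (lX y i / 2)) * κ *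
      (κ.transpose * (Matrix.diagonal (fun i => Real.exp (lX y i / 2)) * (unip x).transpose)) =
      unip x * (Matrix.diagonal (fun i => Real.exp (lX y i))) * (unip x).transpose := by
    calc _ = unip x * Matrix.diagonal (fun i => Real.exp (lX y i / 2)) * (κ * κ.transpose) *
          (Matrix.diagonal (fun i => Real.exp (lX y i / 2)) * (unip x).transpose) := by
          simp only [Matrix.mul_assoc]
      _ = unip x * (Matrix.diagonal (fun i => Real.exp (lX y i / 2)) *
          Matrix.diagonal (fun i => Real.exp (lX y i / 2))) * (unip x).transpose := by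
          rw [hκ', Matrix.mul_one]; simp only [Matrix.mul_assoc]
      _ = _ := by rw [diag_half]
  rw [h1]
  have h2 : Matrix.diagonal (fun i => Real.exp (Real.log (r ^ 2) + lX y i)) =
      (r * r) • Matrix.diagonal (fun i => Real.exp (lX y i)) := by
    rw [← Matrix.diagonal_smul]
    congr 1
    funext i
    rw [Real.exp_add, Real.exp_log (by positivity), Pi.smul_apply, smul_eq_mul, sq]
  rw [h2]
  simp only [Matrix.mul_smul, Matrix.smul_mul]

/-- the `y`-coordinates from the diagonal exponents -/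
noncomputable def yOf (x0 : Fin (k+1) → ℝ) (i : Fin k) : ℝ :=
  Real.exp ((x0 ⟨k - 1 - i, by omega⟩ - x0 ⟨k - i, by omega⟩) / 2)

theorem lX_yOf (x0 : Fin (k+1) → ℝ) (j : Fin (k+1)) : lX (yOf x0) j = x0 j - x0 (Fin.last k) := by
  set X : ℕ → ℝ := fun i => if h : i < k + 1 then x0 ⟨i, h⟩ else 0 with hX
  have h1 : lX (yOf x0) j = ∑ i ∈ Finset.range (k - j), (X (k - (i + 1)) - X (k - i)) := by
    unfold lX yOf
    have e1 : ∀ i : Fin k, (if (i : ℕ) + j < k then
        2 * Real.log (Real.exp ((x0 ⟨k - 1 - i, by omega⟩ - x0 ⟨k - i, by omega⟩) / 2)) else 0) =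
        (fun i : ℕ => if i + j < k then (X (k - (i + 1)) - X (k - i)) else 0) i := by
      intro i
      simp only [hX]
      rw [Real.log_exp]
      split_ifs with h h1 h2
      · have : k - 1 - (i : ℕ) = k - (i + 1) := by omega
        simp only [this]; ring
      · omega
      · omega
      · omega
      · rfl
    rw [Finset.sum_congr rfl (fun i _ => e1 i), ← Finset.sum_range (fun i : ℕ =>
      if i + j < k then (X (k - (i + 1)) - X (k - i)) else 0), ← Finset.sum_filter]
    refine Finset.sum_congr ?_ fun _ _ => rfl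
    ext i
    simp only [Finset.mem_filter, Finset.mem_range]
    omega
  rw [h1, Finset.sum_range_sub (fun i => X (k - i))]
  have hj : k - (k - (j : ℕ)) = j := by omega
  rw [hj, Nat.sub_zero]
  simp only [hX]
  rw [dif_pos j.2, dif_pos (Nat.lt_succ_self k)]
  rfl

/-- evaluation of the power function through the Gram matrix -/
theorem power_gram {I : (Fin (k+1) → ℂ) → Matrix (Fin (k+1)) (Fin (k+1)) ℝ → ℂ} (hI : IsPower k I)
    (α : Fin (k+1) → ℂ) (hα : ∑ i, α i = 0) (g : Matrix (Fin (k+1)) (Fin (k+1)) ℝ)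
    (p0 : CS (k+1)) (hg : g * g.transpose = qq p0) :
    I α g = Complex.exp (∑ j, (α j + rhoC k j) * (p0.2 j / 2 : ℝ)) := by
  set y := yOf p0.2 with hy
  set r := Real.exp (p0.2 (Fin.last k) / 2) with hr
  have hy0 : ∀ i, 0 < y i := fun i => Real.exp_pos _
  have hr0 : r ≠ 0 := (Real.exp_pos _).ne'
  set B := r • (unip p0.1 * torus y) with hB
  have hBe : B = unip p0.1 * Matrix.diagonal (fun i => Real.exp (p0.2 i / 2)) := by
    rw [hB, torus_eq y hy0, ← Matrix.mul_smul, ← Matrix.diagonal_smul]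
    congr 2
    funext i
    rw [Pi.smul_apply, smul_eq_mul, hr, ← Real.exp_add, hy, lX_yOf]
    congr 1
    ring
  have hBdet : IsUnit B.det := by
    rw [hBe, Matrix.det_mul, unip_det, Matrix.det_diagonal, one_mul, isUnit_iff_ne_zero]
    exact Finset.prod_ne_zero_iff.2 fun i _ => (Real.exp_pos _).ne'
  have hBB : B * B.transpose = qq p0 := by
    rw [hBe, Matrix.transpose_mul, Matrix.diagonal_transpose]
    unfold qq
    calc _ = unip p0.1 * (Matrix.diagonal (fun i => Real.exp (p0.2 i / 2)) *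
          Matrix.diagonal (fun i => Real.exp (p0.2 i / 2))) * (unip p0.1).transpose := by
          simp only [Matrix.mul_assoc]
      _ = _ := by rw [diag_half]
  set κ := B⁻¹ * g with hκ
  have hBinv : B * B⁻¹ = 1 := Matrix.mul_nonsing_inv B hBdet
  have hBinv' : B⁻¹ * B = 1 := Matrix.nonsing_inv_mul B hBdet
  have hκo : κ ∈ Matrix.orthogonalGroup (Fin (k+1)) ℝ := by
    rw [Matrix.mem_orthogonalGroup_iff, hκ, Matrix.transpose_mul]
    calc B⁻¹ * g * (g.transpose * B⁻¹.transpose) = B⁻¹ * (g * g.transpose) * B⁻¹.transpose := by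
          simp only [Matrix.mul_assoc]
      _ = (B⁻¹ * B) * (B⁻¹ * B).transpose := by
          rw [hg, ← hBB, Matrix.transpose_mul]; simp only [Matrix.mul_assoc]
      _ = 1 := by rw [hBinv']; simp
  have hge : g = r • (unip p0.1 * torus y * κ) := by
    have : r • (unip p0.1 * torus y * κ) = B * κ := by
      rw [hB, Matrix.smul_mul]
    rw [this, hκ, ← Matrix.mul_assoc, hBinv, Matrix.one_mul]
  rw [hge, hI α hα p0.1 y hy0 κ hκo r hr0, power_exp _ y hy0]
  congr 1
  have h1 : ∀ j, (α j + rhoC k j) * ((lX y j / 2 : ℝ) : ℂ) =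
      (α j + rhoC k j) * ((p0.2 j / 2 : ℝ) : ℂ) -
        (α j + rhoC k j) * ((p0.2 (Fin.last k) / 2 : ℝ) : ℂ) := by
    intro j
    rw [hy, lX_yOf]
    push_cast; ring
  simp only [h1]
  rw [Finset.sum_sub_distrib, ← Finset.sum_mul, Finset.sum_add_distrib, hα, rho_sum, add_zero,
    zero_mul, sub_zero]

/-- an explicit power function -/
noncomputable def Iex (k : ℕ) (α : Fin (k+1) → ℂ) (g : Matrix (Fin (k+1)) (Fin (k+1)) ℝ) : ℂ :=
  Complex.exp (∑ j, (α j + rhoC k j) * ((lam (k+1) (g * g.transpose) j / 2 : ℝ) : ℂ))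

theorem Iex_isPower (k : ℕ) : IsPower k (Iex k) := by
  intro α hα x y hy κ hκ r hr
  unfold Iex
  rw [gram_decomp x y hy κ hκ r hr, lam_qq, power_exp _ y hy]
  congr 1
  have h1 : ∀ j, (α j + rhoC k j) * (((Real.log (r ^ 2) + lX y j) / 2 : ℝ) : ℂ) =
      (α j + rhoC k j) * ((lX y j / 2 : ℝ) : ℂ) +
        (α j + rhoC k j) * ((Real.log (r ^ 2) / 2 : ℝ) : ℂ) := by
    intro j
    push_cast; ring
  simp only [h1]
  rw [Finset.sum_add_distrib, ← Finset.sum_mul, Finset.sum_add_distrib, hα, rho_sum, add_zero,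
    zero_mul, add_zero]

theorem wLong_mul (M : Matrix (Fin (k+1)) (Fin (k+1)) ℝ) (i j : Fin (k+1)) :
    (wLong (k+1) * M) i j = M (Fin.rev i) j := by
  rw [Matrix.mul_apply]
  simp [wLong]

theorem gram_w (u : UT (k+1) → ℝ) (y : Fin k → ℝ) (hy : ∀ i, 0 < y i) :
    (wLong (k+1) * unip u * torus y) * (wLong (k+1) * unip u * torus y).transpose =
      rvM (qq (u, lX y)) := by
  have h1 : ∀ i j, (wLong (k+1) * unip u * torus y) i j = (unip u * torus y) (Fin.rev i) j := by
    intro i j
    rw [Matrix.mul_assoc, wLong_mul]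
  ext i j
  rw [Matrix.mul_apply, rvM_apply]
  simp only [Matrix.transpose_apply, h1]
  have h2 : qq (u, lX y) = (unip u * torus y) * (unip u * torus y).transpose := by
    rw [torus_eq y hy, Matrix.transpose_mul, Matrix.diagonal_transpose]
    unfold qq
    simp only
    rw [← diag_half]
    simp only [Matrix.mul_assoc]
  rw [h2, Matrix.mul_apply]
  simp only [Matrix.transpose_apply]

/-- extension of the parameters to a sequence -/
noncomputable def exN (α : Fin (k+1) → ℂ) (i : ℕ) : ℂ := if h : i < k + 1 then α ⟨i, h⟩ else 0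

theorem exN_fin (α : Fin (k+1) → ℂ) (i : Fin (k+1)) : exN α i = α i := by
  unfold exN; rw [dif_pos i.2]

theorem I_jacquet {I : (Fin (k+1) → ℂ) → Matrix (Fin (k+1)) (Fin (k+1)) ℝ → ℂ} (hI : IsPower k I)
    (α : Fin (k+1) → ℂ) (hα : ∑ i, α i = 0) (y : Fin k → ℝ) (hy : ∀ i, 0 < y i)
    (u : UT (k+1) → ℝ) :
    I α (wLong (k+1) * unip u * torus y) = chr (cc (k+1) (exN α)) (qq (u, lX y)) := by
  obtain ⟨p0, hp0⟩ := chol (rvM (qq (u, lX y))) ((rvM_posDef _).2 (qq_posDef _))
  rw [power_gram hI α hα _ p0 (by rw [gram_w u y hy, hp0])]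
  unfold chr
  rw [← hp0, lam_qq]
  congr 1
  refine Finset.sum_congr rfl fun j _ => ?_
  unfold cc rhoC
  rw [exN_fin]
  push_cast
  ring

theorem conj_psiChar (u : UT (k+1) → ℝ) : (starRingEnd ℂ) (psiChar u) = psb u := by
  unfold psiChar psb psi
  rw [← Complex.exp_conj]
  congr 1
  rw [sum_super]
  have h : ∀ i : Fin k, unip u i.castSucc i.succ =
      u ⟨(i.castSucc, i.succ), by rw [Fin.lt_def]; simp⟩ := fun i =>
    unip_upper u ⟨(i.castSucc, i.succ), by rw [Fin.lt_def]; simp⟩
  simp only [h, map_mul, Complex.conj_ofReal, Complex.conj_I]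
  have : (starRingEnd ℂ) 2 = 2 := Complex.conj_ofNat 2
  rw [this]
  ring

theorem prod_UT {M : Type*} [CommMonoid M] {n : ℕ} (f : Fin n → Fin n → M) :
    ∏ p : UT n, f p.1.1 p.1.2 = ∏ i : Fin n, ∏ j : Fin n, if i < j then f i j else 1 := by
  rw [← Fintype.prod_prod_type' (f := fun i j : Fin n => if i < j then f i j else 1),
    ← Finset.prod_filter]
  exact (Finset.prod_subtype (Finset.univ.filter (fun p : Fin n × Fin n => p.1 < p.2))
    (by simp) (fun p => f p.1 p.2)).symm

theorem GG_eq (n : ℕ) : ∀ α : ℕ → ℂ, GG n α =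
    ∏ i : Fin n, ∏ j : Fin n, if i < j then Complex.Gammaℝ (1 + α i - α j) else 1 := by
  induction n with
  | zero => intro α; simp [GG]
  | succ n ih =>
    intro α
    show gmf (mm n α) * GG n (fun j => α (j+1)) = _
    rw [ih, Fin.prod_univ_succ]
    congr 1
    · unfold gmf
      rw [Fin.prod_univ_succ]
      simp only [lt_irrefl, if_false, one_mul]
      refine Finset.prod_congr rfl fun i _ => ?_
      rw [if_pos (Fin.succ_pos i), mm_gam]
      simp
    · refine Finset.prod_congr rfl fun i _ => ?_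
      rw [Fin.prod_univ_succ, if_neg (by simp), one_mul]
      refine Finset.prod_congr rfl fun j _ => ?_
      simp only [Fin.succ_lt_succ_iff, Fin.val_succ]

theorem gammaFactor_eq (α : Fin (k+1) → ℂ) : gammaFactor α = GG (k+1) (exN α) := by
  rw [GG_eq]
  unfold gammaFactor
  rw [prod_UT (fun i j : Fin (k+1) => Complex.Gamma ((1 + α i - α j) / 2) /
    (Real.pi : ℂ) ^ ((1 + α i - α j) / 2))]
  refine Finset.prod_congr rfl fun i _ => Finset.prod_congr rfl fun j _ => ?_
  rw [exN_fin, exN_fin, Complex.Gammaℝ_def, neg_div, Complex.cpow_neg]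
  split_ifs
  · rw [div_eq_mul_inv, mul_comm]
  · rfl

theorem dom_exN (α : Fin (k+1) → ℂ) (h : Dominant α) : Dom (k+1) (exN α) := by
  intro i hi
  have := h ⟨i, by omega⟩
  unfold exN
  rw [dif_pos (by omega), dif_pos (by omega)]
  exact this

/-- the entire function -/
noncomputable def Wg (k : ℕ) (α : Fin (k+1) → ℂ) (y : Fin k → ℝ) : ℂ :=
  Complex.exp (((∑ i : Fin (k+1), ((((k+1 : ℕ) : ℝ) - 1) / 2 - (i : ℕ)) / 2 * lX y i : ℝ) : ℂ)) *
    Phi (k+1) (fun i => exN α i / 2) (xtl (lX y))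

theorem jacquet_integrable {I : (Fin (k+1) → ℂ) → Matrix (Fin (k+1)) (Fin (k+1)) ℝ → ℂ}
    (hI : IsPower k I) (α : Fin (k+1) → ℂ) (hα : ∑ i, α i = 0) (hd : Dominant α)
    (y : Fin k → ℝ) (hy : ∀ i, 0 < y i) : Integrable (jacquetIntegrand I α y) := by
  have := MM_integrable (exN α) (dom_exN α hd) (lX y)
  refine this.congr (Filter.Eventually.of_forall fun u => ?_)
  simp only
  unfold jacquetIntegrand
  rw [I_jacquet hI α hα y hy, conj_psiChar]

theorem jacquet_value {I : (Fin (k+1) → ℂ) → Matrix (Fin (k+1)) (Fin (k+1)) ℝ → ℂ}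
    (hI : IsPower k I) (α : Fin (k+1) → ℂ) (hα : ∑ i, α i = 0) (hd : Dominant α)
    (y : Fin k → ℝ) (hy : ∀ i, 0 < y i) :
    gammaFactor α * ∫ u : UT (k+1) → ℝ, jacquetIntegrand I α y u = Wg k α y := by
  have h := jacquet_givental (k+1) (exN α) (dom_exN α hd) (lX y)
  rw [gammaFactor_eq]
  unfold Wg
  rw [← h]
  congr 1
  unfold JJ
  refine integral_congr_ae (Filter.Eventually.of_forall fun u => ?_)
  simp only
  unfold jacquetIntegrand
  rw [I_jacquet hI α hα y hy, conj_psiChar]

end Pool.Agent.MP2f3d29
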