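import Mathlib
import Pool.Agent.MP_2f3d29_nt.B4

set_option autoImplicit false

open MeasureTheory Set Filter Topology

namespace Pool.Agent.MP2f3d29

variable {n d : ℕ}

/-- the integrand of `Phi (n+1)` -/
noncomputable def phI (n : ℕ) (a : ℕ → ℂ) (x : Fin (n+1) → ℝ) (z : Fin n → ℝ) : ℂ :=
  Complex.exp (a 0 * ((∑ i, x i - ∑ i, z i : ℝ) : ℂ)) * (Kre x z : ℂ) * Phi n (fun i => a (i+1)) z

theorem Phi_eq_phI (n : ℕ) (a : ℕ → ℂ) (x : Fin (n+1) → ℝ) : Phi (n+1) a x = ∫ z, phI n a x z := rfl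

theorem phI_bound (n : ℕ) (R S : ℝ) (hR : 0 ≤ R) : ∃ C : ℝ, 0 ≤ C ∧
    ∀ a : ℕ → ℂ, (∀ i, ‖a i‖ ≤ R) → ∀ x : Fin (n+1) → ℝ, ∑ i, |x i| ≤ S → ∀ z : Fin n → ℝ,
    ‖phI n a x z‖ ≤ C * Real.exp (-(∑ i, |z i|)) := by
  obtain ⟨C, M, hC, hM, h⟩ := Phi_crude n R hR
  obtain ⟨CK, hCK, hK⟩ := Kre_bound (n := n) (R + M + 1) (by linarith)
  refine ⟨C * CK * Real.exp ((R + 2 * (R + M + 1)) * |S|), by positivity, fun a ha x hx z => ?_⟩
  unfold phI
  rw [norm_mul, norm_mul, Complex.norm_real, Real.norm_of_nonneg (Kre_pos x z).le]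
  have h1 : ‖Complex.exp (a 0 * ((∑ i, x i - ∑ i, z i : ℝ) : ℂ))‖ ≤
      Real.exp (R * (∑ i, |x i| + ∑ i, |z i|)) := by
    refine (norm_cexp_mul_le _ _).trans ?_
    rw [one_mul]
    apply Real.exp_le_exp.2
    have h2 : |∑ i, x i - ∑ i, z i| ≤ ∑ i, |x i| + ∑ i, |z i| :=
      (abs_sub _ _).trans (add_le_add (Finset.abs_sum_le_sum_abs _ _)
        (Finset.abs_sum_le_sum_abs _ _))
    exact mul_le_mul (ha 0) h2 (abs_nonneg _) hR
  have h2 := hK x z
  have h3 := h (fun i => a (i+1)) (fun i => ha _) z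
  have hxS : ∑ i, |x i| ≤ |S| := hx.trans (le_abs_self S)
  calc _ ≤ Real.exp (R * (∑ i, |x i| + ∑ i, |z i|)) *
        (CK * Real.exp (-((R + M + 1) * ∑ i, |z i|)) * Real.exp (2 * (R + M + 1) * ∑ i, |x i|)) *
        (C * Real.exp (M * ∑ i, |z i|)) := by
        gcongr
        exact (Kre_pos x z).le
    _ = C * CK * (Real.exp (R * (∑ i, |x i| + ∑ i, |z i|)) *
        Real.exp (-((R + M + 1) * ∑ i, |z i|)) * Real.exp (2 * (R + M + 1) * ∑ i, |x i|) *
        Real.exp (M * ∑ i, |z i|)) := by ring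
    _ = C * CK * (Real.exp ((R + 2 * (R + M + 1)) * ∑ i, |x i|) * Real.exp (-(∑ i, |z i|))) := by
        congr 1
        rw [← Real.exp_add, ← Real.exp_add, ← Real.exp_add, ← Real.exp_add]
        congr 1; ring
    _ ≤ C * CK * (Real.exp ((R + 2 * (R + M + 1)) * |S|) * Real.exp (-(∑ i, |z i|))) := by
        gcongr
    _ = _ := by ring

theorem expn_integrable (n : ℕ) : Integrable (fun z : Fin n → ℝ => Real.exp (-(∑ i, |z i|))) := by
  have h := Integrable.fintype_prod (f := fun (_ : Fin n) (t : ℝ) => Real.exp (-(1 * |t|)))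
      (fun _ => integrable_exp_neg_abs one_pos)
  refine h.congr (Eventually.of_forall fun x => ?_)
  simp only [one_mul]
  rw [← Real.exp_sum, Finset.sum_neg_distrib]

theorem phI_measurable (n : ℕ) (a : ℕ → ℂ) (x : Fin (n+1) → ℝ) :
    StronglyMeasurable (phI n a x) := by
  refine StronglyMeasurable.mul ?_ (Phi_stronglyMeasurable n _)
  refine Continuous.stronglyMeasurable ?_
  refine Continuous.mul (by fun_prop) (Complex.continuous_ofReal.comp ?_)
  exact continuous_Kre.comp (Continuous.prodMk continuous_const continuous_id)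

/-- joint continuity -/
theorem Phi_continuous (n : ℕ) : ∀ L : ℕ → ((Fin d → ℂ) →L[ℂ] ℂ), (∃ B, ∀ i, ‖L i‖ ≤ B) →
    Continuous (fun p : (Fin n → ℝ) × (Fin d → ℂ) => Phi n (fun i => L i p.2) p.1) := by
  induction n with
  | zero => intro L _; exact continuous_const
  | succ n ih =>
    intro L hL
    obtain ⟨B, hB⟩ := hL
    have ihL := ih (fun i => L (i+1)) ⟨B, fun i => hB _⟩
    rw [continuous_iff_continuousAt]
    rintro ⟨x0, e0⟩
    have hB0 : 0 ≤ B := (norm_nonneg _).trans (hB 0)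
    obtain ⟨C, hC, hb⟩ := phI_bound n (B * (‖e0‖ + 1)) (∑ i, |x0 i| + 1) (by positivity)
    simp only [Phi_eq_phI]
    have hnx : ∀ᶠ p : (Fin (n+1) → ℝ) × (Fin d → ℂ) in 𝓝 (x0, e0),
        ∑ i, |p.1 i| ≤ ∑ i, |x0 i| + 1 := by
      have hc : Continuous (fun p : (Fin (n+1) → ℝ) × (Fin d → ℂ) => ∑ i, |p.1 i|) := by fun_prop
      have := hc.continuousAt (x := (x0, e0))
      have h2 := this.eventually (Iio_mem_nhds (show ∑ i, |x0 i| < ∑ i, |x0 i| + 1 by linarith))
      exact h2.mono fun p hp => le_of_lt hp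
    have hne : ∀ᶠ p : (Fin (n+1) → ℝ) × (Fin d → ℂ) in 𝓝 (x0, e0),
        ‖p.2‖ ≤ ‖e0‖ + 1 := by
      have hc : Continuous (fun p : (Fin (n+1) → ℝ) × (Fin d → ℂ) => ‖p.2‖) := by fun_prop
      have := hc.continuousAt (x := (x0, e0))
      have h2 := this.eventually (Iio_mem_nhds (show ‖e0‖ < ‖e0‖ + 1 by linarith))
      exact h2.mono fun p hp => le_of_lt hp
    refine continuousAt_of_dominated (bound := fun z => C * Real.exp (-(∑ i, |z i|)))
      (Eventually.of_forall fun p => (phI_measurable n _ _).aestronglyMeasurable) ?_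
      ((expn_integrable n).const_mul C) (Eventually.of_forall fun z => ?_)
    · filter_upwards [hnx, hne] with p h1 h2
      refine Eventually.of_forall fun z => hb _ (fun i => ?_) _ h1 z
      calc ‖L i p.2‖ ≤ ‖L i‖ * ‖p.2‖ := (L i).le_opNorm _
        _ ≤ B * (‖e0‖ + 1) := by
          have := hB i
          gcongr
    · unfold phI
      refine ContinuousAt.mul (ContinuousAt.mul ?_ ?_) ?_
      · have : Continuous (fun p : (Fin (n+1) → ℝ) × (Fin d → ℂ) =>
            Complex.exp (L 0 p.2 * ((∑ i, p.1 i - ∑ i, z i : ℝ) : ℂ))) := by fun_prop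
        exact this.continuousAt
      · have : Continuous (fun p : (Fin (n+1) → ℝ) × (Fin d → ℂ) => ((Kre p.1 z : ℝ) : ℂ)) :=
          Complex.continuous_ofReal.comp (continuous_Kre.comp
            (Continuous.prodMk continuous_fst continuous_const))
        exact this.continuousAt
      · have : Continuous (fun p : (Fin (n+1) → ℝ) × (Fin d → ℂ) =>
            Phi n (fun i => L (i+1) p.2) z) :=
          ihL.comp (Continuous.prodMk continuous_const continuous_snd)
        exact this.continuousAt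

/-- differentiation under the integral sign, abstract form -/
theorem diff_of_dom {F : (Fin d → ℂ) → (Fin n → ℝ) → ℂ} (e0 : Fin d → ℂ)
    (hFd : ∀ z, Differentiable ℂ (fun e => F e z))
    (hm : ∀ e, AEStronglyMeasurable (F e) volume)
    {b : (Fin n → ℝ) → ℝ} (hb : Integrable b) (hFb : ∀ e ∈ Metric.ball e0 2, ∀ z, ‖F e z‖ ≤ b z)
    (hc : Continuous (Function.uncurry (fun (z : Fin n → ℝ) (e : Fin d → ℂ) => F e z))) :
    DifferentiableAt ℂ (fun e => ∫ z, F e z) e0 := by
  have hm1 : Measurable (fun p : (Fin n → ℝ) × (Fin d → ℂ) => fderiv ℂ (fun e => F e p.1) p.2) :=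
    measurable_fderiv_with_param ℂ hc
  have hm2 : Measurable (fun z : Fin n → ℝ => fderiv ℂ (fun e => F e z) e0) :=
    hm1.comp (g := fun p : (Fin n → ℝ) × (Fin d → ℂ) => fderiv ℂ (fun e => F e p.1) p.2)
      (f := fun z : Fin n → ℝ => (z, e0)) (Measurable.prodMk measurable_id measurable_const)
  have key := hasFDerivAt_integral_of_dominated_of_fderiv_le (𝕜 := ℂ) (μ := volume)
    (F := F) (F' := fun e z => fderiv ℂ (fun e => F e z) e) (x₀ := e0) (s := Metric.ball e0 1)
    (bound := fun z => 2 * b z / 1)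
    (Metric.ball_mem_nhds e0 one_pos)
    (Eventually.of_forall fun e => hm e) ?_ ?_ ?_ ?_ ?_
  · exact key.differentiableAt
  · exact Integrable.mono' hb (hm e0)
      (Eventually.of_forall fun z => hFb e0 (Metric.mem_ball_self two_pos) z)
  · exact hm2.aestronglyMeasurable
  · refine Eventually.of_forall fun z e he => ?_
    refine Complex.norm_fderiv_le_div_of_mapsTo_ball (hFd z).differentiableOn ?_ one_pos
    intro e' he'
    have h1 : e' ∈ Metric.ball e0 2 := by
      rw [Metric.mem_ball] at he he' ⊢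
      linarith [dist_triangle e' e e0]
    have h2 : e ∈ Metric.ball e0 2 := by
      rw [Metric.mem_ball] at he ⊢
      linarith
    rw [Metric.mem_closedBall, dist_eq_norm]
    refine (norm_sub_le _ _).trans ?_
    linarith [hFb e' h1 z, hFb e h2 z]
  · exact (hb.const_mul 2).div_const 1
  · exact Eventually.of_forall fun z e _ => (hFd z e).hasFDerivAt

/-- joint holomorphy in the parameters -/
theorem Phi_differentiable (n : ℕ) : ∀ L : ℕ → ((Fin d → ℂ) →L[ℂ] ℂ), (∃ B, ∀ i, ‖L i‖ ≤ B) →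
    ∀ x : Fin n → ℝ, Differentiable ℂ (fun e : Fin d → ℂ => Phi n (fun i => L i e) x) := by
  induction n with
  | zero => intro L _ x; exact differentiable_const _
  | succ n ih =>
    intro L hL x e0
    obtain ⟨B, hB⟩ := hL
    have ihL := ih (fun i => L (i+1)) ⟨B, fun i => hB _⟩
    have hcL := Phi_continuous (d := d) n (fun i => L (i+1)) ⟨B, fun i => hB _⟩
    have hB0 : 0 ≤ B := (norm_nonneg _).trans (hB 0)
    obtain ⟨C, hC, hb⟩ := phI_bound n (B * (‖e0‖ + 2)) (∑ i, |x i|) (by positivity)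
    have hFd : ∀ z, Differentiable ℂ (fun e : Fin d → ℂ => phI n (fun i => L i e) x z) := by
      intro z
      simp only [phI]
      refine Differentiable.mul (Differentiable.mul ?_ (differentiable_const _)) (ihL z)
      fun_prop
    have hFb : ∀ e ∈ Metric.ball e0 2, ∀ z, ‖phI n (fun i => L i e) x z‖ ≤
        C * Real.exp (-(∑ i, |z i|)) := by
      intro e he z
      refine hb _ (fun i => ?_) x le_rfl z
      have h1 : ‖e‖ ≤ ‖e0‖ + 2 := by
        have h2 : ‖e - e0‖ < 2 := by rwa [Metric.mem_ball, dist_eq_norm] at he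
        have h3 := norm_add_le (e - e0) e0
        rw [sub_add_cancel] at h3
        linarith
      calc ‖L i e‖ ≤ ‖L i‖ * ‖e‖ := (L i).le_opNorm _
        _ ≤ B * (‖e0‖ + 2) := by
          have := hB i
          gcongr
    have hc1 : Continuous (fun p : (Fin n → ℝ) × (Fin d → ℂ) =>
        Complex.exp (L 0 p.2 * ((∑ i, x i - ∑ i, p.1 i : ℝ) : ℂ))) := by fun_prop
    have hc2 : Continuous (fun p : (Fin n → ℝ) × (Fin d → ℂ) => ((Kre x p.1 : ℝ) : ℂ)) :=
      Complex.continuous_ofReal.comp (continuous_Kre.comp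
          (Continuous.prodMk continuous_const continuous_fst))
    have hc : Continuous (Function.uncurry (fun (z : Fin n → ℝ) (e : Fin d → ℂ) =>
        phI n (fun i => L i e) x z)) :=
      (hc1.mul hc2).mul hcL
    exact diff_of_dom (F := fun e z => phI n (fun i => L i e) x z) e0 hFd
      (fun e => (phI_measurable n _ _).aestronglyMeasurable)
      ((expn_integrable n).const_mul C) hFb hc

end Pool.Agent.MP2f3d29
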