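import Mathlib
import Pool.Agent.MP_2f3d29_nt.E1
import Pool.Agent.MP_2f3d29_nt.E2

set_option autoImplicit false

open MeasureTheory Set Filter Topology

namespace Pool.Agent.MP2f3d29

variable {k : ℕ}

/-- coordinate functionals, halved -/
noncomputable def Lco (k : ℕ) (i : ℕ) : (Fin (k+1) → ℂ) →L[ℂ] ℂ :=
  if h : i < k + 1 then (1 / 2 : ℂ) • ContinuousLinearMap.proj (R := ℂ) (φ := fun _ : Fin (k+1) => ℂ)
    ⟨i, h⟩ else 0

theorem Lco_apply (k : ℕ) (i : ℕ) (α : Fin (k+1) → ℂ) : Lco k i α = exN α i / 2 := by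
  unfold Lco exN
  split_ifs with h
  · simp; ring
  · simp

theorem Lco_bound (k : ℕ) : ∃ B, ∀ i, ‖Lco k i‖ ≤ B := by
  refine ⟨1, fun i => ?_⟩
  refine ContinuousLinearMap.opNorm_le_bound _ zero_le_one fun α => ?_
  rw [Lco_apply, one_mul]
  unfold exN
  split_ifs with h
  · rw [norm_div, RCLike.norm_ofNat]
    have := norm_le_pi_norm α ⟨i, h⟩
    have h0 := norm_nonneg (α ⟨i, h⟩)
    linarith
  · simp

theorem Wg_differentiable (k : ℕ) (y : Fin k → ℝ) :
    Differentiable ℂ (fun α : Fin (k+1) → ℂ => Wg k α y) := by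
  unfold Wg
  refine Differentiable.mul (differentiable_const _) ?_
  have h := Phi_differentiable (d := k+1) (k+1) (Lco k) (Lco_bound k) (xtl (lX y))
  have h2 : (fun e : Fin (k+1) → ℂ => Phi (k+1) (fun i => Lco k i e) (xtl (lX y))) =
      (fun α : Fin (k+1) → ℂ => Phi (k+1) (fun i => exN α i / 2) (xtl (lX y))) := by
    funext e
    congr 1
    funext i
    exact Lco_apply k i e
  rw [← h2]
  exact h

/-- existence of the completed Whittaker function -/
theorem Wg_isCompleted {I : (Fin (k+1) → ℂ) → Matrix (Fin (k+1)) (Fin (k+1)) ℝ → ℂ}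
    (hI : IsPower k I) : IsCompletedWhittaker k I (Wg k) where
  eq_integral := fun α hα hd y hy => (jacquet_value hI α hα hd y hy).symm
  holomorphic := fun y _ => (Wg_differentiable k y).differentiableOn

/-- the direction used for the continuation -/
noncomputable def bdir (k : ℕ) (i : Fin (k+1)) : ℂ := (k : ℂ) / 2 - ((i : ℕ) : ℂ)

theorem bdir_sum (k : ℕ) : ∑ i, bdir k i = 0 := by
  have h := rho_sum k
  have h2 : ∀ i, bdir k i = rhoC k i := by
    intro i
    unfold bdir rhoC
    ring
  simp only [h2, h]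

theorem dominant_line (α : Fin (k+1) → ℂ) : ∃ R : ℝ, ∀ z : ℂ, R < z.re →
    Dominant (fun i => α i + z * bdir k i) := by
  refine ⟨∑ i : Fin k, |(α i.castSucc - α i.succ).re|, fun z hz i => ?_⟩
  have h1 : ((α i.castSucc + z * bdir k i.castSucc) - (α i.succ + z * bdir k i.succ)).re =
      (α i.castSucc - α i.succ).re + z.re := by
    have : (α i.castSucc + z * bdir k i.castSucc) - (α i.succ + z * bdir k i.succ) =
        (α i.castSucc - α i.succ) + z := by
      unfold bdir
      simp only [Fin.val_castSucc, Fin.val_succ]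
      push_cast
      ring
    rw [this, Complex.add_re]
  rw [h1]
  have h2 : |(α i.castSucc - α i.succ).re| ≤ ∑ i : Fin k, |(α i.castSucc - α i.succ).re| :=
    Finset.single_le_sum (f := fun i : Fin k => |(α i.castSucc - α i.succ).re|)
      (fun i _ => abs_nonneg _) (Finset.mem_univ i)
  have h3 := neg_abs_le (α i.castSucc - α i.succ).re
  linarith

/-- uniqueness of the completed Whittaker function -/
theorem completed_unique {I : (Fin (k+1) → ℂ) → Matrix (Fin (k+1)) (Fin (k+1)) ℝ → ℂ}
    (hI : IsPower k I) {W : (Fin (k+1) → ℂ) → (Fin k → ℝ) → ℂ} (hW : IsCompletedWhittaker k I W)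
    (α : Fin (k+1) → ℂ) (hα : ∑ i, α i = 0) (y : Fin k → ℝ) (hy : ∀ i, 0 < y i) :
    W α y = Wg k α y := by
  have hsum : ∀ z : ℂ, ∑ i, (α i + z * bdir k i) = 0 := by
    intro z
    rw [Finset.sum_add_distrib, ← Finset.mul_sum, hα, bdir_sum]
    simp
  have hline : Differentiable ℂ (fun z : ℂ => (fun i => α i + z * bdir k i : Fin (k+1) → ℂ)) := by
    rw [differentiable_pi]
    intro i
    fun_prop
  have hf : Differentiable ℂ (fun z : ℂ => W (fun i => α i + z * bdir k i) y) := by
    have h1 := (hW.holomorphic y hy).comp (s := Set.univ)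
      (f := fun z : ℂ => (fun i => α i + z * bdir k i : Fin (k+1) → ℂ)) hline.differentiableOn
      (fun z _ => hsum z)
    exact differentiableOn_univ.1 h1
  have hg : Differentiable ℂ (fun z : ℂ => Wg k (fun i => α i + z * bdir k i) y) :=
    (Wg_differentiable k y).comp hline
  obtain ⟨R, hR⟩ := dominant_line α
  have heq : (fun z : ℂ => W (fun i => α i + z * bdir k i) y) =ᶠ[𝓝 ((R + 1 : ℝ) : ℂ)]
      (fun z : ℂ => Wg k (fun i => α i + z * bdir k i) y) := by
    have hopen : {z : ℂ | R < z.re} ∈ 𝓝 ((R + 1 : ℝ) : ℂ) := by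
      refine (isOpen_lt continuous_const Complex.continuous_re).mem_nhds ?_
      simp
    filter_upwards [hopen] with z hz
    rw [hW.eq_integral _ (hsum z) (hR z hz) y hy, jacquet_value hI _ (hsum z) (hR z hz) y hy]
  have h3 : (fun z : ℂ => W (fun i => α i + z * bdir k i) y) =
      (fun z : ℂ => Wg k (fun i => α i + z * bdir k i) y) :=
    AnalyticOnNhd.eq_of_eventuallyEq (z₀ := ((R + 1 : ℝ) : ℂ))
      (fun z _ => hf.analyticAt z) (fun z _ => hg.analyticAt z) heq
  have h4 := congrFun h3 0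
  simpa using h4

end Pool.Agent.MP2f3d29
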