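import Mathlib
import Pool.Agent.MP_2f3d29_nt.E3
import Pool.Agent.MP_2f3d29_nt.C1

set_option autoImplicit false

open MeasureTheory Set Filter Topology

namespace Pool.Agent.MP2f3d29

variable {k : ℕ}

/-- the coordinates `y_j = exp(ξ_j / 2) / π` -/
noncomputable def phm (ξ : Fin k → ℝ) (j : Fin k) : ℝ := Real.exp (ξ j / 2) / Real.pi

theorem phm_pos (ξ : Fin k → ℝ) (j : Fin k) : 0 < phm ξ j := div_pos (Real.exp_pos _) Real.pi_pos

theorem log_phm (ξ : Fin k → ℝ) (j : Fin k) :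
    Real.log (phm ξ j) = ξ j / 2 - Real.log Real.pi := by
  unfold phm
  rw [Real.log_div (Real.exp_pos _).ne' Real.pi_ne_zero, Real.log_exp]

theorem lX_gap (y : Fin k → ℝ) (j : Fin k) :
    lX y j.castSucc - lX y j.succ = 2 * Real.log (y (Fin.rev j)) := by
  unfold lX
  rw [← Finset.sum_sub_distrib, Finset.sum_eq_single (Fin.rev j)]
  · have h1 : ((Fin.rev j : Fin k) : ℕ) + (j.castSucc : Fin (k+1)) < k := by
      rw [Fin.val_rev, Fin.val_castSucc]; omega
    have h2 : ¬ ((Fin.rev j : Fin k) : ℕ) + (j.succ : Fin (k+1)) < k := by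
      rw [Fin.val_rev, Fin.val_succ]; omega
    rw [if_pos h1, if_neg h2, sub_zero]
  · intro i _ hi
    have hne : (i : ℕ) + j + 1 ≠ k := by
      intro h
      apply hi
      ext
      rw [Fin.val_rev]; omega
    simp only [Fin.val_castSucc, Fin.val_succ]
    by_cases h : (i : ℕ) + j < k
    · rw [if_pos h, if_pos (by omega), sub_self]
    · rw [if_neg h, if_neg (by omega), sub_self]
  · intro h; exact absurd (Finset.mem_univ _) h

theorem xtl_gap (ξ : Fin k → ℝ) (j : Fin k) :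
    xtl (lX (phm ξ)) j.castSucc - xtl (lX (phm ξ)) j.succ = ξ (Fin.rev j) := by
  have h := lX_gap (phm ξ) j
  rw [log_phm] at h
  unfold xtl
  simp only [Fin.val_castSucc, Fin.val_succ]
  push_cast
  linarith

theorem eq_xg (x : Fin (k+1) → ℝ) (i : Fin (k+1)) :
    x i = x (Fin.last k) + xg (fun j => x j.castSucc - x j.succ) i := by
  induction i using Fin.reverseInduction with
  | last => rw [xg_last, add_zero]
  | cast j ih =>
    have h : xg (fun j => x j.castSucc - x j.succ) j.castSucc -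
        xg (fun j => x j.castSucc - x j.succ) j.succ = x j.castSucc - x j.succ :=
      xg_gap (fun j => x j.castSucc - x j.succ) j
    linarith

theorem Phi_gaps (a : ℕ → ℂ) (ha : ∑ i ∈ Finset.range (k+1), a i = 0) (x : Fin (k+1) → ℝ) :
    Phi (k+1) a x = Phi (k+1) a (xg (fun j => x j.castSucc - x j.succ)) := by
  have h := Phi_translate (k+1) a (xg (fun j => x j.castSucc - x j.succ)) (x (Fin.last k))
  rw [ha, zero_mul, Complex.exp_zero, one_mul] at h
  rw [← h]
  congr 1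
  funext i
  exact eq_xg x i

theorem half_sum (k N : ℕ) : ∑ i ∈ Finset.range N, ((k : ℝ) / 2 - i) = N * (k - N + 1) / 2 := by
  induction N with
  | zero => simp
  | succ N ih => rw [Finset.sum_range_succ, ih]; push_cast; ring

theorem rho_lX (y : Fin k → ℝ) :
    ∑ i : Fin (k+1), ((((k+1 : ℕ) : ℝ) - 1) / 2 - (i : ℕ)) / 2 * lX y i =
      ∑ j : Fin k, ((((j : ℕ) : ℝ) + 1) * (((k : ℝ) + 1) - (((j : ℕ) : ℝ) + 1)) / 2) *
        Real.log (y j) := by
  unfold lX
  simp only [Finset.mul_sum]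
  rw [Finset.sum_comm]
  refine Finset.sum_congr rfl fun j _ => ?_
  have h1 : ∀ i : Fin (k+1), ((((k+1 : ℕ) : ℝ) - 1) / 2 - (i : ℕ)) / 2 *
      (if (j : ℕ) + i < k then 2 * Real.log (y j) else 0) =
      (fun i : ℕ => if i < k - j then ((k : ℝ) / 2 - i) * Real.log (y j) else 0) i := by
    intro i
    simp only
    by_cases h : (j : ℕ) + i < k
    · rw [if_pos h, if_pos (by omega)]; push_cast; ring
    · rw [if_neg h, if_neg (by omega), mul_zero]
  rw [Finset.sum_congr rfl (fun i _ => h1 i), ← Finset.sum_range (fun i : ℕ =>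
    if i < k - j then ((k : ℝ) / 2 - i) * Real.log (y j) else 0), ← Finset.sum_filter]
  have h2 : (Finset.range (k+1)).filter (fun i => i < k - j) = Finset.range (k - j) := by
    ext i
    simp only [Finset.mem_filter, Finset.mem_range]
    omega
  rw [h2, ← Finset.sum_mul, half_sum]
  have h3 : ((k - (j : ℕ) : ℕ) : ℝ) = (k : ℝ) - (j : ℕ) := by
    rw [Nat.cast_sub j.2.le]
  rw [h3]
  ring

theorem exN_two (s : Fin k → ℂ) (α : Fin (k+1) → ℂ) (i : ℕ) :
    exN (fun i => 2 * α i) i / 2 = al (Sum.elim s α) i := by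
  unfold exN al
  split_ifs
  · simp
  · simp

theorem ex_rev (s : Fin k → ℂ) (α : Fin (k+1) → ℂ) (ξ : Fin k → ℝ) :
    ex (Sx (Sum.elim s α)) (fun j => ξ (Fin.rev j)) = Complex.exp (∑ j, s j * (ξ j : ℂ)) := by
  unfold ex
  congr 1
  rw [← Equiv.sum_comp (Fin.revPerm : Fin k ≃ Fin k) (fun j => s j * (ξ j : ℂ))]
  refine Finset.sum_congr rfl fun j _ => ?_
  have hj := j.2
  have e : k - (j : ℕ) = (⟨k - 1 - j, by omega⟩ : Fin k) + 1 := by simp; omega
  rw [e, Sx_mid]
  simp only [Sum.elim_inl, Fin.revPerm_apply]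
  have e2 : (⟨k - 1 - j, by omega⟩ : Fin k) = Fin.rev j := by
    ext; rw [Fin.val_rev]; simp; omega
  rw [e2]

/-- the Mellin integrand in exponential coordinates -/
theorem mellin_point (α : Fin (k+1) → ℂ) (hα : ∑ i, α i = 0) (s : Fin k → ℂ) (ξ : Fin k → ℝ) :
    mellinIntegrand (Wg k) α s (phm ξ) * ∏ j, (phm ξ j : ℂ) =
      Phi (k+1) (al (Sum.elim s α)) (xg (fun j => ξ (Fin.rev j))) *
        ex (Sx (Sum.elim s α)) (fun j => ξ (Fin.rev j)) := by
  rw [ex_rev]
  unfold mellinIntegrand Wg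
  have h1 : (fun i => exN (fun i => 2 * α i) i / 2) = al (Sum.elim s α) := by
    funext i; exact exN_two s α i
  rw [h1, Phi_gaps (al (Sum.elim s α)) (by rw [al_sum]; simpa using hα)]
  have h2 : (fun j => xtl (lX (phm ξ)) j.castSucc - xtl (lX (phm ξ)) j.succ) =
      (fun j => ξ (Fin.rev j)) := by
    funext j; exact xtl_gap ξ j
  rw [h2, rho_lX]
  have h3 : ∀ j : Fin k, (((Real.pi * phm ξ j : ℝ) : ℂ) ^ (2 * s j)) =
      Complex.exp (s j * (ξ j : ℂ)) := by
    intro j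
    have e1 : Real.pi * phm ξ j = Real.exp (ξ j / 2) := by
      unfold phm
      field_simp
    rw [e1, Complex.cpow_def_of_ne_zero (by exact_mod_cast (Real.exp_pos _).ne'),
      ← Complex.ofReal_log (Real.exp_pos _).le, Real.log_exp]
    congr 1
    push_cast; ring
  have h4 : ∀ j : Fin k, ((phm ξ j : ℝ) : ℂ) ^ (1 + (((j : ℕ) : ℂ) + 1) *
      (((k : ℂ) + 1) - (((j : ℕ) : ℂ) + 1)) / 2) = (phm ξ j : ℂ) *
      Complex.exp (((((((j : ℕ) : ℝ) + 1) * (((k : ℝ) + 1) - (((j : ℕ) : ℝ) + 1)) / 2) *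
        Real.log (phm ξ j) : ℝ)) : ℂ) := by
    intro j
    have h0 : (phm ξ j : ℂ) ≠ 0 := by exact_mod_cast (phm_pos ξ j).ne'
    rw [Complex.cpow_add _ _ h0, Complex.cpow_one, Complex.cpow_def_of_ne_zero h0,
      ← Complex.ofReal_log (phm_pos ξ j).le]
    congr 2
    push_cast; ring
  simp only [h3, h4]
  rw [Complex.ofReal_sum, Complex.exp_sum, Complex.exp_sum]
  have h5 : ∀ A B : ℂ, (∏ x : Fin k, Complex.exp (((((((x : ℕ) : ℝ) + 1) *
      (((k : ℝ) + 1) - (((x : ℕ) : ℝ) + 1)) / 2) * Real.log (phm ξ x) : ℝ)) : ℂ)) * A *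
      (∏ x : Fin k, Complex.exp (s x * (ξ x : ℂ)) / ((phm ξ x : ℂ) *
      Complex.exp (((((((x : ℕ) : ℝ) + 1) * (((k : ℝ) + 1) - (((x : ℕ) : ℝ) + 1)) / 2) *
        Real.log (phm ξ x) : ℝ)) : ℂ))) * ∏ j, (phm ξ j : ℂ) =
      A * ∏ j, Complex.exp (s j * (ξ j : ℂ)) := by
    intro A B
    rw [mul_comm _ A, mul_assoc A, mul_assoc A, ← Finset.prod_mul_distrib,
      ← Finset.prod_mul_distrib]
    congr 1
    refine Finset.prod_congr rfl fun j _ => ?_
    have h0 : (phm ξ j : ℂ) ≠ 0 := by exact_mod_cast (phm_pos ξ j).ne'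
    have h6 := Complex.exp_ne_zero (((((((j : ℕ) : ℝ) + 1) *
      (((k : ℝ) + 1) - (((j : ℕ) : ℝ) + 1)) / 2) * Real.log (phm ξ j) : ℝ)) : ℂ)
    field_simp
  exact h5 _ 0

/-! ### the change of variables -/

/-- the derivative of `phm` -/
noncomputable def phmD (ξ : Fin k → ℝ) : (Fin k → ℝ) →L[ℝ] (Fin k → ℝ) :=
  LinearMap.toContinuousLinearMap (Matrix.toLin' (Matrix.diagonal (fun j => phm ξ j / 2)))

theorem phmD_det (ξ : Fin k → ℝ) : (phmD ξ).det = ∏ j, (phm ξ j / 2) := by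
  unfold phmD
  rw [ContinuousLinearMap.det, LinearMap.coe_toContinuousLinearMap, LinearMap.det_toLin',
    Matrix.det_diagonal]

theorem phm_hasFDerivAt (ξ : Fin k → ℝ) : HasFDerivAt phm (phmD ξ) ξ := by
  rw [hasFDerivAt_pi']
  intro j
  have h1 : HasDerivAt (fun t : ℝ => Real.exp (t / 2) / Real.pi)
      (Real.exp (ξ j / 2) * (1 / 2) / Real.pi) (ξ j) :=
    (((hasDerivAt_id (ξ j)).div_const 2).exp).div_const Real.pi
  have h2 := HasFDerivAt.comp (g := fun t : ℝ => Real.exp (t / 2) / Real.pi)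
    (f := fun ξ : Fin k → ℝ => ξ j) ξ h1.hasFDerivAt (hasFDerivAt_apply (𝕜 := ℝ) j ξ)
  refine h2.congr_fderiv ?_
  ext v
  simp [phmD, Matrix.mulVec_diagonal, phm]
  ring

theorem phm_injective : Function.Injective (phm : (Fin k → ℝ) → (Fin k → ℝ)) := by
  intro ξ ξ' h
  funext j
  have := congrFun h j
  have h1 := log_phm ξ j
  have h2 := log_phm ξ' j
  rw [this] at h1
  linarith

theorem phm_image : phm '' (Set.univ : Set (Fin k → ℝ)) = Set.univ.pi fun _ => Set.Ioi (0 : ℝ) := by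
  ext y
  simp only [Set.image_univ, Set.mem_range, Set.mem_pi, Set.mem_univ, true_implies, Set.mem_Ioi]
  constructor
  · rintro ⟨ξ, rfl⟩ j; exact phm_pos ξ j
  · intro h
    refine ⟨fun j => 2 * Real.log (Real.pi * y j), ?_⟩
    funext j
    unfold phm
    rw [mul_div_cancel_left₀ _ two_ne_zero, Real.exp_log (mul_pos Real.pi_pos (h j))]
    field_simp

/-- reversal of the coordinates -/
theorem rev_preserving (k : ℕ) :
    MeasurePreserving (fun (ξ : Fin k → ℝ) => (fun j => ξ (Fin.rev j) : Fin k → ℝ)) volume volume := by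
  have h2 := volume_preserving_arrowCongr' (Fin.revPerm : Fin k ≃ Fin k) (MeasurableEquiv.refl ℝ)
    (MeasurePreserving.id _)
  have e : ⇑(MeasurableEquiv.arrowCongr' (Fin.revPerm : Fin k ≃ Fin k) (MeasurableEquiv.refl ℝ)) =
      (fun (ξ : Fin k → ℝ) => (fun j => ξ (Fin.rev j) : Fin k → ℝ)) := by
    funext ξ j
    rfl
  rwa [e] at h2

theorem rev_embedding (k : ℕ) :
    MeasurableEmbedding (fun (ξ : Fin k → ℝ) => (fun j => ξ (Fin.rev j) : Fin k → ℝ)) := by
  have e : ⇑(MeasurableEquiv.arrowCongr' (Fin.revPerm : Fin k ≃ Fin k) (MeasurableEquiv.refl ℝ)) =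
      (fun (ξ : Fin k → ℝ) => (fun j => ξ (Fin.rev j) : Fin k → ℝ)) := by
    funext ξ j
    rfl
  rw [← e]
  exact MeasurableEquiv.measurableEmbedding _

theorem det_smul (α : Fin (k+1) → ℂ) (hα : ∑ i, α i = 0) (s : Fin k → ℂ) (ξ : Fin k → ℝ) :
    |(phmD ξ).det| • mellinIntegrand (Wg k) α s (phm ξ) =
      (1 / 2 ^ k) * (Phi (k+1) (al (Sum.elim s α)) (xg (fun j => ξ (Fin.rev j))) *
        ex (Sx (Sum.elim s α)) (fun j => ξ (Fin.rev j))) := by
  rw [← mellin_point α hα s ξ, phmD_det, abs_of_nonneg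
    (Finset.prod_nonneg fun j _ => (div_pos (phm_pos ξ j) two_pos).le), Complex.real_smul,
    Finset.prod_div_distrib]
  simp only [Finset.prod_const, Finset.card_univ, Fintype.card_fin]
  push_cast
  ring

theorem mellin_converges_iff (α : Fin (k+1) → ℂ) (hα : ∑ i, α i = 0) (s : Fin k → ℂ) :
    MellinConverges (Wg k) α s ↔ Cv (Sum.elim s α) := by
  unfold MellinConverges Cv
  rw [← phm_image, integrableOn_image_iff_integrableOn_abs_det_fderiv_smul volume
    MeasurableSet.univ (fun ξ _ => (phm_hasFDerivAt ξ).hasFDerivWithinAt)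
    phm_injective.injOn, integrableOn_univ]
  simp only [det_smul α hα s]
  rw [integrable_const_mul_iff (by
    rw [isUnit_iff_ne_zero]; exact one_div_ne_zero (pow_ne_zero _ two_ne_zero))]
  exact (rev_preserving k).integrable_comp_emb (rev_embedding k)
    (g := fun g => Phi (k+1) (al (Sum.elim s α)) (xg g) * ex (Sx (Sum.elim s α)) g)

theorem mellin_eq (α : Fin (k+1) → ℂ) (hα : ∑ i, α i = 0) (s : Fin k → ℂ) :
    mellinW (Wg k) α s = FM k (Sum.elim s α) := by
  unfold mellinW FM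
  rw [← phm_image, integral_image_eq_integral_abs_det_fderiv_smul volume
    MeasurableSet.univ (fun ξ _ => (phm_hasFDerivAt ξ).hasFDerivWithinAt)
    phm_injective.injOn, Measure.restrict_univ]
  simp only [det_smul α hα s]
  rw [integral_const_mul, ← mul_assoc]
  have h2 : (2 : ℂ) ^ k * (1 / 2 ^ k) = 1 := by
    field_simp
  rw [h2, one_mul]
  exact (rev_preserving k).integral_comp (rev_embedding k)
    (fun g => Phi (k+1) (al (Sum.elim s α)) (xg g) * ex (Sx (Sum.elim s α)) g)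

theorem mellinIntegrand_congr {W W' : (Fin (k+1) → ℂ) → (Fin k → ℝ) → ℂ} (α : Fin (k+1) → ℂ)
    (h : ∀ y : Fin k → ℝ, (∀ i, 0 < y i) → W (fun i => 2 * α i) y = W' (fun i => 2 * α i) y)
    (s : Fin k → ℂ) :
    EqOn (mellinIntegrand W α s) (mellinIntegrand W' α s) (Set.univ.pi fun _ => Set.Ioi (0 : ℝ)) := by
  intro y hy
  unfold mellinIntegrand
  rw [h y (fun i => hy i (Set.mem_univ i))]

theorem measurableSet_quadrant (k : ℕ) :
    MeasurableSet (Set.univ.pi fun _ => Set.Ioi (0 : ℝ) : Set (Fin k → ℝ)) :=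
  MeasurableSet.univ_pi fun _ => measurableSet_Ioi

end Pool.Agent.MP2f3d29
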