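import Mathlib
import Pool.Agent.MP_2f3d29_nt.E4

set_option autoImplicit false

open MeasureTheory Set Filter Topology

namespace Pool.Agent.MP2f3d29

variable {k : ℕ}

theorem two_mul_sum {α : Fin (k+1) → ℂ} (hα : ∑ i, α i = 0) :
    ∑ i, (fun i => 2 * α i) i = 0 := by
  rw [← Finset.mul_sum, hα, mul_zero]

theorem mellin_converges_iff' {I : (Fin (k+1) → ℂ) → Matrix (Fin (k+1)) (Fin (k+1)) ℝ → ℂ}
    (hI : IsPower k I) {W : (Fin (k+1) → ℂ) → (Fin k → ℝ) → ℂ} (hW : IsCompletedWhittaker k I W)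
    (α : Fin (k+1) → ℂ) (hα : ∑ i, α i = 0) (s : Fin k → ℂ) :
    MellinConverges W α s ↔ Cv (Sum.elim s α) := by
  rw [← mellin_converges_iff α hα s]
  exact integrableOn_congr_fun (mellinIntegrand_congr α
    (fun y hy => completed_unique hI hW _ (two_mul_sum hα) y hy) s) (measurableSet_quadrant k)

theorem mellin_eq' {I : (Fin (k+1) → ℂ) → Matrix (Fin (k+1)) (Fin (k+1)) ℝ → ℂ}
    (hI : IsPower k I) {W : (Fin (k+1) → ℂ) → (Fin k → ℝ) → ℂ} (hW : IsCompletedWhittaker k I W)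
    (α : Fin (k+1) → ℂ) (hα : ∑ i, α i = 0) (s : Fin k → ℂ) :
    mellinW W α s = FM k (Sum.elim s α) := by
  rw [← mellin_eq α hα s]
  unfold mellinW
  rw [setIntegral_congr_fun (measurableSet_quadrant k) (mellinIntegrand_congr α
    (fun y hy => completed_unique hI hW _ (two_mul_sum hα) y hy) s)]

theorem sh_elim (c : Fin k → ℕ) (s : Fin k → ℂ) (α : Fin (k+1) → ℂ) :
    sh c (Sum.elim s α) = Sum.elim (fun j => s j + c j) α := by
  funext i
  cases i <;> simp [sh]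

/-- convergence for large real parts -/
theorem mellin_converges_far {I : (Fin (k+1) → ℂ) → Matrix (Fin (k+1)) (Fin (k+1)) ℝ → ℂ}
    (hI : IsPower k I) {W : (Fin (k+1) → ℂ) → (Fin k → ℝ) → ℂ} (hW : IsCompletedWhittaker k I W)
    (α : Fin (k+1) → ℂ) (hα : ∑ i, α i = 0) :
    ∃ A : ℝ, ∀ s : Fin k → ℂ, (∀ j, A ≤ (s j).re) → MellinConverges W α s := by
  obtain ⟨A, hA⟩ := good_exists k (al (Sum.elim (fun _ => (0 : ℂ)) α : Pt k))
  refine ⟨A + 1, fun s hs => ?_⟩
  rw [mellin_converges_iff' hI hW α hα s]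
  refine OM_integrable _ ⟨by simpa using hα, A, ?_, fun j => by simpa using hs j⟩
  have : al (Sum.elim s α : Pt k) = al (Sum.elim (fun _ => (0 : ℂ)) α : Pt k) := by
    funext i; unfold al; split_ifs <;> rfl
  rwa [this]

end Pool.Agent.MP2f3d29
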