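import Mathlib

set_option autoImplicit false

open MeasureTheory ProbabilityTheory Set Filter Topology
open scoped ENNReal Nat

namespace Pool.Agent.MP2f3d29

/-- Landau's lemma: no analytic continuation at the abscissa of convergence of a Laplace transform
of a positive measure on a half line. -/
theorem landau {Ω : Type*} [MeasurableSpace Ω] {μ : Measure Ω} {X : Ω → ℝ} (hXm : Measurable X)
    (hX : ∀ᵐ ω ∂μ, X ω ≤ 0) {z1 : ℝ} (hz1 : z1 ∈ interior (integrableExpSet X μ)) {R b : ℝ}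
    (hb : 0 ≤ b) (hbR : b < R) {G : ℂ → ℂ} (hG : DifferentiableOn ℂ G (Metric.ball (z1 : ℂ) R))
    (hGeq : G =ᶠ[𝓝 (z1:ℂ)] complexMGF X μ) : z1 - b ∈ integrableExpSet X μ := by
  have hmem : ((z1 - b : ℝ) : ℂ) ∈ Metric.ball (z1 : ℂ) R := by
    rw [Metric.mem_ball, dist_eq_norm, ← Complex.ofReal_sub, Complex.norm_real, Real.norm_eq_abs]
    rw [show z1 - b - z1 = -b by ring, abs_neg, abs_of_nonneg hb]; exact hbR
  have hs := Complex.hasSum_taylorSeries_on_ball hG hmem
  set f : ℕ → Ω → ℝ := fun n ω => (n ! : ℝ)⁻¹ * (b * (- X ω)) ^ n * Real.exp (z1 * X ω) with hf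
  have hz1' : ((z1 : ℝ) : ℂ).re ∈ interior (integrableExpSet X μ) := by simpa using hz1
  have hint : ∀ n, Integrable (f n) μ := by
    intro n
    have := integrable_pow_mul_exp_of_mem_interior_integrableExpSet hz1 n
    refine (this.const_mul ((n ! : ℝ)⁻¹ * (-b)^n)).congr (Eventually.of_forall fun ω => ?_)
    simp only [hf]
    rw [show b * -X ω = (-b) * X ω by ring, mul_pow]; ring
  have hterm : ∀ n, (n ! : ℂ)⁻¹ • (((z1 - b : ℝ) : ℂ) - z1) ^ n • iteratedDeriv n G z1 =
      ((∫ ω, f n ω ∂μ : ℝ) : ℂ) := by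
    intro n
    rw [hGeq.iteratedDeriv_eq, iteratedDeriv_complexMGF hz1', ← integral_complex_ofReal,
      smul_eq_mul, smul_eq_mul, ← integral_const_mul, ← integral_const_mul]
    refine integral_congr_ae (Eventually.of_forall fun ω => ?_)
    simp only [hf]
    have e1 : (((z1 - b : ℝ) : ℂ) - z1) = -(b : ℂ) := by push_cast; ring
    rw [e1]
    push_cast
    rw [show (b : ℂ) * -(X ω : ℂ) = (-(b : ℂ)) * X ω by ring, mul_pow]
    ring
  have hsum : Summable (fun n => ∫ ω, f n ω ∂μ) := by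
    have h1 := hs.summable
    simp_rw [hterm] at h1
    exact Complex.summable_ofReal.1 h1
  have hpos : ∀ᵐ ω ∂μ, ∀ n, 0 ≤ f n ω := by
    filter_upwards [hX] with ω hω n
    have : 0 ≤ b * -X ω := mul_nonneg hb (by linarith)
    simp only [hf]
    positivity
  have hposi : ∀ n, 0 ≤ ∫ ω, f n ω ∂μ := fun n =>
    integral_nonneg_of_ae (hpos.mono fun ω h => h n)
  have hexp : ∀ ω, HasSum (fun n => f n ω) (Real.exp ((z1 - b) * X ω)) := by
    intro ω
    have h1 := NormedSpace.expSeries_div_hasSum_exp (b * -X ω)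
    have h2 := h1.mul_right (Real.exp (z1 * X ω))
    rw [← Real.exp_eq_exp_ℝ, ← Real.exp_add] at h2
    have e1 : b * -X ω + z1 * X ω = (z1 - b) * X ω := by ring
    rw [e1] at h2
    have e2 : (fun n => f n ω) =
        (fun n => (b * -X ω) ^ n / (n ! : ℝ) * Real.exp (z1 * X ω)) := by
      funext n
      simp only [hf]
      rw [div_eq_inv_mul]
    rw [e2]
    exact h2
  have hlin : ∫⁻ ω, ENNReal.ofReal (Real.exp ((z1 - b) * X ω)) ∂μ =
      ∑' n, ENNReal.ofReal (∫ ω, f n ω ∂μ) := by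
    have h1 : ∫⁻ ω, ENNReal.ofReal (Real.exp ((z1 - b) * X ω)) ∂μ =
        ∫⁻ ω, ∑' n, ENNReal.ofReal (f n ω) ∂μ := by
      refine lintegral_congr_ae ?_
      filter_upwards [hpos] with ω hω
      rw [← (hexp ω).tsum_eq, ENNReal.ofReal_tsum_of_nonneg hω (hexp ω).summable]
    rw [h1, lintegral_tsum (fun n => (hint n).aestronglyMeasurable.aemeasurable.ennreal_ofReal)]
    refine tsum_congr fun n => ?_
    rw [ofReal_integral_eq_lintegral_ofReal (hint n) (hpos.mono fun ω h => h n)]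
  show Integrable (fun ω => Real.exp ((z1 - b) * X ω)) μ
  refine ⟨(by fun_prop : Measurable fun ω => Real.exp ((z1 - b) * X ω)).aestronglyMeasurable, ?_⟩
  rw [hasFiniteIntegral_iff_ofReal (Eventually.of_forall fun ω => (Real.exp_pos _).le), hlin,
    ← ENNReal.ofReal_tsum_of_nonneg hposi hsum]
  exact ENNReal.ofReal_lt_top

end Pool.Agent.MP2f3d29
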