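import Mathlib
import Pool.Agent.MP_2f3d29_nt.E2
import Pool.Agent.MP_2f3d29_nt.C1

set_option autoImplicit false

open MeasureTheory Set Filter Topology

namespace Pool.Agent.MP2f3d29

/-- The Givental integral for real parameters. -/
noncomputable def PhiR : (n : ℕ) → (ℕ → ℝ) → (Fin n → ℝ) → ℝ
  | 0, _, _ => 1
  | n+1, a, x => ∫ z : Fin n → ℝ,
      Real.exp (a 0 * (∑ i, x i - ∑ i, z i)) * Kre x z * PhiR n (fun i => a (i+1)) z

theorem PhiR_succ (n : ℕ) (a : ℕ → ℝ) (x : Fin (n+1) → ℝ) : PhiR (n+1) a x =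
    ∫ z : Fin n → ℝ, Real.exp (a 0 * (∑ i, x i - ∑ i, z i)) * Kre x z *
      PhiR n (fun i => a (i+1)) z := rfl

theorem Phi_real (n : ℕ) : ∀ (a : ℕ → ℝ) (x : Fin n → ℝ),
    Phi n (fun i => (a i : ℂ)) x = (PhiR n a x : ℂ) := by
  induction n with
  | zero => intro a x; simp [Phi, PhiR]
  | succ n ih =>
    intro a x
    rw [Phi_succ, PhiR_succ, ← integral_complex_ofReal]
    refine integral_congr_ae (Eventually.of_forall fun z => ?_)
    simp only
    rw [ih (fun i => a (i+1)) z]
    push_cast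
    ring

theorem PhiR_nonneg (n : ℕ) : ∀ (a : ℕ → ℝ) (x : Fin n → ℝ), 0 ≤ PhiR n a x := by
  induction n with
  | zero => intro a x; simp [PhiR]
  | succ n ih =>
    intro a x
    rw [PhiR_succ]
    exact integral_nonneg fun z => mul_nonneg (mul_nonneg (Real.exp_pos _).le (Kre_pos _ _).le)
      (ih _ _)

theorem PhiR_eq_re (n : ℕ) (a : ℕ → ℝ) (x : Fin n → ℝ) :
    PhiR n a x = (Phi n (fun i => (a i : ℂ)) x).re := by
  rw [Phi_real, Complex.ofReal_re]

theorem PhiR_measurable (n : ℕ) (a : ℕ → ℝ) : Measurable (PhiR n a) := by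
  have h : PhiR n a = fun x => (Phi n (fun i => (a i : ℂ)) x).re := by
    funext x; exact PhiR_eq_re n a x
  rw [h]
  exact Complex.measurable_re.comp (Phi_stronglyMeasurable n _).measurable

theorem Phi_congr_lt (n : ℕ) : ∀ (a b : ℕ → ℂ) (x : Fin n → ℝ), (∀ i, i < n → a i = b i) →
    Phi n a x = Phi n b x := fun a b x h => congrFun (Phi_congr n h) x

theorem PhiR_congr (n : ℕ) (a b : ℕ → ℝ) (x : Fin n → ℝ) (h : ∀ i, i < n → a i = b i) :
    PhiR n a x = PhiR n b x := by
  rw [PhiR_eq_re, PhiR_eq_re]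
  congr 1
  exact Phi_congr_lt n _ _ x (fun i hi => by rw [h i hi])

theorem PhiR_integrable (n : ℕ) (a : ℕ → ℝ) (ha : ∃ B, ∀ i, |a i| ≤ B) (x : Fin (n+1) → ℝ) :
    Integrable (fun z : Fin n → ℝ => Real.exp (a 0 * (∑ i, x i - ∑ i, z i)) * Kre x z *
      PhiR n (fun i => a (i+1)) z) := by
  obtain ⟨B, hB⟩ := ha
  have hB0 : 0 ≤ B := (abs_nonneg _).trans (hB 0)
  obtain ⟨C, hC, hb⟩ := phI_bound n B (∑ i, |x i|) hB0
  have he : (fun z : Fin n → ℝ => Real.exp (a 0 * (∑ i, x i - ∑ i, z i)) * Kre x z *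
      PhiR n (fun i => a (i+1)) z) = fun z => (phI n (fun i => (a i : ℂ)) x z).re := by
    funext z
    unfold phI
    rw [Phi_real n (fun i => a (i+1)) z]
    have : Complex.exp ((a 0 : ℂ) * ((∑ i, x i - ∑ i, z i : ℝ) : ℂ)) * (Kre x z : ℂ) *
        (PhiR n (fun i => a (i+1)) z : ℂ) = ((Real.exp (a 0 * (∑ i, x i - ∑ i, z i)) * Kre x z *
      PhiR n (fun i => a (i+1)) z : ℝ) : ℂ) := by
      push_cast; ring
    rw [this, Complex.ofReal_re]
  rw [he]
  have hI : Integrable (fun z : Fin n → ℝ => phI n (fun i => (a i : ℂ)) x z) :=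
    Integrable.mono' ((expn_integrable n).const_mul C)
        (phI_measurable n _ _).aestronglyMeasurable
        (Eventually.of_forall fun z => hb _ (fun i => by
          rw [Complex.norm_real]; exact hB i) x le_rfl z)
  exact hI.re

/-- lower bound on a region with bounded gaps -/
theorem PhiR_lower (n : ℕ) : ∀ (a : ℕ → ℝ) (B G : ℝ), (∀ i, |a i| ≤ B) → ∃ c K : ℝ, 0 < c ∧ 0 ≤ K ∧
    ∀ x : Fin n → ℝ, (∀ i : ℕ, ∀ h : i + 1 < n, x ⟨i, by omega⟩ - x ⟨i+1, h⟩ ≤ G) →
      c * Real.exp (-(K * ∑ i, |x i|)) ≤ PhiR n a x := by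
  induction n with
  | zero => intro a B G _; exact ⟨1, 0, one_pos, le_rfl, fun x _ => by simp [PhiR]⟩
  | succ n ih =>
    intro a B G ha
    have hB0 : 0 ≤ B := (abs_nonneg _).trans (ha 0)
    obtain ⟨c, K, hc, hK, h⟩ := ih (fun i => a (i+1)) B (G+1) (fun i => ha _)
    set κ : ℝ := 1 + Real.exp (G+1) with hκ
    refine ⟨Real.exp (-(B * n)) * Real.exp (-(n * κ)) * (c * Real.exp (-(K * n))), 2 * B + K,
      by positivity, by positivity, fun x hx => ?_⟩
    set L : ℝ := Real.exp (-(B * n)) * Real.exp (-(n * κ)) * (c * Real.exp (-(K * n))) *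
      Real.exp (-((2 * B + K) * ∑ i, |x i|)) with hL
    set box : Set (Fin n → ℝ) := Set.Icc (fun i => x i.castSucc) (fun i => x i.castSucc + 1) with hbox
    have hvol : volume box = 1 := by
      rw [hbox, Real.volume_Icc_pi]
      simp
    have hint := PhiR_integrable n a ⟨B, ha⟩ x
    rw [PhiR_succ]
    have hnn : 0 ≤ᵐ[volume] (fun z : Fin n → ℝ => Real.exp (a 0 * (∑ i, x i - ∑ i, z i)) * Kre x z *
      PhiR n (fun i => a (i+1)) z) :=
      Eventually.of_forall fun z => mul_nonneg (mul_nonneg (Real.exp_pos _).le (Kre_pos _ _).le)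
      (PhiR_nonneg _ _ _)
    refine le_trans ?_ (setIntegral_le_integral (s := box) hint hnn)
    have hconst : L = ∫ _ in box, L ∂volume := by
      rw [setIntegral_const, Measure.real, hvol]; simp
    rw [hconst]
    refine setIntegral_mono_on (integrableOn_const (by rw [hvol]; exact ENNReal.one_ne_top))
      hint.integrableOn measurableSet_Icc fun z hz => ?_
    have hz1 : ∀ i, x i.castSucc ≤ z i := fun i => hz.1 i
    have hz2 : ∀ i, z i ≤ x i.castSucc + 1 := fun i => hz.2 i
    have hsx : ∑ i : Fin n, |x i.castSucc| ≤ ∑ i, |x i| := by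
      rw [Fin.sum_univ_castSucc]
      have := abs_nonneg (x (Fin.last n))
      linarith
    have hsz : ∑ i, |z i| ≤ ∑ i, |x i| + n := by
      have : ∑ i, |z i| ≤ ∑ i : Fin n, (|x i.castSucc| + 1) := by
        refine Finset.sum_le_sum fun i _ => ?_
        have h1 := hz1 i
        have h2 := hz2 i
        rw [abs_le]
        have h3 := neg_abs_le (x i.castSucc)
        have h4 := le_abs_self (x i.castSucc)
        constructor <;> linarith
      rw [Finset.sum_add_distrib] at this
      simp only [Finset.sum_const, Finset.card_univ, Fintype.card_fin, nsmul_eq_mul, mul_one] at this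
      linarith
    -- first factor
    have f1 : Real.exp (-(B * n)) * Real.exp (-(2 * B * ∑ i, |x i|)) ≤
        Real.exp (a 0 * (∑ i, x i - ∑ i, z i)) := by
      rw [← Real.exp_add]
      apply Real.exp_le_exp.2
      have h1 : |a 0 * (∑ i, x i - ∑ i, z i)| ≤ B * (∑ i, |x i| + ∑ i, |z i|) := by
        rw [abs_mul]
        have h2 : |∑ i, x i - ∑ i, z i| ≤ ∑ i, |x i| + ∑ i, |z i| :=
          (abs_sub _ _).trans (add_le_add (Finset.abs_sum_le_sum_abs _ _)
            (Finset.abs_sum_le_sum_abs _ _))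
        exact mul_le_mul (ha 0) h2 (abs_nonneg _) hB0
      have h3 := neg_abs_le (a 0 * (∑ i, x i - ∑ i, z i))
      have h4 : B * (∑ i, |x i| + ∑ i, |z i|) ≤ B * (∑ i, |x i| + (∑ i, |x i| + n)) := by gcongr
      nlinarith
    -- second factor
    have f2 : Real.exp (-(n * κ)) ≤ Kre x z := by
      unfold Kre
      rw [← Real.exp_sum]
      apply Real.exp_le_exp.2
      rw [Finset.sum_neg_distrib]
      apply neg_le_neg
      have : ∑ i : Fin n, (Real.exp (x i.castSucc - z i) + Real.exp (z i - x i.succ)) ≤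
          ∑ _i : Fin n, κ := by
        refine Finset.sum_le_sum fun i _ => ?_
        rw [hκ]
        refine add_le_add ?_ ?_
        · rw [Real.exp_le_one_iff]; linarith [hz1 i]
        · apply Real.exp_le_exp.2
          have h5 := hx i (by omega)
          have h6 : x (⟨i, by omega⟩ : Fin (n+1)) = x i.castSucc := rfl
          have h7 : x (⟨i+1, by omega⟩ : Fin (n+1)) = x i.succ := rfl
          rw [h6, h7] at h5
          linarith [hz2 i]
      refine this.trans (le_of_eq ?_)
      simp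
    -- third factor
    have f3 : c * Real.exp (-(K * n)) * Real.exp (-(K * ∑ i, |x i|)) ≤
        PhiR n (fun i => a (i+1)) z := by
      refine le_trans ?_ (h z ?_)
      · rw [mul_assoc, ← Real.exp_add]
        refine mul_le_mul_of_nonneg_left (Real.exp_le_exp.2 ?_) hc.le
        have : K * ∑ i, |z i| ≤ K * (∑ i, |x i| + n) := by gcongr
        nlinarith
      · intro i hi
        have h1 := hz2 ⟨i, by omega⟩
        have h2 := hz1 ⟨i+1, hi⟩
        have h5 := hx i (by omega)
        have h6 : x (⟨i, by omega⟩ : Fin n).castSucc = x (⟨i, by omega⟩ : Fin (n+1)) := rfl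
        have h7 : x (⟨i+1, hi⟩ : Fin n).castSucc = x (⟨i+1, by omega⟩ : Fin (n+1)) := rfl
        rw [h6] at h1
        rw [h7] at h2
        linarith
    calc L = (Real.exp (-(B * n)) * Real.exp (-(2 * B * ∑ i, |x i|))) * Real.exp (-(n * κ)) *
        (c * Real.exp (-(K * n)) * Real.exp (-(K * ∑ i, |x i|))) := by
          rw [hL]
          have : Real.exp (-((2 * B + K) * ∑ i, |x i|)) =
            Real.exp (-(2 * B * ∑ i, |x i|)) * Real.exp (-(K * ∑ i, |x i|)) := by
            rw [← Real.exp_add]; congr 1; ring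
          rw [this]; ring
      _ ≤ _ := by
          have g1 := PhiR_nonneg n (fun i => a (i+1)) z
          have g2 := (Kre_pos x z).le
          gcongr

end Pool.Agent.MP2f3d29
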