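import Mathlib
import Pool.Agent.MP_2f3d29_nt.F1
import Pool.Agent.MP_2f3d29_nt.F2

set_option autoImplicit false

open MeasureTheory ProbabilityTheory Set Filter Topology
open scoped ENNReal

namespace Pool.Agent.MP2f3d29

variable {k : ℕ}

/-- the Mellin integrand at a real point, in gap coordinates -/
noncomputable def wR (a : ℕ → ℝ) (p : Fin k → ℝ) (g : Fin k → ℝ) : ℝ :=
  PhiR (k+1) a (xg g) * Real.exp (∑ j, p (Fin.rev j) * g j)

/-- convergence at a real point -/
def CvR (a : ℕ → ℝ) (p : Fin k → ℝ) : Prop := Integrable (wR a p)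

/-- the complex line through a real point -/
noncomputable def pt (m : Fin k) (β : Fin k → ℝ) (z : ℂ) : Fin k → ℂ :=
  fun j => (β j : ℂ) + if j = m then z else 0

/-- real parameters -/
noncomputable def alr (k : ℕ) (a : ℕ → ℝ) : Fin (k+1) → ℂ := fun i => (a i : ℂ)

theorem Phi_al (a : ℕ → ℝ) (s : Fin k → ℂ) (x : Fin (k+1) → ℝ) :
    Phi (k+1) (al (Sum.elim s (alr k a))) x = (PhiR (k+1) a x : ℂ) := by
  rw [← Phi_real]
  refine Phi_congr_lt _ _ _ _ fun i hi => ?_
  unfold al
  rw [dif_pos hi]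
  rfl

theorem ex_elim (s : Fin k → ℂ) (α : Fin (k+1) → ℂ) (g : Fin k → ℝ) :
    ex (Sx (Sum.elim s α)) g = Complex.exp (∑ j, s (Fin.rev j) * (g j : ℂ)) := by
  unfold ex
  congr 1
  refine Finset.sum_congr rfl fun j _ => ?_
  have hj := j.2
  have e : k - (j : ℕ) = (⟨k - 1 - j, by omega⟩ : Fin k) + 1 := by simp; omega
  rw [e, Sx_mid]
  simp only [Sum.elim_inl]
  have e2 : (⟨k - 1 - j, by omega⟩ : Fin k) = Fin.rev j := by
    ext; rw [Fin.val_rev]; simp; omega
  rw [e2]

theorem wR_nonneg (a : ℕ → ℝ) (p g : Fin k → ℝ) : 0 ≤ wR a p g :=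
  mul_nonneg (PhiR_nonneg _ _ _) (Real.exp_pos _).le

theorem wR_measurable (a : ℕ → ℝ) (p : Fin k → ℝ) : Measurable (wR a p) := by
  unfold wR
  refine Measurable.mul ((PhiR_measurable (k+1) a).comp xg_continuous.measurable) ?_
  fun_prop

theorem integrand_norm (a : ℕ → ℝ) (s : Fin k → ℂ) (g : Fin k → ℝ) :
    ‖Phi (k+1) (al (Sum.elim s (alr k a))) (xg g) * ex (Sx (Sum.elim s (alr k a))) g‖ =
      wR a (fun j => (s j).re) g := by
  rw [Phi_al, ex_elim, norm_mul, Complex.norm_real, Real.norm_of_nonneg (PhiR_nonneg _ _ _),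
    Complex.norm_exp, Complex.re_sum]
  unfold wR
  congr 2
  refine Finset.sum_congr rfl fun j _ => ?_
  rw [Complex.re_mul_ofReal]

theorem CvR_iff (a : ℕ → ℝ) (s : Fin k → ℂ) :
    Cv (Sum.elim s (alr k a)) ↔ CvR a (fun j => (s j).re) := by
  unfold Cv CvR
  have hm : AEStronglyMeasurable (fun g : Fin k → ℝ =>
      Phi (k+1) (al (Sum.elim s (alr k a))) (xg g) * ex (Sx (Sum.elim s (alr k a))) g) volume := by
    simp only [Phi_al, ex_elim]
    refine Measurable.aestronglyMeasurable ?_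
    refine Measurable.mul (Complex.measurable_ofReal.comp
      ((PhiR_measurable (k+1) a).comp xg_continuous.measurable)) ?_
    fun_prop
  rw [← integrable_norm_iff hm]
  simp only [integrand_norm]

theorem CvR_convex (a : ℕ → ℝ) {p0 p1 : Fin k → ℝ} (h0 : CvR a p0) (h1 : CvR a p1) {t : ℝ}
    (ht0 : 0 ≤ t) (ht1 : t ≤ 1) : CvR a (fun j => (1 - t) * p0 j + t * p1 j) := by
  refine Integrable.mono' (h0.add h1) (wR_measurable _ _).aestronglyMeasurable
    (Eventually.of_forall fun g => ?_)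
  rw [Real.norm_of_nonneg (wR_nonneg _ _ _)]
  simp only [Pi.add_apply]
  unfold wR
  rw [← mul_add]
  refine mul_le_mul_of_nonneg_left ?_ (PhiR_nonneg _ _ _)
  set A := ∑ j, p0 (Fin.rev j) * g j with hA
  set B := ∑ j, p1 (Fin.rev j) * g j with hB
  have e : ∑ j, ((1 - t) * p0 (Fin.rev j) + t * p1 (Fin.rev j)) * g j = (1 - t) * A + t * B := by
    rw [hA, hB, Finset.mul_sum, Finset.mul_sum, ← Finset.sum_add_distrib]
    exact Finset.sum_congr rfl fun j _ => by ring
  rw [e]
  rcases le_total A B with h | h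
  · have : (1 - t) * A + t * B ≤ B := by nlinarith
    have := Real.exp_le_exp.2 this
    linarith [Real.exp_pos A]
  · have : (1 - t) * A + t * B ≤ A := by nlinarith
    have := Real.exp_le_exp.2 this
    linarith [Real.exp_pos B]

theorem CvR_far (a : ℕ → ℝ) (ha : ∑ i ∈ Finset.range (k+1), a i = 0) :
    ∃ A : ℝ, ∀ p : Fin k → ℝ, (∀ j, A ≤ p j) → CvR a p := by
  have h0 : ∀ s : Fin k → ℂ, al (Sum.elim s (alr k a) : Pt k) =
      al (Sum.elim (fun _ => (0 : ℂ)) (alr k a) : Pt k) := by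
    intro s; funext i; unfold al; split_ifs <;> rfl
  obtain ⟨A, hA⟩ := good_exists k (al (Sum.elim (fun _ => (0 : ℂ)) (alr k a) : Pt k))
  refine ⟨A + 1, fun p hp => ?_⟩
  have h1 : Cv (Sum.elim (fun j => (p j : ℂ)) (alr k a) : Pt k) := by
    refine OM_integrable _ ⟨?_, A, ?_, fun j => by simpa using hp j⟩
    · simp only [Sum.elim_inr, alr]
      rw [← Complex.ofReal_sum, ← Finset.sum_range (fun i => a i), ha, Complex.ofReal_zero]
    · rw [h0]; exact hA
  rw [CvR_iff] at h1
  simpa using h1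

/-- moving up in the `m`-direction -/
theorem CvR_up (a : ℕ → ℝ) {A : ℝ} (hA : ∀ p : Fin k → ℝ, (∀ j, A ≤ p j) → CvR a p) (m : Fin k)
    {p0 : Fin k → ℝ} (h0 : CvR a p0) (hp0 : ∀ j, j ≠ m → A ≤ p0 j) {u : Fin k → ℝ}
    (hu : ∀ j, 0 ≤ u j) (hum : 0 < u m) : CvR a (fun j => p0 j + u j) := by
  obtain ⟨T, hT1, hT2⟩ : ∃ T : ℝ, 1 ≤ T ∧ A ≤ p0 m + T * u m := by
    refine ⟨max 1 ((A - p0 m) / u m), le_max_left _ _, ?_⟩
    have := le_max_right 1 ((A - p0 m) / u m)
    rw [div_le_iff₀ hum] at this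
    linarith
  have h1 : CvR a (fun j => p0 j + T * u j) := by
    refine hA _ fun j => ?_
    by_cases hj : j = m
    · subst hj; exact hT2
    · have h2 := hp0 j hj
      have h3 := hu j
      have : 0 ≤ T * u j := mul_nonneg (by linarith) h3
      linarith
  have hT0 : T ≠ 0 := by linarith
  have h2 := CvR_convex a h0 h1 (t := 1 / T) (by positivity) (by
    rw [div_le_one (by linarith)]; exact hT1)
  have e : (fun j => (1 - 1 / T) * p0 j + 1 / T * (p0 j + T * u j)) = fun j => p0 j + u j := by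
    funext j
    field_simp
    ring
  rwa [e] at h2

/-- the measure attached to a real point -/
noncomputable def mb (a : ℕ → ℝ) (β : Fin k → ℝ) : Measure (Fin k → ℝ) :=
  volume.withDensity (fun g => ((wR a β g).toNNReal : ℝ≥0∞))

theorem wR_shift (m : Fin k) (a : ℕ → ℝ) (β : Fin k → ℝ) (t : ℝ) (g : Fin k → ℝ) :
    wR a (fun j => β j + if j = m then t else 0) g = wR a β g * Real.exp (t * g (Fin.rev m)) := by
  unfold wR
  rw [mul_assoc, ← Real.exp_add]
  congr 2
  simp only [add_mul, Finset.sum_add_distrib]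
  congr 1
  rw [Finset.sum_eq_single (Fin.rev m)]
  · rw [Fin.rev_rev, if_pos rfl]
  · intro j _ hj
    rw [if_neg, zero_mul]
    intro h
    apply hj
    rw [← h, Fin.rev_rev]
  · intro h; exact absurd (Finset.mem_univ _) h

theorem mem_expSet (m : Fin k) (a : ℕ → ℝ) (β : Fin k → ℝ) (t : ℝ) :
    t ∈ integrableExpSet (fun g : Fin k → ℝ => g (Fin.rev m)) (mb a β) ↔
      CvR a (fun j => β j + if j = m then t else 0) := by
  show Integrable (fun g : Fin k → ℝ => Real.exp (t * g (Fin.rev m))) (mb a β) ↔ _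
  unfold mb CvR
  rw [integrable_withDensity_iff_integrable_smul (wR_measurable a β).real_toNNReal]
  have e : (fun g : Fin k → ℝ => (wR a β g).toNNReal • Real.exp (t * g (Fin.rev m))) =
      wR a (fun j => β j + if j = m then t else 0) := by
    funext g
    rw [wR_shift, NNReal.smul_def, Real.coe_toNNReal _ (wR_nonneg _ _ _), smul_eq_mul]
  rw [e]

theorem mgf_eq (m : Fin k) (a : ℕ → ℝ) (β : Fin k → ℝ) (z : ℂ) :
    complexMGF (fun g : Fin k → ℝ => g (Fin.rev m)) (mb a β) z =
      FM k (Sum.elim (pt m β z) (alr k a)) := by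
  unfold complexMGF mb FM
  rw [integral_withDensity_eq_integral_smul (wR_measurable a β).real_toNNReal]
  refine integral_congr_ae (Eventually.of_forall fun g => ?_)
  simp only
  rw [Phi_al, ex_elim, NNReal.smul_def, Real.coe_toNNReal _ (wR_nonneg _ _ _)]
  unfold wR pt
  rw [Complex.real_smul, Complex.ofReal_mul, mul_assoc]
  congr 1
  rw [Complex.ofReal_exp, ← Complex.exp_add]
  congr 1
  simp only [add_mul, Finset.sum_add_distrib]
  congr 1
  · push_cast; rfl
  · rw [Finset.sum_eq_single (Fin.rev m)]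
    · rw [Fin.rev_rev, if_pos rfl]
    · intro j _ hj
      rw [if_neg, zero_mul]
      intro h
      apply hj
      rw [← h, Fin.rev_rev]
    · intro h; exact absurd (Finset.mem_univ _) h

end Pool.Agent.MP2f3d29
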