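import Mathlib
import Pool.Agent.MP_2f3d29_nt.F3

set_option autoImplicit false

open MeasureTheory ProbabilityTheory Set Filter Topology
open scoped ENNReal

namespace Pool.Agent.MP2f3d29

variable {k : ℕ}

/-- the base point -/
noncomputable def bpt (m : Fin k) (A : ℝ) : Fin k → ℝ := fun j => if j = m then 0 else A

/-- the convergence set on the line through the base point -/
def Eset (a : ℕ → ℝ) (m : Fin k) (A : ℝ) : Set ℝ :=
  integrableExpSet (fun g : Fin k → ℝ => g (Fin.rev m)) (mb a (bpt m A))

theorem mem_Eset (a : ℕ → ℝ) (m : Fin k) (A t : ℝ) :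
    t ∈ Eset a m A ↔ CvR a (fun j => if j = m then t else A) := by
  unfold Eset
  rw [mem_expSet]
  have e : (fun j => bpt m A j + if j = m then t else 0) = fun j => if j = m then t else A := by
    funext j
    unfold bpt
    split_ifs <;> simp
  rw [e]

section line

variable {a : ℕ → ℝ} {A : ℝ} (hA : ∀ p : Fin k → ℝ, (∀ j, A ≤ p j) → CvR a p) (m : Fin k)

include hA

theorem Eset_large {t : ℝ} (ht : A ≤ t) : t ∈ Eset a m A := by
  rw [mem_Eset]
  refine hA _ fun j => ?_
  split_ifs
  · exact ht
  · exact le_rfl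

theorem Eset_Ioi (hb : BddBelow (Eset a m A)) {t : ℝ} (ht : sInf (Eset a m A) < t) :
    t ∈ Eset a m A := by
  obtain ⟨t', ht', h2⟩ := exists_lt_of_csInf_lt ⟨A, Eset_large hA m le_rfl⟩ ht
  have h3 : max t A ∈ Eset a m A := Eset_large hA m (le_max_right _ _)
  have hconv : Convex ℝ (Eset a m A) := convex_integrableExpSet
  exact hconv.ordConnected.out ht' h3 ⟨h2.le, le_max_left _ _⟩

/-- convergence at the shifted points -/
theorem Eset_shift (hb : BddBelow (Eset a m A)) {c : Fin k → ℕ} (hc : 1 ≤ c m) {t : ℝ}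
    (ht : sInf (Eset a m A) - 1 < t) :
    t ∈ integrableExpSet (fun g : Fin k → ℝ => g (Fin.rev m)) (mb a (fun j => bpt m A j + c j)) := by
  rw [mem_expSet]
  set σ := sInf (Eset a m A) with hσ
  have hcm : (1 : ℝ) ≤ c m := by exact_mod_cast hc
  set t0 : ℝ := (σ + (t + c m)) / 2 with ht0
  have h1 : σ < t0 := by rw [ht0]; linarith
  have h2 : t0 < t + c m := by rw [ht0]; linarith
  have h3 := (mem_Eset a m A t0).1 (Eset_Ioi hA m hb h1)
  have h4 := CvR_up a hA m h3 (fun j hj => by simp [hj])
    (u := fun j => if j = m then t + c m - t0 else c j) (fun j => by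
      by_cases hj : j = m
      · simp only [hj, if_true]; linarith
      · simp only [hj, if_false]; positivity) (by simp; linarith)
  have e : (fun j => (if j = m then t0 else A) + if j = m then t + (c m : ℝ) - t0 else (c j : ℝ)) =
      fun j => bpt m A j + c j + if j = m then t else 0 := by
    funext j
    unfold bpt
    by_cases hj : j = m
    · subst hj; simp; ring
    · simp [hj]
  rw [e] at h4
  exact h4

theorem no_sing (hb : BddBelow (Eset a m A)) {Q : ℂ → ℂ} (hQ : Differentiable ℂ Q) {r : ℕ}
    {S : Fin r → ℂ → ℂ} (hS : ∀ i, Differentiable ℂ (S i)) {c : Fin r → Fin k → ℕ}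
    (hc : ∀ i, 1 ≤ c i m)
    (hid : ∀ z : ℂ, sInf (Eset a m A) < z.re →
      Q z * complexMGF (fun g : Fin k → ℝ => g (Fin.rev m)) (mb a (bpt m A)) z =
      ∑ i, S i z * complexMGF (fun g : Fin k → ℝ => g (Fin.rev m))
        (mb a (fun j => bpt m A j + c i j)) z) :
    Q ((sInf (Eset a m A) : ℝ) : ℂ) = 0 := by
  set σ := sInf (Eset a m A) with hσ
  set X : (Fin k → ℝ) → ℝ := fun g => g (Fin.rev m) with hX
  have hXm : Measurable X := by fun_prop
  set μ := mb a (bpt m A) with hμ
  by_contra hQσ
  -- the radius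
  obtain ⟨ε, hε0, hε1, hεQ⟩ : ∃ ε : ℝ, 0 < ε ∧ ε ≤ 1 ∧ ∀ z ∈ Metric.ball (σ : ℂ) ε, Q z ≠ 0 := by
    have h1 : ∀ᶠ z in 𝓝 (σ : ℂ), Q z ≠ 0 := hQ.continuous.continuousAt.eventually_ne hQσ
    obtain ⟨ε, hε, h2⟩ := Metric.eventually_nhds_iff_ball.1 h1
    refine ⟨min ε 1, lt_min hε one_pos, min_le_right _ _, fun z hz => h2 z ?_⟩
    exact Metric.ball_subset_ball (min_le_left _ _) hz
  set μp := μ.restrict {g | 0 < X g} with hμp
  set μn := μ.restrict {g | 0 < X g}ᶜ with hμn
  have hmeas : MeasurableSet {g | 0 < X g} := measurableSet_lt measurable_const hXm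
  -- integrability
  have hEp : ∀ t, t ∈ integrableExpSet X μp := by
    intro t
    have h1 : max t A ∈ Eset a m A := Eset_large hA m (le_max_right _ _)
    have h2 : Integrable (fun g => Real.exp (max t A * X g)) μp :=
      (show Integrable (fun g => Real.exp (max t A * X g)) μ from h1).mono_measure
        Measure.restrict_le_self
    show Integrable (fun g => Real.exp (t * X g)) μp
    refine Integrable.mono' h2 (by fun_prop) ?_
    refine ae_restrict_of_forall_mem hmeas fun g hg => ?_
    rw [Real.norm_of_nonneg (Real.exp_pos _).le]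
    apply Real.exp_le_exp.2
    exact mul_le_mul_of_nonneg_right (le_max_left _ _) (le_of_lt hg)
  have hEn : ∀ t, σ < t → t ∈ integrableExpSet X μn := by
    intro t ht
    have h1 : t ∈ Eset a m A := Eset_Ioi hA m hb ht
    exact (show Integrable (fun g => Real.exp (t * X g)) μ from h1).mono_measure
        Measure.restrict_le_self
  have hintn : Ioi σ ⊆ interior (integrableExpSet X μn) :=
    interior_maximal (fun t ht => hEn t ht) isOpen_Ioi
  have hintp : ∀ t, t ∈ interior (integrableExpSet X μp) := by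
    intro t
    have : integrableExpSet X μp = univ := eq_univ_of_forall hEp
    rw [this, interior_univ]; trivial
  -- the difference
  set H : Fin r → ℂ → ℂ := fun i => complexMGF X (mb a (fun j => bpt m A j + c i j)) with hH
  have hHd : ∀ i, ∀ z : ℂ, σ - 1 < z.re → DifferentiableAt ℂ (H i) z := by
    intro i z hz
    have h1 : Ioi (σ - 1) ⊆ interior (integrableExpSet X (mb a (fun j => bpt m A j + c i j))) :=
      interior_maximal (fun t ht => Eset_shift hA m hb (hc i) ht) isOpen_Ioi
    exact (analyticAt_complexMGF (h1 hz)).differentiableAt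
  set G : ℂ → ℂ := fun z => (∑ i, S i z * H i z) / Q z - complexMGF X μp z with hG
  have hFsum : ∀ z : ℂ, σ < z.re → complexMGF X μ z = complexMGF X μp z + complexMGF X μn z := by
    intro z hz
    have h1 : Integrable (fun g => Complex.exp (z * X g)) μ :=
      integrable_cexp_mul_of_re_mem_integrableExpSet hXm.aemeasurable (Eset_Ioi hA m hb hz)
    exact (integral_add_compl hmeas h1).symm
  have hz1 : σ + ε / 4 ∈ interior (integrableExpSet X μn) := hintn (by
    simp only [mem_Ioi]; linarith)
  have hland := landau (μ := μn) (X := X) hXm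
    (ae_restrict_of_forall_mem hmeas.compl fun g hg => not_lt.1 hg) hz1 (R := ε / 2)
    (b := 3 * ε / 8) (by positivity) (by linarith) (G := G) ?_ ?_
  · -- contradiction
    have h1 : σ + ε / 4 - 3 * ε / 8 ∈ Eset a m A := by
      show Integrable (fun g => Real.exp ((σ + ε / 4 - 3 * ε / 8) * X g)) μ
      rw [← integrableOn_univ, ← union_compl_self {g | 0 < X g}]
      exact IntegrableOn.union (hEp _) hland
    have h2 := csInf_le hb h1
    rw [← hσ] at h2
    linarith
  · intro z hz
    rw [Metric.mem_ball, dist_eq_norm] at hz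
    have hz2 : ‖z - (σ : ℂ)‖ < ε := by
      have h1 : z - (σ : ℂ) = (z - ((σ + ε / 4 : ℝ) : ℂ)) + ((ε / 4 : ℝ) : ℂ) := by
        push_cast; ring
      rw [h1]
      refine (norm_add_le _ _).trans_lt ?_
      rw [Complex.norm_real, Real.norm_of_nonneg (by positivity)]
      linarith
    have hQz : Q z ≠ 0 := hεQ z (by rw [Metric.mem_ball, dist_eq_norm]; exact hz2)
    have hre : σ - 1 < z.re := by
      have h1 := Complex.abs_re_le_norm (z - (σ : ℂ))
      rw [Complex.sub_re, Complex.ofReal_re] at h1
      have h2 := neg_abs_le (z.re - σ)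
      linarith
    refine DifferentiableAt.differentiableWithinAt ?_
    refine DifferentiableAt.sub (DifferentiableAt.div ?_ (hQ z) hQz) ?_
    · exact DifferentiableAt.fun_sum fun i _ => (hS i z).mul (hHd i z hre)
    · exact (analyticAt_complexMGF (hintp z.re)).differentiableAt
  · have hopen : {z : ℂ | σ < z.re} ∈ 𝓝 ((σ + ε / 4 : ℝ) : ℂ) := by
      refine (isOpen_lt continuous_const Complex.continuous_re).mem_nhds ?_
      simp only [mem_ofPred_eq, Complex.ofReal_re]; linarith
    have hball : Metric.ball (σ : ℂ) ε ∈ 𝓝 ((σ + ε / 4 : ℝ) : ℂ) := by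
      refine Metric.isOpen_ball.mem_nhds ?_
      rw [Metric.mem_ball, dist_eq_norm, ← Complex.ofReal_sub, Complex.norm_real,
        Real.norm_of_nonneg (by linarith)]
      linarith
    filter_upwards [hopen, hball] with z hz hzb
    have hQz := hεQ z hzb
    simp only [hG]
    rw [← hid z hz, mul_div_cancel_left₀ _ hQz, hFsum z hz]
    ring

end line

/-! ### the convergence set is bounded below -/

theorem xg_abs (g : Fin k → ℝ) (i : Fin (k+1)) : |xg g i| ≤ ∑ j, |g j| := by
  unfold xg
  refine (Finset.abs_sum_le_sum_abs _ _).trans ?_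
  have h1 : ∑ j, |g j| = ∑ j ∈ Finset.range k, |ext g j| := by
    rw [Finset.sum_range]
    exact Finset.sum_congr rfl fun j _ => by rw [ext_fin]
  rw [h1]
  refine Finset.sum_le_sum_of_subset_of_nonneg (fun j hj => ?_) (fun _ _ _ => abs_nonneg _)
  rw [Finset.mem_Ico] at hj
  rw [Finset.mem_range]; exact hj.2

theorem Eset_bdd (a : ℕ → ℝ) (haB : ∃ B, ∀ i, |a i| ≤ B) (m : Fin k) (A : ℝ) :
    BddBelow (Eset a m A) := by
  obtain ⟨B, hB⟩ := haB
  obtain ⟨c, K, hc, hK, hlow⟩ := PhiR_lower (k+1) a B 1 hB
  refine ⟨-(K * (k+1)), fun t ht => ?_⟩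
  by_contra hlt
  push Not at hlt
  rw [mem_Eset] at ht
  set Rg : Set (Fin k → ℝ) := Set.univ.pi (fun j => if j = Fin.rev m then Iic 0 else Icc 0 1) with hRg
  have hvol : volume Rg = ⊤ := by
    rw [hRg, volume_pi_pi, Finset.prod_eq_single (Fin.rev m)]
    · rw [if_pos rfl]; simp
    · intro j _ hj; rw [if_neg hj]; simp
    · intro h; exact absurd (Finset.mem_univ _) h
  set c' : ℝ := c * Real.exp (-(K * ((k+1) * k))) * Real.exp (-(|A| * k)) with hc'
  have hc'0 : 0 < c' := by positivity
  have hlb : ∀ g ∈ Rg, c' ≤ wR a (fun j => if j = m then t else A) g := by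
    intro g hg
    have hg1 : g (Fin.rev m) ≤ 0 := by
      have := hg (Fin.rev m) (mem_univ _)
      simpa using this
    have hg2 : ∀ j, j ≠ Fin.rev m → 0 ≤ g j ∧ g j ≤ 1 := by
      intro j hj
      have := hg j (mem_univ _)
      simpa [hj] using this
    have hgle : ∀ j, g j ≤ 1 := by
      intro j
      by_cases hj : j = Fin.rev m
      · rw [hj]; linarith
      · exact (hg2 j hj).2
    have hsum : ∑ j, |g j| ≤ |g (Fin.rev m)| + k := by
      have h1 : ∑ j, |g j| ≤ ∑ j : Fin k, ((if j = Fin.rev m then |g (Fin.rev m)| else 0) + 1) := by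
        refine Finset.sum_le_sum fun j _ => ?_
        by_cases hj : j = Fin.rev m
        · rw [hj, if_pos rfl]; linarith
        · rw [if_neg hj, abs_of_nonneg (hg2 j hj).1]; linarith [(hg2 j hj).2]
      refine h1.trans (le_of_eq ?_)
      rw [Finset.sum_add_distrib, Finset.sum_ite_eq']
      simp
    have hx : ∑ i, |xg g i| ≤ (k+1) * (|g (Fin.rev m)| + k) := by
      have h1 : ∑ i : Fin (k+1), |xg g i| ≤ ∑ _i : Fin (k+1), (|g (Fin.rev m)| + k) :=
        Finset.sum_le_sum fun i _ => (xg_abs g i).trans hsum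
      refine h1.trans (le_of_eq ?_)
      simp
      ring
    have h1 := hlow (xg g) (fun i hi => by
      have h2 := xg_gap g ⟨i, by omega⟩
      have h3 : (⟨i, by omega⟩ : Fin k).castSucc = (⟨i, by omega⟩ : Fin (k+1)) := rfl
      have h4 : (⟨i, by omega⟩ : Fin k).succ = (⟨i+1, by omega⟩ : Fin (k+1)) := rfl
      rw [h3, h4] at h2
      rw [h2]
      exact hgle _)
    unfold wR
    have h5 : c * Real.exp (-(K * ((k+1) * (|g (Fin.rev m)| + k)))) ≤ PhiR (k+1) a (xg g) := by
      refine le_trans ?_ h1
      refine mul_le_mul_of_nonneg_left (Real.exp_le_exp.2 ?_) hc.le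
      apply neg_le_neg
      exact mul_le_mul_of_nonneg_left hx hK
    have h6 : Real.exp (-(|A| * k) + K * (k+1) * |g (Fin.rev m)|) ≤
        Real.exp (∑ j, (if Fin.rev j = m then t else A) * g j) := by
      apply Real.exp_le_exp.2
      have h7 : ∑ j : Fin k, ((if j = Fin.rev m then K * (k+1) * |g (Fin.rev m)| else 0) - |A|) ≤
          ∑ j, (if Fin.rev j = m then t else A) * g j := by
        refine Finset.sum_le_sum fun j _ => ?_
        by_cases hj : j = Fin.rev m
        · have hj2 : Fin.rev j = m := by rw [hj, Fin.rev_rev]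
          rw [if_pos hj, if_pos hj2, hj, abs_of_nonpos hg1]
          have := abs_nonneg A
          nlinarith
        · have hj2 : Fin.rev j ≠ m := by
            intro h; apply hj; rw [← h, Fin.rev_rev]
          rw [if_neg hj, if_neg hj2]
          obtain ⟨h8, h9⟩ := hg2 j hj
          have h10 : |A * g j| ≤ |A| := by
            rw [abs_mul, abs_of_nonneg h8]
            exact mul_le_of_le_one_right (abs_nonneg _) h9
          have := neg_abs_le (A * g j)
          linarith
      refine le_trans (le_of_eq ?_) h7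
      rw [Finset.sum_sub_distrib, Finset.sum_ite_eq']
      simp
      ring
    calc c' = (c * Real.exp (-(K * ((k+1) * (|g (Fin.rev m)| + k))))) *
          Real.exp (-(|A| * k) + K * (k+1) * |g (Fin.rev m)|) := by
          rw [hc', mul_assoc, mul_assoc, ← Real.exp_add, ← Real.exp_add]
          congr 2; ring
      _ ≤ _ := mul_le_mul h5 h6 (Real.exp_pos _).le (PhiR_nonneg _ _ _)
  -- contradiction with integrability
  have hfin := ht.measure_ge_lt_top hc'0
  have hsub : Rg ⊆ {g | c' ≤ wR a (fun j => if j = m then t else A) g} := fun g hg => hlb g hg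
  have h3 := measure_mono (μ := volume) hsub
  rw [hvol] at h3
  exact absurd (lt_of_le_of_lt h3 hfin) (lt_irrefl _)

end Pool.Agent.MP2f3d29
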