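import Mathlib
import Pool.Agent.MP_2f3d29_nt.F4

set_option autoImplicit false

open MeasureTheory ProbabilityTheory Set Filter Topology
open scoped ENNReal

namespace Pool.Agent.MP2f3d29

variable {k : ℕ}

theorem eval_line_differentiable (m : Fin k) (β : Fin k → ℝ) (α : Fin (k+1) → ℂ) (R : Pl k) :
    Differentiable ℂ (fun z : ℂ => MvPolynomial.eval (Sum.elim (pt m β z) α) R) := by
  induction R using MvPolynomial.induction_on with
  | C a => simp
  | add p q hp hq =>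
    simp only [map_add]
    exact hp.add hq
  | mul_X p i hp =>
    simp only [map_mul, MvPolynomial.eval_X]
    refine hp.mul ?_
    cases i with
    | inl j =>
      simp only [Sum.elim_inl, pt]
      split_ifs <;> fun_prop
    | inr j => simp only [Sum.elim_inr]; fun_prop

theorem sh_pt (m : Fin k) (β : Fin k → ℝ) (c : Fin k → ℕ) (z : ℂ) (α : Fin (k+1) → ℂ) :
    sh c (Sum.elim (pt m β z) α) = Sum.elim (pt m (fun j => β j + c j) z) α := by
  funext i
  cases i with
  | inl j => simp only [sh, Sum.elim_inl, pt]; push_cast; ring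
  | inr j => simp [sh]

/-- the abscissa of convergence is a zero of the polynomial factor of every shift equation -/
theorem sing_root {a : ℕ → ℝ} {A : ℝ} (ha : ∑ i ∈ Finset.range (k+1), a i = 0)
    (haB : ∃ B, ∀ i, |a i| ≤ B) (hA : ∀ p : Fin k → ℝ, (∀ j, A ≤ p j) → CvR a p) (m : Fin k)
    {q : Pt k → ℂ} (hq : Differentiable ℂ (fun z => q (Sum.elim (pt m (bpt m A) z) (alr k a))))
    {r : ℕ} {P : Fin r → Pl k} {c : Fin r → Fin k → ℕ} (hc : ∀ i, 1 ≤ c i m)
    (hid : ∀ v : Pt k, ∑ i, v (Sum.inr i) = 0 → Cv v → (∀ i, Cv (sh (c i) v)) →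
      q v * FM k v = ∑ i, MvPolynomial.eval v (P i) * FM k (sh (c i) v)) :
    q (Sum.elim (pt m (bpt m A) ((sInf (Eset a m A) : ℝ) : ℂ)) (alr k a)) = 0 := by
  have hb := Eset_bdd a haB m A
  refine no_sing hA m hb (Q := fun z => q (Sum.elim (pt m (bpt m A) z) (alr k a))) hq
    (S := fun i z => MvPolynomial.eval (Sum.elim (pt m (bpt m A) z) (alr k a)) (P i))
    (fun i => eval_line_differentiable m _ _ _) hc fun z hz => ?_
  rw [mgf_eq]
  simp only [mgf_eq]
  have h0 : ∀ z : ℂ, ∀ β : Fin k → ℝ, (fun j => (pt m β z j).re) =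
      fun j => β j + if j = m then z.re else 0 := by
    intro z β
    funext j
    unfold pt
    by_cases hj : j = m <;> simp [hj]
  have h1 : Cv (Sum.elim (pt m (bpt m A) z) (alr k a)) := by
    rw [CvR_iff, h0, ← mem_expSet]
    exact Eset_Ioi hA m hb hz
  have h2 := hid (Sum.elim (pt m (bpt m A) z) (alr k a)) (by
    simp only [Sum.elim_inr, alr]
    rw [← Complex.ofReal_sum, ← Finset.sum_range (fun i => a i), ha, Complex.ofReal_zero]) h1
    (fun i => by
      rw [sh_pt, CvR_iff, h0, ← mem_expSet]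
      exact Eset_shift hA m hb (hc i) (by linarith))
  rw [h2]
  refine Finset.sum_congr rfl fun i _ => ?_
  rw [sh_pt]

/-- special real parameters -/
noncomputable def asp (k : ℕ) (i : ℕ) : ℝ :=
  if i < k + 1 then -(1 / (4 * (k + 1))) + (if i = 0 then 1 / 4 else 0) else 0

theorem asp_sum_J (J : Finset (Fin (k+1))) : ∑ j ∈ J, asp k j =
    -(J.card * (1 / (4 * (k + 1)))) + (if (0 : Fin (k+1)) ∈ J then 1 / 4 else 0) := by
  have h : ∀ j : Fin (k+1), asp k j = -(1 / (4 * (k + 1))) + (if j = 0 then 1 / 4 else 0) := by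
    intro j
    unfold asp
    rw [if_pos j.2]
    congr 1
    by_cases hj : j = 0
    · simp [hj]
    · rw [if_neg hj, if_neg]
      intro h; apply hj; ext; exact h
  simp only [h]
  rw [Finset.sum_add_distrib, Finset.sum_ite_eq']
  simp

theorem asp_sum (k : ℕ) : ∑ i ∈ Finset.range (k+1), asp k i = 0 := by
  rw [Finset.sum_range (fun i => asp k i)]
  have := asp_sum_J (k := k) Finset.univ
  rw [this]
  simp
  field_simp
  simp

theorem asp_bdd (k : ℕ) : ∃ B, ∀ i, |asp k i| ≤ B := by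
  refine ⟨1, fun i => ?_⟩
  have h1 : (0 : ℝ) < 1 / (4 * (k + 1)) := by positivity
  have h2 : (1 : ℝ) / (4 * (k + 1)) ≤ 1 / 4 := by
    rw [div_le_div_iff₀ (by positivity) (by positivity)]
    have : (0 : ℝ) ≤ k := Nat.cast_nonneg k
    linarith
  unfold asp
  rw [abs_le]
  split_ifs <;> constructor <;> linarith

/-- The shift equations with the opposite sign do not exist unless `n = 2m`. -/
theorem opposite_false (m : Fin k) (hne : 2 * ((m : ℕ) + 1) ≠ k + 1) (δ : ℕ) (hδ : 1 ≤ δ)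
    {r : ℕ} {P : Fin r → Pl k} {c : Fin r → Fin k → ℕ} (hc : ∀ i, δ ≤ c i m)
    (hid : ∀ v : Pt k, ∑ i, v (Sum.inr i) = 0 → Cv v → (∀ i, Cv (sh (c i) v)) →
      (∏ J ∈ Finset.powersetCard (m.1+1) (Finset.univ : Finset (Fin (k+1))),
          ∏ i ∈ Finset.range δ, (v (Sum.inl m) + ∑ j ∈ J, v (Sum.inr j) + i)) * FM k v =
        ∑ i, MvPolynomial.eval v (P i) * FM k (sh (c i) v)) : False := by
  obtain ⟨A, hA⟩ := CvR_far (k := k) (asp k) (asp_sum k)
  set σ : ℝ := sInf (Eset (asp k) m A) with hσ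
  have hpt : ∀ z : ℂ, pt m (bpt m A) z m = z := by
    intro z; simp [pt, bpt]
  obtain ⟨r1, -, P1, c1, hc1, -, hid1⟩ := givental_shift m 1
  have h1 := sing_root (asp_sum k) (asp_bdd k) hA m
    (q := fun v => (∏ J ∈ Finset.powersetCard (m.1+1) (Finset.univ : Finset (Fin (k+1))),
          ∏ i ∈ Finset.range 1, (v (Sum.inl m) - ∑ j ∈ J, v (Sum.inr j) + i)))
    (by
      simp only [Sum.elim_inl, Sum.elim_inr, hpt]
      fun_prop) hc1 hid1
  have h2 := sing_root (asp_sum k) (asp_bdd k) hA m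
    (q := fun v => (∏ J ∈ Finset.powersetCard (m.1+1) (Finset.univ : Finset (Fin (k+1))),
          ∏ i ∈ Finset.range δ, (v (Sum.inl m) + ∑ j ∈ J, v (Sum.inr j) + i)))
    (by
      simp only [Sum.elim_inl, Sum.elim_inr, hpt]
      fun_prop) (fun i => hδ.trans (hc i)) hid
  simp only [Sum.elim_inl, Sum.elim_inr, hpt] at h1 h2
  obtain ⟨J1, hJ1, h1⟩ := Finset.prod_eq_zero_iff.1 h1
  obtain ⟨i1, hi1, h1⟩ := Finset.prod_eq_zero_iff.1 h1
  obtain ⟨J2, hJ2, h2⟩ := Finset.prod_eq_zero_iff.1 h2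
  obtain ⟨i2, hi2, h2⟩ := Finset.prod_eq_zero_iff.1 h2
  have hi10 : i1 = 0 := by simpa using hi1
  subst hi10
  have hc1 : J1.card = m.1 + 1 := (Finset.mem_powersetCard.1 hJ1).2
  have hc2 : J2.card = m.1 + 1 := (Finset.mem_powersetCard.1 hJ2).2
  have e1 : σ - ∑ j ∈ J1, asp k j = 0 := by
    have : ((σ - ∑ j ∈ J1, asp k j : ℝ) : ℂ) = 0 := by
      rw [← h1]; push_cast; simp [alr]; exact hσ
    exact_mod_cast this
  have e2 : σ + ∑ j ∈ J2, asp k j + i2 = 0 := by
    have : ((σ + ∑ j ∈ J2, asp k j + i2 : ℝ) : ℂ) = 0 := by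
      rw [← h2]; push_cast; simp [alr]; exact hσ
    exact_mod_cast this
  rw [asp_sum_J, hc1] at e1
  rw [asp_sum_J, hc2] at e2
  have hm := m.2
  have hk0 : (0 : ℝ) < (k : ℝ) + 1 := by positivity
  -- multiply out
  set e : ℕ := (if (0 : Fin (k+1)) ∈ J1 then 1 else 0) + (if (0 : Fin (k+1)) ∈ J2 then 1 else 0) with he
  have hsum : ((k : ℝ) + 1) * e - 2 * (((m.1 + 1 : ℕ)) : ℝ) + 4 * ((k : ℝ) + 1) * i2 = 0 := by
    have h3 : (if (0 : Fin (k+1)) ∈ J1 then (1 / 4 : ℝ) else 0) +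
        (if (0 : Fin (k+1)) ∈ J2 then (1 / 4 : ℝ) else 0) = e / 4 := by
      rw [he]
      push_cast
      split_ifs <;> norm_num
    have h4 : (e : ℝ) / 4 - 2 * (((m.1 + 1 : ℕ)) : ℝ) * (1 / (4 * ((k : ℝ) + 1))) + i2 = 0 := by
      linarith
    field_simp at h4
    linarith
  have hnat : (k + 1) * e + 4 * (k + 1) * i2 = 2 * (m.1 + 1) := by
    have : (((k + 1) * e + 4 * (k + 1) * i2 : ℕ) : ℝ) = ((2 * (m.1 + 1) : ℕ) : ℝ) := by
      push_cast at hsum ⊢
      linarith
    exact_mod_cast this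
  have hi20 : i2 = 0 := by
    by_contra h
    have : 1 ≤ i2 := Nat.one_le_iff_ne_zero.2 h
    have h5 : 4 * (k + 1) * 1 ≤ 4 * (k + 1) * i2 := Nat.mul_le_mul_left _ this
    omega
  subst hi20
  have hele : e ≤ 2 := by
    rw [he]; split_ifs <;> omega
  interval_cases e
  · omega
  · omega
  · omega

end Pool.Agent.MP2f3d29
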